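import Mathlib

/-! Periodic fields, classical solutions of the Euler equations with an additional linear term,
Fourier coefficients and Sobolev norms. -/

namespace Pool.Agent.H306.CK

open Set MeasureTheory

open scoped ContDiff

/-- `ℝ³`. -/
abbrev V : Type := Fin 3 → ℝ

/-- `2π`-periodic in each variable. -/
def Periodic3 {F : Type} (f : V → F) : Prop :=
  ∀ (i : Fin 3) (x : V), f (x + Pi.single i (2 * Real.pi)) = f x

/-- The period cell `[-π, π]³`. -/
def torus : Set V := Icc (fun _ => -Real.pi) (fun _ => Real.pi)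

/-- The partial derivative `∂_j f`. -/
noncomputable def pd (j : Fin 3) (f : V → ℝ) (x : V) : ℝ := fderiv ℝ f x (Pi.single j 1)

/-- The curl. -/
noncomputable def curl (v : V → V) (x : V) : V :=
  ![pd 1 (fun y => v y 2) x - pd 2 (fun y => v y 1) x,
    pd 2 (fun y => v y 0) x - pd 0 (fun y => v y 2) x,
    pd 0 (fun y => v y 1) x - pd 1 (fun y => v y 0) x]

/-- The inner product of `L²(𝕋³)`. -/
noncomputable def inner3 (v w : V → V) : ℝ := ∫ x in torus, ∑ i, v x i * w x i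

/-- Continuous periodic vector fields. -/
def CP (v : V → V) : Prop := Continuous v ∧ Periodic3 v

/-- Smooth periodic divergence-free fields with components bounded by `1`. -/
def Unit3 (a : V → V) : Prop :=
  ContDiff ℝ ∞ a ∧ Periodic3 a ∧ (∀ x, ∑ i, pd i (fun y => a y i) x = 0) ∧ ∀ x i, |a x i| ≤ 1

/-- `(u, p)` is a classical solution of `∂_t u + (u · ∇) u + ∇ p = K u`, `div u = 0` on the time
interval `I`. -/
structure IsSol (K : (V → V) → V → V) (I : Set ℝ) (u : ℝ → V → V) (p : ℝ → V → ℝ) : Prop where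
  c1_u : ContDiffOn ℝ 1 (fun z : ℝ × V => u z.1 z.2) (I ×ˢ univ)
  c1_p : ContDiffOn ℝ 1 (fun z : ℝ × V => p z.1 z.2) (I ×ˢ univ)
  per_u : ∀ t ∈ I, Periodic3 (u t)
  per_p : ∀ t ∈ I, Periodic3 (p t)
  div_free : ∀ t ∈ I, ∀ x, ∑ i, pd i (fun y => u t y i) x = 0
  momentum : ∀ t ∈ I, ∀ x i, derivWithin (fun s => u s x i) I t +
    ∑ j, u t x j * pd j (fun y => u t y i) x + pd i (p t) x = K (u t) x i

/-- The Fourier coefficient `∫ f(x) e^{-i k·x} dx`. -/
noncomputable def fc (f : V → ℝ) (k : Fin 3 → ℤ) : ℂ :=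
  ∫ x in torus, (f x : ℂ) * Complex.exp (-(Complex.I * ((∑ j, (k j : ℝ) * x j : ℝ) : ℂ)))

/-- The square of the norm of `H^s(𝕋³)`. -/
noncomputable def hs (s : ℝ) (v : V → V) : ENNReal :=
  ∑' k : Fin 3 → ℤ, ENNReal.ofReal ((1 + ∑ j, (k j : ℝ) ^ 2) ^ s *
    ∑ i, ‖fc (fun x => v x i) k‖ ^ 2)

end Pool.Agent.H306.CK
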