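import Pool.Agent.H306.CK.Prof
import Pool.Agent.H306.CK.Defs

/-! Bounds of derivatives. -/

namespace Pool.Agent.H306.CK

open Set MeasureTheory

open scoped Real ContDiff Nat

/-- The derivatives of `f` of order `n ≤ N` are bounded by `β ^ n`. -/
def Bd {E : Type} [NormedAddCommGroup E] [NormedSpace ℝ E] (N : ℕ) (β : ℝ) (f : E → ℝ) : Prop :=
  ContDiff ℝ ∞ f ∧ ∀ n ≤ N, ∀ x, ‖iteratedFDeriv ℝ n f x‖ ≤ β ^ n

section

variable {E : Type} [NormedAddCommGroup E] [NormedSpace ℝ E] {N : ℕ} {β γ : ℝ} {f g : E → ℝ}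

theorem Bd.mono (h : Bd N β f) (h0 : 0 ≤ β) (hβ : β ≤ γ) : Bd N γ f :=
  ⟨h.1, fun n hn x => (h.2 n hn x).trans (pow_le_pow_left₀ h0 hβ n)⟩

theorem Bd.mul (hf : Bd N β f) (hg : Bd N γ g) :
    Bd N (β + γ) (fun x => f x * g x) := by
  refine ⟨hf.1.mul hg.1, fun n hn x => ?_⟩
  refine (norm_iteratedFDeriv_mul_le hf.1 hg.1 x (n := n) (by exact_mod_cast le_top)).trans ?_
  rw [add_pow]
  refine Finset.sum_le_sum fun i hi => ?_
  rw [Finset.mem_range] at hi
  have h1 := hf.2 i (by omega) x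
  have h2 := hg.2 (n - i) (by omega) x
  calc (n.choose i : ℝ) * ‖iteratedFDeriv ℝ i f x‖ * ‖iteratedFDeriv ℝ (n - i) g x‖ ≤
        (n.choose i : ℝ) * β ^ i * γ ^ (n - i) := by
        have h0 : 0 ≤ β ^ i := (norm_nonneg _).trans h1
        gcongr
    _ = _ := by ring

theorem Bd.pow (hf : Bd N β f) (j : ℕ) : Bd N (j * β) (fun x => f x ^ j) := by
  induction j with
  | zero =>
    refine ⟨by simpa using contDiff_const, fun n hn x => ?_⟩
    simp only [pow_zero, Nat.cast_zero, zero_mul]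
    rcases Nat.eq_zero_or_pos n with h | h
    · subst h
      simp
    · rw [iteratedFDeriv_const_of_ne (by omega : n ≠ 0)]
      simp [zero_pow (by omega : n ≠ 0)]
  | succ j ih =>
    have h := ih.mul hf
    have h1 : (fun x => f x ^ (j + 1)) = fun x => f x ^ j * f x := by
      ext x; exact pow_succ _ _
    rw [h1]
    have h2 : ((j + 1 : ℕ) : ℝ) * β = j * β + β := by push_cast; ring
    rw [h2]
    exact h

theorem Bd.comp {g : ℝ → ℝ} {F : E → ℝ} {C D : ℝ} (hg : ContDiff ℝ ∞ g) (hF : ContDiff ℝ ∞ F)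
    (hg1 : ∀ y, |g y| ≤ 1) (hC : 1 ≤ C) (hD0 : 0 ≤ D)
    (hgC : ∀ n ≤ N, ∀ y, ‖iteratedFDeriv ℝ n g y‖ ≤ C)
    (hFD : ∀ n, 1 ≤ n → n ≤ N → ∀ x, ‖iteratedFDeriv ℝ n F x‖ ≤ D ^ n) :
    Bd N (N ! * C * D) (fun x => g (F x)) := by
  refine ⟨hg.comp hF, fun n hn x => ?_⟩
  rcases Nat.eq_zero_or_pos n with h | h
  · subst h
    simp only [norm_iteratedFDeriv_zero, pow_zero]
    exact hg1 _
  · have h1 := norm_iteratedFDeriv_comp_le hg hF (n := n) (by exact_mod_cast le_top) x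
      (C := C) (D := D) (fun i hi => hgC i (by omega) _) (fun i hi hi' => hFD i hi (by omega) x)
    refine h1.trans ?_
    rw [mul_pow]
    gcongr
    have h2 : (n ! : ℝ) ≤ N ! := by exact_mod_cast Nat.factorial_le hn
    have h3 : (1 : ℝ) ≤ N ! := by exact_mod_cast Nat.one_le_iff_ne_zero.2 (Nat.factorial_ne_zero N)
    have h4 : (1 : ℝ) ≤ N ! * C := by nlinarith
    calc (n ! : ℝ) * C ≤ N ! * C := by gcongr
      _ = (N ! * C) ^ 1 := (pow_one _).symm
      _ ≤ _ := pow_le_pow_right₀ h4 h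

end

/-- Composition with a linear function of small norm. -/
theorem norm_comp_lin {E : Type} [NormedAddCommGroup E] [NormedSpace ℝ E] {g : ℝ → ℝ}
    (hg : ContDiff ℝ ∞ g) (hg1 : ∀ n y, |iteratedDeriv n g y| ≤ 1) (L : E →L[ℝ] ℝ) (n : ℕ) (x : E) :
    ‖iteratedFDeriv ℝ n (fun x => g (L x)) x‖ ≤ ‖L‖ ^ n := by
  have h1 := L.iteratedFDeriv_comp_right hg x (i := n) (by exact_mod_cast le_top)
  have h2 : (fun x => g (L x)) = g ∘ L := rfl
  rw [h2, h1]
  refine (ContinuousMultilinearMap.norm_compContinuousLinearMap_le _ _).trans ?_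
  rw [Finset.prod_const, Finset.card_univ, Fintype.card_fin]
  calc ‖iteratedFDeriv ℝ n g (L x)‖ * ‖L‖ ^ n ≤ 1 * ‖L‖ ^ n := by
        gcongr
        rw [norm_iteratedFDeriv_eq_norm_iteratedDeriv]
        exact hg1 n _
    _ = _ := one_mul _

/-- `x ↦ k x_j` as a linear function. -/
noncomputable def linK (k : ℝ) (j : Fin 3) : V →L[ℝ] ℝ := k • ContinuousLinearMap.proj j

@[simp] theorem linK_apply (k : ℝ) (j : Fin 3) (x : V) : linK k j x = k * x j := rfl

theorem linK_norm {k : ℝ} (hk : 0 ≤ k) (j : Fin 3) : ‖linK k j‖ ≤ k := by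
  refine ContinuousLinearMap.opNorm_le_bound _ hk fun x => ?_
  rw [linK_apply, norm_mul, Real.norm_eq_abs, abs_of_nonneg hk]
  gcongr
  exact norm_le_pi_norm x j

theorem Bd_cos (N : ℕ) {k : ℝ} (hk : 0 ≤ k) (j : Fin 3) :
    Bd N k (fun x : V => Real.cos (k * x j)) := by
  refine ⟨Real.contDiff_cos.comp (linK k j).contDiff, fun n _ x => ?_⟩
  refine (norm_comp_lin Real.contDiff_cos Real.abs_iteratedDeriv_cos_le_one (linK k j) n x).trans ?_
  exact pow_le_pow_left₀ (norm_nonneg _) (linK_norm hk j) n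

theorem Bd_sin (N : ℕ) {k : ℝ} (hk : 0 ≤ k) (j : Fin 3) :
    Bd N k (fun x : V => Real.sin (k * x j)) := by
  refine ⟨Real.contDiff_sin.comp (linK k j).contDiff, fun n _ x => ?_⟩
  refine (norm_comp_lin Real.contDiff_sin Real.abs_iteratedDeriv_sin_le_one (linK k j) n x).trans ?_
  exact pow_le_pow_left₀ (norm_nonneg _) (linK_norm hk j) n

/-- The derivatives of a bump are bounded. -/
theorem bump_bound (b : ContDiffBump (3 / 4 : ℝ)) (N : ℕ) :
    ∃ C : ℝ, 1 ≤ C ∧ ∀ n ≤ N, ∀ y, ‖iteratedFDeriv ℝ n b y‖ ≤ C := by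
  have h : ∀ n : ℕ, ∃ C : ℝ, ∀ y, ‖iteratedFDeriv ℝ n b y‖ ≤ C := by
    intro n
    have hc : Continuous (iteratedFDeriv ℝ n b) :=
      (b.contDiff (n := n)).continuous_iteratedFDeriv le_rfl
    have hs : HasCompactSupport (iteratedFDeriv ℝ n b) := b.hasCompactSupport.iteratedFDeriv n
    obtain ⟨C, hC⟩ := hs.exists_bound_of_continuous hc
    exact ⟨C, hC⟩
  choose C hC using h
  refine ⟨1 + ∑ i ∈ Finset.range (N + 1), |C i|, ?_, fun n hn y => ?_⟩
  · have : 0 ≤ ∑ i ∈ Finset.range (N + 1), |C i| := Finset.sum_nonneg fun i _ => abs_nonneg _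
    linarith
  · have h1 := hC n y
    have h2 : |C n| ≤ ∑ i ∈ Finset.range (N + 1), |C i| :=
      Finset.single_le_sum (f := fun i => |C i|) (fun i _ => abs_nonneg _)
        (Finset.mem_range.2 (by omega))
    linarith [le_abs_self (C n)]

/-- Bounds for `b (2 ^ m sin (L x))`. -/
theorem Bd_bump {E : Type} [NormedAddCommGroup E] [NormedSpace ℝ E] (b : ContDiffBump (3 / 4 : ℝ))
    (N : ℕ) : ∃ C : ℝ, 1 ≤ C ∧ ∀ (m : ℕ) (L : E →L[ℝ] ℝ), ‖L‖ ≤ 1 →
      Bd N (C * 2 ^ m) (fun x : E => b (2 ^ m * Real.sin (L x))) := by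
  obtain ⟨C, hC1, hC⟩ := bump_bound b N
  have h3 : (1 : ℝ) ≤ N ! := by exact_mod_cast Nat.one_le_iff_ne_zero.2 (Nat.factorial_ne_zero N)
  refine ⟨N ! * C, by nlinarith, fun m L hL => ?_⟩
  have hF : ContDiff ℝ ∞ (fun x : E => Real.sin (L x)) := Real.contDiff_sin.comp L.contDiff
  refine Bd.comp b.contDiff (contDiff_const.mul hF) (fun y => ?_) hC1
    (by positivity) hC (fun n hn hn' x => ?_)
  · rw [abs_of_nonneg b.nonneg]
    exact b.le_one
  · have h1 : (fun x : E => (2 : ℝ) ^ m * Real.sin (L x)) =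
        (2 : ℝ) ^ m • (fun x : E => Real.sin (L x)) := by
      ext x; simp
    rw [h1, iteratedFDeriv_const_smul_apply (hF.of_le (by exact_mod_cast le_top)).contDiffAt,
      norm_smul, Real.norm_eq_abs, abs_of_pos (by positivity)]
    have h2 := norm_comp_lin Real.contDiff_sin Real.abs_iteratedDeriv_sin_le_one L n x
    have h4 : ‖L‖ ^ n ≤ 1 := pow_le_one₀ (norm_nonneg _) hL
    have h5 : (1 : ℝ) ≤ 2 ^ m := one_le_pow₀ (by norm_num)
    calc (2 : ℝ) ^ m * ‖iteratedFDeriv ℝ n (fun x => Real.sin (L x)) x‖ ≤ 2 ^ m * 1 := by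
          gcongr
          exact h2.trans h4
      _ = (2 ^ m) ^ 1 := by ring
      _ ≤ _ := pow_le_pow_right₀ h5 hn

end Pool.Agent.H306.CK
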