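import Pool.Agent.H306.CK.Cmp

/-! The chain of instabilities: abstract bootstrap argument. -/

namespace Pool.Agent.H306.CK

open Set

/-- The numerical parameters of the chain. -/
structure Par where
  k : ℕ → ℝ
  c : ℕ → ℝ
  θ : ℕ → ℝ
  ε : ℕ → ℝ
  ρ : ℕ → ℝ
  τ : ℕ → ℝ
  tt : ℝ
  G : ℝ
  r₁ : ℝ
  r₂ : ℝ
  r₃ : ℝ

namespace Par

variable (P : Par)

noncomputable def a (m : ℕ) : ℝ := P.c m * (2 + P.G)

noncomputable def e (m : ℕ) : ℝ := P.c m / 2 * (P.a m + 2 * P.ρ m)

noncomputable def η : ℝ := 1 / (100 * (1 + P.G))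

noncomputable def h (m : ℕ) : ℝ := P.k m * P.θ (m + 1)

/-- The conditions on the parameters. -/
structure Good : Prop where
  k_one : ∀ m, 1 ≤ P.k m
  c_pos : ∀ m, 0 < P.c m
  c_le : ∀ m, P.c m ≤ 1
  θ_pos : ∀ m, 0 < P.θ m
  ε_pos : ∀ m, 0 < P.ε m
  ρ_one : ∀ m, 1 ≤ P.ρ m
  τ_nonneg : ∀ m, 0 ≤ P.τ m
  G_nonneg : 0 ≤ P.G
  r₁_abs : |P.r₁| ≤ 1
  r₂_abs : |P.r₂| ≤ 1
  r₃_abs : |P.r₃| ≤ 1
  rho_sq : ∀ m, P.ρ m ^ 2 = P.c m * P.k m * P.θ m
  small₁ : ∀ m, P.a m + 2 * P.e m ≤ 1 / 50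
  small₂ : ∀ m, P.c m * P.h m ≤ 1 / 100
  small₃ : ∀ m, P.h m * (P.h m + P.a m + 2 * P.ρ m) ≤ P.η / 60
  τ_sum : ∀ m n, ∑ i ∈ Finset.range n, P.τ (m + 1 + i) ≤ 1 / (2 * P.ρ m)
  tt_lt : P.tt < 1
  τ_tot : ∀ n, ∑ i ∈ Finset.range n, P.τ i ≤ P.tt
  exp_τ : ∀ m, 5 * P.θ (m + 1) ≤ P.ε m * Real.exp (2 / 5 * P.ρ m * P.τ m)
  ε_dec : ∀ m, P.ε (m + 1) ≤ P.ε m / 5
  ε_lt : ∀ m, P.ε m < P.θ (m + 1)
  θ_dec : ∀ m, P.θ (m + 1) ≤ P.θ m / 5
  ε_θ : ∀ R : ℝ, ∃ m₀ : ℕ, ∀ m, m₀ ≤ m → R * P.ε m < P.θ (m + 1)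

end Par

/-- The forcing amplitude of the stage `m`. -/
def Bf (P : Par) (b : ℕ → ℝ → ℝ) : ℕ → ℝ → ℝ
  | 0, _ => P.θ 0
  | m + 1, t => b m t

/-- The system of equations of the chain. -/
structure Chain (P : Par) (T : ℝ) (b W V : ℕ → ℝ → ℝ) (D : ℕ → ℕ → ℝ → ℝ) : Prop where
  db : ∀ m t, 0 ≤ t → t < T → HasDerivAt (b m) (W m t + P.r₂ * P.c m * V m t) t
  dD0 : ∀ m t, 0 ≤ t → t < T → HasDerivAt (D m 0)
    (P.k m * b m t * Bf P b m t + P.r₁ * P.c m * V m t + P.r₃ * W m t) t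
  dD : ∀ m i t, 0 ≤ t → t < T → HasDerivAt (D m (i + 1))
    ((-1) ^ (i + 1) * P.k m * b m t * D m i t) t
  dW : ∀ m t, 0 ≤ t → t < T → ∃ R, HasDerivAt (W m) (P.c m / 2 *
    (P.k m * b m t * Bf P b m t + P.r₁ * P.c m * V m t + P.r₃ * W m t + P.k m * b m t * R)) t ∧
    ∀ N, (∀ i, 4 ^ (2 * i + 1) * |D m (2 * i + 1) t| ≤ N) → |R| ≤ N / 3
  V_est : ∀ m t, 0 ≤ t → t < T → ∃ g, 0 ≤ g ∧ g ≤ P.G ∧
    ∀ N, (∀ i, 4 ^ (2 * i + 1) * |D (m + 1) (2 * i + 1) t| ≤ N) →
      |V m t - (1 + g) * b m t| ≤ P.G * N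
  b0 : ∀ m, b m 0 = P.ε m
  W0 : ∀ m, W m 0 = 0
  D0 : ∀ m i, D m i 0 = 0
  cont : ∀ t, 0 ≤ t → t < T → ∀ η, 0 < η → ∃ δ, 0 < δ ∧ ∀ s, 0 ≤ s → s < T → |s - t| < δ →
    ∀ m, |b m s - b m t| ≤ η * P.ε m ∧ |W m s - W m t| ≤ η * P.ε m ∧
      ∀ i, 4 ^ i * |D m i s - D m i t| ≤ η * P.ε m
  bdd : ∀ t, 0 ≤ t → t < T → ∃ R, ∀ m, |b m t| ≤ R * P.ε m

/-- The bootstrap property at the time `s`. -/
def Pt (P : Par) (b W : ℕ → ℝ → ℝ) (D : ℕ → ℕ → ℝ → ℝ) (s : ℝ) : Prop :=
  ∀ m, (∀ s', 0 ≤ s' → s' ≤ s → 9 / 10 * b m s' ≤ b m s) ∧ b m s ≤ Bf P b m s ∧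
    (∀ i, 4 ^ (2 * i + 1) * |D m (2 * i + 1) s| ≤ P.η * Bf P b m s) ∧
    b m s ≤ 2 * P.θ (m + 1) ∧ |W m s| ≤ 2 * P.ρ m * b m s

section

variable {P : Par} (hG : P.Good) {T : ℝ} {b W V : ℕ → ℝ → ℝ} {D : ℕ → ℕ → ℝ → ℝ}
  (hC : Chain P T b W V D) {t : ℝ} (ht0 : 0 ≤ t) (htT : t < T)
  (hp : ∀ s, 0 ≤ s → s ≤ t → Pt P b W D s)

include hG

theorem η_pos : 0 < P.η := by
  have := hG.G_nonneg
  unfold Par.η
  positivity

theorem η_le : P.η ≤ 1 / 100 := by
  have := hG.G_nonneg
  unfold Par.η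
  apply one_div_le_one_div_of_le <;> linarith

theorem a_nonneg (m : ℕ) : 0 ≤ P.a m := by
  have := hG.G_nonneg
  have := (hG.c_pos m).le
  unfold Par.a
  positivity

theorem e_nonneg (m : ℕ) : 0 ≤ P.e m := by
  have := a_nonneg hG m
  have := (hG.c_pos m).le
  have := hG.ρ_one m
  unfold Par.e
  positivity

theorem h_pos (m : ℕ) : 0 < P.h m := by
  have := hG.k_one m
  have := hG.θ_pos (m + 1)
  unfold Par.h
  positivity

omit hG in
include hp in
theorem bmon (m : ℕ) {s' s : ℝ} (h0 : 0 ≤ s') (h1 : s' ≤ s) (h2 : s ≤ t) :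
    9 / 10 * b m s' ≤ b m s := (hp s (h0.trans h1) h2 m).1 s' h0 h1

include hC hp in
theorem bpos (m : ℕ) {s : ℝ} (h0 : 0 ≤ s) (h1 : s ≤ t) : 0 < b m s := by
  have := bmon hp m le_rfl h0 h1
  rw [hC.b0] at this
  have := hG.ε_pos m
  linarith

include hC hp in
theorem Bpos (m : ℕ) {s : ℝ} (h0 : 0 ≤ s) (h1 : s ≤ t) : 0 < Bf P b m s := by
  cases m with
  | zero => exact hG.θ_pos 0
  | succ n => exact bpos hG hC hp n h0 h1

include hp in
theorem Bmon (m : ℕ) {s' s : ℝ} (h0 : 0 ≤ s') (h1 : s' ≤ s) (h2 : s ≤ t) :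
    9 / 10 * Bf P b m s' ≤ Bf P b m s := by
  cases m with
  | zero =>
    have := hG.θ_pos 0
    simp only [Bf]
    linarith
  | succ n => exact bmon hp n h0 h1 h2

include hp in
theorem Bup (m : ℕ) {s : ℝ} (h0 : 0 ≤ s) (h1 : s ≤ t) : Bf P b m s ≤ 2 * P.θ m := by
  cases m with
  | zero =>
    have := hG.θ_pos 0
    simp only [Bf]
    linarith
  | succ n => exact (hp s h0 h1 n).2.2.2.1

include hC hp htT in
theorem Vb (m : ℕ) {s : ℝ} (h0 : 0 ≤ s) (h1 : s ≤ t) : |V m s| ≤ (2 + P.G) * b m s := by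
  obtain ⟨g, hg0, hg1, hg⟩ := hC.V_est m s h0 (h1.trans_lt htT)
  have h2 := hg _ (hp s h0 h1 (m + 1)).2.2.1
  simp only [Bf] at h2
  have hb := bpos hG hC hp m h0 h1
  have hGn := hG.G_nonneg
  have h3 : P.G * (P.η * b m s) ≤ 1 / 100 * b m s := by
    have : P.G * P.η ≤ 1 / 100 := by
      unfold Par.η
      rw [mul_one_div, div_le_div_iff₀ (by positivity) (by norm_num)]
      nlinarith
    nlinarith
  have h4 : |V m s| ≤ |V m s - (1 + g) * b m s| + |(1 + g) * b m s| := by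
    have := abs_add_le (V m s - (1 + g) * b m s) ((1 + g) * b m s)
    simpa using this
  have h5 : |(1 + g) * b m s| = (1 + g) * b m s := abs_of_pos (by positivity)
  have h6 : (1 + g) * b m s ≤ (1 + P.G) * b m s := by
    apply mul_le_mul_of_nonneg_right (by linarith) hb.le
  nlinarith

include hC hp htT in
theorem db' (m : ℕ) {s : ℝ} (h0 : 0 ≤ s) (h1 : s ≤ t) :
    ∃ b', HasDerivAt (b m) b' s ∧ W m s - P.a m * b m s ≤ b' ∧ b' ≤ W m s + P.a m * b m s := by
  refine ⟨_, hC.db m s h0 (h1.trans_lt htT), ?_⟩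
  have h2 := Vb hG hC htT hp m h0 h1
  have hc := hG.c_pos m
  have h3 : |P.r₂ * P.c m * V m s| ≤ P.a m * b m s := by
    rw [abs_mul, abs_mul, abs_of_pos hc]
    calc |P.r₂| * P.c m * |V m s| ≤ 1 * P.c m * ((2 + P.G) * b m s) := by
          gcongr
          exact hG.r₂_abs
      _ = P.a m * b m s := by unfold Par.a; ring
  have := abs_le.1 h3
  constructor <;> linarith

include hC hp htT in
theorem dW' (m : ℕ) {s : ℝ} (h0 : 0 ≤ s) (h1 : s ≤ t) :
    ∃ W', HasDerivAt (W m) W' s ∧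
      (99 / 200 * (P.c m * P.k m * Bf P b m s) - P.e m) * b m s ≤ W' ∧
      W' ≤ (101 / 200 * (P.c m * P.k m * Bf P b m s) + P.e m) * b m s := by
  obtain ⟨R, hR, hR'⟩ := hC.dW m s h0 (h1.trans_lt htT)
  refine ⟨_, hR, ?_⟩
  have h2 := Vb hG hC htT hp m h0 h1
  have hc := hG.c_pos m
  have hk := hG.k_one m
  have hB := Bpos hG hC hp m h0 h1
  have hb := bpos hG hC hp m h0 h1
  have hRR := hR' _ (hp s h0 h1 m).2.2.1
  have hη := η_le hG
  have h3 : |R| ≤ 1 / 100 * Bf P b m s := by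
    refine hRR.trans ?_
    nlinarith
  have h4 : |P.r₁ * P.c m * V m s| ≤ P.a m * b m s := by
    rw [abs_mul, abs_mul, abs_of_pos hc]
    calc |P.r₁| * P.c m * |V m s| ≤ 1 * P.c m * ((2 + P.G) * b m s) := by
          gcongr
          exact hG.r₁_abs
      _ = P.a m * b m s := by unfold Par.a; ring
  have h5 : |P.r₃ * W m s| ≤ 2 * P.ρ m * b m s := by
    rw [abs_mul]
    calc |P.r₃| * |W m s| ≤ 1 * (2 * P.ρ m * b m s) := by
          gcongr
          · exact hG.r₃_abs
          · exact (hp s h0 h1 m).2.2.2.2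
      _ = 2 * P.ρ m * b m s := by ring
  have h6 : |P.k m * b m s * R| ≤ 1 / 100 * (P.k m * Bf P b m s) * b m s := by
    rw [abs_mul, abs_of_pos (by positivity)]
    calc P.k m * b m s * |R| ≤ P.k m * b m s * (1 / 100 * Bf P b m s) := by gcongr
      _ = _ := by ring
  set X := P.k m * b m s * Bf P b m s + P.r₁ * P.c m * V m s + P.r₃ * W m s + P.k m * b m s * R
    with hX
  have h7 := abs_le.1 h4
  have h8 := abs_le.1 h5
  have h9 := abs_le.1 h6
  have hX1 : X ≤ 101 / 100 * (P.k m * Bf P b m s) * b m s + (P.a m + 2 * P.ρ m) * b m s := by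
    rw [hX]; nlinarith
  have hX2 : 99 / 100 * (P.k m * Bf P b m s) * b m s - (P.a m + 2 * P.ρ m) * b m s ≤ X := by
    rw [hX]; nlinarith
  have hc2 : 0 ≤ P.c m / 2 := by linarith
  have h10 := mul_le_mul_of_nonneg_left hX1 hc2
  have h11 := mul_le_mul_of_nonneg_left hX2 hc2
  unfold Par.e
  constructor
  · refine le_trans (le_of_eq ?_) h11
    ring
  · refine h10.trans (le_of_eq ?_)
    ring

include hC hp htT in
theorem Wlow (ht1 : t ≤ 1) (m : ℕ) {s : ℝ} (h0 : 0 ≤ s) (h1 : s ≤ t) :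
    -(12 / 10 * P.e m) * b m s ≤ W m s := by
  have he := e_nonneg hG m
  have hb := bpos hG hC hp m h0 h1
  have h := deriv_ge_const (f := W m) (c := -(P.e m * (10 / 9 * b m s))) h0 (fun x hx => by
    obtain ⟨W', h2, h3, -⟩ := dW' hG hC htT hp m hx.1 (hx.2.trans h1)
    refine ⟨W', h2, le_trans ?_ h3⟩
    have h4 := bmon hp m hx.1 hx.2 h1
    have h5 := bpos hG hC hp m hx.1 (hx.2.trans h1)
    have h6 := Bpos hG hC hp m hx.1 (hx.2.trans h1)
    have hc := hG.c_pos m
    have hk := hG.k_one m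
    have h7 : 0 ≤ 99 / 200 * (P.c m * P.k m * Bf P b m x) * b m x := by positivity
    have h8 : P.e m * b m x ≤ P.e m * (10 / 9 * b m s) := by
      apply mul_le_mul_of_nonneg_left _ he
      linarith
    nlinarith)
  rw [hC.W0, sub_zero, sub_zero] at h
  have h2 : P.e m * (10 / 9 * b m s) * s ≤ P.e m * (10 / 9 * b m s) * 1 := by
    apply mul_le_mul_of_nonneg_left (by linarith) (by positivity)
  nlinarith [mul_nonneg he hb.le]

include hC hp htT in
theorem bimp (ht1 : t ≤ 1) (m : ℕ) {s : ℝ} (h0 : 0 ≤ s) (h1 : s ≤ t) :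
    95 / 100 * b m s ≤ b m t := by
  have he := e_nonneg hG m
  have ha := a_nonneg hG m
  have hs := hG.small₁ m
  have h := gron_lower (f := b m) (c := -(1 / 20)) h1 (fun x hx => by
    have hx0 := h0.trans hx.1
    obtain ⟨b', h2, h3, -⟩ := db' hG hC htT hp m hx0 hx.2
    refine ⟨b', h2, le_trans ?_ h3⟩
    have h4 := Wlow hG hC htT hp ht1 m hx0 hx.2
    have h5 := bpos hG hC hp m hx0 hx.2
    have h6 : (P.a m + 12 / 10 * P.e m) * b m x ≤ 1 / 20 * b m x := by
      apply mul_le_mul_of_nonneg_right _ h5.le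
      linarith
    nlinarith)
  have hb := bpos hG hC hp m h0 h1
  have h2 : (95 / 100 : ℝ) ≤ Real.exp (-(1 / 20) * (t - s)) := by
    have := Real.add_one_le_exp (-(1 / 20) * (t - s))
    linarith
  have h3 := mul_le_mul_of_nonneg_left h2 hb.le
  linarith

include hC hp htT in
theorem Wup (ht1 : t ≤ 1) (m : ℕ) {s : ℝ} (h0 : 0 ≤ s) (h1 : s ≤ t) :
    W m s ≤ 12 / 10 * P.ρ m * b m s := by
  have he := e_nonneg hG m
  have ha := a_nonneg hG m
  have hs := hG.small₁ m
  have hρ := hG.ρ_one m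
  refine upper (t₀ := 0) (α := P.a m) (K := 12 / 10 * P.ρ m)
    (K₀ := 101 / 100 * P.ρ m ^ 2 + P.e m) h0 (by positivity)
    (fun x hx => (bpos hG hC hp m hx.1 (hx.2.trans h1)).le) (fun x hx => ?_) (fun x hx => ?_) ?_ ?_
  · obtain ⟨b', h2, h3, -⟩ := db' hG hC htT hp m hx.1 (hx.2.trans h1)
    exact ⟨b', h2, h3⟩
  · obtain ⟨W', h2, -, h3⟩ := dW' hG hC htT hp m hx.1 (hx.2.trans h1)
    refine ⟨W', h2, h3.trans ?_⟩
    have h5 := bpos hG hC hp m hx.1 (hx.2.trans h1)
    have h6 := Bup hG hp m hx.1 (hx.2.trans h1)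
    have hc := hG.c_pos m
    have hk := hG.k_one m
    apply mul_le_mul_of_nonneg_right _ h5.le
    have h7 : P.c m * P.k m * Bf P b m x ≤ P.c m * P.k m * (2 * P.θ m) :=
      mul_le_mul_of_nonneg_left h6 (by positivity)
    rw [hG.rho_sq m]
    linarith
  · nlinarith
  · rw [hC.W0, hC.b0]
    have := hG.ε_pos m
    positivity

include hC hp htT in
theorem Wabs (ht1 : t ≤ 1) (m : ℕ) {s : ℝ} (h0 : 0 ≤ s) (h1 : s ≤ t) :
    |W m s| ≤ 12 / 10 * P.ρ m * b m s := by
  rw [abs_le]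
  refine ⟨?_, Wup hG hC htT hp ht1 m h0 h1⟩
  have h2 := Wlow hG hC htT hp ht1 m h0 h1
  have hb := bpos hG hC hp m h0 h1
  have hs := hG.small₁ m
  have hρ := hG.ρ_one m
  have ha := a_nonneg hG m
  nlinarith

include hC hp htT in
theorem bgrow (ht1 : t ≤ 1) (m : ℕ) {s : ℝ} (h0 : 0 ≤ s) (h1 : s ≤ t) :
    b m t ≤ b m s * Real.exp (13 / 10 * P.ρ m * (t - s)) := by
  have hs := hG.small₁ m
  have hρ := hG.ρ_one m
  have he := e_nonneg hG m
  refine gron_upper h1 (fun x hx => ?_)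
  have hx0 := h0.trans hx.1
  obtain ⟨b', h2, -, h3⟩ := db' hG hC htT hp m hx0 hx.2
  refine ⟨b', h2, h3.trans ?_⟩
  have h4 := Wup hG hC htT hp ht1 m hx0 hx.2
  have h5 := bpos hG hC hp m hx0 hx.2
  nlinarith

include hC hp htT ht0 in
theorem Mimp (ht1 : t ≤ 1) (m : ℕ) : b m t ≤ 1 / 2 * Bf P b m t := by
  rcases le_or_gt (Bf P b m t) (4 * P.θ (m + 1)) with h | h
  · cases m with
    | zero =>
      exfalso
      simp only [Bf] at h
      have := hG.θ_dec 0
      have := hG.θ_pos 0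
      linarith
    | succ n =>
      have he := e_nonneg hG (n + 1)
      have ha := a_nonneg hG (n + 1)
      have hs := hG.small₁ (n + 1)
      have hs2 := hG.small₂ (n + 1)
      have hW : ∀ s, 0 ≤ s → s ≤ t → W (n + 1) s ≤ 6 / 100 * b (n + 1) s := by
        intro s h0 h1
        have hb := bpos hG hC hp (n + 1) h0 h1
        have h2 := deriv_le_const (f := W (n + 1)) (c := (5 / 100) * (10 / 9 * b (n + 1) s)) h0
          (fun x hx => by
            obtain ⟨W', h2, -, h3⟩ := dW' hG hC htT hp (n + 1) hx.1 (hx.2.trans h1)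
            refine ⟨W', h2, h3.trans ?_⟩
            have h4 := bmon hp (n + 1) hx.1 hx.2 h1
            have h5 := bpos hG hC hp (n + 1) hx.1 (hx.2.trans h1)
            have h6 := Bmon hG hp (n + 1) hx.1 (hx.2.trans h1) le_rfl
            have hc := hG.c_pos (n + 1)
            have hk := hG.k_one (n + 1)
            have h7 : P.c (n + 1) * P.k (n + 1) * Bf P b (n + 1) x ≤
                P.c (n + 1) * P.k (n + 1) * (40 / 9 * P.θ (n + 1 + 1)) := by
              apply mul_le_mul_of_nonneg_left _ (by positivity)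
              linarith
            have h8 : P.c (n + 1) * P.k (n + 1) * (40 / 9 * P.θ (n + 1 + 1)) ≤ 40 / 900 := by
              unfold Par.h at hs2
              linarith
            have h9 : (101 / 200 * (P.c (n + 1) * P.k (n + 1) * Bf P b (n + 1) x) + P.e (n + 1))
                ≤ 5 / 100 := by linarith
            calc (101 / 200 * (P.c (n + 1) * P.k (n + 1) * Bf P b (n + 1) x) + P.e (n + 1)) *
                  b (n + 1) x ≤ 5 / 100 * b (n + 1) x := mul_le_mul_of_nonneg_right h9 h5.le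
              _ ≤ _ := by
                apply mul_le_mul_of_nonneg_left _ (by norm_num)
                linarith)
        rw [hC.W0, sub_zero, sub_zero] at h2
        have h3 : (5 / 100) * (10 / 9 * b (n + 1) s) * s ≤ (5 / 100) * (10 / 9 * b (n + 1) s) * 1 := by
          apply mul_le_mul_of_nonneg_left (by linarith) (by positivity)
        linarith
      have h2 := gron_upper (f := b (n + 1)) (c := 1 / 10) ht0 (fun x hx => by
        obtain ⟨b', h2, -, h3⟩ := db' hG hC htT hp (n + 1) hx.1 hx.2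
        refine ⟨b', h2, h3.trans ?_⟩
        have h4 := hW x hx.1 hx.2
        have h5 := bpos hG hC hp (n + 1) hx.1 hx.2
        nlinarith)
      rw [hC.b0] at h2
      have h3 : Real.exp (1 / 10 * (t - 0)) ≤ 2 := by
        have h4 : Real.exp (1 / 10 * (t - 0)) ≤ Real.exp (1 / 10) := by
          apply Real.exp_le_exp.2
          linarith
        have h5 : Real.exp (1 / 10) ≤ 1 / (1 - 1 / 10) := by
          have := Real.add_one_le_exp (-(1 / 10) : ℝ)
          rw [Real.exp_neg] at this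
          rw [le_div_iff₀ (by norm_num)]
          have h6 := Real.exp_pos (1 / 10 : ℝ)
          have h7 : (Real.exp (1 / 10))⁻¹ * Real.exp (1 / 10) = 1 := inv_mul_cancel₀ h6.ne'
          nlinarith
        norm_num at h5
        linarith
      have h4 := hG.ε_pos (n + 1)
      have h5 : b (n + 1) t ≤ P.ε (n + 1) * 2 := h2.trans (mul_le_mul_of_nonneg_left h3 h4.le)
      have h6 := bmon hp n le_rfl ht0 le_rfl
      rw [hC.b0] at h6
      have h7 := hG.ε_dec n
      simp only [Bf]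
      linarith
  · have := (hp t ht0 le_rfl m).2.2.2.1
    linarith

omit ht0 hC htT in
include hp in
theorem kb_le (m : ℕ) {s : ℝ} (h0 : 0 ≤ s) (h1 : s ≤ t) : P.k m * b m s ≤ 2 * P.h m := by
  have h2 := (hp s h0 h1 m).2.2.2.1
  have hk := hG.k_one m
  unfold Par.h
  nlinarith

/-- The bound of the coefficients `D m (2 i)`; `K` bounds `|W| / b`. -/
noncomputable def Psi (P : Par) (b : ℕ → ℝ → ℝ) (K : ℝ) (m : ℕ) (s : ℝ) : ℝ :=
  124 / 100 * (P.k m * b m s * Bf P b m s) + 112 / 100 * ((P.a m + K) * b m s)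

include hC hp htT in
theorem Deven (ht1 : t ≤ 1) {K : ℝ} (hK0 : 0 ≤ K) (m : ℕ)
    (hK : ∀ s, 0 ≤ s → s ≤ t → |W m s| ≤ K * b m s) (i : ℕ) {s : ℝ}
    (h0 : 0 ≤ s) (h1 : s ≤ t) : 4 ^ (2 * i) * |D m (2 * i) s| ≤ Psi P b K m s := by
  have hb := bpos hG hC hp m h0 h1
  have hB := Bpos hG hC hp m h0 h1
  have hk := hG.k_one m
  have ha := a_nonneg hG m
  have hc := hG.c_pos m
  have hη := η_le hG
  have hη0 := η_pos hG
  have hbb : ∀ x, 0 ≤ x → x ≤ s → b m x * Bf P b m x ≤ 100 / 81 * (b m s * Bf P b m s) := by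
    intro x hx0 hx1
    have h4 := bmon hp m hx0 hx1 h1
    have h5 := bpos hG hC hp m hx0 (hx1.trans h1)
    have h6 := Bmon hG hp m hx0 hx1 h1
    have h7 := Bpos hG hC hp m hx0 (hx1.trans h1)
    have h8 : b m x * Bf P b m x ≤ (10 / 9 * b m s) * (10 / 9 * Bf P b m s) := by
      apply mul_le_mul (by linarith) (by linarith) h7.le (by positivity)
    linarith
  cases i with
  | zero =>
    have h2 := deriv_abs_const (f := D m 0) (c := 124 / 100 * (P.k m * b m s * Bf P b m s) +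
      112 / 100 * ((P.a m + K) * b m s)) h0 (fun x hx => by
        refine ⟨_, hC.dD0 m x hx.1 ((hx.2.trans h1).trans_lt htT), ?_⟩
        have hx1 := hx.2.trans h1
        have h5 := bpos hG hC hp m hx.1 hx1
        have h7 := Bpos hG hC hp m hx.1 hx1
        have h3 := Vb hG hC htT hp m hx.1 hx1
        have h4 : |P.r₁ * P.c m * V m x| ≤ P.a m * b m x := by
          rw [abs_mul, abs_mul, abs_of_pos hc]
          calc |P.r₁| * P.c m * |V m x| ≤ 1 * P.c m * ((2 + P.G) * b m x) := by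
                gcongr
                exact hG.r₁_abs
            _ = P.a m * b m x := by unfold Par.a; ring
        have h6 : |P.r₃ * W m x| ≤ K * b m x := by
          rw [abs_mul]
          calc |P.r₃| * |W m x| ≤ 1 * (K * b m x) := by
                gcongr
                · exact hG.r₃_abs
                · exact hK x hx.1 hx1
            _ = K * b m x := by ring
        have h8 : |P.k m * b m x * Bf P b m x| = P.k m * b m x * Bf P b m x :=
          abs_of_pos (by positivity)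
        have h9 := hbb x hx.1 hx.2
        have h10 := bmon hp m hx.1 hx.2 h1
        have h11 : P.k m * (b m x * Bf P b m x) ≤ P.k m * (100 / 81 * (b m s * Bf P b m s)) :=
          mul_le_mul_of_nonneg_left h9 (by linarith)
        have h12 : (P.a m + K) * b m x ≤ (P.a m + K) * (10 / 9 * b m s) :=
          mul_le_mul_of_nonneg_left (by linarith) (by positivity)
        have h13 : 0 ≤ P.k m * b m s * Bf P b m s := by positivity
        have h14 : 0 ≤ (P.a m + K) * b m s := by positivity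
        refine (abs_add_le _ _).trans ?_
        refine (add_le_add_left (abs_add_le _ _) _).trans ?_
        nlinarith)
    rw [hC.D0, sub_zero, sub_zero] at h2
    have h3 : 0 ≤ 124 / 100 * (P.k m * b m s * Bf P b m s) +
      112 / 100 * ((P.a m + K) * b m s) := by positivity
    simp only [mul_zero, pow_zero, one_mul, Psi]
    refine h2.trans ?_
    nlinarith
  | succ i =>
    have h2 := deriv_abs_const (f := D m (2 * (i + 1)))
      (c := 1 / 4 ^ (2 * i + 1) * (P.k m * (P.η * (100 / 81 * (b m s * Bf P b m s))))) h0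
      (fun x hx => by
        refine ⟨_, hC.dD m (2 * i + 1) x hx.1 ((hx.2.trans h1).trans_lt htT), ?_⟩
        have hx1 := hx.2.trans h1
        have h5 := bpos hG hC hp m hx.1 hx1
        have h7 := Bpos hG hC hp m hx.1 hx1
        have h9 := hbb x hx.1 hx.2
        have h3 := (hp x hx.1 hx1 m).2.2.1 i
        have h4 : |D m (2 * i + 1) x| ≤ 1 / 4 ^ (2 * i + 1) * (P.η * Bf P b m x) := by
          rw [one_div, inv_mul_eq_div, le_div_iff₀ (by positivity)]
          linarith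
        rw [abs_mul, abs_mul, abs_mul, abs_pow, abs_neg, abs_one, one_pow, one_mul,
          abs_of_pos (by linarith : 0 < P.k m), abs_of_pos h5]
        calc P.k m * b m x * |D m (2 * i + 1) x| ≤
              P.k m * b m x * (1 / 4 ^ (2 * i + 1) * (P.η * Bf P b m x)) := by gcongr
          _ = 1 / 4 ^ (2 * i + 1) * (P.k m * (P.η * (b m x * Bf P b m x))) := by ring
          _ ≤ _ := by gcongr)
    rw [hC.D0, sub_zero, sub_zero] at h2
    have h13 : 0 ≤ P.k m * b m s * Bf P b m s := by positivity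
    have h14 : 0 ≤ (P.a m + K) * b m s := by positivity
    have h3 : 4 ^ (2 * (i + 1)) * |D m (2 * (i + 1)) s| ≤
        4 * (P.k m * (P.η * (100 / 81 * (b m s * Bf P b m s)))) * s := by
      calc 4 ^ (2 * (i + 1)) * |D m (2 * (i + 1)) s| ≤ 4 ^ (2 * (i + 1)) *
            (1 / 4 ^ (2 * i + 1) * (P.k m * (P.η * (100 / 81 * (b m s * Bf P b m s)))) * s) := by
            gcongr
        _ = _ := by
            have : (4 : ℝ) ^ (2 * (i + 1)) = 4 * 4 ^ (2 * i + 1) := by ring
            rw [this]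
            field_simp
    refine h3.trans ?_
    unfold Psi
    have h4 : 4 * (P.k m * (P.η * (100 / 81 * (b m s * Bf P b m s)))) * s ≤
        4 * (P.k m * (1 / 100 * (100 / 81 * (b m s * Bf P b m s)))) * 1 := by
      gcongr
      linarith
    nlinarith

include hC hp htT in
theorem Dodd (ht1 : t ≤ 1) {K : ℝ} (hK0 : 0 ≤ K) (m : ℕ)
    (hK : ∀ s, 0 ≤ s → s ≤ t → |W m s| ≤ K * b m s) (i : ℕ) {s : ℝ}
    (h0 : 0 ≤ s) (h1 : s ≤ t) :
    4 ^ (2 * i + 1) * |D m (2 * i + 1) s| ≤ 6 * (P.k m * b m s) * Psi P b K m s := by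
  have hb := bpos hG hC hp m h0 h1
  have hB := Bpos hG hC hp m h0 h1
  have hk := hG.k_one m
  have ha := a_nonneg hG m
  have hPs : ∀ x, 0 ≤ x → x ≤ s → Psi P b K m x ≤ 100 / 81 * Psi P b K m s := by
    intro x hx0 hx1
    have h4 := bmon hp m hx0 hx1 h1
    have h5 := bpos hG hC hp m hx0 (hx1.trans h1)
    have h6 := Bmon hG hp m hx0 hx1 h1
    have h7 := Bpos hG hC hp m hx0 (hx1.trans h1)
    have h8 : b m x * Bf P b m x ≤ (10 / 9 * b m s) * (10 / 9 * Bf P b m s) := by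
      apply mul_le_mul (by linarith) (by linarith) h7.le (by positivity)
    have h9 : P.k m * (b m x * Bf P b m x) ≤ P.k m * ((10 / 9 * b m s) * (10 / 9 * Bf P b m s)) :=
      mul_le_mul_of_nonneg_left h8 (by linarith)
    have h10 : (P.a m + K) * b m x ≤ (P.a m + K) * (10 / 9 * b m s) :=
      mul_le_mul_of_nonneg_left (by linarith) (by positivity)
    have h11 : 0 ≤ (P.a m + K) * b m s := by positivity
    unfold Psi
    nlinarith
  have hPs0 : ∀ x, 0 ≤ x → x ≤ s → 0 ≤ Psi P b K m x := by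
    intro x hx0 hx1
    have h5 := bpos hG hC hp m hx0 (hx1.trans h1)
    have h7 := Bpos hG hC hp m hx0 (hx1.trans h1)
    unfold Psi
    positivity
  have h2 := deriv_abs_const (f := D m (2 * i + 1))
    (c := 1 / 4 ^ (2 * i) * (P.k m * (10 / 9 * b m s) * (100 / 81 * Psi P b K m s))) h0
    (fun x hx => by
      refine ⟨_, hC.dD m (2 * i) x hx.1 ((hx.2.trans h1).trans_lt htT), ?_⟩
      have hx1 := hx.2.trans h1
      have h5 := bpos hG hC hp m hx.1 hx1
      have h3 := Deven hG hC htT hp ht1 hK0 m hK i hx.1 hx1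
      have h4 : |D m (2 * i) x| ≤ 1 / 4 ^ (2 * i) * Psi P b K m x := by
        rw [one_div, inv_mul_eq_div, le_div_iff₀ (by positivity)]
        linarith
      have h6 := hPs x hx.1 hx.2
      have h7 := hPs0 x hx.1 hx.2
      have h8 := bmon hp m hx.1 hx.2 h1
      rw [abs_mul, abs_mul, abs_mul, abs_pow, abs_neg, abs_one, one_pow, one_mul,
        abs_of_pos (by linarith : 0 < P.k m), abs_of_pos h5]
      calc P.k m * b m x * |D m (2 * i) x| ≤
            P.k m * b m x * (1 / 4 ^ (2 * i) * Psi P b K m x) := by gcongr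
        _ = 1 / 4 ^ (2 * i) * (P.k m * b m x * Psi P b K m x) := by ring
        _ ≤ _ := by
          gcongr
          linarith)
  rw [hC.D0, sub_zero, sub_zero] at h2
  have h3 := hPs0 s h0 le_rfl
  have h4 : 4 ^ (2 * i + 1) * |D m (2 * i + 1) s| ≤
      4 * (P.k m * (10 / 9 * b m s) * (100 / 81 * Psi P b K m s)) * s := by
    calc 4 ^ (2 * i + 1) * |D m (2 * i + 1) s| ≤ 4 ^ (2 * i + 1) *
          (1 / 4 ^ (2 * i) * (P.k m * (10 / 9 * b m s) * (100 / 81 * Psi P b K m s)) * s) := by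
          gcongr
      _ = _ := by
          have : (4 : ℝ) ^ (2 * i + 1) = 4 * 4 ^ (2 * i) := by ring
          rw [this]
          field_simp
  refine h4.trans ?_
  calc 4 * (P.k m * (10 / 9 * b m s) * (100 / 81 * Psi P b K m s)) * s ≤
        4 * (P.k m * (10 / 9 * b m s) * (100 / 81 * Psi P b K m s)) * 1 := by
        gcongr
        linarith
    _ ≤ _ := by
      have : 0 ≤ P.k m * b m s * Psi P b K m s := by positivity
      nlinarith

include hC hp htT ht0 in
theorem Nimp (ht1 : t ≤ 1) (m i : ℕ) :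
    4 ^ (2 * i + 1) * |D m (2 * i + 1) t| ≤ 1 / 2 * P.η * Bf P b m t := by
  have hρ := hG.ρ_one m
  have h1 := Dodd hG hC htT hp ht1 (K := 2 * P.ρ m) (by linarith) m
    (fun s h0 h1 => (hp s h0 h1 m).2.2.2.2) i ht0 le_rfl
  refine h1.trans ?_
  have hb := bpos hG hC hp m ht0 le_rfl
  have hB := Bpos hG hC hp m ht0 le_rfl
  have hk := hG.k_one m
  have ha := a_nonneg hG m
  have hkb := kb_le hG hp m ht0 le_rfl
  have hM := (hp t ht0 le_rfl m).2.1
  have hs := hG.small₃ m
  have hh := h_pos hG m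
  set x := P.k m * b m t with hx
  have hx0 : 0 < x := by positivity
  have h2 : Psi P b (2 * P.ρ m) m t ≤ (124 / 100 * x + 112 / 100 * (P.a m + 2 * P.ρ m)) *
      Bf P b m t := by
    unfold Psi
    rw [← hx]
    have : (P.a m + 2 * P.ρ m) * b m t ≤ (P.a m + 2 * P.ρ m) * Bf P b m t :=
      mul_le_mul_of_nonneg_left hM (by linarith)
    nlinarith
  have h3 : 0 ≤ Psi P b (2 * P.ρ m) m t := by unfold Psi; positivity
  calc 6 * x * Psi P b (2 * P.ρ m) m t
      ≤ 6 * (2 * P.h m) * ((124 / 100 * x + 112 / 100 * (P.a m + 2 * P.ρ m)) * Bf P b m t) := by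
        gcongr
    _ ≤ 6 * (2 * P.h m) * ((124 / 100 * (2 * P.h m) + 112 / 100 * (P.a m + 2 * P.ρ m)) *
          Bf P b m t) := by
        gcongr
    _ ≤ 30 * (P.h m * (P.h m + P.a m + 2 * P.ρ m)) * Bf P b m t := by
        have h4 : 0 ≤ P.h m * (P.a m + 2 * P.ρ m) * Bf P b m t := by positivity
        have h5 : 0 ≤ P.h m * P.h m * Bf P b m t := by positivity
        nlinarith
    _ ≤ 30 * (P.η / 60) * Bf P b m t := by gcongr
    _ = _ := by ring

include hC hp htT in
/-- Activation of the stage `m`. -/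
theorem act (ht1 : t ≤ 1) (m : ℕ) {s : ℝ} (h0 : 0 ≤ s) (h1 : s + P.τ m ≤ t)
    (hB : P.θ m ≤ Bf P b m s) : P.θ (m + 1) ≤ b m (s + P.τ m) := by
  have hτ := hG.τ_nonneg m
  have he := e_nonneg hG m
  have ha := a_nonneg hG m
  have hs := hG.small₁ m
  have hρ := hG.ρ_one m
  have h2 := growth (b := b m) (w := W m) (t₀ := s) (t₁ := s + P.τ m) (α := P.a m)
    (κ := P.ρ m / 2) (by linarith) ha (by linarith)
    (fun x hx => (bpos hG hC hp m (h0.trans hx.1) (hx.2.trans h1)).le)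
    (fun x hx => by
      obtain ⟨b', h2, h3, -⟩ := db' hG hC htT hp m (h0.trans hx.1) (hx.2.trans h1)
      exact ⟨b', h2, h3⟩)
    (fun x hx => by
      obtain ⟨W', h2, h3, -⟩ := dW' hG hC htT hp m (h0.trans hx.1) (hx.2.trans h1)
      refine ⟨W', h2, le_trans ?_ h3⟩
      have h5 := bpos hG hC hp m (h0.trans hx.1) (hx.2.trans h1)
      apply mul_le_mul_of_nonneg_right _ h5.le
      have h6 := Bmon hG hp m h0 hx.1 (hx.2.trans h1)
      have hc := hG.c_pos m
      have hk := hG.k_one m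
      have h7 : P.c m * P.k m * (9 / 10 * P.θ m) ≤ P.c m * P.k m * Bf P b m x :=
        mul_le_mul_of_nonneg_left (by linarith) (by positivity)
      have h8 := hG.rho_sq m
      nlinarith)
    (fun x hx => by
      have h2 := Wlow hG hC htT hp ht1 m (h0.trans hx.1) (hx.2.trans h1)
      have h5 := bpos hG hC hp m (h0.trans hx.1) (hx.2.trans h1)
      nlinarith)
  have h3 := hG.exp_τ m
  have h4 := bmon hp m le_rfl h0 (by linarith : s ≤ t)
  rw [hC.b0] at h4
  have hε := hG.ε_pos m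
  have h5 : Real.exp (2 / 5 * P.ρ m * P.τ m) ≤
      Real.exp ((P.ρ m / 2 - 2 * P.a m) * (s + P.τ m - s)) := by
    apply Real.exp_le_exp.2
    rw [add_sub_cancel_left]
    apply mul_le_mul_of_nonneg_right _ hτ
    linarith
  have h6 : 9 / 10 * P.ε m * Real.exp (2 / 5 * P.ρ m * P.τ m) ≤
      b m s * Real.exp ((P.ρ m / 2 - 2 * P.a m) * (s + P.τ m - s)) := by
    apply mul_le_mul h4 h5 (Real.exp_pos _).le
    linarith
  have h7 := hG.θ_pos (m + 1)
  nlinarith

include hC hp htT in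
/-- All stages beyond `m` are activated after the stage `m`. -/
theorem act_all (ht1 : t ≤ 1) (m : ℕ) {s : ℝ} (h0 : 0 ≤ s)
    (hB : P.θ m ≤ Bf P b m s) (n : ℕ) (h1 : s + ∑ i ∈ Finset.range n, P.τ (m + i) ≤ t) :
    P.θ (m + n) ≤ Bf P b (m + n) (s + ∑ i ∈ Finset.range n, P.τ (m + i)) := by
  induction n with
  | zero => simpa using hB
  | succ n ih =>
    rw [Finset.sum_range_succ] at h1 ⊢
    have hτ := hG.τ_nonneg (m + n)
    have hs : 0 ≤ ∑ i ∈ Finset.range n, P.τ (m + i) :=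
      Finset.sum_nonneg fun i _ => hG.τ_nonneg _
    have h2 := ih (by linarith)
    have h3 := act hG hC htT hp ht1 (m + n)
      (s := s + ∑ i ∈ Finset.range n, P.τ (m + i)) (by linarith) (by linarith) h2
    rw [← add_assoc s]
    exact h3

include hC hp htT in
/-- The stages cannot be all activated. -/
theorem act_false (ht1 : t ≤ 1) (m : ℕ) {s : ℝ} (h0 : 0 ≤ s)
    (hB : P.θ m ≤ Bf P b m s) (h1 : ∀ n, s + ∑ i ∈ Finset.range n, P.τ (m + i) ≤ t) : False := by
  have h01 := h1 0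
  simp only [Finset.range_zero, Finset.sum_empty, add_zero] at h01
  obtain ⟨R, hR⟩ := hC.bdd t (h0.trans h01) htT
  obtain ⟨m₀, hm₀⟩ := hG.ε_θ (R * (10 / 9))
  have h2 := act_all hG hC htT hp ht1 m h0 hB (m₀ + 1) (h1 _)
  have h3 := hm₀ (m + m₀) (by omega)
  have h4 : P.θ (m + m₀ + 1) ≤
      b (m + m₀) (s + ∑ i ∈ Finset.range (m₀ + 1), P.τ (m + i)) := h2
  have hs : 0 ≤ ∑ i ∈ Finset.range (m₀ + 1), P.τ (m + i) :=
    Finset.sum_nonneg fun i _ => hG.τ_nonneg _
  have h5 := bmon hp (m + m₀) (add_nonneg h0 hs) (h1 (m₀ + 1)) le_rfl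
  have h6 := (abs_le.1 (hR (m + m₀))).2
  linarith

include hC hp htT ht0 in
theorem Gimp (ht1 : t ≤ 1) (m : ℕ) : b m t < 2 * P.θ (m + 1) := by
  by_contra hcon
  push Not at hcon
  have hθ := hG.θ_pos (m + 1)
  have hcont : ContinuousOn (b m) (Icc 0 t) := fun x hx =>
    (hC.db m x hx.1 (hx.2.trans_lt htT)).continuousAt.continuousWithinAt
  have hmem : P.θ (m + 1) ∈ Icc (b m 0) (b m t) := by
    rw [hC.b0]
    exact ⟨(hG.ε_lt m).le, by linarith⟩
  obtain ⟨s, hs, hbs⟩ := intermediate_value_Icc ht0 hcont hmem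
  have h1 := bgrow hG hC htT hp ht1 m hs.1 hs.2
  rw [hbs] at h1
  have h2 : 2 ≤ Real.exp (13 / 10 * P.ρ m * (t - s)) := by
    have : P.θ (m + 1) * 2 ≤ P.θ (m + 1) * Real.exp (13 / 10 * P.ρ m * (t - s)) := by linarith
    exact le_of_mul_le_mul_left this hθ
  have h3 : Real.log 2 ≤ 13 / 10 * P.ρ m * (t - s) := by
    rw [Real.log_le_iff_le_exp (by norm_num)]
    exact h2
  have hρ := hG.ρ_one m
  have h4 : 1 / (2 * P.ρ m) ≤ t - s := by
    have := Real.log_two_gt_d9
    rw [div_le_iff₀ (by positivity)]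
    nlinarith
  refine act_false hG hC htT hp ht1 (m + 1) hs.1 (by simp only [Bf]; rw [hbs]) (fun n => ?_)
  have := hG.τ_sum m n
  linarith

end

section

variable {P : Par} (hG : P.Good) {T : ℝ} {b W V : ℕ → ℝ → ℝ} {D : ℕ → ℕ → ℝ → ℝ}
  (hC : Chain P T b W V D)

include hG hC

theorem Pt_zero : Pt P b W D 0 := by
  intro m
  have hε := hG.ε_pos m
  have hη := η_pos hG
  have hB : P.ε m ≤ Bf P b m 0 := by
    cases m with
    | zero =>
      simp only [Bf]
      have := hG.ε_lt 0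
      have := hG.θ_dec 0
      have := hG.θ_pos 0
      linarith
    | succ n =>
      simp only [Bf]
      rw [hC.b0]
      have := hG.ε_dec n
      have := hG.ε_pos n
      linarith
  refine ⟨fun s' h0 h1 => ?_, ?_, fun i => ?_, ?_, ?_⟩
  · have : s' = 0 := le_antisymm h1 h0
    rw [this, hC.b0]
    linarith
  · rw [hC.b0]; exact hB
  · rw [hC.D0, abs_zero, mul_zero]
    exact mul_nonneg hη.le (hε.le.trans hB)
  · rw [hC.b0]
    have := hG.ε_lt m
    have := hG.θ_pos (m + 1)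
    linarith
  · rw [hC.W0, hC.b0, abs_zero]
    have := hG.ρ_one m
    positivity

theorem Pt_closed {t : ℝ} (ht0 : 0 < t) (htT : t < T)
    (hp : ∀ s, 0 ≤ s → s < t → Pt P b W D s) : Pt P b W D t := by
  have hne : (nhdsWithin t (Iio t)).NeBot := inferInstance
  have hev : ∀ᶠ s in nhdsWithin t (Iio t), 0 ≤ s ∧ s < t := by
    filter_upwards [self_mem_nhdsWithin,
      mem_nhdsWithin_of_mem_nhds (Ici_mem_nhds ht0)] with s h1 h2
    exact ⟨h2, h1⟩
  have hb : ∀ m, Filter.Tendsto (b m) (nhdsWithin t (Iio t)) (nhds (b m t)) := fun m =>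
    (hC.db m t ht0.le htT).continuousAt.continuousWithinAt
  have hBf : ∀ m, Filter.Tendsto (Bf P b m) (nhdsWithin t (Iio t)) (nhds (Bf P b m t)) := by
    intro m
    cases m with
    | zero => exact tendsto_const_nhds
    | succ n => exact hb n
  have hW : ∀ m, Filter.Tendsto (W m) (nhdsWithin t (Iio t)) (nhds (W m t)) := fun m => by
    obtain ⟨R, h1, -⟩ := hC.dW m t ht0.le htT
    exact h1.continuousAt.continuousWithinAt
  have hD : ∀ m i, Filter.Tendsto (D m i) (nhdsWithin t (Iio t)) (nhds (D m i t)) := by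
    intro m i
    cases i with
    | zero => exact (hC.dD0 m t ht0.le htT).continuousAt.continuousWithinAt
    | succ i => exact (hC.dD m i t ht0.le htT).continuousAt.continuousWithinAt
  intro m
  have hpos : 0 < b m t := by
    have h1 : 9 / 10 * b m 0 ≤ b m t := by
      refine ge_of_tendsto (hb m) ?_
      filter_upwards [hev] with s hs
      exact (hp s hs.1 hs.2 m).1 0 le_rfl hs.1
    rw [hC.b0] at h1
    have := hG.ε_pos m
    linarith
  refine ⟨fun s' h0 h1 => ?_, ?_, fun i => ?_, ?_, ?_⟩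
  · rcases h1.eq_or_lt with h | h
    · rw [h]; linarith
    · refine ge_of_tendsto (hb m) ?_
      filter_upwards [hev, mem_nhdsWithin_of_mem_nhds (Ioi_mem_nhds h)] with s hs hs'
      exact (hp s hs.1 hs.2 m).1 s' h0 (le_of_lt hs')
  · refine le_of_tendsto_of_tendsto (hb m) (hBf m) ?_
    filter_upwards [hev] with s hs
    exact (hp s hs.1 hs.2 m).2.1
  · refine le_of_tendsto_of_tendsto ((hD m (2 * i + 1)).abs.const_mul _)
      ((hBf m).const_mul _) ?_
    filter_upwards [hev] with s hs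
    exact (hp s hs.1 hs.2 m).2.2.1 i
  · refine le_of_tendsto (hb m) ?_
    filter_upwards [hev] with s hs
    exact (hp s hs.1 hs.2 m).2.2.2.1
  · refine le_of_tendsto_of_tendsto (hW m).abs ((hb m).const_mul _) ?_
    filter_upwards [hev] with s hs
    exact (hp s hs.1 hs.2 m).2.2.2.2

theorem Pt_open {t : ℝ} (ht0 : 0 ≤ t) (htT : t < T) (ht1 : t ≤ 1)
    (hp : ∀ s, 0 ≤ s → s ≤ t → Pt P b W D s) :
    ∃ δ, 0 < δ ∧ ∀ s, t < s → s < t + δ → Pt P b W D s := by
  have hη := η_pos hG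
  have hη1 := η_le hG
  obtain ⟨δ₁, hδ₁, hc⟩ := hC.cont t ht0 htT (P.η / 100) (by positivity)
  obtain ⟨R, hR⟩ := hC.bdd t ht0 htT
  obtain ⟨m₀, hm₀⟩ := hG.ε_θ (R + 1)
  have hfin : ∀ᶠ s in nhds t, ∀ m ∈ Finset.range m₀, b m s < 2 * P.θ (m + 1) := by
    rw [Filter.eventually_all_finset]
    intro m _
    exact (hC.db m t ht0 htT).continuousAt.eventually_lt_const (Gimp hG hC ht0 htT hp ht1 m)
  obtain ⟨δ₂, hδ₂, hfin'⟩ := Metric.eventually_nhds_iff.1 hfin
  refine ⟨min (min δ₁ δ₂) (T - t), by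
    refine lt_min (lt_min hδ₁ hδ₂) (by linarith), fun s hts hs => ?_⟩
  have hsT : s < T := by
    have := min_le_right (min δ₁ δ₂) (T - t)
    linarith
  have hsδ₁ : s - t < δ₁ := by
    have := (min_le_left (min δ₁ δ₂) (T - t)).trans (min_le_left _ _)
    linarith
  have hsδ₂ : s - t < δ₂ := by
    have := (min_le_left (min δ₁ δ₂) (T - t)).trans (min_le_right _ _)
    linarith
  have hcl : ∀ x, t ≤ x → x ≤ s → ∀ m, |b m x - b m t| ≤ P.η / 100 * P.ε m ∧
      |W m x - W m t| ≤ P.η / 100 * P.ε m ∧ ∀ i, 4 ^ i * |D m i x - D m i t| ≤ P.η / 100 * P.ε m := by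
    intro x h1 h2
    refine hc x (ht0.trans h1) (h2.trans_lt hsT) ?_
    rw [abs_of_nonneg (by linarith)]
    linarith
  have hεb : ∀ m, P.ε m ≤ 11 / 10 * b m t := by
    intro m
    have := bimp hG hC htT hp ht1 m le_rfl ht0
    rw [hC.b0] at this
    have := hG.ε_pos m
    linarith
  have hbx : ∀ x, t ≤ x → x ≤ s → ∀ m, |b m x - b m t| ≤ P.η / 90 * b m t := by
    intro x h1 h2 m
    refine (hcl x h1 h2 m).1.trans ?_
    have h3 := hεb m
    have h4 := bpos hG hC hp m ht0 le_rfl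
    calc P.η / 100 * P.ε m ≤ P.η / 100 * (11 / 10 * b m t) := by gcongr
      _ ≤ _ := by nlinarith [mul_pos hη h4]
  have hBx : ∀ m, Bf P b m t * (1 - P.η / 90) ≤ Bf P b m s := by
    intro m
    cases m with
    | zero =>
      simp only [Bf]
      have := hG.θ_pos 0
      nlinarith [mul_pos hη this]
    | succ n =>
      have := (abs_le.1 (hbx s hts.le le_rfl n)).1
      simp only [Bf]
      nlinarith
  intro m
  have hb := bpos hG hC hp m ht0 le_rfl
  have hB := Bpos hG hC hp m ht0 le_rfl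
  have hbs := abs_le.1 (hbx s hts.le le_rfl m)
  have hBs := hBx m
  have hM := Mimp hG hC ht0 htT hp ht1 m
  have hηb : 0 < P.η * b m t := by positivity
  have hηb1 : P.η * b m t ≤ 1 / 100 * b m t := mul_le_mul_of_nonneg_right hη1 hb.le
  have hηB : 0 < P.η * Bf P b m t := by positivity
  have hηB1 : P.η * Bf P b m t ≤ 1 / 100 * Bf P b m t := mul_le_mul_of_nonneg_right hη1 hB.le
  refine ⟨fun s' h0 h1 => ?_, ?_, fun i => ?_, ?_, ?_⟩
  · rcases le_or_gt s' t with h | h
    · have h2 := bimp hG hC htT hp ht1 m h0 h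
      have h3 := bpos hG hC hp m h0 h
      nlinarith
    · have h2 := abs_le.1 (hbx s' h.le h1 m)
      nlinarith
  · nlinarith
  · have h2 := Nimp hG hC ht0 htT hp ht1 m i
    have h3 := (hcl s hts.le le_rfl m).2.2 (2 * i + 1)
    have h4 : |D m (2 * i + 1) s| ≤ |D m (2 * i + 1) s - D m (2 * i + 1) t| +
        |D m (2 * i + 1) t| := by
      have := abs_add_le (D m (2 * i + 1) s - D m (2 * i + 1) t) (D m (2 * i + 1) t)
      simpa using this
    have h5 := mul_le_mul_of_nonneg_left h4 (by positivity : (0 : ℝ) ≤ 4 ^ (2 * i + 1))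
    have h6 : P.η / 100 * P.ε m ≤ P.η / 100 * (11 / 10 * b m t) := by
      have := hεb m
      gcongr
    have h7 : P.η * b m t ≤ P.η * (1 / 2 * Bf P b m t) := mul_le_mul_of_nonneg_left hM hη.le
    have h8 : P.η * (Bf P b m t * (1 - P.η / 90)) ≤ P.η * Bf P b m s :=
      mul_le_mul_of_nonneg_left hBs hη.le
    have h9 : P.η * (P.η * Bf P b m t) ≤ 1 / 100 * (P.η * Bf P b m t) :=
      mul_le_mul_of_nonneg_right hη1 hηB.le
    nlinarith
  · rcases lt_or_ge m m₀ with h | h
    · refine (hfin' ?_ m (Finset.mem_range.2 h)).le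
      rw [Real.dist_eq, abs_of_pos (by linarith)]
      exact hsδ₂
    · have h2 := hm₀ m h
      have h3 := (abs_le.1 (hR m)).2
      have h4 := (abs_le.1 (hcl s hts.le le_rfl m).1).2
      have hε := hG.ε_pos m
      have h5 : P.η / 100 * P.ε m ≤ 1 * P.ε m := by
        apply mul_le_mul_of_nonneg_right _ hε.le
        linarith
      have := hG.θ_pos (m + 1)
      linarith
  · have h2 := Wabs hG hC htT hp ht1 m ht0 le_rfl
    have h3 := (hcl s hts.le le_rfl m).2.1
    have h4 : |W m s| ≤ |W m s - W m t| + |W m t| := by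
      have := abs_add_le (W m s - W m t) (W m t)
      simpa using this
    have h6 : P.η / 100 * P.ε m ≤ P.η / 100 * (11 / 10 * b m t) := by
      have := hεb m
      gcongr
    have hρ := hG.ρ_one m
    have h7 : b m t ≤ P.ρ m * b m t := by nlinarith
    have h8 : P.ρ m * (b m t - P.η / 90 * b m t) ≤ P.ρ m * b m s :=
      mul_le_mul_of_nonneg_left (by linarith) (by linarith)
    have h9 : P.ρ m * (P.η * b m t) ≤ P.ρ m * (1 / 100 * b m t) :=
      mul_le_mul_of_nonneg_left hηb1 (by linarith)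
    nlinarith

/-- The bootstrap property holds as long as the solution exists, up to the time `1`. -/
theorem boot {t : ℝ} (ht0 : 0 ≤ t) (htT : t < T) (ht1 : t < 1) : Pt P b W D t := by
  refine cont_ind (p := Pt P b W D) (T := min T 1) (Pt_zero hG hC) (fun s h0 h1 hs => ?_)
    (fun s h0 h1 hs => ?_) t ht0 (lt_min htT ht1)
  · exact Pt_closed hG hC h0 (h1.trans_le (min_le_left _ _)) hs
  · exact Pt_open hG hC h0 (h1.trans_le (min_le_left _ _)) (h1.trans_le (min_le_right _ _)).le hs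

theorem h_le (m : ℕ) : P.h m ≤ 1 := by
  have h1 := hG.small₃ m
  have h2 := η_le hG
  have h3 := h_pos hG m
  have h4 := a_nonneg hG m
  have h5 := hG.ρ_one m
  by_contra hcon
  push Not at hcon
  nlinarith

/-- If the amplitudes `k m B m` stay bounded, then so do all the unknowns. -/
theorem bounded_of_kB {M : ℝ} (hM0 : 0 ≤ M) (hT : T ≤ 1)
    (hM : ∀ t, 0 ≤ t → t < T → ∀ m, P.k m * Bf P b m t ≤ M) :
    ∃ R, ∀ t, 0 ≤ t → t < T → ∀ m, |b m t| ≤ R * P.ε m ∧ ∀ i, 4 ^ i * |D m i t| ≤ R * P.ε m := by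
  set K : ℝ := 2 * (M + 1) with hK
  have hE : 0 < Real.exp (K + 1) := Real.exp_pos _
  have hK0 : 0 ≤ K := by linarith
  refine ⟨20 * (M + 1 + K) * Real.exp (K + 1), fun t ht0 htT m => ?_⟩
  have ht1 : t < 1 := htT.trans_le hT
  have hp : ∀ s, 0 ≤ s → s ≤ t → Pt P b W D s := fun s h0 h1 =>
    boot hG hC h0 (h1.trans_lt htT) (h1.trans_lt ht1)
  have ha := a_nonneg hG m
  have he := e_nonneg hG m
  have hs := hG.small₁ m
  have hc := hG.c_pos m
  have hc1 := hG.c_le m
  have hk := hG.k_one m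
  have hε := hG.ε_pos m
  have hW : ∀ s, 0 ≤ s → s ≤ t → |W m s| ≤ K * b m s := by
    intro s h0 h1
    have hb := bpos hG hC hp m h0 h1
    have h2 := deriv_abs_const (f := W m) (c := (M + 1) * (10 / 9 * b m s)) h0 (fun x hx => by
      have hx1 := hx.2.trans h1
      obtain ⟨W', h2, h3, h4⟩ := dW' hG hC htT hp m hx.1 hx1
      refine ⟨W', h2, ?_⟩
      have h5 := bpos hG hC hp m hx.1 hx1
      have h6 := Bpos hG hC hp m hx.1 hx1
      have h7 := hM x hx.1 (hx1.trans_lt htT) m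
      have h8 := bmon hp m hx.1 hx.2 h1
      have h9 : P.c m * P.k m * Bf P b m x ≤ M := by
        have : P.c m * (P.k m * Bf P b m x) ≤ 1 * M :=
          mul_le_mul hc1 h7 (by positivity) (by norm_num)
        linarith
      have h10 : 0 ≤ P.c m * P.k m * Bf P b m x := by positivity
      have h11 : (101 / 200 * (P.c m * P.k m * Bf P b m x) + P.e m) * b m x ≤
          (M + 1) * (10 / 9 * b m s) := by
        apply mul_le_mul _ (by linarith) h5.le (by linarith)
        linarith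
      have h12 : -((M + 1) * (10 / 9 * b m s)) ≤
          (99 / 200 * (P.c m * P.k m * Bf P b m x) - P.e m) * b m x := by
        have h13 : -(P.e m * b m x) ≤ (99 / 200 * (P.c m * P.k m * Bf P b m x) - P.e m) * b m x := by
          have : 0 ≤ P.c m * P.k m * Bf P b m x * b m x := by positivity
          nlinarith
        have h14 : P.e m * b m x ≤ (M + 1) * (10 / 9 * b m s) := by
          apply mul_le_mul _ (by linarith) h5.le (by linarith)
          linarith
        linarith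
      rw [abs_le]
      constructor <;> linarith)
    rw [hC.W0, sub_zero, sub_zero] at h2
    refine h2.trans ?_
    have h3 : (M + 1) * (10 / 9 * b m s) * s ≤ (M + 1) * (10 / 9 * b m s) * 1 := by
      gcongr
      linarith
    have : 0 ≤ M * b m s := by positivity
    rw [hK]
    nlinarith
  have hbt := bpos hG hC hp m ht0 le_rfl
  have hb1 : b m t ≤ P.ε m * Real.exp (K + 1) := by
    have h2 := gron_upper (f := b m) (c := K + 1) ht0 (fun x hx => by
      obtain ⟨b', h2, -, h3⟩ := db' hG hC htT hp m hx.1 hx.2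
      refine ⟨b', h2, h3.trans ?_⟩
      have h4 := (abs_le.1 (hW x hx.1 hx.2)).2
      have h5 := bpos hG hC hp m hx.1 hx.2
      nlinarith)
    rw [hC.b0] at h2
    refine h2.trans ?_
    gcongr
    nlinarith
  have hPsi : Psi P b K m t ≤ 2 * (M + 1 + K) * b m t := by
    unfold Psi
    have h7 := hM t ht0 htT m
    have : P.k m * b m t * Bf P b m t ≤ M * b m t := by nlinarith
    have h8 : (P.a m + K) * b m t ≤ (1 + K) * b m t := by
      gcongr
      linarith
    have h9 : 0 ≤ M * b m t := by positivity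
    have h10 : 0 ≤ K * b m t := by positivity
    nlinarith
  have hPsi0 : 0 ≤ Psi P b K m t := by
    have hB := Bpos hG hC hp m ht0 le_rfl
    unfold Psi
    positivity
  have hfin : 2 * (M + 1 + K) * b m t ≤ 2 * (M + 1 + K) * (P.ε m * Real.exp (K + 1)) := by
    gcongr
  refine ⟨?_, fun i => ?_⟩
  · rw [abs_of_pos hbt]
    refine hb1.trans ?_
    have : P.ε m * Real.exp (K + 1) * 1 ≤ P.ε m * Real.exp (K + 1) * (20 * (M + 1 + K)) := by
      gcongr
      linarith
    linarith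
  · rcases Nat.even_or_odd' i with ⟨j, rfl | rfl⟩
    · have h2 := Deven hG hC htT hp ht1.le hK0 m hW j ht0 le_rfl
      have : 0 ≤ (M + 1 + K) * (P.ε m * Real.exp (K + 1)) := by positivity
      linarith
    · have h2 := Dodd hG hC htT hp ht1.le hK0 m hW j ht0 le_rfl
      have h3 := kb_le hG hp m ht0 le_rfl
      have h4 := h_le hG hC m
      have hη := hG.small₃ m
      have h5 : 6 * (P.k m * b m t) * Psi P b K m t ≤ 6 * (1) * (2 * (M + 1 + K) * b m t) := by
        have h6 : P.k m * b m t ≤ 1 := by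
          have h7 := η_le hG
          have h8 := h_pos hG m
          have h9 := hG.ρ_one m
          nlinarith
        gcongr
      have : 0 ≤ (M + 1 + K) * (P.ε m * Real.exp (K + 1)) := by positivity
      linarith

/-- Bound of the coefficients `D m i` in terms of the parameters. -/
theorem D_small {t : ℝ} (ht0 : 0 ≤ t) (htT : t < T) (ht1 : t < 1) (m i : ℕ) :
    4 ^ i * |D m i t| ≤ P.θ m + 1 / P.k m := by
  have hp : ∀ s, 0 ≤ s → s ≤ t → Pt P b W D s := fun s h0 h1 =>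
    boot hG hC h0 (h1.trans_lt htT) (h1.trans_lt ht1)
  have ha := a_nonneg hG m
  have hρ := hG.ρ_one m
  have hk := hG.k_one m
  have hη := η_le hG
  have hη0 := η_pos hG
  have hh := h_pos hG m
  have hs := hG.small₃ m
  have hθ := hG.θ_pos m
  have hB := Bup hG hp m ht0 le_rfl
  have hB0 := Bpos hG hC hp m ht0 le_rfl
  have hb0 := bpos hG hC hp m ht0 le_rfl
  have hkb := kb_le hG hp m ht0 le_rfl
  have hh1 : P.h m ≤ 1 / 1000 := by nlinarith
  rcases Nat.even_or_odd' i with ⟨j, rfl | rfl⟩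
  · have h2 := Deven hG hC htT hp ht1.le (K := 2 * P.ρ m) (by linarith) m
      (fun s h0 h1 => (hp s h0 h1 m).2.2.2.2) j ht0 le_rfl
    refine h2.trans ?_
    unfold Psi
    have h3 : P.k m * b m t * Bf P b m t ≤ (2 * P.h m) * (2 * P.θ m) := by gcongr
    have h4 : (P.a m + 2 * P.ρ m) * b m t ≤ 2 * (P.η / 60) * (1 / P.k m) := by
      have h5 : b m t ≤ 2 * P.h m * (1 / P.k m) := by
        rw [mul_one_div, le_div_iff₀ (by linarith)]
        linarith
      calc (P.a m + 2 * P.ρ m) * b m t ≤ (P.h m + P.a m + 2 * P.ρ m) * (2 * P.h m * (1 / P.k m)) := by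
            gcongr
            linarith
        _ = 2 * (P.h m * (P.h m + P.a m + 2 * P.ρ m)) * (1 / P.k m) := by ring
        _ ≤ _ := by gcongr
    have h6 : 0 < 1 / P.k m := by positivity
    nlinarith
  · have h2 := (hp t ht0 le_rfl m).2.2.1 j
    have h6 : 0 < 1 / P.k m := by positivity
    have h7 : P.η * Bf P b m t ≤ 1 / 100 * (2 * P.θ m) := by gcongr
    linarith

theorem T_le : T ≤ P.tt := by
  by_contra hcon
  push Not at hcon
  have h0 : 0 ≤ P.tt := by simpa using hG.τ_tot 0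
  exact act_false hG hC hcon (fun s hs0 hs => boot hG hC hs0 (hs.trans_lt hcon)
    (hs.trans_lt hG.tt_lt)) hG.tt_lt.le 0 le_rfl (by simp [Bf]) (fun n => by
      have := hG.τ_tot n
      simpa using this)

end

end Pool.Agent.H306.CK
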