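import Mathlib

/-! Elementary comparison lemmas for scalar differential inequalities. -/

namespace Pool.Agent.H306.CK

open Set

theorem le_of_deriv {f : ℝ → ℝ} {a b : ℝ} (hab : a ≤ b)
    (h : ∀ x ∈ Icc a b, ∃ f', HasDerivAt f f' x ∧ 0 ≤ f') : f a ≤ f b := by
  have hc : ContinuousOn f (Icc a b) := fun x hx => by
    obtain ⟨f', h1, -⟩ := h x hx
    exact h1.continuousAt.continuousWithinAt
  refine monotoneOn_of_deriv_nonneg (convex_Icc a b) hc ?_ ?_ (left_mem_Icc.2 hab)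
    (right_mem_Icc.2 hab) hab
  · intro x hx
    obtain ⟨f', h1, -⟩ := h x (interior_subset hx)
    exact h1.differentiableAt.differentiableWithinAt
  · intro x hx
    obtain ⟨f', h1, h2⟩ := h x (interior_subset hx)
    rwa [h1.deriv]

theorem deriv_ge_const {f : ℝ → ℝ} {a b c : ℝ} (hab : a ≤ b)
    (h : ∀ x ∈ Icc a b, ∃ f', HasDerivAt f f' x ∧ c ≤ f') : c * (b - a) ≤ f b - f a := by
  have := le_of_deriv (f := fun x => f x - c * x) hab (fun x hx => by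
    obtain ⟨f', h1, h2⟩ := h x hx
    refine ⟨f' - c * 1, h1.sub ((hasDerivAt_id x).const_mul c), by linarith⟩)
  linarith

theorem deriv_le_const {f : ℝ → ℝ} {a b c : ℝ} (hab : a ≤ b)
    (h : ∀ x ∈ Icc a b, ∃ f', HasDerivAt f f' x ∧ f' ≤ c) : f b - f a ≤ c * (b - a) := by
  have := deriv_ge_const (f := fun x => -f x) (c := -c) hab (fun x hx => by
    obtain ⟨f', h1, h2⟩ := h x hx
    exact ⟨-f', h1.neg, by linarith⟩)
  linarith

theorem deriv_abs_const {f : ℝ → ℝ} {a b c : ℝ} (hab : a ≤ b)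
    (h : ∀ x ∈ Icc a b, ∃ f', HasDerivAt f f' x ∧ |f'| ≤ c) : |f b - f a| ≤ c * (b - a) := by
  rw [abs_le]
  constructor
  · have := deriv_ge_const (f := f) (c := -c) hab (fun x hx => by
      obtain ⟨f', h1, h2⟩ := h x hx
      exact ⟨f', h1, (abs_le.1 h2).1⟩)
    linarith
  · exact deriv_le_const (f := f) (c := c) hab (fun x hx => by
      obtain ⟨f', h1, h2⟩ := h x hx
      exact ⟨f', h1, (abs_le.1 h2).2⟩)

theorem gron_lower {f : ℝ → ℝ} {a b c : ℝ} (hab : a ≤ b)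
    (h : ∀ x ∈ Icc a b, ∃ f', HasDerivAt f f' x ∧ c * f x ≤ f') :
    f a * Real.exp (c * (b - a)) ≤ f b := by
  have := le_of_deriv (f := fun x => f x * Real.exp (-c * (x - a))) hab (fun x hx => by
    obtain ⟨f', h1, h2⟩ := h x hx
    have he : HasDerivAt (fun x => Real.exp (-c * (x - a))) (Real.exp (-c * (x - a)) * (-c * 1)) x :=
      (((hasDerivAt_id x).sub_const a).const_mul (-c)).exp
    refine ⟨_, h1.mul he, ?_⟩
    have : f' * Real.exp (-c * (x - a)) + f x * (Real.exp (-c * (x - a)) * (-c * 1))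
        = (f' - c * f x) * Real.exp (-c * (x - a)) := by ring
    rw [this]
    exact mul_nonneg (by linarith) (Real.exp_pos _).le)
  simp only [sub_self, mul_zero, Real.exp_zero, mul_one] at this
  calc f a * Real.exp (c * (b - a)) ≤ (f b * Real.exp (-c * (b - a))) * Real.exp (c * (b - a)) :=
        mul_le_mul_of_nonneg_right this (Real.exp_pos _).le
    _ = f b := by rw [mul_assoc, ← Real.exp_add]; simp

theorem gron_upper {f : ℝ → ℝ} {a b c : ℝ} (hab : a ≤ b)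
    (h : ∀ x ∈ Icc a b, ∃ f', HasDerivAt f f' x ∧ f' ≤ c * f x) :
    f b ≤ f a * Real.exp (c * (b - a)) := by
  have := gron_lower (f := fun x => -f x) (c := c) hab (fun x hx => by
    obtain ⟨f', h1, h2⟩ := h x hx
    exact ⟨-f', h1.neg, by linarith⟩)
  linarith

/-- Exponential growth for `b' ≥ w - α b`, `w' ≥ κ² b`. -/
theorem growth {b w : ℝ → ℝ} {t₀ t₁ α κ : ℝ} (ht : t₀ ≤ t₁) (hα : 0 ≤ α) (hκ : 0 < κ)
    (hb0 : ∀ s ∈ Icc t₀ t₁, 0 ≤ b s)
    (hb : ∀ s ∈ Icc t₀ t₁, ∃ b', HasDerivAt b b' s ∧ w s - α * b s ≤ b')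
    (hw : ∀ s ∈ Icc t₀ t₁, ∃ w', HasDerivAt w w' s ∧ κ ^ 2 * b s ≤ w')
    (hw0 : ∀ s ∈ Icc t₀ t₁, -(κ / 2) * b s ≤ w s) :
    (1 / 4) * b t₀ * Real.exp ((κ - 2 * α) * (t₁ - t₀)) ≤ b t₁ := by
  have hu : ∀ s ∈ Icc t₀ t₁, κ / 2 * b t₀ * Real.exp ((κ - 2 * α) * (s - t₀)) ≤ w s + κ * b s := by
    intro s hs
    have h1 := gron_lower (f := fun x => w x + κ * b x) (c := κ - 2 * α) hs.1 (fun x hx => by
      have hx' : x ∈ Icc t₀ t₁ := ⟨hx.1, hx.2.trans hs.2⟩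
      obtain ⟨b', h1, h2⟩ := hb x hx'
      obtain ⟨w', h3, h4⟩ := hw x hx'
      refine ⟨_, h3.add (h1.const_mul κ), ?_⟩
      have h5 := hw0 x hx'
      have h6 := hb0 x hx'
      have h7 : κ * (w x - α * b x) ≤ κ * b' := mul_le_mul_of_nonneg_left h2 hκ.le
      have h8 : 0 ≤ α * (2 * w x + κ * b x) := mul_nonneg hα (by linarith)
      nlinarith)
    have h2 : κ / 2 * b t₀ ≤ w t₀ + κ * b t₀ := by
      have := hw0 t₀ ⟨le_rfl, ht⟩
      linarith
    exact (mul_le_mul_of_nonneg_right h2 (Real.exp_pos _).le).trans h1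
  have hbt := hb0 t₀ ⟨le_rfl, ht⟩
  have key := le_of_deriv (f := fun x => b x * Real.exp ((κ + α) * (x - t₀)) -
      (1 / 4) * b t₀ * Real.exp ((2 * κ - α) * (x - t₀))) ht (fun x hx => by
    obtain ⟨b', h1, h2⟩ := hb x hx
    have he : HasDerivAt (fun x => Real.exp ((κ + α) * (x - t₀)))
        (Real.exp ((κ + α) * (x - t₀)) * ((κ + α) * 1)) x :=
      (((hasDerivAt_id x).sub_const t₀).const_mul (κ + α)).exp
    have he' : HasDerivAt (fun x => Real.exp ((2 * κ - α) * (x - t₀)))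
        (Real.exp ((2 * κ - α) * (x - t₀)) * ((2 * κ - α) * 1)) x :=
      (((hasDerivAt_id x).sub_const t₀).const_mul (2 * κ - α)).exp
    refine ⟨_, (h1.mul he).sub (he'.const_mul _), ?_⟩
    have h3 := hu x hx
    have h4 : Real.exp ((2 * κ - α) * (x - t₀)) =
        Real.exp ((κ - 2 * α) * (x - t₀)) * Real.exp ((κ + α) * (x - t₀)) := by
      rw [← Real.exp_add]; congr 1; ring
    set E := Real.exp ((κ + α) * (x - t₀)) with hE
    set E' := Real.exp ((κ - 2 * α) * (x - t₀)) with hE'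
    have hE0 : 0 < E := Real.exp_pos _
    have hE0' : 0 < E' := Real.exp_pos _
    rw [h4]
    have h5 : b' * E + b x * (E * ((κ + α) * 1)) - (1 / 4) * b t₀ * (E' * E * ((2 * κ - α) * 1))
        = (b' + (κ + α) * b x - (1 / 4) * b t₀ * E' * (2 * κ - α)) * E := by ring
    rw [h5]
    refine mul_nonneg ?_ hE0.le
    have h6 : (1 / 4) * b t₀ * E' * (2 * κ - α) ≤ κ / 2 * b t₀ * E' := by
      have : 0 ≤ b t₀ * E' * α := by positivity
      nlinarith
    linarith)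
  simp only [sub_self, mul_zero, Real.exp_zero, mul_one] at key
  have h4 : Real.exp ((2 * κ - α) * (t₁ - t₀)) =
      Real.exp ((κ - 2 * α) * (t₁ - t₀)) * Real.exp ((κ + α) * (t₁ - t₀)) := by
    rw [← Real.exp_add]; congr 1; ring
  rw [h4] at key
  have hE0 : 0 < Real.exp ((κ + α) * (t₁ - t₀)) := Real.exp_pos _
  refine le_of_mul_le_mul_right ?_ hE0
  linarith

/-- The upper bound `w ≤ K b`. -/
theorem upper {b w : ℝ → ℝ} {t₀ t₁ α K K₀ : ℝ} (ht : t₀ ≤ t₁) (hK : 0 ≤ K)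
    (hb0 : ∀ s ∈ Icc t₀ t₁, 0 ≤ b s)
    (hb : ∀ s ∈ Icc t₀ t₁, ∃ b', HasDerivAt b b' s ∧ w s - α * b s ≤ b')
    (hw : ∀ s ∈ Icc t₀ t₁, ∃ w', HasDerivAt w w' s ∧ w' ≤ K₀ * b s)
    (hKK : K₀ + K * α ≤ K ^ 2) (h0 : w t₀ ≤ K * b t₀) : w t₁ ≤ K * b t₁ := by
  have h1 := gron_upper (f := fun x => w x - K * b x) (c := -K) ht (fun x hx => by
    obtain ⟨b', h1, h2⟩ := hb x hx
    obtain ⟨w', h3, h4⟩ := hw x hx
    refine ⟨_, h3.sub (h1.const_mul K), ?_⟩
    have h5 : K * (w x - α * b x) ≤ K * b' := mul_le_mul_of_nonneg_left h2 hK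
    have h6 : (K₀ + K * α) * b x ≤ K ^ 2 * b x := mul_le_mul_of_nonneg_right hKK (hb0 x hx)
    nlinarith)
  have h2 : (w t₀ - K * b t₀) * Real.exp (-K * (t₁ - t₀)) ≤ 0 :=
    mul_nonpos_of_nonpos_of_nonneg (by linarith) (Real.exp_pos _).le
  linarith

/-- Continuous induction. -/
theorem cont_ind {p : ℝ → Prop} {T : ℝ} (h0 : p 0)
    (hcl : ∀ t, 0 < t → t < T → (∀ s, 0 ≤ s → s < t → p s) → p t)
    (hop : ∀ t, 0 ≤ t → t < T → (∀ s, 0 ≤ s → s ≤ t → p s) →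
      ∃ δ, 0 < δ ∧ ∀ s, t < s → s < t + δ → p s) :
    ∀ t, 0 ≤ t → t < T → p t := by
  intro t₁ ht₁0 ht₁T
  set S : Set ℝ := {t | 0 ≤ t ∧ t ≤ t₁ ∧ ∀ s, 0 ≤ s → s ≤ t → p s} with hS
  have hne : (0 : ℝ) ∈ S := ⟨le_rfl, ht₁0, fun s h1 h2 => by
    have : s = 0 := le_antisymm h2 h1
    rw [this]; exact h0⟩
  have hbdd : BddAbove S := ⟨t₁, fun t ht => ht.2.1⟩
  set t := sSup S with ht
  have ht0 : 0 ≤ t := le_csSup hbdd hne
  have htt₁ : t ≤ t₁ := csSup_le ⟨_, hne⟩ fun s hs => hs.2.1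
  have hlt : ∀ s, 0 ≤ s → s < t → p s := by
    intro s hs0 hst
    obtain ⟨t', ht', hst'⟩ := exists_lt_of_lt_csSup ⟨_, hne⟩ hst
    exact ht'.2.2 s hs0 hst'.le
  have hpt : p t := by
    rcases ht0.eq_or_lt with h | h
    · rw [← h]; exact h0
    · exact hcl t h (htt₁.trans_lt ht₁T) hlt
  have hall : ∀ s, 0 ≤ s → s ≤ t → p s := by
    intro s hs0 hst
    rcases hst.eq_or_lt with h | h
    · rw [h]; exact hpt
    · exact hlt s hs0 h
  rcases htt₁.eq_or_lt with h | h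
  · rw [← h]; exact hpt
  · obtain ⟨δ, hδ, hδ'⟩ := hop t ht0 (h.trans ht₁T) hall
    have hmem : min t₁ (t + δ / 2) ∈ S := by
      refine ⟨le_min ht₁0 (by linarith), min_le_left _ _, fun s hs0 hs => ?_⟩
      rcases le_or_gt s t with h' | h'
      · exact hall s hs0 h'
      · exact hδ' s h' (by linarith [hs.trans (min_le_right t₁ (t + δ / 2))])
    have := le_csSup hbdd hmem
    have h2 : t < min t₁ (t + δ / 2) := lt_min h (by linarith)
    linarith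

end Pool.Agent.H306.CK
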