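import Pool.Agent.H306.CK.Field

/-! The momentum equation and the vorticity. -/

namespace Pool.Agent.H306.CK

open Set MeasureTheory

open scoped Real ContDiff

section

variable {P : Par} {K : ℕ → ℕ} (hF : Fr P K)

theorem add_line_zero (x : V) (s : ℝ) : (x + s • (Pi.single 0 (1 : ℝ) : V)) 0 = x 0 + s := by
  simp

theorem add_line_one (x : V) (s : ℝ) : (x + s • (Pi.single 0 (1 : ℝ) : V)) 1 = x 1 := by
  simp

theorem add_line2_zero (x : V) (s : ℝ) : (x + s • (Pi.single 2 (1 : ℝ) : V)) 0 = x 0 := by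
  simp

theorem add_line2_one (x : V) (s : ℝ) : (x + s • (Pi.single 2 (1 : ℝ) : V)) 1 = x 1 := by
  simp

theorem uu_congr (ξ : X) {x y : V} (h0 : x 0 = y 0) (h1 : x 1 = y 1) :
    uu P K ξ x = uu P K ξ y := by
  unfold uu L0 La Lb G0 f0 fa fb
  rw [h0, h1]

theorem L0_congr {x y : V} (h1 : x 1 = y 1) : L0 P K x = L0 P K y := by
  unfold L0 f0
  rw [h1]

include hF

theorem uu_diff (ξ : X) (i : Fin 3) (x : V) : DifferentiableAt ℝ (fun y => uu P K ξ y i) x := by
  have h1 := (uu_contDiff hF ξ).differentiable (by simp)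
  exact (differentiableAt_pi.1 (h1 x)) i

theorem pd_two (ξ : X) (i : Fin 3) (x : V) : pd 2 (fun y => uu P K ξ y i) x = 0 := by
  refine pd_zero_of_line (uu_diff hF ξ i x) fun s => ?_
  rw [uu_congr ξ (add_line2_zero x s) (add_line2_one x s)]

theorem pd_zero_zero (ξ : X) (x : V) : pd 0 (fun y => uu P K ξ y 0) x = 0 := by
  refine pd_zero_of_line (uu_diff hF ξ 0 x) fun s => ?_
  change L0 P K _ ξ = L0 P K _ ξ
  rw [L0_congr (add_line_one x s)]

theorem pd_one (ξ : X) (j : Fin 3) (x : V) : pd j (fun y => uu P K ξ y 1) x = 0 := by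
  refine pd_zero_of_line (uu_diff hF ξ 1 x) fun s => ?_
  rfl

/-- `∂₀ u₂` in the band `m`. -/
theorem pd_band {m : ℕ} {x : V} (h : hχ m (x 1) ≠ 0) (ξ : X) :
    pd 0 (fun y => uu P K ξ y 2) x =
      -(BX P ξ m * (hχ m (x 1) * (K m * Real.sin (K m * x 0)))) +
      K m * ∑' i, DX P ξ m i * (PP K m (x 1) ^ (i + 1) * ((-1) ^ i * tr (i + 1) (K m * x 0))) := by
  refine pd_of_line (uu_diff hF ξ 2 x) ?_
  have h1 : (fun s : ℝ => uu P K ξ (x + s • (Pi.single 0 (1 : ℝ) : V)) 2) = fun s =>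
      BX P ξ m * (hχ m (x 1) * Real.cos (K m * (x 0 + s))) + serD P K ξ m (x 0 + s) (x 1) := by
    ext s
    have h2 : hχ m ((x + s • (Pi.single 0 (1 : ℝ) : V)) 1) ≠ 0 := by rwa [add_line_one]
    change G0 P K _ + La P K _ ξ + Lb P K _ ξ = _
    rw [band_u2 hF h2, add_line_zero, add_line_one]
  rw [h1]
  have h2 : HasDerivAt (fun s : ℝ => x 0 + s) 1 0 := (hasDerivAt_id (0 : ℝ)).const_add (x 0)
  have h3 := serD_deriv hF ξ m (x 0 + 0) (x 1)
  have h4 := h3.comp (0 : ℝ) h2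
  have h5 : HasDerivAt (fun s : ℝ => (K m : ℝ) * (x 0 + s)) (K m * 1) 0 := h2.const_mul _
  have h6 := ((h5.cos.const_mul (hχ m (x 1))).const_mul (BX P ξ m)).add h4
  refine h6.congr_deriv ?_
  simp only [add_zero, mul_one]
  ring

theorem div_uu (ξ : X) (x : V) : ∑ i, pd i (fun y => uu P K ξ y i) x = 0 := by
  rw [Fin.sum_univ_three, pd_zero_zero hF, pd_one hF, pd_two hF]
  simp

theorem adv_uu (ξ : X) (x : V) (i : Fin 3) :
    ∑ j, uu P K ξ x j * pd j (fun y => uu P K ξ y i) x =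
      uu P K ξ x 0 * pd 0 (fun y => uu P K ξ y i) x := by
  have h1 : uu P K ξ x 1 = 0 := rfl
  rw [Fin.sum_univ_three, h1, pd_two hF]
  ring

theorem serD_vf (hG : P.Good) (hc : Cf P (gC K) (sC K) (vC K)) (ξ : X) (m : ℕ) (a y : ℝ) :
    serD P K (vf hG hc ξ) m a y = P.ε m * vf hG hc ξ (m, 1) * (PP K m y * Real.sin (K m * a)) -
      P.k m * bX P ξ m * (PP K m y *
        ∑' i, DX P ξ m i * (PP K m y ^ (i + 1) * ((-1) ^ i * tr (i + 1) (K m * a)))) := by
  unfold serD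
  rw [(serD_summable hF (vf hG hc ξ) m _ fun i => pow_tr_abs m (i + 1) i _ y).tsum_eq_zero_add]
  have h1 : ∀ i, DX P (vf hG hc ξ) m (i + 1) * (PP K m y ^ (i + 1 + 1) * tr (i + 1) (K m * a)) =
      -(P.k m * bX P ξ m * PP K m y) * (DX P ξ m i * (PP K m y ^ (i + 1) *
        ((-1) ^ i * tr (i + 1) (K m * a)))) := by
    intro i
    have h2 := vf_two hG hc ξ m i
    have h3 : DX P (vf hG hc ξ) m (i + 1) = P.ε m * (1 / 4) ^ (i + 1) * vf hG hc ξ (m, i + 2) := rfl
    rw [h3, h2]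
    ring
  simp only [h1]
  rw [tsum_mul_left]
  have h4 : DX P (vf hG hc ξ) m 0 = P.ε m * vf hG hc ξ (m, 1) := by
    simp [DX]
  have h5 : tr 0 (K m * a) = Real.sin (K m * a) := by simp [tr]
  rw [h4, h5]
  ring

/-- The stationary form of the momentum equation. -/
theorem momentum_aux (hG : P.Good) (hc : Cf P (gC K) (sC K) (vC K)) (ξ : X) (x : V) (i : Fin 3) :
    (![L0 P K x (vf hG hc ξ), 0, La P K x (vf hG hc ξ) + Lb P K x (vf hG hc ξ)] : V) i +
      uu P K ξ x 0 * pd 0 (fun y => uu P K ξ y i) x = KK P K (uu P K ξ) x i := by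
  have hA : ∀ m, kap P K m * (inner3 (qf K m) (uu P K ξ) + P.r₂ * inner3 (pf K m) (uu P K ξ)) =
      P.ε m * vf hG hc ξ (m, 0) := by
    intro m
    rw [vf_zero hG hc, ← kap_q hF]
    have := kap_p hF ξ m
    linear_combination P.r₂ * this
  have hC : ∀ m, kap P K m * (P.r₁ * inner3 (pf K m) (uu P K ξ) +
      P.r₃ * inner3 (qf K m) (uu P K ξ)) =
      P.ε m * vf hG hc ξ (m, 1) - P.k m * bX P ξ m * BX P ξ m := by
    intro m
    rw [vf_one hG hc]
    have h1 := kap_p hF ξ m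
    have h2 := kap_q hF ξ m
    linear_combination P.r₁ * h1 + P.r₃ * h2
  unfold KK
  simp only [hA, hC]
  fin_cases i
  · simp only [Fin.zero_eta, Fin.isValue, Matrix.cons_val_zero, pf, qf]
    rw [pd_zero_zero hF, L0_apply hF]
    simp only [mul_zero, tsum_zero, add_zero]
    refine tsum_congr fun m => ?_
    simp only [f0]; ring
  · simp only [Fin.mk_one, Fin.isValue, Matrix.cons_val_one, Matrix.cons_val_zero, pf, qf]
    rw [pd_one hF]
    simp
  · simp only [Fin.reduceFinMk, Fin.isValue, Matrix.cons_val, pf, qf]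
    have h1 : La P K x (vf hG hc ξ) = ∑' m, P.ε m * vf hG hc ξ (m, 0) *
        (hχ (m + 1) (x 1) * Real.cos (K (m + 1) * x 0)) := by
      rw [La_apply hF]
      refine tsum_congr fun m => ?_
      simp only [fa]; ring
    rw [← h1]
    by_cases h : ∀ m, hχ m (x 1) = 0
    · have h2 : uu P K ξ x 0 = 0 := band_L0_zero hF h ξ
      rw [band_Lb_zero hF h, h2]
      have h3 : ∀ m, (P.ε m * vf hG hc ξ (m, 1) - P.k m * bX P ξ m * BX P ξ m) *
          (PP K m (x 1) * Real.sin (K m * x 0)) = 0 := fun m => by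
        rw [PP_zero_of_hχ K (h m)]; ring
      simp [h3]
    · push Not at h
      obtain ⟨m, hm⟩ := h
      have h2 : uu P K ξ x 0 = bX P ξ m * PP K m (x 1) := band_L0 hF hm ξ
      have h5 : ∑' l, (P.ε l * vf hG hc ξ (l, 1) - P.k l * bX P ξ l * BX P ξ l) *
          (PP K l (x 1) * Real.sin (K l * x 0)) =
          (P.ε m * vf hG hc ξ (m, 1) - P.k m * bX P ξ m * BX P ξ m) *
          (PP K m (x 1) * Real.sin (K m * x 0)) :=
        tsum_eq_single m (fun l hl => by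
          rw [PP_zero_of_hχ K (hχ_disj hl.symm hm)]; ring)
      rw [h5, band_Lb hF hm, serD_vf hF hG hc, h2, pd_band hF hm]
      have h3 := hχ_PP K m (x 1)
      have h4 := hF.k_eq m
      rw [h4]
      linear_combination (-(bX P ξ m * BX P ξ m * K m * Real.sin (K m * x 0))) * h3

omit hF in
theorem uu_hasDerivAt (hG : P.Good) (hc : Cf P (gC K) (sC K) (vC K)) {a b : ℝ} {x : ℝ → X}
    (hx : SolOn (vf hG hc) a b x) {t : ℝ} (ht : t ∈ Ioo a b) (y : V) (i : Fin 3) :
    HasDerivAt (fun s => uu P K (x s) y i)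
      ((![L0 P K y (vf hG hc (x t)), 0, La P K y (vf hG hc (x t)) +
        Lb P K y (vf hG hc (x t))] : V) i) t := by
  have h0 := (L0 P K y).hasFDerivAt.comp_hasDerivAt t (hx t ht)
  have ha := (La P K y).hasFDerivAt.comp_hasDerivAt t (hx t ht)
  have hb := (Lb P K y).hasFDerivAt.comp_hasDerivAt t (hx t ht)
  fin_cases i
  · exact h0
  · exact hasDerivAt_const _ _
  · have h1 := (ha.const_add (G0 P K y)).add hb
    exact h1

theorem uu_periodic (ξ : X) : Periodic3 (uu P K ξ) := by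
  have hper : ∀ (i : Fin 3) (x : V), (∀ m, hχ m ((x + Pi.single i (2 * π) : V) 1) = hχ m (x 1)) ∧
      (∀ m, PP K m ((x + Pi.single i (2 * π) : V) 1) = PP K m (x 1)) ∧
      (∀ m, Real.cos (K m * (x + Pi.single i (2 * π) : V) 0) = Real.cos (K m * x 0)) ∧
      (∀ m, Real.sin (K m * (x + Pi.single i (2 * π) : V) 0) = Real.sin (K m * x 0)) := by
    intro i x
    fin_cases i
    · simp [cos_nat_per, sin_nat_per]
    · simp [hχ_per, PP_per]
    · simp
  intro i x
  obtain ⟨h1, h2, h3, h4⟩ := hper i x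
  have h5 : ∀ l m, tr l (K m * (x + Pi.single i (2 * π) : V) 0) = tr l (K m * x 0) := by
    intro l m
    unfold tr
    rw [h3, h4]
  unfold uu L0 La Lb G0 f0 fa fb
  simp only [h1, h2, h3, h5]

/-- The velocity is a classical solution. -/
theorem isSol (hG : P.Good) (hc : Cf P (gC K) (sC K) (vC K)) {ε T : ℝ} (hε : 0 < ε) {x : ℝ → X}
    (hx : SolOn (vf hG hc) (-ε) T x) :
    IsSol (KK P K) (Ico 0 T) (fun t => uu P K (x t)) (fun _ _ => 0) := by
  have hsub : Ico 0 T ⊆ Ioo (-ε) T := fun t ht => ⟨by linarith [ht.1], ht.2⟩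
  have hvf : ContDiff ℝ ∞ (vf hG hc) := (vf_contDiff hG hc).of_le le_top
  have hxs : ContDiffOn ℝ ∞ x (Ioo (-ε) T) := hx.contDiffOn hvf
  refine ⟨?_, contDiffOn_const, fun t _ => uu_periodic hF (x t), fun t _ i y => rfl,
    fun t _ y => div_uu hF (x t) y, fun t ht y i => ?_⟩
  · exact ((uu_contDiffOn hF hxs).of_le (by exact_mod_cast le_top)).mono
      (prod_mono hsub Subset.rfl)
  · have h1 := (uu_hasDerivAt hG hc hx (hsub ht) y i).hasDerivWithinAt (s := Ico 0 T)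
    have h2 : UniqueDiffWithinAt ℝ (Ico 0 T) t := uniqueDiffOn_Ico 0 T t ht
    rw [h1.derivWithin h2, adv_uu hF]
    have h3 : pd i (fun _ : V => (0 : ℝ)) y = 0 := by simp [pd]
    rw [h3, add_zero]
    exact momentum_aux hF hG hc (x t) y i

/-- The vorticity at a special point. -/
theorem vort_point (ξ : X) (m : ℕ) : ∃ x : V, curl (uu P K ξ) x 1 = -(P.k m * BX P ξ m) := by
  have hK := hF.K_pos m
  have hKR : (0 : ℝ) < K m := by exact_mod_cast hK
  have h2m : (0 : ℝ) < 2 ^ m := by positivity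
  have h2m1 : (1 : ℝ) ≤ 2 ^ m := one_le_pow₀ (by norm_num)
  set y : ℝ := Real.arcsin (7 / 8 / 2 ^ m) with hy
  have hle : (7 / 8 / 2 ^ m : ℝ) ≤ 1 := by
    rw [div_le_one h2m]; linarith
  have hp : (0 : ℝ) < 7 / 8 / 2 ^ m := by positivity
  have hs : Real.sin y = 7 / 8 / 2 ^ m := Real.sin_arcsin (by linarith) hle
  have hs2 : 2 ^ m * Real.sin y = 7 / 8 := by
    rw [hs]; field_simp
  have hχ1 : hχ m y = 1 := hχ_one (by rw [hs2]; norm_num)
  have hψ0 : hψ m y = 0 := by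
    by_contra hcon
    have := hψ_ne hcon
    rw [hs2] at this
    norm_num at this
  have hP0 : PP K m y = 0 := by unfold PP; rw [hψ0, zero_mul]
  refine ⟨![-(π / (2 * K m)), y, 0], ?_⟩
  have h1 : hχ m ((![-(π / (2 * K m)), y, 0] : V) 1) ≠ 0 := by
    simp [hχ1]
  have h2 : curl (uu P K ξ) (![-(π / (2 * K m)), y, 0] : V) 1 =
      pd 2 (fun y => uu P K ξ y 0) (![-(π / (2 * K m)), y, 0] : V) -
      pd 0 (fun y => uu P K ξ y 2) (![-(π / (2 * K m)), y, 0] : V) := rfl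
  rw [h2, pd_two hF, pd_band hF h1]
  simp only [Matrix.cons_val_zero, Matrix.cons_val_one, hP0, hχ1]
  have h3 : (K m : ℝ) * -(π / (2 * K m)) = -(π / 2) := by field_simp
  rw [h3, Real.sin_neg, Real.sin_pi_div_two, hF.k_eq m]
  simp
  ring

end

end Pool.Agent.H306.CK
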