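import Pool.Agent.H306.CK.Smooth

/-! The velocity field satisfies the Euler equations with the linear term. -/

namespace Pool.Agent.H306.CK

open Set MeasureTheory intervalIntegral

open scoped Real ContDiff

section band

variable {P : Par} {K : ℕ → ℕ} (hF : Fr P K)

/-- The series `∑ i, D i P^(i+1) tr i`. -/
noncomputable def serD (P : Par) (K : ℕ → ℕ) (ξ : X) (m : ℕ) (a y : ℝ) : ℝ :=
  ∑' i, DX P ξ m i * (PP K m y ^ (i + 1) * tr i (K m * a))

include hF

theorem band_L0_zero {x : V} (h : ∀ m, hχ m (x 1) = 0) (ξ : X) : L0 P K x ξ = 0 := by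
  rw [L0_apply hF]
  have : ∀ m, f0 P K m x * ξ (m, 0) = 0 := fun m => by
    simp [f0, PP_zero_of_hχ K (h m)]
  simp [this]

theorem band_La_zero {x : V} (h : ∀ m, hχ m (x 1) = 0) (ξ : X) : La P K x ξ = 0 := by
  rw [La_apply hF]
  have : ∀ m, fa P K m x * ξ (m, 0) = 0 := fun m => by simp [fa, h]
  simp [this]

theorem band_Lb_zero {x : V} (h : ∀ m, hχ m (x 1) = 0) (ξ : X) : Lb P K x ξ = 0 := by
  rw [Lb_apply hF]
  have : ∀ j : ℕ × ℕ, fb P K j x * ξ (j.1, j.2 + 1) = 0 := fun j => by
    simp [fb, PP_zero_of_hχ K (h j.1)]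
  simp [this]

theorem band_L0 {m : ℕ} {x : V} (h : hχ m (x 1) ≠ 0) (ξ : X) :
    L0 P K x ξ = bX P ξ m * PP K m (x 1) := by
  rw [L0_apply hF, tsum_eq_single m]
  · simp only [f0, bX]; ring
  · intro l hl
    simp [f0, PP_zero_of_hχ K (hχ_disj hl.symm h)]

theorem band_La {m : ℕ} {x : V} (h : hχ (m + 1) (x 1) ≠ 0) (ξ : X) :
    La P K x ξ = bX P ξ m * (hχ (m + 1) (x 1) * Real.cos (K (m + 1) * x 0)) := by
  rw [La_apply hF, tsum_eq_single m]
  · simp only [fa, bX]; ring
  · intro l hl
    have h1 : m + 1 ≠ l + 1 := fun h2 => hl (by omega)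
    simp [fa, hχ_disj h1 h]

theorem band_La' {x : V} (h : hχ 0 (x 1) ≠ 0) (ξ : X) : La P K x ξ = 0 := by
  rw [La_apply hF]
  have : ∀ m, fa P K m x * ξ (m, 0) = 0 := fun m => by
    simp [fa, hχ_disj (Nat.succ_ne_zero m).symm h]
  simp [this]

theorem band_Lb {m : ℕ} {x : V} (h : hχ m (x 1) ≠ 0) (ξ : X) :
    Lb P K x ξ = serD P K ξ m (x 0) (x 1) := by
  rw [Lb_apply hF]
  have hinj : Function.Injective (fun i : ℕ => (m, i)) := fun a b hab => by
    simpa using hab
  have hsupp : Function.support (fun j : ℕ × ℕ => fb P K j x * ξ (j.1, j.2 + 1)) ⊆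
      range (fun i : ℕ => (m, i)) := by
    rintro ⟨l, i⟩ hj
    rw [Function.mem_support] at hj
    by_cases hl : m = l
    · exact ⟨i, by rw [hl]⟩
    · exfalso
      apply hj
      simp [fb, PP_zero_of_hχ K (hχ_disj hl h)]
  rw [← hinj.tsum_eq hsupp]
  unfold serD
  refine tsum_congr fun i => ?_
  simp only [fb, DX]
  ring

/-- The third component in the band `m`. -/
theorem band_u2 {m : ℕ} {x : V} (h : hχ m (x 1) ≠ 0) (ξ : X) :
    G0 P K x + La P K x ξ + Lb P K x ξ =
      BX P ξ m * (hχ m (x 1) * Real.cos (K m * x 0)) + serD P K ξ m (x 0) (x 1) := by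
  rw [band_Lb hF h]
  cases m with
  | zero =>
    rw [band_La' hF h]
    simp only [G0, BX]
    ring
  | succ n =>
    rw [band_La hF h]
    simp only [G0, BX, hχ_disj (Nat.succ_ne_zero n) h]
    ring

theorem band_u2_zero {x : V} (h : ∀ m, hχ m (x 1) = 0) (ξ : X) :
    G0 P K x + La P K x ξ + Lb P K x ξ = 0 := by
  rw [band_La_zero hF h, band_Lb_zero hF h]
  simp [G0, h]

theorem DX_sum (ξ : X) (m : ℕ) : Summable fun i => |DX P ξ m i| := by
  have hε := hF.ε_pos m
  refine Summable.of_nonneg_of_le (fun i => abs_nonneg _) (fun i => ?_)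
    ((summable_geometric_of_lt_one (by norm_num : (0 : ℝ) ≤ 1 / 4) (by norm_num)).mul_left
      (P.ε m * ‖ξ‖))
  unfold DX
  rw [abs_mul, abs_of_pos (by positivity)]
  calc P.ε m * (1 / 4) ^ i * |ξ (m, i + 1)| ≤ P.ε m * (1 / 4) ^ i * ‖ξ‖ := by
        gcongr
        exact X_abs_le _ _
    _ = _ := by ring

theorem serD_summable (ξ : X) (m : ℕ) (w : ℕ → ℝ) (hw : ∀ i, |w i| ≤ 1) :
    Summable fun i => DX P ξ m i * w i := by
  refine Summable.of_norm_bounded (DX_sum hF ξ m) fun i => ?_
  rw [norm_mul, Real.norm_eq_abs, Real.norm_eq_abs]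
  calc |DX P ξ m i| * |w i| ≤ |DX P ξ m i| * 1 := by gcongr; exact hw i
    _ = _ := mul_one _

omit hF in
theorem pow_tr_abs (m j i : ℕ) (a y : ℝ) : |PP K m y ^ j * tr i a| ≤ 1 := by
  rw [abs_mul, abs_pow]
  calc |PP K m y| ^ j * |tr i a| ≤ 1 * 1 :=
        mul_le_mul (pow_le_one₀ (abs_nonneg _) (PP_abs_le K m y)) (tr_abs i _) (abs_nonneg _)
          zero_le_one
    _ = 1 := one_mul 1

/-- The derivative of the series in the direction of the first variable. -/
theorem serD_deriv (ξ : X) (m : ℕ) (a y : ℝ) :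
    HasDerivAt (fun s => serD P K ξ m s y)
      (K m * ∑' i, DX P ξ m i * (PP K m y ^ (i + 1) * ((-1) ^ i * tr (i + 1) (K m * a)))) a := by
  have h := hasDerivAt_tsum (𝕜 := ℝ) (F := ℝ)
    (g := fun i s => DX P ξ m i * (PP K m y ^ (i + 1) * tr i (K m * s)))
    (g' := fun i s => DX P ξ m i * (PP K m y ^ (i + 1) *
      (((-1) ^ i * tr (i + 1) (K m * s)) * (K m * 1))))
    (u := fun i => K m * |DX P ξ m i|) (y₀ := 0)
    ((DX_sum hF ξ m).mul_left _) (fun i s => ?_) (fun i s => ?_) ?_ a
  · unfold serD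
    refine h.congr_deriv ?_
    rw [← tsum_mul_left]
    exact tsum_congr fun i => by ring
  · have h1 : HasDerivAt (fun s : ℝ => (K m : ℝ) * s) (K m * 1) s :=
      (hasDerivAt_id s).const_mul _
    exact (((tr_deriv i (K m * s)).comp s h1).const_mul _).const_mul _
  · have hn : ‖((-1 : ℝ)) ^ i‖ = 1 := by simp
    rw [norm_mul, norm_mul, norm_mul, norm_mul, hn, one_mul,
      mul_one, Real.norm_eq_abs, Real.norm_eq_abs, Real.norm_eq_abs, Real.norm_eq_abs,
      abs_of_nonneg (Nat.cast_nonneg (K m) : (0 : ℝ) ≤ K m), abs_pow]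
    have h1 : |PP K m y| ^ (i + 1) ≤ 1 := pow_le_one₀ (abs_nonneg _) (PP_abs_le K m y)
    have h2 := tr_abs (i + 1) (K m * s)
    have h3 : (0 : ℝ) ≤ K m := Nat.cast_nonneg _
    calc |DX P ξ m i| * (|PP K m y| ^ (i + 1) * (|tr (i + 1) (K m * s)| * K m)) ≤
          |DX P ξ m i| * (1 * (1 * K m)) := by gcongr
      _ = _ := by ring
  · exact serD_summable hF ξ m _ fun i => pow_tr_abs m (i + 1) i _ y

end band

/-- Partial derivatives from derivatives along lines. -/
theorem pd_of_line {f : V → ℝ} {x : V} {j : Fin 3} {c : ℝ} (hf : DifferentiableAt ℝ f x)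
    (h : HasDerivAt (fun s : ℝ => f (x + s • Pi.single j (1 : ℝ))) c 0) : pd j f x = c := by
  have h1 : HasDerivAt (fun s : ℝ => x + s • (Pi.single j (1 : ℝ) : V))
      ((1 : ℝ) • (Pi.single j (1 : ℝ) : V)) 0 :=
    ((hasDerivAt_id (0 : ℝ)).smul_const _).const_add x
  have h2 : HasFDerivAt f (fderiv ℝ f x) (x + (0 : ℝ) • (Pi.single j (1 : ℝ) : V)) := by
    simpa using hf.hasFDerivAt
  have h3 := h2.comp_hasDerivAt (0 : ℝ) h1
  rw [one_smul] at h3
  exact h3.unique h

theorem pd_zero_of_line {f : V → ℝ} {x : V} {j : Fin 3} (hf : DifferentiableAt ℝ f x)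
    (h : ∀ s : ℝ, f (x + s • Pi.single j (1 : ℝ)) = f x) : pd j f x = 0 := by
  refine pd_of_line hf ?_
  simp only [h]
  exact hasDerivAt_const 0 (f x)

section integrals

theorem torus_int_prod (a b : ℝ → ℝ) :
    ∫ x in torus, a (x 0) * b (x 1) =
      (∫ s in (-π)..π, a s) * (∫ s in (-π)..π, b s) * (2 * π) := by
  have hpi := Real.pi_pos
  have h1 : ∫ x in torus, a (x 0) * b (x 1) =
      ∫ x : Fin 3 → ℝ, ∏ i, (![a, b, fun _ => (1 : ℝ)] i) (x i)
        ∂(Measure.pi fun _ : Fin 3 => (volume : Measure ℝ).restrict (Icc (-π) π)) := by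
    unfold torus
    rw [← Set.pi_univ_Icc, volume_pi, Measure.restrict_pi_pi]
    congr 1
    ext x
    simp [Fin.prod_univ_three]
  rw [h1, integral_fintype_prod_eq_prod, Fin.prod_univ_three]
  simp only [Matrix.cons_val_zero, Matrix.cons_val_one, Matrix.cons_val]
  rw [integral_Icc_eq_integral_Ioc, integral_Icc_eq_integral_Ioc, integral_Icc_eq_integral_Ioc,
    ← integral_of_le (by linarith), ← integral_of_le (by linarith),
    ← integral_of_le (by linarith)]
  simp
  ring_nf
  simp

theorem isCompact_torus : IsCompact torus := isCompact_Icc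

theorem measurableSet_torus : MeasurableSet torus := measurableSet_Icc

theorem cont_integrableOn {f : V → ℝ} (hf : Continuous f) : IntegrableOn f torus :=
  hf.continuousOn.integrableOn_compact isCompact_torus

theorem int_add2 {f g : V → ℝ} (hf : IntegrableOn f torus) (hg : IntegrableOn g torus) :
    ∫ x in torus, (f x + g x) = (∫ x in torus, f x) + ∫ x in torus, g x :=
  MeasureTheory.integral_add hf hg

theorem int_add3 {f g h : V → ℝ} (hf : IntegrableOn f torus) (hg : IntegrableOn g torus)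
    (hh : IntegrableOn h torus) :
    ∫ x in torus, (f x + g x + h x) = (∫ x in torus, f x) + (∫ x in torus, g x) +
      ∫ x in torus, h x := by
  rw [← int_add2 hf hg]
  exact MeasureTheory.integral_add (hf.add hg) hh

theorem torus_sum_int {D : ℕ → ℝ} (hD : Summable fun i => |D i|) {w : ℕ → V → ℝ}
    (hw : ∀ i, Continuous (w i)) (hw1 : ∀ i x, |w i x| ≤ 1) :
    ∫ x in torus, ∑' i, D i * w i x = ∑' i, D i * ∫ x in torus, w i x := by
  have h := hasSum_integral_of_summable_integral_norm (μ := volume.restrict torus)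
    (F := fun i x => D i * w i x) (fun i => (cont_integrableOn (hw i)).const_mul _)
    (Summable.of_nonneg_of_le (fun i => integral_nonneg fun x => norm_nonneg _) (fun i => ?_)
      (hD.mul_right (volume.real torus)))
  · rw [← h.tsum_eq]
    exact tsum_congr fun i => MeasureTheory.integral_const_mul _ _
  · have h1 : ∫ x in torus, ‖D i * w i x‖ ≤ ∫ _ in torus, |D i| := by
      apply setIntegral_mono_on
      · exact (cont_integrableOn (continuous_const.mul (hw i))).norm
      · exact cont_integrableOn continuous_const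
      · exact measurableSet_torus
      · intro x _
        rw [norm_mul, Real.norm_eq_abs, Real.norm_eq_abs]
        calc |D i| * |w i x| ≤ |D i| * 1 := by gcongr; exact hw1 i x
          _ = _ := mul_one _
    refine h1.trans (le_of_eq ?_)
    rw [setIntegral_const, smul_eq_mul, mul_comm]

theorem sin_nat_pi (k : ℕ) : Real.sin (k * π) = 0 := Real.sin_nat_mul_pi k

theorem int_cos_cos {k : ℕ} (hk : 0 < k) : ∫ s in (-π)..π, Real.cos (k * s) ^ 2 = π := by
  rw [int_cos_sq (by exact_mod_cast hk)]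
  have h1 : Real.sin (2 * k * π) = 0 := by
    have := Real.sin_nat_mul_pi (2 * k)
    push_cast at this
    exact this
  have h2 : Real.sin (2 * k * -π) = 0 := by
    rw [mul_neg, Real.sin_neg, h1, neg_zero]
  rw [h1, h2]
  ring

theorem int_sin_sin {k : ℕ} (hk : 0 < k) : ∫ s in (-π)..π, Real.sin (k * s) ^ 2 = π := by
  have h : ∀ s : ℝ, Real.sin (k * s) ^ 2 = 1 - Real.cos (k * s) ^ 2 := fun s => by
    rw [Real.sin_sq]
  simp only [h]
  rw [integral_sub intervalIntegrable_const (by
    apply Continuous.intervalIntegrable; fun_prop), int_cos_cos hk]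
  simp

theorem int_sin_cos {k : ℕ} (hk : 0 < k) :
    ∫ s in (-π)..π, Real.sin (k * s) * Real.cos (k * s) = 0 := by
  have hk' : (0 : ℝ) < k := by exact_mod_cast hk
  have h : ∀ x ∈ uIcc (-π) π, HasDerivAt (fun s => Real.sin (k * s) ^ 2 / (2 * k))
      (Real.sin (k * x) * Real.cos (k * x)) x := by
    intro x _
    have h1 : HasDerivAt (fun s : ℝ => (k : ℝ) * s) (k * 1) x := (hasDerivAt_id x).const_mul _
    refine ((h1.sin.pow 2).div_const (2 * k)).congr_deriv ?_
    field_simp
    simp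
    ring
  rw [integral_eq_sub_of_hasDerivAt h (by
    apply Continuous.intervalIntegrable; fun_prop)]
  rw [mul_neg, Real.sin_neg, sin_nat_pi]
  simp

theorem int_sin_tr {k : ℕ} (hk : 0 < k) (i : ℕ) :
    ∫ s in (-π)..π, Real.sin (k * s) * tr i (k * s) = if Even i then π else 0 := by
  unfold tr
  split_ifs
  · refine Eq.trans ?_ (int_sin_sin hk)
    refine integral_congr fun s _ => ?_
    ring
  · exact int_sin_cos hk

theorem int_cos_tr {k : ℕ} (hk : 0 < k) (i : ℕ) :
    ∫ s in (-π)..π, Real.cos (k * s) * tr i (k * s) = if Odd i then π else 0 := by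
  unfold tr
  by_cases h : Even i
  · rw [if_neg (by rwa [Nat.not_odd_iff_even])]
    simp only [h, if_true]
    rw [← int_sin_cos hk]
    exact integral_congr fun s _ => mul_comm _ _
  · rw [if_pos (Nat.not_even_iff_odd.1 h)]
    simp only [h, if_false]
    refine Eq.trans ?_ (int_cos_cos hk)
    refine integral_congr fun s _ => ?_
    ring

end integrals

/-- The fields of the operator. -/
noncomputable def pf (K : ℕ → ℕ) (m : ℕ) (x : V) : V :=
  ![PP K m (x 1), 0, hχ (m + 1) (x 1) * Real.cos (K (m + 1) * x 0)]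

noncomputable def qf (K : ℕ → ℕ) (m : ℕ) (x : V) : V :=
  ![0, 0, PP K m (x 1) * Real.sin (K m * x 0)]

/-- The weights of the operator. -/
noncomputable def kap (P : Par) (K : ℕ → ℕ) (m : ℕ) : ℝ := P.c m / (4 * π ^ 2 * Pi2 K m)

/-- The operator. -/
noncomputable def KK (P : Par) (K : ℕ → ℕ) (v : V → V) (x : V) : V := fun i =>
  (∑' m, kap P K m * (inner3 (qf K m) v + P.r₂ * inner3 (pf K m) v) * pf K m x i) +
  ∑' m, kap P K m * (P.r₁ * inner3 (pf K m) v + P.r₃ * inner3 (qf K m) v) * qf K m x i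

theorem tr_continuous (i : ℕ) : Continuous (tr i) := by
  unfold tr
  split_ifs
  · exact Real.continuous_sin
  · exact Real.continuous_cos

section pairings

variable {P : Par} {K : ℕ → ℕ} (hF : Fr P K)

include hF

theorem inner_q (ξ : X) (m : ℕ) :
    inner3 (qf K m) (uu P K ξ) = 2 * π ^ 2 * ∑' i, (if Even i then Mu K m (i + 2) else 0) *
      DX P ξ m i := by
  have h1 : ∀ x : V, ∑ i, qf K m x i * uu P K ξ x i =
      BX P ξ m * ((Real.sin (K m * x 0) * Real.cos (K m * x 0)) * PP K m (x 1)) +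
      ∑' i, DX P ξ m i * ((Real.sin (K m * x 0) * tr i (K m * x 0)) * PP K m (x 1) ^ (i + 2)) := by
    intro x
    rw [Fin.sum_univ_three]
    simp only [qf, uu, Matrix.cons_val_zero, Matrix.cons_val_one, Matrix.cons_val]
    by_cases h : hχ m (x 1) = 0
    · simp [PP_zero_of_hχ K h]
    · rw [band_u2 hF h]
      unfold serD
      have h2 := hχ_PP K m (x 1)
      have h3 : ∑' i, DX P ξ m i * ((Real.sin (K m * x 0) * tr i (K m * x 0)) *
          PP K m (x 1) ^ (i + 2)) = PP K m (x 1) * Real.sin (K m * x 0) *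
          ∑' i, DX P ξ m i * (PP K m (x 1) ^ (i + 1) * tr i (K m * x 0)) := by
        rw [← tsum_mul_left]
        exact tsum_congr fun i => by ring
      rw [h3]
      linear_combination (BX P ξ m * Real.sin (K m * x 0) * Real.cos (K m * x 0)) * h2
  unfold inner3
  simp only [h1]
  have hc : Continuous fun x : V => Real.sin (K m * x 0) * Real.cos (K m * x 0) *
      PP K m (x 1) := by
    have := (PP_contDiff K m).continuous
    fun_prop
  have hw : ∀ i, Continuous fun x : V => (Real.sin (K m * x 0) * tr i (K m * x 0)) *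
      PP K m (x 1) ^ (i + 2) := fun i => by
    have := (PP_contDiff K m).continuous
    have := tr_continuous i
    fun_prop
  have hw1 : ∀ i (x : V), |(Real.sin (K m * x 0) * tr i (K m * x 0)) *
      PP K m (x 1) ^ (i + 2)| ≤ 1 := fun i x => by
    have h2 := pow_tr_abs (K := K) m (i + 2) i (K m * x 0) (x 1)
    have h3 := Real.abs_sin_le_one (K m * x 0)
    calc |(Real.sin (K m * x 0) * tr i (K m * x 0)) * PP K m (x 1) ^ (i + 2)| =
          |Real.sin (K m * x 0)| * |PP K m (x 1) ^ (i + 2) * tr i (K m * x 0)| := by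
          rw [← abs_mul]; congr 1; ring
      _ ≤ 1 * 1 := mul_le_mul h3 h2 (abs_nonneg _) zero_le_one
      _ = 1 := one_mul 1
  rw [int_add2 ((cont_integrableOn hc).const_mul _) ?_]
  · rw [torus_sum_int (DX_sum hF ξ m) hw hw1, MeasureTheory.integral_const_mul]
    have h2 := torus_int_prod (fun s => Real.sin (K m * s) * Real.cos (K m * s))
      (fun s => PP K m s)
    rw [h2, int_sin_cos (hF.K_pos m)]
    have h3 : ∀ i, ∫ x in torus, (Real.sin (K m * x 0) * tr i (K m * x 0)) *
        PP K m (x 1) ^ (i + 2) = (if Even i then π else 0) * Mu K m (i + 2) * (2 * π) := by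
      intro i
      have h4 := torus_int_prod (fun s => Real.sin (K m * s) * tr i (K m * s))
        (fun s => PP K m s ^ (i + 2))
      rw [h4, int_sin_tr (hF.K_pos m)]
      rfl
    simp only [h3]
    rw [zero_mul, zero_mul, mul_zero, zero_add, ← tsum_mul_left]
    refine tsum_congr fun i => ?_
    split_ifs <;> ring
  · -- integrability of the series
    refine Integrable.mono' (cont_integrableOn (continuous_const (y := ∑' i, |DX P ξ m i|))) ?_ ?_
    · have h4 : Continuous fun x : V => ∑' i, DX P ξ m i *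
          ((Real.sin (K m * x 0) * tr i (K m * x 0)) * PP K m (x 1) ^ (i + 2)) := by
        refine continuous_tsum (fun i => continuous_const.mul (hw i)) (DX_sum hF ξ m)
          fun i x => ?_
        rw [norm_mul, Real.norm_eq_abs, Real.norm_eq_abs]
        calc _ ≤ |DX P ξ m i| * 1 := by gcongr; exact hw1 i x
          _ = _ := mul_one _
      exact h4.aestronglyMeasurable
    · refine Filter.Eventually.of_forall fun x => ?_
      refine tsum_of_norm_bounded (DX_sum hF ξ m).hasSum fun i => ?_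
      rw [norm_mul, Real.norm_eq_abs, Real.norm_eq_abs]
      calc _ ≤ |DX P ξ m i| * 1 := by gcongr; exact hw1 i x
        _ = _ := mul_one _

theorem inner_p (ξ : X) (m : ℕ) :
    inner3 (pf K m) (uu P K ξ) = 4 * π ^ 2 * (bX P ξ m * Pi2 K m) +
      2 * π ^ 2 * (bX P ξ m * Nu (m + 1)) +
      2 * π ^ 2 * ∑' i, (if Odd i then Mu K (m + 1) (i + 1) else 0) * DX P ξ (m + 1) i := by
  have h1 : ∀ x : V, ∑ i, pf K m x i * uu P K ξ x i =
      bX P ξ m * (1 * PP K m (x 1) ^ 2) +
      bX P ξ m * (Real.cos (K (m + 1) * x 0) ^ 2 * hχ (m + 1) (x 1) ^ 2) +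
      ∑' i, DX P ξ (m + 1) i * ((Real.cos (K (m + 1) * x 0) * tr i (K (m + 1) * x 0)) *
        PP K (m + 1) (x 1) ^ (i + 1)) := by
    intro x
    rw [Fin.sum_univ_three]
    simp only [pf, uu, Matrix.cons_val_zero, Matrix.cons_val_one, Matrix.cons_val]
    have h0 : PP K m (x 1) * L0 P K x ξ = bX P ξ m * (1 * PP K m (x 1) ^ 2) := by
      by_cases h : hχ m (x 1) = 0
      · simp [PP_zero_of_hχ K h]
      · rw [band_L0 hF h]; ring
    rw [h0]
    by_cases h : hχ (m + 1) (x 1) = 0
    · simp [PP_zero_of_hχ K h, h]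
    · rw [band_u2 hF h]
      unfold serD
      have h2 : ∑' i, DX P ξ (m + 1) i * ((Real.cos (K (m + 1) * x 0) *
          tr i (K (m + 1) * x 0)) * PP K (m + 1) (x 1) ^ (i + 1)) =
          hχ (m + 1) (x 1) * Real.cos (K (m + 1) * x 0) *
          ∑' i, DX P ξ (m + 1) i * (PP K (m + 1) (x 1) ^ (i + 1) * tr i (K (m + 1) * x 0)) := by
        rw [← tsum_mul_left]
        refine tsum_congr fun i => ?_
        have h3 := hχ_PP K (m + 1) (x 1)
        have h4 : hχ (m + 1) (x 1) * PP K (m + 1) (x 1) ^ (i + 1) = PP K (m + 1) (x 1) ^ (i + 1) := by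
          rw [pow_succ']
          rw [← mul_assoc, h3]
        linear_combination (-(DX P ξ (m + 1) i * Real.cos (K (m + 1) * x 0) *
          tr i (K (m + 1) * x 0))) * h4
      rw [h2]
      simp only [BX]
      ring
  unfold inner3
  simp only [h1]
  have hPc := (PP_contDiff K m).continuous
  have hPc' := (PP_contDiff K (m + 1)).continuous
  have hXc := (hχ_contDiff (m + 1)).continuous
  have hc1 : Continuous fun x : V => 1 * PP K m (x 1) ^ 2 := by fun_prop
  have hc2 : Continuous fun x : V => Real.cos (K (m + 1) * x 0) ^ 2 * hχ (m + 1) (x 1) ^ 2 := by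
    fun_prop
  have hw : ∀ i, Continuous fun x : V => (Real.cos (K (m + 1) * x 0) * tr i (K (m + 1) * x 0)) *
      PP K (m + 1) (x 1) ^ (i + 1) := fun i => by
    have := tr_continuous i
    fun_prop
  have hw1 : ∀ i (x : V), |(Real.cos (K (m + 1) * x 0) * tr i (K (m + 1) * x 0)) *
      PP K (m + 1) (x 1) ^ (i + 1)| ≤ 1 := fun i x => by
    have h2 := pow_tr_abs (K := K) (m + 1) (i + 1) i (K (m + 1) * x 0) (x 1)
    have h3 := Real.abs_cos_le_one (K (m + 1) * x 0)
    calc |(Real.cos (K (m + 1) * x 0) * tr i (K (m + 1) * x 0)) * PP K (m + 1) (x 1) ^ (i + 1)| =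
          |Real.cos (K (m + 1) * x 0)| * |PP K (m + 1) (x 1) ^ (i + 1) *
            tr i (K (m + 1) * x 0)| := by
          rw [← abs_mul]; congr 1; ring
      _ ≤ 1 * 1 := mul_le_mul h3 h2 (abs_nonneg _) zero_le_one
      _ = 1 := one_mul 1
  rw [int_add3 ((cont_integrableOn hc1).const_mul _) ((cont_integrableOn hc2).const_mul _) ?_]
  · rw [torus_sum_int (DX_sum hF ξ (m + 1)) hw hw1,
      MeasureTheory.integral_const_mul (bX P ξ m) (fun x : V => 1 * PP K m (x 1) ^ 2),
      MeasureTheory.integral_const_mul (bX P ξ m)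
        (fun x : V => Real.cos (K (m + 1) * x 0) ^ 2 * hχ (m + 1) (x 1) ^ 2)]
    have h2 := torus_int_prod (fun _ => 1) (fun s => PP K m s ^ 2)
    have h3 := torus_int_prod (fun s => Real.cos (K (m + 1) * s) ^ 2)
      (fun s => hχ (m + 1) s ^ 2)
    rw [h2, h3, int_cos_cos (hF.K_pos (m + 1))]
    have h4 : ∀ i, ∫ x in torus, (Real.cos (K (m + 1) * x 0) * tr i (K (m + 1) * x 0)) *
        PP K (m + 1) (x 1) ^ (i + 1) =
        (if Odd i then π else 0) * Mu K (m + 1) (i + 1) * (2 * π) := by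
      intro i
      have h5 := torus_int_prod (fun s => Real.cos (K (m + 1) * s) * tr i (K (m + 1) * s))
        (fun s => PP K (m + 1) s ^ (i + 1))
      rw [h5, int_cos_tr (hF.K_pos (m + 1))]
      rfl
    simp only [h4]
    have h6 : ∫ _ in (-π)..π, (1 : ℝ) = 2 * π := by simp; ring
    rw [h6]
    have h7 : ∑' i, DX P ξ (m + 1) i * ((if Odd i then π else 0) * Mu K (m + 1) (i + 1) *
        (2 * π)) = 2 * π ^ 2 * ∑' i, (if Odd i then Mu K (m + 1) (i + 1) else 0) *
        DX P ξ (m + 1) i := by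
      rw [← tsum_mul_left]
      refine tsum_congr fun i => ?_
      split_ifs <;> ring
    rw [h7]
    have h8 : ∫ s in (-π)..π, PP K m s ^ 2 = Pi2 K m := rfl
    have h9 : ∫ s in (-π)..π, hχ (m + 1) s ^ 2 = Nu (m + 1) := rfl
    rw [h8, h9]
    ring
  · refine Integrable.mono' (cont_integrableOn
      (continuous_const (y := ∑' i, |DX P ξ (m + 1) i|))) ?_ ?_
    · have h4 : Continuous fun x : V => ∑' i, DX P ξ (m + 1) i *
          ((Real.cos (K (m + 1) * x 0) * tr i (K (m + 1) * x 0)) *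
            PP K (m + 1) (x 1) ^ (i + 1)) := by
        refine continuous_tsum (fun i => continuous_const.mul (hw i)) (DX_sum hF ξ (m + 1))
          fun i x => ?_
        rw [norm_mul, Real.norm_eq_abs, Real.norm_eq_abs]
        calc _ ≤ |DX P ξ (m + 1) i| * 1 := by gcongr; exact hw1 i x
          _ = _ := mul_one _
      exact h4.aestronglyMeasurable
    · refine Filter.Eventually.of_forall fun x => ?_
      refine tsum_of_norm_bounded (DX_sum hF ξ (m + 1)).hasSum fun i => ?_
      rw [norm_mul, Real.norm_eq_abs, Real.norm_eq_abs]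
      calc _ ≤ |DX P ξ (m + 1) i| * 1 := by gcongr; exact hw1 i x
        _ = _ := mul_one _

theorem kap_q (ξ : X) (m : ℕ) :
    kap P K m * inner3 (qf K m) (uu P K ξ) = WX P (sC K) ξ m := by
  have hpos := Pi2_pos K m (hF.K_ge m)
  have hpi := Real.pi_pos
  rw [inner_q hF]
  unfold WX kap
  have h1 : ∑' i, sC K m i * DX P ξ m i =
      (Pi2 K m)⁻¹ * ∑' i, (if Even i then Mu K m (i + 2) else 0) * DX P ξ m i := by
    rw [← tsum_mul_left]
    refine tsum_congr fun i => ?_
    unfold sC
    split_ifs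
    · ring
    · ring
  rw [h1]
  field_simp
  ring

theorem kap_p (ξ : X) (m : ℕ) :
    kap P K m * inner3 (pf K m) (uu P K ξ) = P.c m * VX P (gC K) (vC K) ξ m := by
  have hpos := Pi2_pos K m (hF.K_ge m)
  have hpi := Real.pi_pos
  rw [inner_p hF]
  unfold VX kap gC
  have h1 : ∑' i, vC K m i * DX P ξ (m + 1) i =
      (2 * Pi2 K m)⁻¹ * ∑' i, (if Odd i then Mu K (m + 1) (i + 1) else 0) *
        DX P ξ (m + 1) i := by
    rw [← tsum_mul_left]
    refine tsum_congr fun i => ?_
    unfold vC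
    split_ifs
    · ring
    · ring
  rw [h1]
  field_simp
  ring

end pairings

end Pool.Agent.H306.CK
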