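import Pool.Agent.H306.CK.Bd

/-! Fourier coefficients of the profiles in one dimension. -/

namespace Pool.Agent.H306.CK

open Set MeasureTheory intervalIntegral

open scoped Real ContDiff Nat

/-- The Fourier integral of a function on the circle. -/
noncomputable def c1 (h : ℝ → ℝ) (l : ℤ) : ℂ :=
  ∫ y in (-π)..π, (h y : ℂ) * Complex.exp (-(Complex.I * (l * y)))

theorem norm_exp_I (a : ℝ) : ‖Complex.exp (-(Complex.I * a))‖ = 1 := by
  have : -(Complex.I * (a : ℂ)) = ((-a : ℝ) : ℂ) * Complex.I := by push_cast; ring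
  rw [this, Complex.norm_exp_ofReal_mul_I]

theorem norm_exp_int (l : ℤ) (y : ℝ) : ‖Complex.exp (-(Complex.I * ((l : ℂ) * (y : ℂ))))‖ = 1 := by
  have h := norm_exp_I ((l : ℝ) * y)
  push_cast at h
  exact h

theorem c1_bound {h : ℝ → ℝ} {M : ℝ} (hM : ∀ y, |h y| ≤ M) (l : ℤ) : ‖c1 h l‖ ≤ M * (2 * π) := by
  have hpi := Real.pi_pos
  unfold c1
  refine (intervalIntegral.norm_integral_le_of_norm_le_const (C := M)
    fun y _ => ?_).trans (le_of_eq ?_)
  · rw [norm_mul, norm_exp_int, mul_one, Complex.norm_real]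
    exact hM y
  · rw [abs_of_pos (by linarith)]
    ring

theorem exp_int_per (l : ℤ) :
    Complex.exp (-(Complex.I * ((l : ℂ) * (π : ℝ)))) =
      Complex.exp (-(Complex.I * ((l : ℂ) * ((-π : ℝ) : ℂ)))) := by
  rw [Complex.exp_eq_exp_iff_exists_int]
  refine ⟨-l, ?_⟩
  push_cast
  ring

theorem c1_deriv {h : ℝ → ℝ} (hd : ContDiff ℝ ∞ h) (hper : ∀ y, h (y + 2 * π) = h y) (l : ℤ) :
    c1 (deriv h) l = Complex.I * l * c1 h l := by
  have hpi := Real.pi_pos
  have hh : ∀ x ∈ uIcc (-π) π, HasDerivAt (fun y : ℝ => (h y : ℂ)) ((deriv h x : ℝ) : ℂ) x := by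
    intro x _
    exact ((hd.differentiable (by simp) x).hasDerivAt).ofReal_comp
  have he : ∀ x ∈ uIcc (-π) π, HasDerivAt (fun y : ℝ => Complex.exp (-(Complex.I * (l * y))))
      (Complex.exp (-(Complex.I * (l * x))) * (-(Complex.I * (l * 1)))) x := by
    intro x _
    have h1 : HasDerivAt (fun y : ℝ => (y : ℂ)) 1 x := Complex.ofRealCLM.hasDerivAt
    exact (((h1.const_mul (l : ℂ)).const_mul Complex.I).neg).cexp
  have hdc : Continuous (deriv h) := hd.continuous_deriv (by simp)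
  have key := integral_mul_deriv_eq_deriv_mul hh he (u' := fun x => ((deriv h x : ℝ) : ℂ))
    (v' := fun x => Complex.exp (-(Complex.I * (l * x))) * (-(Complex.I * (l * 1))))
    (by
      apply Continuous.intervalIntegrable
      exact Complex.continuous_ofReal.comp hdc)
    (by
      apply Continuous.intervalIntegrable
      fun_prop)
  have hπ : h π = h (-π) := by
    have := hper (-π)
    rw [← this]; congr 1; ring
  rw [hπ, exp_int_per, sub_self, zero_sub] at key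
  unfold c1
  have h2 : ∫ y in (-π)..π, (h y : ℂ) *
      (Complex.exp (-(Complex.I * (l * y))) * (-(Complex.I * (l * 1)))) =
      -(Complex.I * l) * ∫ y in (-π)..π, (h y : ℂ) * Complex.exp (-(Complex.I * (l * y))) := by
    rw [← intervalIntegral.integral_const_mul]
    refine integral_congr fun y _ => ?_
    ring
  rw [h2] at key
  linear_combination key

theorem deriv_per {h : ℝ → ℝ} (hper : ∀ y, h (y + 2 * π) = h y) (y : ℝ) :
    deriv h (y + 2 * π) = deriv h y := by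
  have h1 : deriv (fun y => h (y + 2 * π)) y = deriv h (y + 2 * π) := deriv_comp_add_const ..
  rw [← h1]
  congr 1
  ext y
  exact hper y

theorem c1_iter {h : ℝ → ℝ} (n : ℕ) : ∀ (_ : ContDiff ℝ ∞ h) (_ : ∀ y, h (y + 2 * π) = h y)
    (l : ℤ), c1 (iteratedDeriv n h) l = (Complex.I * l) ^ n * c1 h l := by
  induction n generalizing h with
  | zero => intro _ _ l; simp
  | succ n ih =>
    intro hd hper l
    rw [iteratedDeriv_succ']
    have h1 : ContDiff ℝ ∞ (deriv h) := by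
      have := (contDiff_infty_iff_deriv.1 hd).2
      exact this
    rw [ih h1 (deriv_per hper) l, c1_deriv hd hper]
    ring

/-- Decay of the Fourier integrals. -/
theorem c1_decay {h : ℝ → ℝ} (hd : ContDiff ℝ ∞ h) (hper : ∀ y, h (y + 2 * π) = h y) {n : ℕ}
    {M : ℝ} (hM : ∀ y, |iteratedDeriv n h y| ≤ M) (l : ℤ) :
    |(l : ℝ)| ^ n * ‖c1 h l‖ ≤ M * (2 * π) := by
  have h1 := c1_bound hM l
  rw [c1_iter n hd hper, norm_mul, norm_pow, norm_mul, Complex.norm_I, one_mul,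
    Complex.norm_intCast] at h1
  exact h1

/-- The Fourier series of a smooth periodic function. -/
theorem c1_hasSum {h : ℝ → ℝ} (hd : ContDiff ℝ ∞ h) (hper : ∀ y, h (y + 2 * π) = h y)
    (hs : Summable fun l : ℤ => ‖c1 h l‖) (y : ℝ) :
    HasSum (fun l : ℤ => (1 / (2 * π) : ℂ) * c1 h l * Complex.exp (Complex.I * (l * y))) (h y) := by
  have hpi := Real.pi_pos
  have : Fact (0 < 2 * π) := ⟨by positivity⟩
  have hperc : Function.Periodic (fun y : ℝ => (h y : ℂ)) (2 * π) := fun y => by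
    simp only; rw [hper]
  set f : C(AddCircle (2 * π), ℂ) := ⟨hperc.lift, by
    have : Continuous fun y : ℝ => (h y : ℂ) := Complex.continuous_ofReal.comp hd.continuous
    exact continuous_coinduced_dom.2 this⟩ with hf
  have hfc : ∀ l, fourierCoeff f l = (1 / (2 * π) : ℂ) * c1 h l := by
    intro l
    rw [fourierCoeff_eq_intervalIntegral _ l (-π)]
    have h2 : -π + 2 * π = π := by ring
    rw [h2]
    unfold c1
    rw [Complex.real_smul]
    push_cast
    congr 1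
    refine integral_congr fun x _ => ?_
    simp only [smul_eq_mul]
    rw [fourier_coe_apply]
    have h3 : f (x : AddCircle (2 * π)) = (h x : ℂ) := hperc.lift_coe x
    rw [h3, mul_comm]
    congr 2
    push_cast
    have : (π : ℂ) ≠ 0 := by exact_mod_cast hpi.ne'
    field_simp
  have hsum : Summable (fourierCoeff f) := by
    refine Summable.of_norm ?_
    have : (fun l => ‖fourierCoeff f l‖) = fun l => ‖(1 / (2 * π) : ℂ)‖ * ‖c1 h l‖ := by
      ext l; rw [hfc, norm_mul]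
    rw [this]
    exact hs.mul_left _
  have h4 := has_pointwise_sum_fourier_series_of_summable hsum (y : AddCircle (2 * π))
  have h5 : f (y : AddCircle (2 * π)) = (h y : ℂ) := hperc.lift_coe y
  rw [h5] at h4
  refine h4.congr_fun ?_ |> fun h => h
  intro l
  rw [hfc, fourier_coe_apply, smul_eq_mul]
  congr 2
  push_cast
  have : (π : ℂ) ≠ 0 := by exact_mod_cast hpi.ne'
  field_simp

/-- The weight `1 + l²`. -/
theorem one_le_w (l : ℤ) : (1 : ℝ) ≤ 1 + (l : ℝ) ^ 2 := by nlinarith [sq_nonneg (l : ℝ)]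

theorem w_summable : Summable fun l : ℤ => (1 : ℝ) / (1 + (l : ℝ) ^ 2) := by
  have h1 : Summable fun l : ℤ => (1 : ℝ) / (l : ℝ) ^ 2 :=
    Real.summable_one_div_int_pow.2 (by norm_num)
  refine Summable.of_norm_bounded_eventually (g := fun l : ℤ => (1 : ℝ) / (l : ℝ) ^ 2) h1 ?_
  filter_upwards [(Set.finite_singleton (0 : ℤ)).compl_mem_cofinite] with l hl
  have hl0 : (l : ℝ) ≠ 0 := by
    intro h
    exact hl (by exact_mod_cast h)
  have hl2 : 0 < (l : ℝ) ^ 2 := by positivity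
  rw [Real.norm_eq_abs, abs_of_pos (by positivity)]
  gcongr
  linarith

/-- The profiles have rapidly decreasing Fourier coefficients. -/
theorem prof_decay (b : ContDiffBump (3 / 4 : ℝ)) (S : ℝ) :
    ∃ (D : ℝ) (n : ℕ), 1 ≤ D ∧ ∀ (m : ℕ) (l : ℤ), (1 + (l : ℝ) ^ 2) ^ (S / 2) *
      ‖c1 (fun y => b (2 ^ m * Real.sin y)) l‖ ≤ D * 2 ^ (n * m) * (1 / (1 + (l : ℝ) ^ 2)) := by
  have hpi := Real.pi_pos
  obtain ⟨q, hq⟩ := exists_nat_ge (S / 2 + 1)
  obtain ⟨C, hC1, hC⟩ := Bd_bump (E := ℝ) b (2 * q)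
  refine ⟨2 ^ q * (C ^ (2 * q) * (2 * π)) + 2 * π, 2 * q, ?_, fun m l => ?_⟩
  · have h1 : (3 : ℝ) < π := Real.pi_gt_three
    have : 0 ≤ 2 ^ q * (C ^ (2 * q) * (2 * π)) := by positivity
    linarith
  · set h : ℝ → ℝ := fun y => b (2 ^ m * Real.sin y) with hh
    have hBd := hC m (ContinuousLinearMap.id ℝ ℝ) ContinuousLinearMap.norm_id_le
    have hper : ∀ y, h (y + 2 * π) = h y := fun y => by
      simp only [hh]; rw [Real.sin_add_two_pi]
    have hcd : ContDiff ℝ ∞ h := hBd.1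
    have hM : ∀ y, |iteratedDeriv (2 * q) h y| ≤ (C * 2 ^ m) ^ (2 * q) := by
      intro y
      have := hBd.2 (2 * q) le_rfl y
      rw [norm_iteratedFDeriv_eq_norm_iteratedDeriv] at this
      exact this
    have hdec := c1_decay hcd hper hM l
    have hb0 : ∀ y, |h y| ≤ 1 := fun y => by
      simp only [hh]
      rw [abs_of_nonneg b.nonneg]
      exact b.le_one
    have h0 := c1_bound hb0 l
    have hw := one_le_w l
    have hw0 : 0 < 1 + (l : ℝ) ^ 2 := by linarith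
    have hn0 : 0 ≤ ‖c1 h l‖ := norm_nonneg _
    have h2m : (1 : ℝ) ≤ 2 ^ (2 * q * m) := one_le_pow₀ (by norm_num)
    -- the polynomial weight
    have hkey : (1 + (l : ℝ) ^ 2) ^ q * ‖c1 h l‖ ≤
        (2 ^ q * (C ^ (2 * q) * (2 * π)) + 2 * π) * 2 ^ (2 * q * m) := by
      rcases eq_or_ne l 0 with hl | hl
      · subst hl
        simp only [Int.cast_zero]
        norm_num
        have h3 : 0 ≤ 2 ^ q * (C ^ (2 * q) * (2 * π)) := by positivity
        nlinarith
      · have hl1 : (1 : ℝ) ≤ (l : ℝ) ^ 2 := by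
          have : (1 : ℤ) ≤ l ^ 2 := by
            have := Int.one_le_abs hl
            nlinarith [sq_abs l]
          exact_mod_cast this
        have h3 : (1 + (l : ℝ) ^ 2) ^ q ≤ 2 ^ q * |(l : ℝ)| ^ (2 * q) := by
          rw [pow_mul, sq_abs, ← mul_pow]
          gcongr
          linarith
        calc (1 + (l : ℝ) ^ 2) ^ q * ‖c1 h l‖ ≤ 2 ^ q * |(l : ℝ)| ^ (2 * q) * ‖c1 h l‖ := by gcongr
          _ = 2 ^ q * (|(l : ℝ)| ^ (2 * q) * ‖c1 h l‖) := by ring
          _ ≤ 2 ^ q * ((C * 2 ^ m) ^ (2 * q) * (2 * π)) := by gcongr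
          _ = 2 ^ q * (C ^ (2 * q) * (2 * π)) * 2 ^ (2 * q * m) := by
            rw [mul_pow, ← pow_mul, mul_comm m (2 * q)]; ring
          _ ≤ _ := by
            gcongr
            linarith
    have h5 : (1 + (l : ℝ) ^ 2) ^ (S / 2) ≤ (1 + (l : ℝ) ^ 2) ^ q * (1 / (1 + (l : ℝ) ^ 2)) := by
      rw [mul_one_div, le_div_iff₀ hw0]
      calc (1 + (l : ℝ) ^ 2) ^ (S / 2) * (1 + (l : ℝ) ^ 2) =
            (1 + (l : ℝ) ^ 2) ^ (S / 2 + 1) := by
            rw [Real.rpow_add hw0, Real.rpow_one]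
        _ ≤ (1 + (l : ℝ) ^ 2) ^ (q : ℝ) := Real.rpow_le_rpow_of_exponent_le hw hq
        _ = _ := Real.rpow_natCast _ _
    calc (1 + (l : ℝ) ^ 2) ^ (S / 2) * ‖c1 h l‖ ≤
          ((1 + (l : ℝ) ^ 2) ^ q * (1 / (1 + (l : ℝ) ^ 2))) * ‖c1 h l‖ := by gcongr
      _ = ((1 + (l : ℝ) ^ 2) ^ q * ‖c1 h l‖) * (1 / (1 + (l : ℝ) ^ 2)) := by ring
      _ ≤ _ := by gcongr

theorem prof_summable (b : ContDiffBump (3 / 4 : ℝ)) (m : ℕ) :
    Summable fun l : ℤ => ‖c1 (fun y => b (2 ^ m * Real.sin y)) l‖ := by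
  obtain ⟨D, n, -, h⟩ := prof_decay b 0
  refine Summable.of_nonneg_of_le (fun l => norm_nonneg _) (fun l => ?_)
    (w_summable.mul_left (D * 2 ^ (n * m)))
  have := h m l
  simpa using this

/-- Peetre's inequality. -/
theorem peetre (a b l t : ℝ) : (1 + b ^ 2 + (a + l) ^ 2) ^ t ≤
    2 ^ |t| * (1 + l ^ 2) ^ |t| * (1 + b ^ 2 + a ^ 2) ^ t := by
  have h1 : 0 < 1 + b ^ 2 + (a + l) ^ 2 := by positivity
  have h2 : 0 < 1 + b ^ 2 + a ^ 2 := by positivity
  have h3 : 0 < 1 + l ^ 2 := by positivity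
  rcases le_total 0 t with ht | ht
  · rw [abs_of_nonneg ht, ← Real.mul_rpow (by norm_num) h3.le,
      ← Real.mul_rpow (by positivity) h2.le]
    apply Real.rpow_le_rpow h1.le _ ht
    nlinarith [sq_nonneg (a - l), sq_nonneg (b * l), sq_nonneg (a * l), sq_nonneg b, sq_nonneg a]
  · rw [abs_of_nonpos ht]
    have h4 : 1 + b ^ 2 + a ^ 2 ≤ 2 * (1 + l ^ 2) * (1 + b ^ 2 + (a + l) ^ 2) := by
      nlinarith [sq_nonneg (a + 2 * l), sq_nonneg (b * l), sq_nonneg ((a + l) * l), sq_nonneg b,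
        sq_nonneg (a + l)]
    have h5 : (1 + b ^ 2 + a ^ 2) ^ (-t) ≤
        (2 * (1 + l ^ 2) * (1 + b ^ 2 + (a + l) ^ 2)) ^ (-t) :=
      Real.rpow_le_rpow h2.le h4 (by linarith)
    rw [Real.mul_rpow (by positivity) h1.le, Real.mul_rpow (by norm_num) h3.le,
      Real.rpow_neg h2.le, Real.rpow_neg h1.le] at h5
    have h6 : 0 < (1 + b ^ 2 + a ^ 2) ^ t := Real.rpow_pos_of_pos h2 t
    have h7 : 0 < (1 + b ^ 2 + (a + l) ^ 2) ^ t := Real.rpow_pos_of_pos h1 t
    rw [← div_eq_mul_inv, le_div_iff₀ h7, inv_mul_eq_div, div_le_iff₀ h6] at h5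
    exact h5

end Pool.Agent.H306.CK
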