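import Pool.Agent.H306.CK.Four1
import Pool.Agent.H306.CK.Field

/-! Weighted Fourier bounds of fields on the torus. -/

namespace Pool.Agent.H306.CK

open Set MeasureTheory intervalIntegral

open scoped Real ContDiff ENNReal

/-- The frequency weight. -/
noncomputable def W (s : ℝ) (k : Fin 3 → ℤ) : ℝ := (1 + ∑ j, (k j : ℝ) ^ 2) ^ s

theorem W_base (k : Fin 3 → ℤ) : 0 < 1 + ∑ j, (k j : ℝ) ^ 2 := by positivity

theorem W_pos (s : ℝ) (k : Fin 3 → ℤ) : 0 < W s k := Real.rpow_pos_of_pos (W_base k) s

theorem W_add (s t : ℝ) (k : Fin 3 → ℤ) : W (s + t) k = W s k * W t k :=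
  Real.rpow_add (W_base k) s t

theorem W_half (s : ℝ) (k : Fin 3 → ℤ) : W (s / 2) k ^ 2 = W s k := by
  rw [sq, ← W_add]; congr 1; ring

/-- The character `e^{i k·x}`. -/
noncomputable def ex (k : Fin 3 → ℤ) (x : V) : ℂ :=
  Complex.exp (Complex.I * ((∑ j, (k j : ℝ) * x j : ℝ) : ℂ))

theorem norm_ex (k : Fin 3 → ℤ) (x : V) : ‖ex k x‖ = 1 := by
  unfold ex
  rw [mul_comm, Complex.norm_exp_ofReal_mul_I]

theorem ex_neg (k : Fin 3 → ℤ) (x : V) :
    Complex.exp (-(Complex.I * ((∑ j, (k j : ℝ) * x j : ℝ) : ℂ))) = ex (-k) x := by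
  unfold ex
  congr 1
  have : ∑ j, ((-k) j : ℝ) * x j = -∑ j, (k j : ℝ) * x j := by
    rw [← Finset.sum_neg_distrib]
    refine Finset.sum_congr rfl fun j _ => ?_
    simp
  rw [this]
  push_cast
  ring

theorem ex_mul (k l : Fin 3 → ℤ) (x : V) : ex k x * ex l x = ex (k + l) x := by
  unfold ex
  rw [← Complex.exp_add]
  congr 1
  rw [← mul_add, ← Complex.ofReal_add]
  congr 2
  rw [← Finset.sum_add_distrib]
  refine Finset.sum_congr rfl fun j _ => ?_
  simp only [Pi.add_apply]
  push_cast
  ring

theorem ex_continuous (k : Fin 3 → ℤ) : Continuous (ex k) := by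
  unfold ex
  fun_prop

/-- Fourier integrals of complex functions. -/
noncomputable def fcC (f : V → ℂ) (k : Fin 3 → ℤ) : ℂ := ∫ x in torus, f x * ex (-k) x

theorem fc_eq (f : V → ℝ) (k : Fin 3 → ℤ) : fc f k = fcC (fun x => (f x : ℂ)) k := by
  unfold fc fcC
  simp only [ex_neg]

theorem int_exp (l : ℤ) : ∫ y in (-π)..π, Complex.exp (Complex.I * (l * y)) =
    if l = 0 then 2 * π else 0 := by
  split_ifs with h
  · subst h
    simp
    ring
  · have h1 := c1_deriv (h := fun _ => 1) contDiff_const (fun _ => rfl) (-l)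
    have h2 : c1 (deriv fun _ : ℝ => (1 : ℝ)) (-l) = 0 := by
      unfold c1
      simp
    have h3 : c1 (fun _ => 1) (-l) = ∫ y in (-π)..π, Complex.exp (Complex.I * (l * y)) := by
      unfold c1
      refine integral_congr fun y _ => ?_
      simp
    rw [h2, h3] at h1
    have h4 : (Complex.I * ((-l : ℤ) : ℂ)) ≠ 0 := by
      apply mul_ne_zero Complex.I_ne_zero
      exact_mod_cast neg_ne_zero.2 h
    exact (mul_eq_zero.1 h1.symm).resolve_left h4

theorem int_ex (k : Fin 3 → ℤ) : ∫ x in torus, ex k x =
    if k = 0 then ((2 * π : ℝ) : ℂ) ^ 3 else 0 := by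
  have hpi := Real.pi_pos
  have h1 : ∫ x in torus, ex k x = ∫ x : Fin 3 → ℝ, ∏ i, Complex.exp (Complex.I * (k i * x i))
        ∂(Measure.pi fun _ : Fin 3 => (volume : Measure ℝ).restrict (Icc (-π) π)) := by
    unfold torus
    rw [← Set.pi_univ_Icc, volume_pi, Measure.restrict_pi_pi]
    congr 1
    ext x
    unfold ex
    rw [← Complex.exp_sum]
    congr 1
    push_cast
    rw [Finset.mul_sum]
  rw [h1, integral_fintype_prod_eq_prod
    (f := fun i (y : ℝ) => Complex.exp (Complex.I * (k i * y)))]
  have h2 : ∀ i : Fin 3, ∫ y, Complex.exp (Complex.I * (k i * y))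
      ∂((volume : Measure ℝ).restrict (Icc (-π) π)) = if k i = 0 then 2 * π else 0 := by
    intro i
    rw [integral_Icc_eq_integral_Ioc, ← integral_of_le (by linarith), int_exp]
  simp only [h2]
  split_ifs with h
  · subst h
    simp
  · obtain ⟨i, hi⟩ := Function.ne_iff.1 h
    refine Finset.prod_eq_zero (Finset.mem_univ i) ?_
    have h3 : k i ≠ 0 := hi
    rw [if_neg h3, Complex.ofReal_zero]

theorem cont_intC {f : V → ℂ} (hf : Continuous f) : IntegrableOn f torus :=
  hf.continuousOn.integrableOn_compact isCompact_torus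

theorem int_addC {f g : V → ℂ} (hf : IntegrableOn f torus) (hg : IntegrableOn g torus) :
    ∫ x in torus, (f x + g x) = (∫ x in torus, f x) + ∫ x in torus, g x :=
  MeasureTheory.integral_add hf hg

/-- The weighted bounds. -/
structure Wc (t M : ℝ) (f : V → ℂ) : Prop where
  cont : Continuous f
  nonneg : 0 ≤ M
  sum : ∑' k, ENNReal.ofReal (W (t / 2) k * ‖fcC f k‖) ≤ ENNReal.ofReal M
  pair : ∀ (v : V → ℝ) (H : ℝ), Continuous v → (∀ k, W (-t / 2) k * ‖fc v k‖ ≤ H) →
    ‖∫ x in torus, f x * v x‖ ≤ M * H

theorem fcC_add {f g : V → ℂ} (hf : Continuous f) (hg : Continuous g) (k : Fin 3 → ℤ) :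
    fcC (fun x => f x + g x) k = fcC f k + fcC g k := by
  unfold fcC
  rw [← int_addC (f := fun x => f x * ex (-k) x) (g := fun x => g x * ex (-k) x)
    (cont_intC (hf.mul (ex_continuous _))) (cont_intC (hg.mul (ex_continuous _)))]
  congr 1
  ext x
  ring

theorem fcC_smul (c : ℂ) (f : V → ℂ) (k : Fin 3 → ℤ) :
    fcC (fun x => c * f x) k = c * fcC f k := by
  unfold fcC
  rw [← MeasureTheory.integral_const_mul]
  congr 1
  ext x
  ring

theorem Wc.add {t M M' : ℝ} {f g : V → ℂ} (hf : Wc t M f) (hg : Wc t M' g) :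
    Wc t (M + M') (fun x => f x + g x) where
  cont := hf.cont.add hg.cont
  nonneg := add_nonneg hf.nonneg hg.nonneg
  sum := by
    have h : ∀ k, ENNReal.ofReal (W (t / 2) k * ‖fcC (fun x => f x + g x) k‖) ≤
        ENNReal.ofReal (W (t / 2) k * ‖fcC f k‖) + ENNReal.ofReal (W (t / 2) k * ‖fcC g k‖) := by
      intro k
      have hW := W_pos (t / 2) k
      rw [← ENNReal.ofReal_add (by positivity) (by positivity), fcC_add hf.cont hg.cont]
      apply ENNReal.ofReal_le_ofReal
      rw [← mul_add]
      gcongr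
      exact norm_add_le _ _
    refine (ENNReal.tsum_le_tsum h).trans ?_
    rw [ENNReal.tsum_add, ENNReal.ofReal_add hf.nonneg hg.nonneg]
    exact add_le_add hf.sum hg.sum
  pair := by
    intro v H hv hH
    have h1 : ∫ x in torus, (f x + g x) * v x =
        (∫ x in torus, f x * v x) + ∫ x in torus, g x * v x := by
      have hvc : Continuous fun x => (v x : ℂ) := Complex.continuous_ofReal.comp hv
      rw [← int_addC (f := fun x => f x * v x) (g := fun x => g x * v x)
        (cont_intC (hf.cont.mul hvc)) (cont_intC (hg.cont.mul hvc))]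
      congr 1
      ext x
      ring
    rw [h1, add_mul]
    exact (norm_add_le _ _).trans (add_le_add (hf.pair v H hv hH) (hg.pair v H hv hH))

theorem Wc.smul {t M : ℝ} {f : V → ℂ} (hf : Wc t M f) (c : ℂ) :
    Wc t (‖c‖ * M) (fun x => c * f x) where
  cont := continuous_const.mul hf.cont
  nonneg := mul_nonneg (norm_nonneg _) hf.nonneg
  sum := by
    have h : ∀ k, ENNReal.ofReal (W (t / 2) k * ‖fcC (fun x => c * f x) k‖) =
        ENNReal.ofReal ‖c‖ * ENNReal.ofReal (W (t / 2) k * ‖fcC f k‖) := by
      intro k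
      rw [fcC_smul, norm_mul, ← ENNReal.ofReal_mul (norm_nonneg _)]
      congr 1
      ring
    simp only [h]
    rw [ENNReal.tsum_mul_left, ENNReal.ofReal_mul (norm_nonneg _)]
    gcongr
    exact hf.sum
  pair := by
    intro v H hv hH
    have h1 : ∫ x in torus, (c * f x) * v x = c * ∫ x in torus, f x * v x := by
      rw [← MeasureTheory.integral_const_mul]
      congr 1
      ext x
      ring
    rw [h1, norm_mul, mul_assoc]
    gcongr
    exact hf.pair v H hv hH

theorem Wc.mono {t M M' : ℝ} {f : V → ℂ} (hf : Wc t M f) (h : M ≤ M') : Wc t M' f where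
  cont := hf.cont
  nonneg := hf.nonneg.trans h
  sum := hf.sum.trans (ENNReal.ofReal_le_ofReal h)
  pair := fun v H hv hH => (hf.pair v H hv hH).trans (by
    have h0 : 0 ≤ H := (mul_nonneg (W_pos _ 0).le (norm_nonneg _)).trans (hH 0)
    gcongr)

theorem Wc.congr {t M : ℝ} {f g : V → ℂ} (hf : Wc t M f) (h : ∀ x, g x = f x) : Wc t M g := by
  have : g = f := funext h
  rw [this]; exact hf

theorem Wc_zero (t : ℝ) {M : ℝ} (hM : 0 ≤ M) : Wc t M (fun _ => 0) where
  cont := continuous_const
  nonneg := hM
  sum := by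
    have h : ∀ k, fcC (fun _ => 0) k = 0 := fun k => by unfold fcC; simp
    simp [h]
  pair := by
    intro v H hv hH
    have h0 : 0 ≤ H := (mul_nonneg (W_pos _ 0).le (norm_nonneg _)).trans (hH 0)
    simp only [zero_mul, MeasureTheory.integral_zero, norm_zero]
    positivity

/-- Exchange of summation and integration. -/
theorem int_tsum {α : ℤ → ℂ} (hα : Summable fun l => ‖α l‖) {g : ℤ → V → ℂ}
    (hg : ∀ l, Continuous (g l)) {B : ℝ} (hB : ∀ l, ∀ x ∈ torus, ‖g l x‖ ≤ B) :
    HasSum (fun l => α l * ∫ x in torus, g l x) (∫ x in torus, ∑' l, α l * g l x) := by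
  have h := hasSum_integral_of_summable_integral_norm (μ := volume.restrict torus)
    (F := fun l x => α l * g l x) (fun l => (cont_intC (hg l)).const_mul _)
    (Summable.of_nonneg_of_le (fun l => integral_nonneg fun x => norm_nonneg _) (fun l => ?_)
      (hα.mul_right (B * volume.real torus)))
  · refine h.congr_fun fun l => ?_
    exact (MeasureTheory.integral_const_mul _ _).symm
  · have h1 : ∫ x in torus, ‖α l * g l x‖ ≤ ∫ _ in torus, ‖α l‖ * B := by
      apply setIntegral_mono_on
      · exact (cont_intC (continuous_const.mul (hg l))).norm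
      · exact cont_integrableOn continuous_const
      · exact measurableSet_torus
      · intro x hx
        rw [norm_mul]
        gcongr
        exact hB l x hx
    refine h1.trans (le_of_eq ?_)
    rw [setIntegral_const, smul_eq_mul]
    ring

/-- Weighted bounds of absolutely convergent trigonometric series. -/
theorem Wc_series {t M : ℝ} {α : ℤ → ℂ} {κ : ℤ → Fin 3 → ℤ} {f : V → ℂ} (hf : Continuous f)
    (hα : Summable fun l => ‖α l‖) (hsum : ∀ x, HasSum (fun l => α l * ex (κ l) x) (f x))
    (hM : HasSum (fun l => ‖α l‖ * W (t / 2) (κ l)) M) : Wc t ((2 * π) ^ 3 * M) f where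
  cont := hf
  nonneg := by
    have hpi := Real.pi_pos
    have : 0 ≤ M := hM.nonneg fun l => mul_nonneg (norm_nonneg _) (W_pos _ _).le
    positivity
  sum := by
    have hpi := Real.pi_pos
    have h1 : ∀ k, HasSum (fun l => α l * (if κ l + -k = 0 then ((2 * π : ℝ) : ℂ) ^ 3 else 0))
        (fcC f k) := by
      intro k
      have h2 := int_tsum hα (g := fun l x => ex (κ l) x * ex (-k) x)
        (fun l => (ex_continuous _).mul (ex_continuous _)) (B := 1)
        (fun l x _ => by rw [norm_mul, norm_ex, norm_ex, one_mul])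
      have h3 : ∫ x in torus, ∑' l, α l * (ex (κ l) x * ex (-k) x) = fcC f k := by
        unfold fcC
        congr 1
        ext x
        rw [← (hsum x).tsum_eq, ← tsum_mul_right]
        exact tsum_congr fun l => by ring
      rw [h3] at h2
      refine h2.congr_fun fun l => ?_
      simp only [ex_mul]
      rw [int_ex]
    have h2 : ∀ k, ENNReal.ofReal (W (t / 2) k * ‖fcC f k‖) ≤
        ∑' l, if κ l = k then ENNReal.ofReal ((2 * π) ^ 3 * (‖α l‖ * W (t / 2) (κ l))) else 0 := by
      intro k
      have h3 : ∀ l, ‖α l * (if κ l + -k = 0 then ((2 * π : ℝ) : ℂ) ^ 3 else 0)‖ =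
          if κ l = k then (2 * π) ^ 3 * ‖α l‖ else 0 := by
        intro l
        have h4 : κ l + -k = 0 ↔ κ l = k := by
          rw [add_neg_eq_zero]
        simp only [h4]
        split_ifs
        · rw [norm_mul, norm_pow, Complex.norm_real, Real.norm_eq_abs,
            abs_of_pos (by positivity)]
          ring
        · simp
      have h5 : Summable fun l => ‖α l * (if κ l + -k = 0 then ((2 * π : ℝ) : ℂ) ^ 3 else 0)‖ := by
        refine Summable.of_nonneg_of_le (fun l => norm_nonneg _) (fun l => ?_)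
          (hα.mul_left ((2 * π) ^ 3))
        rw [h3]
        split_ifs
        · exact le_rfl
        · positivity
      have h6 : ‖fcC f k‖ ≤ ∑' l, if κ l = k then (2 * π) ^ 3 * ‖α l‖ else 0 := by
        rw [← (h1 k).tsum_eq]
        refine (norm_tsum_le_tsum_norm h5).trans (le_of_eq ?_)
        exact tsum_congr h3
      have h7 : Summable fun l => if κ l = k then (2 * π) ^ 3 * ‖α l‖ else 0 := by
        refine h5.congr fun l => ?_
        exact h3 l
      calc ENNReal.ofReal (W (t / 2) k * ‖fcC f k‖) ≤
            ENNReal.ofReal (W (t / 2) k * ∑' l, if κ l = k then (2 * π) ^ 3 * ‖α l‖ else 0) := by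
            apply ENNReal.ofReal_le_ofReal
            have := (W_pos (t / 2) k).le
            gcongr
        _ = ENNReal.ofReal (∑' l, if κ l = k then
              (2 * π) ^ 3 * (‖α l‖ * W (t / 2) (κ l)) else 0) := by
            rw [← tsum_mul_left]
            congr 1
            refine tsum_congr fun l => ?_
            split_ifs with h
            · rw [h]; ring
            · ring
        _ = _ := by
            rw [ENNReal.ofReal_tsum_of_nonneg]
            · refine tsum_congr fun l => ?_
              split_ifs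
              · rfl
              · exact ENNReal.ofReal_zero
            · intro l
              have := (W_pos (t / 2) (κ l)).le
              split_ifs
              · positivity
              · exact le_rfl
            · refine (h7.mul_left (W (t / 2) k)).congr fun l => ?_
              split_ifs with h
              · rw [h]; ring
              · ring
    refine (ENNReal.tsum_le_tsum h2).trans ?_
    rw [ENNReal.tsum_comm]
    have h3 : ∀ l, ∑' k, (if κ l = k then
        ENNReal.ofReal ((2 * π) ^ 3 * (‖α l‖ * W (t / 2) (κ l))) else 0) =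
        ENNReal.ofReal ((2 * π) ^ 3 * (‖α l‖ * W (t / 2) (κ l))) := by
      intro l
      exact tsum_ite_eq' _ _
    simp only [h3]
    rw [← ENNReal.ofReal_tsum_of_nonneg]
    · rw [tsum_mul_left, hM.tsum_eq]
    · intro l
      have := (W_pos (t / 2) (κ l)).le
      positivity
    · exact hM.summable.mul_left _
  pair := by
    intro v H hv hH
    have hpi := Real.pi_pos
    have h0 : 0 ≤ H := (mul_nonneg (W_pos _ 0).le (norm_nonneg _)).trans (hH 0)
    have hvc : Continuous fun x => (v x : ℂ) := Complex.continuous_ofReal.comp hv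
    obtain ⟨B, hB⟩ := isCompact_torus.exists_bound_of_continuousOn hvc.continuousOn
    have h2 := int_tsum hα (g := fun l x => ex (κ l) x * v x)
      (fun l => (ex_continuous _).mul hvc) (B := B)
      (fun l x hx => by rw [norm_mul, norm_ex, one_mul]; exact hB x hx)
    have h3 : ∫ x in torus, ∑' l, α l * (ex (κ l) x * v x) = ∫ x in torus, f x * v x := by
      congr 1
      ext x
      rw [← (hsum x).tsum_eq, ← tsum_mul_right]
      exact tsum_congr fun l => by ring
    rw [h3] at h2
    have h4 : ∀ l, ∫ x in torus, ex (κ l) x * v x = fc v (-κ l) := by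
      intro l
      rw [fc_eq]
      unfold fcC
      congr 1
      ext x
      rw [neg_neg]
      ring
    have hW : ∀ k, W (-t / 2) (-k) = W (-t / 2) k := by
      intro k
      unfold W
      simp
    have h5 : ∀ l, ‖α l * ∫ x in torus, ex (κ l) x * v x‖ ≤ ‖α l‖ * W (t / 2) (κ l) * H := by
      intro l
      rw [norm_mul, h4]
      have h6 := hH (-κ l)
      rw [hW] at h6
      have h7 : W (t / 2) (κ l) * W (-t / 2) (κ l) = 1 := by
        rw [← W_add]
        have : t / 2 + -t / 2 = 0 := by ring
        rw [this]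
        exact Real.rpow_zero _
      have h8 := (W_pos (t / 2) (κ l)).le
      calc ‖α l‖ * ‖fc v (-κ l)‖ = ‖α l‖ * (W (t / 2) (κ l) * (W (-t / 2) (κ l) *
            ‖fc v (-κ l)‖)) := by rw [← mul_assoc (W _ _), h7, one_mul]
        _ ≤ ‖α l‖ * (W (t / 2) (κ l) * H) := by gcongr
        _ = _ := by ring
    have h6 : Summable fun l => ‖α l * ∫ x in torus, ex (κ l) x * v x‖ :=
      Summable.of_nonneg_of_le (fun l => norm_nonneg _) h5 (hM.summable.mul_right H)
    have hM0 : 0 ≤ M := hM.nonneg fun l => mul_nonneg (norm_nonneg _) (W_pos _ _).le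
    have h7 : (1 : ℝ) ≤ (2 * π) ^ 3 := by
      have h3 : (3 : ℝ) < π := Real.pi_gt_three
      exact one_le_pow₀ (by linarith)
    calc ‖∫ x in torus, f x * v x‖ ≤ ∑' l, ‖α l * ∫ x in torus, ex (κ l) x * v x‖ := by
          rw [← h2.tsum_eq]
          exact norm_tsum_le_tsum_norm h6
      _ ≤ ∑' l, ‖α l‖ * W (t / 2) (κ l) * H := h6.tsum_le_tsum h5 (hM.summable.mul_right H)
      _ = M * H := by rw [tsum_mul_right, hM.tsum_eq]
      _ = 1 * M * H := by ring
      _ ≤ _ := by gcongr

end Pool.Agent.H306.CK
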