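import Pool.Agent.H306.CK.Four2

/-! Weighted bounds of the fields `pf`, `qf`. -/

namespace Pool.Agent.H306.CK

open Set MeasureTheory intervalIntegral

open scoped Real ContDiff ENNReal

/-- An elementary field. -/
noncomputable def el (b a : ℤ) (h : ℝ → ℝ) (x : V) : ℂ := ex ![b, a, 0] x * h (x 1)

theorem ex_three (b a : ℤ) (x : V) :
    ex ![b, a, 0] x = Complex.exp (Complex.I * (b * x 0 + a * x 1)) := by
  unfold ex
  rw [Fin.sum_univ_three]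
  congr 2
  simp

theorem W_three (t : ℝ) (b a : ℤ) : W t ![b, a, 0] = (1 + (b : ℝ) ^ 2 + (a : ℝ) ^ 2) ^ t := by
  unfold W
  rw [Fin.sum_univ_three]
  congr 1
  simp
  ring

/-- The sum of the weights. -/
noncomputable def wS : ℝ := ∑' l : ℤ, 1 / (1 + (l : ℝ) ^ 2)

theorem wS_nonneg : 0 ≤ wS := tsum_nonneg fun l => by positivity

theorem W_bound {b a : ℤ} {k : ℕ} (hk : 1 ≤ k) (hb : |b| ≤ k) (ha : |a| ≤ k)
    (hab : |b| = k ∨ |a| = k) {t S : ℝ} (ht : |t| ≤ S) :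
    (1 + (b : ℝ) ^ 2 + (a : ℝ) ^ 2) ^ (t / 2) ≤ 3 ^ (S / 2) * (k : ℝ) ^ t := by
  have hS : 0 ≤ S := (abs_nonneg t).trans ht
  have hk1 : (1 : ℝ) ≤ k := by exact_mod_cast hk
  have hb' : (b : ℝ) ^ 2 ≤ (k : ℝ) ^ 2 := by
    have h : |(b : ℝ)| ≤ k := by exact_mod_cast hb
    rw [← sq_abs]
    exact pow_le_pow_left₀ (abs_nonneg _) h 2
  have ha' : (a : ℝ) ^ 2 ≤ (k : ℝ) ^ 2 := by
    have h : |(a : ℝ)| ≤ k := by exact_mod_cast ha
    rw [← sq_abs]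
    exact pow_le_pow_left₀ (abs_nonneg _) h 2
  have hlow : (k : ℝ) ^ 2 ≤ 1 + (b : ℝ) ^ 2 + (a : ℝ) ^ 2 := by
    rcases hab with h | h
    · have h1 : |(b : ℝ)| = k := by exact_mod_cast h
      rw [← h1, sq_abs]
      nlinarith [sq_nonneg (a : ℝ)]
    · have h1 : |(a : ℝ)| = k := by exact_mod_cast h
      rw [← h1, sq_abs]
      nlinarith [sq_nonneg (b : ℝ)]
  have hkt : 0 < (k : ℝ) ^ t := Real.rpow_pos_of_pos (by linarith) t
  have hkk : ((k : ℝ) ^ 2) ^ (t / 2) = (k : ℝ) ^ t := by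
    rw [← Real.rpow_natCast (k : ℝ) 2, ← Real.rpow_mul (by linarith)]
    congr 1
    push_cast
    ring
  rcases le_total 0 t with h0 | h0
  · have h1 : t ≤ S := (le_abs_self t).trans ht
    calc (1 + (b : ℝ) ^ 2 + (a : ℝ) ^ 2) ^ (t / 2) ≤ (3 * (k : ℝ) ^ 2) ^ (t / 2) := by
          apply Real.rpow_le_rpow (by positivity) _ (by linarith)
          nlinarith
      _ = 3 ^ (t / 2) * (k : ℝ) ^ t := by
          rw [Real.mul_rpow (by norm_num) (by positivity), hkk]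
      _ ≤ _ := by
          gcongr
          · norm_num
  · calc (1 + (b : ℝ) ^ 2 + (a : ℝ) ^ 2) ^ (t / 2) ≤ ((k : ℝ) ^ 2) ^ (t / 2) :=
          Real.rpow_le_rpow_of_nonpos (by positivity) hlow (by linarith)
      _ = 1 * (k : ℝ) ^ t := by rw [hkk, one_mul]
      _ ≤ _ := by
          gcongr
          exact Real.one_le_rpow (by norm_num) (by linarith)

/-- The constant of the weighted bounds. -/
noncomputable def cS (S : ℝ) : ℝ := (2 * π) ^ 3 * (6 ^ (S / 2) * wS)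

theorem cS_nonneg (S : ℝ) : 0 ≤ cS S := by
  have := wS_nonneg
  have := Real.pi_pos
  unfold cS
  positivity

theorem el_Wc {b a : ℤ} {k : ℕ} (hk : 1 ≤ k) (hb : |b| ≤ k) (ha : |a| ≤ k)
    (hab : |b| = k ∨ |a| = k) {h : ℝ → ℝ} (hd : ContDiff ℝ ∞ h)
    (hper : ∀ y, h (y + 2 * π) = h y) (hs : Summable fun l : ℤ => ‖c1 h l‖) {S t E : ℝ}
    (ht : |t| ≤ S)
    (hdec : ∀ l : ℤ, (1 + (l : ℝ) ^ 2) ^ (S / 2) * ‖c1 h l‖ ≤ E * (1 / (1 + (l : ℝ) ^ 2))) :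
    Wc t (cS S * E * (k : ℝ) ^ t) (el b a h) := by
  have hS : 0 ≤ S := (abs_nonneg t).trans ht
  have hpi := Real.pi_pos
  have hk0 : (0 : ℝ) < k := by exact_mod_cast hk
  have hkt : 0 < (k : ℝ) ^ t := Real.rpow_pos_of_pos hk0 t
  have hn : ‖(1 / (2 * π) : ℂ)‖ ≤ 1 := by
    have h3 : (3 : ℝ) < π := Real.pi_gt_three
    rw [norm_div, norm_one, norm_mul, Complex.norm_real, Real.norm_eq_abs, abs_of_pos hpi]
    rw [div_le_one (by simp; exact hpi)]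
    simp
    linarith
  have hpt : ∀ l : ℤ, ‖(1 / (2 * π) : ℂ) * c1 h l‖ * W (t / 2) ![b, a + l, 0] ≤
      6 ^ (S / 2) * E * (k : ℝ) ^ t * (1 / (1 + (l : ℝ) ^ 2)) := by
    intro l
    have h1 := peetre (a : ℝ) (b : ℝ) (l : ℝ) (t / 2)
    have h2 := W_bound hk hb ha hab ht
    have hw := one_le_w l
    have ht2 : |t / 2| ≤ S / 2 := by
      rw [abs_div, abs_two]
      linarith
    have h3 : (2 : ℝ) ^ |t / 2| ≤ 2 ^ (S / 2) := Real.rpow_le_rpow_of_exponent_le (by norm_num) ht2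
    have h4 : (1 + (l : ℝ) ^ 2) ^ |t / 2| ≤ (1 + (l : ℝ) ^ 2) ^ (S / 2) :=
      Real.rpow_le_rpow_of_exponent_le hw ht2
    have h5 : W (t / 2) ![b, a + l, 0] ≤
        2 ^ (S / 2) * (1 + (l : ℝ) ^ 2) ^ (S / 2) * (3 ^ (S / 2) * (k : ℝ) ^ t) := by
      rw [W_three]
      push_cast
      refine h1.trans ?_
      gcongr
    have h6 : (6 : ℝ) ^ (S / 2) = 2 ^ (S / 2) * 3 ^ (S / 2) := by
      rw [← Real.mul_rpow (by norm_num) (by norm_num)]
      norm_num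
    have hW := (W_pos (t / 2) ![b, a + l, 0]).le
    rw [norm_mul]
    calc ‖(1 / (2 * π) : ℂ)‖ * ‖c1 h l‖ * W (t / 2) ![b, a + l, 0] ≤
          1 * ‖c1 h l‖ * (2 ^ (S / 2) * (1 + (l : ℝ) ^ 2) ^ (S / 2) *
            (3 ^ (S / 2) * (k : ℝ) ^ t)) := by gcongr
      _ = 6 ^ (S / 2) * (k : ℝ) ^ t * ((1 + (l : ℝ) ^ 2) ^ (S / 2) * ‖c1 h l‖) := by
          rw [h6]; ring
      _ ≤ 6 ^ (S / 2) * (k : ℝ) ^ t * (E * (1 / (1 + (l : ℝ) ^ 2))) :=
          mul_le_mul_of_nonneg_left (hdec l) (by positivity)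
      _ = _ := by ring
  have hsm : Summable fun l : ℤ => ‖(1 / (2 * π) : ℂ) * c1 h l‖ * W (t / 2) ![b, a + l, 0] :=
    Summable.of_nonneg_of_le (fun l => mul_nonneg (norm_nonneg _) (W_pos _ _).le) hpt
      (w_summable.mul_left _)
  have hcont : Continuous (el b a h) := by
    have h1 := hd.continuous
    have h2 := ex_continuous ![b, a, 0]
    unfold el
    exact h2.mul (Complex.continuous_ofReal.comp (h1.comp (continuous_apply 1)))
  have hα : Summable fun l : ℤ => ‖(1 / (2 * π) : ℂ) * c1 h l‖ := by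
    simp only [norm_mul]
    exact hs.mul_left _
  refine (Wc_series (κ := fun l => ![b, a + l, 0]) hcont hα (fun x => ?_) hsm.hasSum).mono ?_
  · have h1 := (c1_hasSum hd hper hs (x 1)).mul_left (ex ![b, a, 0] x)
    unfold el
    refine h1.congr_fun fun l => ?_
    rw [ex_three, ex_three]
    have h2 : Complex.exp (Complex.I * ((b : ℂ) * (x 0 : ℂ) + ((a + l : ℤ) : ℂ) * (x 1 : ℂ))) =
        Complex.exp (Complex.I * (b * x 0 + a * x 1)) * Complex.exp (Complex.I * (l * x 1)) := by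
      rw [← Complex.exp_add]
      congr 1
      push_cast
      ring
    rw [h2]
    ring
  · have h1 : ∑' l : ℤ, ‖(1 / (2 * π) : ℂ) * c1 h l‖ * W (t / 2) ![b, a + l, 0] ≤
        6 ^ (S / 2) * E * (k : ℝ) ^ t * wS := by
      refine (hsm.tsum_le_tsum hpt (w_summable.mul_left _)).trans (le_of_eq ?_)
      rw [tsum_mul_left]
      rfl
    unfold cS
    calc (2 * π) ^ 3 * ∑' l : ℤ, ‖(1 / (2 * π) : ℂ) * c1 h l‖ * W (t / 2) ![b, a + l, 0] ≤
          (2 * π) ^ 3 * (6 ^ (S / 2) * E * (k : ℝ) ^ t * wS) := by gcongr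
      _ = _ := by ring

theorem cos_exp (k : ℕ) (y : ℝ) : ((Real.cos (k * y) : ℝ) : ℂ) =
    (1 / 2) * Complex.exp (Complex.I * (k * y)) + (1 / 2) * Complex.exp (Complex.I * (-k * y)) := by
  rw [Complex.ofReal_cos, Complex.cos]
  push_cast
  have h1 : (k : ℂ) * y * Complex.I = Complex.I * (k * y) := by ring
  have h2 : -((k : ℂ) * y) * Complex.I = Complex.I * (-k * y) := by ring
  rw [h1, h2]
  ring

theorem sin_exp (k : ℕ) (y : ℝ) : ((Real.sin (k * y) : ℝ) : ℂ) =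
    (-Complex.I / 2) * Complex.exp (Complex.I * (k * y)) +
      (Complex.I / 2) * Complex.exp (Complex.I * (-k * y)) := by
  rw [Complex.ofReal_sin, Complex.sin]
  push_cast
  have h1 : (k : ℂ) * y * Complex.I = Complex.I * (k * y) := by ring
  have h2 : -((k : ℂ) * y) * Complex.I = Complex.I * (-k * y) := by ring
  rw [h1, h2]
  ring

section

variable {S t E : ℝ} {k k₀ : ℕ} {h : ℝ → ℝ}

theorem Wc_cos1 (hk : 1 ≤ k) (hd : ContDiff ℝ ∞ h)
    (hper : ∀ y, h (y + 2 * π) = h y) (hs : Summable fun l : ℤ => ‖c1 h l‖)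
    (ht : |t| ≤ S)
    (hdec : ∀ l : ℤ, (1 + (l : ℝ) ^ 2) ^ (S / 2) * ‖c1 h l‖ ≤ E * (1 / (1 + (l : ℝ) ^ 2))) :
    Wc t (cS S * E * (k : ℝ) ^ t) (fun x : V => ((h (x 1) * Real.cos (k * x 1) : ℝ) : ℂ)) := by
  have h1 := (el_Wc (b := 0) (a := k) hk (by simp) (by simp) (Or.inr (by simp)) hd hper hs ht
    hdec).smul (1 / 2)
  have h2 := (el_Wc (b := 0) (a := -k) hk (by simp) (by simp) (Or.inr (by simp)) hd hper hs ht
    hdec).smul (1 / 2)
  refine ((h1.add h2).mono (le_of_eq ?_)).congr fun x => ?_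
  · norm_num
    ring
  · unfold el
    rw [ex_three, ex_three, Complex.ofReal_mul, cos_exp]
    push_cast
    rw [zero_mul, zero_add, zero_add]
    ring

theorem Wc_cos0 (hk : 1 ≤ k) (hd : ContDiff ℝ ∞ h)
    (hper : ∀ y, h (y + 2 * π) = h y) (hs : Summable fun l : ℤ => ‖c1 h l‖)
    (ht : |t| ≤ S)
    (hdec : ∀ l : ℤ, (1 + (l : ℝ) ^ 2) ^ (S / 2) * ‖c1 h l‖ ≤ E * (1 / (1 + (l : ℝ) ^ 2))) :
    Wc t (cS S * E * (k : ℝ) ^ t) (fun x : V => ((h (x 1) * Real.cos (k * x 0) : ℝ) : ℂ)) := by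
  have h1 := (el_Wc (b := k) (a := 0) hk (by simp) (by simp) (Or.inl (by simp)) hd hper hs ht
    hdec).smul (1 / 2)
  have h2 := (el_Wc (b := -k) (a := 0) hk (by simp) (by simp) (Or.inl (by simp)) hd hper hs ht
    hdec).smul (1 / 2)
  refine ((h1.add h2).mono (le_of_eq ?_)).congr fun x => ?_
  · norm_num
    ring
  · unfold el
    rw [ex_three, ex_three, Complex.ofReal_mul, cos_exp]
    push_cast
    rw [zero_mul, add_zero, add_zero]
    ring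

theorem Wc_cos_sin (hk : 1 ≤ k) (hk₀ : k₀ ≤ k) (hd : ContDiff ℝ ∞ h)
    (hper : ∀ y, h (y + 2 * π) = h y) (hs : Summable fun l : ℤ => ‖c1 h l‖)
    (ht : |t| ≤ S)
    (hdec : ∀ l : ℤ, (1 + (l : ℝ) ^ 2) ^ (S / 2) * ‖c1 h l‖ ≤ E * (1 / (1 + (l : ℝ) ^ 2))) :
    Wc t (cS S * E * (k : ℝ) ^ t)
      (fun x : V => ((h (x 1) * Real.cos (k * x 1) * Real.sin (k₀ * x 0) : ℝ) : ℂ)) := by
  have hk' : (k₀ : ℤ) ≤ k := by exact_mod_cast hk₀
  have h1 := (el_Wc (b := k₀) (a := k) hk (by simpa using hk') (by simp) (Or.inr (by simp)) hd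
    hper hs ht hdec).smul (-Complex.I / 4)
  have h2 := (el_Wc (b := k₀) (a := -k) hk (by simpa using hk') (by simp) (Or.inr (by simp)) hd
    hper hs ht hdec).smul (-Complex.I / 4)
  have h3 := (el_Wc (b := -k₀) (a := k) hk (by simpa using hk') (by simp) (Or.inr (by simp)) hd
    hper hs ht hdec).smul (Complex.I / 4)
  have h4 := (el_Wc (b := -k₀) (a := -k) hk (by simpa using hk') (by simp) (Or.inr (by simp)) hd
    hper hs ht hdec).smul (Complex.I / 4)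
  refine (((h1.add h2).add (h3.add h4)).mono (le_of_eq ?_)).congr fun x => ?_
  · rw [norm_div, norm_neg, norm_div, Complex.norm_I]
    norm_num
    ring
  · unfold el
    rw [ex_three, ex_three, ex_three, ex_three, Complex.ofReal_mul, Complex.ofReal_mul, cos_exp,
      sin_exp]
    push_cast
    have e : ∀ u w : ℂ, Complex.exp (Complex.I * (u + w)) = Complex.exp (Complex.I * u) *
        Complex.exp (Complex.I * w) := fun u w => by
      rw [← Complex.exp_add]; congr 1; ring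
    rw [e, e, e, e]
    ring

end

/-- The bounds of the fields. -/
theorem fields_Wc (S : ℝ) : ∃ (D : ℝ) (j : ℕ), 1 ≤ D ∧ ∀ (P : Par) (K : ℕ → ℕ), Fr P K →
    ∀ (m : ℕ) (t : ℝ), |t| ≤ S → ∀ i,
      Wc t (D * 2 ^ (j * m) * (K (m + 1) : ℝ) ^ t) (fun x => (pf K m x i : ℂ)) ∧
      Wc t (D * 2 ^ (j * m) * (K (m + 1) : ℝ) ^ t) (fun x => (qf K m x i : ℂ)) := by
  obtain ⟨D₁, n₁, hD₁, h₁⟩ := prof_decay ψb S
  obtain ⟨D₂, n₂, hD₂, h₂⟩ := prof_decay χb S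
  have hcS := cS_nonneg S
  refine ⟨1 + cS S * D₁ + cS S * (D₂ * 2 ^ n₂), n₁ + n₂, ?_, fun P K hF m t ht i => ?_⟩
  · have : 0 ≤ cS S * D₁ := by positivity
    have : 0 ≤ cS S * (D₂ * 2 ^ n₂) := by positivity
    linarith
  have hk : 1 ≤ K (m + 1) := hF.K_pos (m + 1)
  have hk0 : (0 : ℝ) < K (m + 1) := by exact_mod_cast hF.K_pos (m + 1)
  have hkt : 0 < (K (m + 1) : ℝ) ^ t := Real.rpow_pos_of_pos hk0 t
  set D : ℝ := 1 + cS S * D₁ + cS S * (D₂ * 2 ^ n₂) with hD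
  have hp1 : cS S * D₁ ≤ D := by
    have : 0 ≤ cS S * (D₂ * 2 ^ n₂) := by positivity
    linarith
  have hp2 : cS S * (D₂ * 2 ^ n₂) ≤ D := by
    have : 0 ≤ cS S * D₁ := by positivity
    linarith
  have hD0 : 0 ≤ D := by positivity
  have hψ1 : cS S * (D₁ * 2 ^ (n₁ * m)) * (K (m + 1) : ℝ) ^ t ≤
      D * 2 ^ ((n₁ + n₂) * m) * (K (m + 1) : ℝ) ^ t := by
    have : (2 : ℝ) ^ (n₁ * m) ≤ 2 ^ ((n₁ + n₂) * m) :=
      pow_le_pow_right₀ (by norm_num) (Nat.mul_le_mul_right m (Nat.le_add_right _ _))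
    rw [← mul_assoc (cS S)]
    gcongr
  have hχ1 : cS S * (D₂ * 2 ^ (n₂ * (m + 1))) * (K (m + 1) : ℝ) ^ t ≤
      D * 2 ^ ((n₁ + n₂) * m) * (K (m + 1) : ℝ) ^ t := by
    have h3 : (2 : ℝ) ^ (n₂ * m) ≤ 2 ^ ((n₁ + n₂) * m) :=
      pow_le_pow_right₀ (by norm_num) (Nat.mul_le_mul_right m (Nat.le_add_left _ _))
    have h4 : cS S * (D₂ * 2 ^ (n₂ * (m + 1))) = cS S * (D₂ * 2 ^ n₂) * 2 ^ (n₂ * m) := by
      rw [mul_add, pow_add]; ring
    rw [h4]
    gcongr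
  have hnn : 0 ≤ D * 2 ^ ((n₁ + n₂) * m) * (K (m + 1) : ℝ) ^ t := by positivity
  have hψs := prof_summable ψb m
  have hχs := prof_summable χb (m + 1)
  have cP : Wc t (D * 2 ^ ((n₁ + n₂) * m) * (K (m + 1) : ℝ) ^ t)
      (fun x : V => (PP K m (x 1) : ℂ)) :=
    (Wc_cos1 (h := hψ m) hk (hψ_contDiff m) (hψ_per m) hψs ht (h₁ m)).mono hψ1
  have cX : Wc t (D * 2 ^ ((n₁ + n₂) * m) * (K (m + 1) : ℝ) ^ t)
      (fun x : V => ((hχ (m + 1) (x 1) * Real.cos (K (m + 1) * x 0) : ℝ) : ℂ)) :=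
    (Wc_cos0 (h := hχ (m + 1)) hk (hχ_contDiff (m + 1)) (hχ_per (m + 1)) hχs ht (h₂ (m + 1))).mono hχ1
  have cQ : Wc t (D * 2 ^ ((n₁ + n₂) * m) * (K (m + 1) : ℝ) ^ t)
      (fun x : V => ((PP K m (x 1) * Real.sin (K m * x 0) : ℝ) : ℂ)) :=
    (Wc_cos_sin (h := hψ m) hk (hF.K_le m) (hψ_contDiff m) (hψ_per m) hψs ht (h₁ m)).mono hψ1
  constructor
  · fin_cases i
    · exact cP
    · exact (Wc_zero t hnn).congr fun x => by simp [pf]
    · exact cX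
  · fin_cases i
    · exact (Wc_zero t hnn).congr fun x => by simp [qf]
    · exact (Wc_zero t hnn).congr fun x => by simp [qf]
    · exact cQ

end Pool.Agent.H306.CK
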