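import Pool.Agent.H306.CK.Defs
import Pool.Agent.H306.CK.Cmp

/-! Energy balance and uniqueness of classical solutions. -/

namespace Pool.Agent.H306.CK

open Set MeasureTheory Filter Topology

open scoped Real ContDiff

theorem torus_compact : IsCompact torus := isCompact_Icc

theorem torus_meas : MeasurableSet torus := measurableSet_Icc

theorem cont_int {f : V → ℝ} (hf : Continuous f) : IntegrableOn f torus :=
  hf.continuousOn.integrableOn_compact torus_compact

/-- The integral of a divergence over the period cell vanishes. -/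
theorem div_int {F : V → V} (hF : ContDiff ℝ 1 F) (hper : Periodic3 F) :
    ∫ x in torus, ∑ i, pd i (fun y => F y i) x = 0 := by
  have hpi := Real.pi_pos
  have hd : ∀ x, HasFDerivAt F (fderiv ℝ F x) x := fun x =>
    (hF.differentiable (by norm_num) x).hasFDerivAt
  have h1 : ∀ x, ∑ i, pd i (fun y => F y i) x =
      ∑ i : Fin 3, (fderiv ℝ F x) (Pi.single i 1) i := by
    intro x
    refine Finset.sum_congr rfl fun i _ => ?_
    unfold pd
    have h2 := (hasFDerivAt_pi'.1 (hd x)) i
    rw [h2.fderiv]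
    rfl
  simp only [h1]
  unfold torus
  have hcont : Continuous (fderiv ℝ F) := hF.continuous_fderiv (by norm_num)
  have h3 := integral_divergence_of_hasFDerivAt_off_countable (n := 2)
    (fun _ => -π) (fun _ => π) (fun i => by linarith) F (fun x => fderiv ℝ F x) ∅
    countable_empty hF.continuous.continuousOn (fun x _ => hd x) (by
      have : Continuous fun x => ∑ i : Fin 3, (fderiv ℝ F x) (Pi.single i 1) i := by
        fun_prop
      exact this.continuousOn.integrableOn_compact isCompact_Icc)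
  rw [h3]
  refine Finset.sum_eq_zero fun i _ => ?_
  rw [sub_eq_zero]
  congr 1
  ext x
  have h4 : (Fin.insertNth i π x : V) = (Fin.insertNth i (-π) x : V) + Pi.single i (2 * π) := by
    ext j
    rcases Fin.eq_self_or_eq_succAbove i j with h | ⟨l, h⟩
    · subst h
      simp
      ring
    · subst h
      simp
  rw [h4, hper]

/-- Slices of functions on space-time. -/
theorem slice_contDiff {I : Set ℝ} {E : Type} [NormedAddCommGroup E] [NormedSpace ℝ E]
    {f : ℝ → V → E} (hf : ContDiffOn ℝ 1 (fun z : ℝ × V => f z.1 z.2) (I ×ˢ univ)) {t : ℝ}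
    (ht : t ∈ I) : ContDiff ℝ 1 (f t) := by
  have h : ContDiff ℝ 1 (fun y : V => ((t, y) : ℝ × V)) := contDiff_const.prodMk contDiff_id
  exact hf.comp_contDiff h fun y => ⟨ht, mem_univ _⟩

theorem pd_within {T : ℝ} {f : ℝ → V → ℝ}
    (hf : ContDiffOn ℝ 1 (fun z : ℝ × V => f z.1 z.2) (Ico 0 T ×ˢ univ)) {t : ℝ}
    (ht : t ∈ Ico 0 T) (j : Fin 3) (x : V) : pd j (f t) x =
      fderivWithin ℝ (fun z : ℝ × V => f z.1 z.2) (Ico 0 T ×ˢ univ) (t, x) (0, Pi.single j 1) := by
  have h1 : HasFDerivWithinAt (fun z : ℝ × V => f z.1 z.2)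
      (fderivWithin ℝ (fun z : ℝ × V => f z.1 z.2) (Ico 0 T ×ˢ univ) (t, x))
      (Ico 0 T ×ˢ univ) (t, x) :=
    ((hf.differentiableOn (by norm_num)) (t, x) ⟨ht, mem_univ _⟩).hasFDerivWithinAt
  have h2 : HasFDerivWithinAt (fun y : V => ((t, y) : ℝ × V))
      (ContinuousLinearMap.inr ℝ ℝ V) univ x := (hasFDerivAt_prodMk_right t x).hasFDerivWithinAt
  have h3 := HasFDerivWithinAt.comp (t := Ico 0 T ×ˢ univ) x h1 h2 fun y _ => ⟨ht, mem_univ _⟩
  rw [hasFDerivWithinAt_univ] at h3
  unfold pd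
  have h4 : (fun z : ℝ × V => f z.1 z.2) ∘ (fun y : V => ((t, y) : ℝ × V)) = f t := rfl
  rw [h4] at h3
  rw [h3.fderiv]
  rfl

theorem pd_continuousOn {T : ℝ} {f : ℝ → V → ℝ}
    (hf : ContDiffOn ℝ 1 (fun z : ℝ × V => f z.1 z.2) (Ico 0 T ×ˢ univ)) (j : Fin 3) :
    ContinuousOn (fun z : ℝ × V => pd j (f z.1) z.2) (Ico 0 T ×ˢ univ) := by
  have hu : UniqueDiffOn ℝ (Ico 0 T ×ˢ (univ : Set V)) := (uniqueDiffOn_Ico 0 T).prod uniqueDiffOn_univ
  have h1 := hf.continuousOn_fderivWithin hu (by norm_num)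
  have h2 : ContinuousOn (fun z : ℝ × V => fderivWithin ℝ (fun z : ℝ × V => f z.1 z.2)
      (Ico 0 T ×ˢ univ) z ((0 : ℝ), (Pi.single j 1 : V))) (Ico 0 T ×ˢ univ) :=
    h1.clm_apply continuousOn_const
  exact h2.congr fun z hz => pd_within hf hz.1 j z.2

theorem cell_subset {T t₁ : ℝ} (h : t₁ < T) :
    Icc 0 t₁ ×ˢ torus ⊆ Ico 0 T ×ˢ (univ : Set V) := fun z hz =>
  ⟨⟨hz.1.1, hz.1.2.trans_lt h⟩, mem_univ _⟩

theorem param_continuousOn {T : ℝ} {f : ℝ × V → ℝ} (hf : ContinuousOn f (Ico 0 T ×ˢ univ)) :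
    ContinuousOn (fun t => ∫ x in torus, f (t, x)) (Ico 0 T) := by
  intro t ht
  obtain ⟨t₁, h1, h2⟩ := exists_between ht.2
  have hc : IsCompact (Icc 0 t₁ ×ˢ torus) := isCompact_Icc.prod torus_compact
  obtain ⟨C, hC⟩ := hc.exists_bound_of_continuousOn (hf.mono (cell_subset h2))
  have hsl : ∀ s ∈ Ico 0 T, Continuous fun x => f (s, x) := fun s hs =>
    hf.comp_continuous (by fun_prop) fun x => ⟨hs, mem_univ _⟩
  have hnear : ∀ᶠ s in 𝓝[Ico 0 T] t, s ∈ Ico 0 T ∧ s ≤ t₁ := by
    filter_upwards [self_mem_nhdsWithin, mem_nhdsWithin_of_mem_nhds (Iic_mem_nhds h1)] with s h3 h4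
    exact ⟨h3, h4⟩
  refine continuousWithinAt_of_dominated (bound := fun _ => C) ?_ ?_ ?_ ?_
  · filter_upwards [hnear] with s hs
    exact (hsl s hs.1).aestronglyMeasurable
  · filter_upwards [hnear] with s hs
    filter_upwards [ae_restrict_mem torus_meas] with x hx
    exact hC (s, x) ⟨⟨hs.1.1, hs.2⟩, hx⟩
  · exact cont_int continuous_const
  · refine Eventually.of_forall fun x => ?_
    exact (hf (t, x) ⟨ht, mem_univ _⟩).comp (t := Ico 0 T ×ˢ univ)
      (by fun_prop) fun s hs => ⟨hs, mem_univ _⟩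

theorem param_deriv {T : ℝ} {f : ℝ × V → ℝ} (hf : ContDiffOn ℝ 1 f (Ico 0 T ×ˢ univ)) {t : ℝ}
    (ht : t ∈ Ioo 0 T) : HasDerivAt (fun s => ∫ x in torus, f (s, x))
      (∫ x in torus, deriv (fun s => f (s, x)) t) t := by
  have hU : IsOpen (Ioo 0 T ×ˢ (univ : Set V)) := isOpen_Ioo.prod isOpen_univ
  have hf' : ContDiffOn ℝ 1 f (Ioo 0 T ×ˢ univ) :=
    hf.mono (prod_mono Ioo_subset_Ico_self Subset.rfl)
  have hcd : ContinuousOn (fderiv ℝ f) (Ioo 0 T ×ˢ univ) :=
    hf'.continuousOn_fderiv_of_isOpen hU (by norm_num)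
  have hg : ContinuousOn (fun z => fderiv ℝ f z ((1 : ℝ), (0 : V))) (Ioo 0 T ×ˢ univ) :=
    hcd.clm_apply continuousOn_const
  have hda : ∀ s ∈ Ioo 0 T, ∀ x : V, HasDerivAt (fun s => f (s, x))
      (fderiv ℝ f (s, x) ((1 : ℝ), (0 : V))) s := by
    intro s hs x
    have h1 : HasFDerivAt f (fderiv ℝ f (s, x)) (s, x) :=
      ((hf'.differentiableOn (by norm_num)).differentiableAt
        (hU.mem_nhds ⟨hs, mem_univ _⟩)).hasFDerivAt
    have h2 : HasDerivAt (fun s : ℝ => ((s, x) : ℝ × V)) ((1 : ℝ), (0 : V)) s :=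
      (hasDerivAt_id s).prodMk (hasDerivAt_const s x)
    exact h1.comp_hasDerivAt s h2
  obtain ⟨a, ha0, hat⟩ := exists_between ht.1
  obtain ⟨b, htb, hbT⟩ := exists_between ht.2
  have hc : IsCompact (Icc a b ×ˢ torus) := isCompact_Icc.prod torus_compact
  have hsub : Icc a b ×ˢ torus ⊆ Ioo 0 T ×ˢ (univ : Set V) := fun z hz =>
    ⟨⟨ha0.trans_le hz.1.1, hz.1.2.trans_lt hbT⟩, mem_univ _⟩
  obtain ⟨C, hC⟩ := hc.exists_bound_of_continuousOn (hg.mono hsub)
  have hsl : ∀ s ∈ Ioo 0 T, Continuous fun x => f (s, x) := fun s hs =>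
    hf'.continuousOn.comp_continuous (by fun_prop) fun x => ⟨hs, mem_univ _⟩
  have hslg : Continuous fun x => fderiv ℝ f (t, x) ((1 : ℝ), (0 : V)) :=
    hg.comp_continuous (by fun_prop) fun x => ⟨ht, mem_univ _⟩
  have key := hasDerivAt_integral_of_dominated_loc_of_deriv_le (μ := volume.restrict torus)
    (F := fun s x => f (s, x)) (F' := fun s x => fderiv ℝ f (s, x) ((1 : ℝ), (0 : V)))
    (x₀ := t) (s := Icc a b) (bound := fun _ => C) (Icc_mem_nhds hat htb)
    (by
      filter_upwards [Ioo_mem_nhds ht.1 ht.2] with s hs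
      exact (hsl s hs).aestronglyMeasurable)
    (cont_int (hsl t ht)) hslg.aestronglyMeasurable
    (by
      filter_upwards [ae_restrict_mem torus_meas] with x hx s hs
      exact hC (s, x) ⟨hs, hx⟩)
    (cont_int continuous_const)
    (Eventually.of_forall fun x s hs => hda s ⟨ha0.trans_le hs.1, hs.2.trans_lt hbT⟩ x)
  have h5 : ∀ x, deriv (fun s => f (s, x)) t = fderiv ℝ f (t, x) ((1 : ℝ), (0 : V)) := fun x =>
    (hda t ht x).deriv
  simp only [h5]
  exact key.2

theorem periodic_int {f : V → ℝ} (hf : Periodic3 f) (i : Fin 3) (n : ℤ) (x : V) :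
    f (x + Pi.single i (n * (2 * π))) = f x := by
  have hnat : ∀ (n : ℕ) (x : V), f (x + Pi.single i (n * (2 * π))) = f x := by
    intro n
    induction n with
    | zero => intro x; simp
    | succ n ih =>
      intro x
      have h1 : x + Pi.single i (((n + 1 : ℕ) : ℝ) * (2 * π)) =
          (x + Pi.single i (n * (2 * π))) + Pi.single i (2 * π) := by
        rw [add_assoc, ← Pi.single_add]
        congr 2
        push_cast; ring
      rw [h1, hf, ih]
  rcases Int.eq_nat_or_neg n with ⟨k, rfl | rfl⟩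
  · exact_mod_cast hnat k x
  · have h1 := hnat k (x + Pi.single i (((-k : ℤ) : ℝ) * (2 * π)))
    rw [← h1, add_assoc, ← Pi.single_add]
    push_cast
    simp

/-- Every point has a representative in the period cell. -/
theorem exists_rep (x : V) : ∃ y ∈ torus, ∀ f : V → ℝ, Periodic3 f → f x = f y := by
  have hpi := Real.pi_pos
  have h2 : (0 : ℝ) < 2 * π := by positivity
  have hmod : ∀ a : ℝ, ∃ (n : ℤ), a + n * (2 * π) ∈ Icc (-π) π := by
    intro a
    refine ⟨-(toIcoDiv h2 (-π) a), ?_⟩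
    have h3 := toIcoMod_mem_Ico h2 (-π) a
    have h4 : a + ((-(toIcoDiv h2 (-π) a) : ℤ) : ℝ) * (2 * π) = toIcoMod h2 (-π) a := by
      unfold toIcoMod
      rw [zsmul_eq_mul]
      push_cast
      ring
    rw [h4]
    exact ⟨h3.1, by linarith [h3.2]⟩
  choose n hn using hmod
  refine ⟨x + Pi.single 0 (n (x 0) * (2 * π)) + Pi.single 1 (n (x 1) * (2 * π)) +
    Pi.single 2 (n (x 2) * (2 * π)), ?_, fun f hf => ?_⟩
  · unfold torus
    rw [← pi_univ_Icc, mem_univ_pi]
    intro i
    fin_cases i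
    · simpa using hn (x 0)
    · simpa using hn (x 1)
    · simpa using hn (x 2)
  · rw [periodic_int hf, periodic_int hf, periodic_int hf]

theorem torus_closure : torus ⊆ closure (interior torus) := by
  have hpi := Real.pi_pos
  unfold torus
  have h1 : (Icc (fun _ => -π) (fun _ => π) : Set V) = pi univ fun _ => Icc (-π) π :=
    (pi_univ_Icc _ _).symm
  rw [h1, interior_pi_set finite_univ, closure_pi_set]
  refine pi_mono fun i _ => ?_
  rw [interior_Icc, closure_Ioo (by linarith)]

theorem eq_zero_of_int {f : V → ℝ} (hf : Continuous f) (h0 : ∀ x, 0 ≤ f x) (hper : Periodic3 f)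
    (hint : ∫ x in torus, f x = 0) (x : V) : f x = 0 := by
  have h1 := (setIntegral_eq_zero_iff_of_nonneg_ae (Eventually.of_forall h0) (cont_int hf)).1 hint
  have h2 : EqOn f 0 torus := Measure.eqOn_of_ae_eq h1 hf.continuousOn continuousOn_const
    torus_closure
  obtain ⟨y, hy, h3⟩ := exists_rep x
  rw [h3 f hper]
  exact h2 hy

/-- The properties of the linear term. -/
structure Lin (K : (V → V) → V → V) : Prop where
  sub : ∀ v w, CP v → CP w → K (v - w) = K v - K w
  cont : ∀ v, CP v → CP (K v)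
  dis : ∀ v, CP v → inner3 v (K v) ≤ 0

theorem pd_mul {f g : V → ℝ} (hf : ContDiff ℝ 1 f) (hg : ContDiff ℝ 1 g) (j : Fin 3) (x : V) :
    pd j (fun y => f y * g y) x = f x * pd j g x + g x * pd j f x := by
  unfold pd
  rw [fderiv_fun_mul (hf.differentiable (by norm_num) x) (hg.differentiable (by norm_num) x)]
  simp

theorem pd_sub {f g : V → ℝ} (hf : ContDiff ℝ 1 f) (hg : ContDiff ℝ 1 g) (j : Fin 3) (x : V) :
    pd j (fun y => f y - g y) x = pd j f x - pd j g x := by
  unfold pd
  rw [fderiv_fun_sub (hf.differentiable (by norm_num) x) (hg.differentiable (by norm_num) x)]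
  simp

theorem pd_sum {f : Fin 3 → V → ℝ} (hf : ∀ i, ContDiff ℝ 1 (f i)) (j : Fin 3) (x : V) :
    pd j (fun y => ∑ i, f i y) x = ∑ i, pd j (f i) x := by
  unfold pd
  rw [fderiv_fun_sum fun i _ => (hf i).differentiable (by norm_num) x]
  simp

theorem pd_continuous {f : V → ℝ} (hf : ContDiff ℝ 1 f) (j : Fin 3) : Continuous (pd j f) := by
  unfold pd
  exact (hf.continuous_fderiv (by norm_num)).clm_apply continuous_const

theorem int_comb {a b c d : V → ℝ} (ha : IntegrableOn a torus) (hb : IntegrableOn b torus)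
    (hc : IntegrableOn c torus) (hd : IntegrableOn d torus) :
    ∫ x in torus, (2 * a x - 2 * b x - c x - 2 * d x) = 2 * (∫ x in torus, a x) -
      2 * (∫ x in torus, b x) - (∫ x in torus, c x) - 2 * ∫ x in torus, d x := by
  have h1 : ∫ x in torus, (2 * a x - 2 * b x) = 2 * (∫ x in torus, a x) -
      2 * (∫ x in torus, b x) := by
    rw [integral_sub (ha.const_mul 2) (hb.const_mul 2), integral_const_mul, integral_const_mul]
  have h2 : ∫ x in torus, (2 * a x - 2 * b x - c x) = (∫ x in torus, (2 * a x - 2 * b x)) -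
      ∫ x in torus, c x := integral_sub ((ha.const_mul 2).sub (hb.const_mul 2)) hc
  have h3 : ∫ x in torus, (2 * a x - 2 * b x - c x - 2 * d x) =
      (∫ x in torus, (2 * a x - 2 * b x - c x)) - ∫ x in torus, 2 * d x :=
    integral_sub (((ha.const_mul 2).sub (hb.const_mul 2)).sub hc) (hd.const_mul 2)
  rw [h3, h2, h1, integral_const_mul]

section

variable {K : (V → V) → V → V} {T : ℝ} {u v : ℝ → V → V} {p q : ℝ → V → ℝ}

theorem IsSol.comp_contDiffOn (hu : IsSol K (Ico 0 T) u p) (i : Fin 3) :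
    ContDiffOn ℝ 1 (fun z : ℝ × V => u z.1 z.2 i) (Ico 0 T ×ˢ univ) :=
  contDiffOn_pi.1 hu.c1_u i

theorem IsSol.comp_contDiff (hu : IsSol K (Ico 0 T) u p) {t : ℝ} (ht : t ∈ Ico 0 T) (i : Fin 3) :
    ContDiff ℝ 1 (fun y => u t y i) :=
  contDiff_pi.1 (slice_contDiff hu.c1_u ht) i

theorem IsSol.cp (hu : IsSol K (Ico 0 T) u p) {t : ℝ} (ht : t ∈ Ico 0 T) : CP (u t) :=
  ⟨(slice_contDiff hu.c1_u ht).continuous, hu.per_u t ht⟩

theorem IsSol.time_deriv (hu : IsSol K (Ico 0 T) u p) {t : ℝ} (ht : t ∈ Ioo 0 T) (x : V)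
    (i : Fin 3) : HasDerivAt (fun s => u s x i) (K (u t) x i -
      ∑ j, u t x j * pd j (fun y => u t y i) x - pd i (p t) x) t := by
  have h1 := hu.momentum t (Ioo_subset_Ico_self ht) x i
  have hnb : Ico 0 T ∈ 𝓝 t := mem_of_superset (Ioo_mem_nhds ht.1 ht.2) Ioo_subset_Ico_self
  rw [derivWithin_of_mem_nhds hnb] at h1
  have h2 : DifferentiableAt ℝ (fun s => u s x i) t := by
    have hU : Ico 0 T ×ˢ (univ : Set V) ∈ 𝓝 (t, x) := prod_mem_nhds hnb univ_mem
    have h3 : DifferentiableAt ℝ (fun z : ℝ × V => u z.1 z.2 i) (t, x) :=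
      ((hu.comp_contDiffOn i).differentiableOn (by norm_num)).differentiableAt hU
    have h4 : DifferentiableAt ℝ (fun s : ℝ => ((s, x) : ℝ × V)) t := by fun_prop
    exact DifferentiableAt.comp t h3 h4
  have h5 := h2.hasDerivAt
  have h6 : deriv (fun s => u s x i) t = K (u t) x i -
      ∑ j, u t x j * pd j (fun y => u t y i) x - pd i (p t) x := by linarith
  rw [← h6]
  exact h5

/-- The energy balance of the difference of two solutions. -/
theorem diff_energy (hK : Lin K) (hu : IsSol K (Ico 0 T) u p) (hv : IsSol K (Ico 0 T) v q) {t : ℝ}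
    (ht : t ∈ Ioo 0 T) :
    HasDerivAt (fun s => ∫ x in torus, ∑ i, (u s x i - v s x i) ^ 2)
      (2 * inner3 (u t - v t) (K (u t - v t)) - 2 * ∫ x in torus, ∑ i, ∑ j,
        (u t x i - v t x i) * (u t x j - v t x j) * pd j (fun y => u t y i) x) t := by
  have htI := Ioo_subset_Ico_self ht
  have hf : ContDiffOn ℝ 1 (fun z : ℝ × V => ∑ i, (u z.1 z.2 i - v z.1 z.2 i) ^ 2)
      (Ico 0 T ×ˢ univ) :=
    ContDiffOn.sum fun i _ => ((hu.comp_contDiffOn i).sub (hv.comp_contDiffOn i)).pow 2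
  have h1 := param_deriv hf ht
  refine h1.congr_deriv ?_
  have hui := fun i => hu.comp_contDiff htI i
  have hvi := fun i => hv.comp_contDiff htI i
  have hp := slice_contDiff hu.c1_p htI
  have hq := slice_contDiff hv.c1_p htI
  have hwi : ∀ i, ContDiff ℝ 1 (fun y => u t y i - v t y i) := fun i => (hui i).sub (hvi i)
  have hr : ContDiff ℝ 1 (fun y => p t y - q t y) := hp.sub hq
  have hW : ContDiff ℝ 1 (fun y => ∑ i, (u t y i - v t y i) ^ 2) :=
    ContDiff.sum fun i _ => (hwi i).pow 2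
  -- the two divergences
  set F : V → V := fun y j => v t y j * ∑ i, (u t y i - v t y i) ^ 2 with hF
  set H : V → V := fun y j => (u t y j - v t y j) * (p t y - q t y) with hH
  have hFc : ContDiff ℝ 1 F := contDiff_pi.2 fun j => (hvi j).mul hW
  have hHc : ContDiff ℝ 1 H := contDiff_pi.2 fun j => (hwi j).mul hr
  have hFp : Periodic3 F := fun i y => by
    simp only [hF]; rw [hu.per_u t htI, hv.per_u t htI]
  have hHp : Periodic3 H := fun i y => by
    simp only [hH]; rw [hu.per_u t htI, hv.per_u t htI, hu.per_p t htI, hv.per_p t htI]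
  have hF0 := div_int hFc hFp
  have hH0 := div_int hHc hHp
  have hKw : K (u t - v t) = K (u t) - K (v t) := hK.sub _ _ (hu.cp htI) (hv.cp htI)
  have hpt : ∀ x, deriv (fun s => ∑ i, (u s x i - v s x i) ^ 2) t =
      2 * (∑ i, (u t - v t) x i * K (u t - v t) x i) -
      2 * (∑ i, ∑ j, (u t x i - v t x i) * (u t x j - v t x j) * pd j (fun y => u t y i) x) -
      (∑ i, pd i (fun y => F y i) x) - 2 * ∑ i, pd i (fun y => H y i) x := by
    intro x
    have hd : HasDerivAt (fun s => ∑ i, (u s x i - v s x i) ^ 2)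
        (∑ i, 2 * (u t x i - v t x i) * ((K (u t) x i -
          ∑ j, u t x j * pd j (fun y => u t y i) x - pd i (p t) x) -
          (K (v t) x i - ∑ j, v t x j * pd j (fun y => v t y i) x - pd i (q t) x))) t := by
      refine HasDerivAt.fun_sum fun i _ => ?_
      have h2 := ((hu.time_deriv ht x i).sub (hv.time_deriv ht x i)).pow 2
      refine h2.congr_deriv ?_
      simp
    rw [hd.deriv, hKw]
    have hFd : ∑ i, pd i (fun y => F y i) x =
        ∑ j, (v t x j * ∑ i, 2 * (u t x i - v t x i) *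
          (pd j (fun y => u t y i) x - pd j (fun y => v t y i) x)) := by
      have h3 : ∀ j, pd j (fun y => F y j) x = v t x j * (∑ i, 2 * (u t x i - v t x i) *
          (pd j (fun y => u t y i) x - pd j (fun y => v t y i) x)) +
          (∑ i, (u t x i - v t x i) ^ 2) * pd j (fun y => v t y j) x := by
        intro j
        simp only [hF]
        rw [pd_mul (hvi j) hW]
        congr 2
        have h4 : ∀ i, ContDiff ℝ 1 (fun y => (u t y i - v t y i) ^ 2) := fun i => (hwi i).pow 2
        rw [pd_sum h4]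
        refine Finset.sum_congr rfl fun i _ => ?_
        have h5 : (fun y => (u t y i - v t y i) ^ 2) =
            fun y => (u t y i - v t y i) * (u t y i - v t y i) := by
          ext y; ring
        rw [h5, pd_mul (hwi i) (hwi i), pd_sub (hui i) (hvi i)]
        ring
      simp only [h3]
      rw [Finset.sum_add_distrib, ← Finset.mul_sum, hv.div_free t htI x, mul_zero, add_zero]
    have hHd : ∑ i, pd i (fun y => H y i) x =
        ∑ i, (u t x i - v t x i) * (pd i (p t) x - pd i (q t) x) := by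
      have h3 : ∀ i, pd i (fun y => H y i) x = (u t x i - v t x i) *
          (pd i (p t) x - pd i (q t) x) + (p t x - q t x) *
          (pd i (fun y => u t y i) x - pd i (fun y => v t y i) x) := by
        intro i
        simp only [hH]
        rw [pd_mul (hwi i) hr, pd_sub (hui i) (hvi i), pd_sub hp hq]
      simp only [h3]
      rw [Finset.sum_add_distrib, ← Finset.mul_sum, Finset.sum_sub_distrib,
        hu.div_free t htI x, hv.div_free t htI x]
      ring
    rw [hFd, hHd]
    simp only [Fin.sum_univ_three, Pi.sub_apply]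
    ring
  simp only [hpt]
  have hKc := (hK.cont _ ⟨(hu.cp htI).1.sub (hv.cp htI).1, fun i y => by
    simp only [Pi.sub_apply]
    rw [hu.per_u t htI, hv.per_u t htI]⟩ : CP (K (u t - v t))).1
  have hcu := (hu.cp htI).1
  have hcv := (hv.cp htI).1
  have c1 : Continuous fun x => ∑ i, (u t - v t) x i * K (u t - v t) x i := by
    have : Continuous (u t - v t) := hcu.sub hcv
    fun_prop
  have c2 : Continuous fun x => ∑ i, ∑ j, (u t x i - v t x i) * (u t x j - v t x j) *
      pd j (fun y => u t y i) x := by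
    have := fun i j => pd_continuous (hui i) j
    fun_prop
  have c3 : Continuous fun x => ∑ i, pd i (fun y => F y i) x := by
    refine continuous_finsetSum _ fun i _ => pd_continuous (contDiff_pi.1 hFc i) i
  have c4 : Continuous fun x => ∑ i, pd i (fun y => H y i) x := by
    refine continuous_finsetSum _ fun i _ => pd_continuous (contDiff_pi.1 hHc i) i
  have i1 := cont_int c1
  have i2 := cont_int c2
  have i3 := cont_int c3
  have i4 := cont_int c4
  rw [int_comb i1 i2 i3 i4, hF0, hH0]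
  unfold inner3
  ring

theorem cp_sub {v w : V → V} (hv : CP v) (hw : CP w) : CP (v - w) :=
  ⟨hv.1.sub hw.1, fun i y => by simp only [Pi.sub_apply]; rw [hv.2, hw.2]⟩

/-- Uniqueness of classical solutions. -/
theorem unique (hK : Lin K) (hu : IsSol K (Ico 0 T) u p) (hv : IsSol K (Ico 0 T) v q)
    (h0 : u 0 = v 0) : ∀ t ∈ Ico 0 T, u t = v t := by
  intro t ht
  rcases ht.1.eq_or_lt with h | htpos
  · rw [← h]; exact h0
  obtain ⟨t₁, ht1, ht1T⟩ := exists_between ht.2
  have hc : IsCompact (Icc 0 t₁ ×ˢ torus) := isCompact_Icc.prod torus_compact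
  have hb : ∀ i j, ∃ C, ∀ z ∈ Icc 0 t₁ ×ˢ torus, ‖pd j (fun y => u z.1 y i) z.2‖ ≤ C := fun i j =>
    hc.exists_bound_of_continuousOn
      ((pd_continuousOn (f := fun t y => u t y i) (hu.comp_contDiffOn i) j).mono
        (cell_subset ht1T))
  choose C hC using hb
  set M : ℝ := ∑ i, ∑ j, |C i j| with hM
  have hM0 : 0 ≤ M := Finset.sum_nonneg fun i _ => Finset.sum_nonneg fun j _ => abs_nonneg _
  have hCM : ∀ i j, ∀ z ∈ Icc 0 t₁ ×ˢ torus, |pd j (fun y => u z.1 y i) z.2| ≤ M := by
    intro i j z hz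
    refine (hC i j z hz).trans ((le_abs_self _).trans ?_)
    exact (Finset.single_le_sum (f := fun j => |C i j|) (fun j _ => abs_nonneg _)
      (Finset.mem_univ j)).trans (Finset.single_le_sum (f := fun i => ∑ j, |C i j|)
      (fun i _ => Finset.sum_nonneg fun j _ => abs_nonneg _) (Finset.mem_univ i))
  set E : ℝ → ℝ := fun s => ∫ x in torus, ∑ i, (u s x i - v s x i) ^ 2 with hE
  have hEc : ContinuousOn E (Ico 0 T) := by
    refine param_continuousOn (f := fun z : ℝ × V => ∑ i, (u z.1 z.2 i - v z.1 z.2 i) ^ 2) ?_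
    exact (ContDiffOn.sum fun i _ =>
      ((hu.comp_contDiffOn i).sub (hv.comp_contDiffOn i)).pow 2).continuousOn
  have hE0 : E 0 = 0 := by
    simp only [hE, h0]
    simp
  have hcs : ∀ s ∈ Ico 0 T, Continuous fun x => ∑ i, (u s x i - v s x i) ^ 2 := by
    intro s hs
    have h1 := (hu.cp hs).1
    have h2 := (hv.cp hs).1
    fun_prop
  have hgrow : ∀ a, 0 < a → a ≤ t → E t ≤ E a * Real.exp (6 * M * (t - a)) := by
    intro a ha hat
    refine gron_upper hat fun s hs => ?_
    have hsT : s ∈ Ioo 0 T := ⟨ha.trans_le hs.1, hs.2.trans_lt ht.2⟩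
    have hsI := Ioo_subset_Ico_self hsT
    refine ⟨_, diff_energy hK hu hv hsT, ?_⟩
    have h1 := hK.dis (u s - v s) (cp_sub (hu.cp hsI) (hv.cp hsI))
    have hcu := (hu.cp hsI).1
    have hcv := (hv.cp hsI).1
    have c2 : Continuous fun x => ∑ i, ∑ j, (u s x i - v s x i) * (u s x j - v s x j) *
        pd j (fun y => u s y i) x := by
      have := fun i j => pd_continuous (hu.comp_contDiff hsI i) j
      fun_prop
    have h2 : -∫ x in torus, ∑ i, ∑ j, (u s x i - v s x i) * (u s x j - v s x j) *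
        pd j (fun y => u s y i) x ≤ 3 * M * E s := by
      rw [← integral_neg, hE, ← integral_const_mul]
      refine setIntegral_mono_on (cont_int c2).neg ((cont_int (hcs s hsI)).const_mul _)
        torus_meas fun x hx => ?_
      have h3 : ∀ i j, |(u s x i - v s x i) * (u s x j - v s x j) *
          pd j (fun y => u s y i) x| ≤ M * ((u s x i - v s x i) ^ 2 +
            (u s x j - v s x j) ^ 2) / 2 := by
        intro i j
        rw [abs_mul]
        have h4 := hCM i j (s, x) ⟨⟨hsT.1.le, hs.2.trans ht1.le⟩, hx⟩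
        simp only at h4
        have h5 : |(u s x i - v s x i) * (u s x j - v s x j)| ≤
            ((u s x i - v s x i) ^ 2 + (u s x j - v s x j) ^ 2) / 2 := by
          rw [abs_le]
          constructor <;> nlinarith [sq_nonneg ((u s x i - v s x i) + (u s x j - v s x j)),
            sq_nonneg ((u s x i - v s x i) - (u s x j - v s x j))]
        calc _ ≤ (((u s x i - v s x i) ^ 2 + (u s x j - v s x j) ^ 2) / 2) * M :=
              mul_le_mul h5 h4 (abs_nonneg _) (by positivity)
          _ = _ := by ring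
      have h6 : -∑ i, ∑ j, (u s x i - v s x i) * (u s x j - v s x j) *
          pd j (fun y => u s y i) x ≤ ∑ i, ∑ j, M * ((u s x i - v s x i) ^ 2 +
            (u s x j - v s x j) ^ 2) / 2 := by
        rw [← Finset.sum_neg_distrib]
        refine Finset.sum_le_sum fun i _ => ?_
        rw [← Finset.sum_neg_distrib]
        exact Finset.sum_le_sum fun j _ => (neg_le_abs _).trans (h3 i j)
      refine h6.trans (le_of_eq ?_)
      simp only [Fin.sum_univ_three]
      ring
    linarith
  have hlim : Tendsto (fun a => E a * Real.exp (6 * M * (t - a))) (𝓝[>] 0) (𝓝 0) := by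
    have h1 : Tendsto E (𝓝[>] 0) (𝓝 (E 0)) := by
      have h2 : ContinuousWithinAt E (Ico 0 T) 0 := hEc 0 ⟨le_rfl, htpos.trans ht.2⟩
      exact h2.mono_left (by
        rw [nhdsWithin_le_iff]
        filter_upwards [self_mem_nhdsWithin,
          mem_nhdsWithin_of_mem_nhds (Iio_mem_nhds (htpos.trans ht.2))] with s h3 h4
        exact ⟨le_of_lt h3, h4⟩)
    rw [hE0] at h1
    have h2 : Tendsto (fun a => Real.exp (6 * M * (t - a))) (𝓝[>] 0)
        (𝓝 (Real.exp (6 * M * (t - 0)))) := by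
      have : Continuous fun a => Real.exp (6 * M * (t - a)) := by fun_prop
      exact this.continuousAt.continuousWithinAt
    have h3 := h1.mul h2
    rwa [zero_mul] at h3
  have hEt : E t ≤ 0 := by
    refine ge_of_tendsto hlim ?_
    filter_upwards [self_mem_nhdsWithin,
      mem_nhdsWithin_of_mem_nhds (Iic_mem_nhds htpos)] with a h1 h2
    exact hgrow a h1 h2
  have hEnn : 0 ≤ E t := integral_nonneg fun x => Finset.sum_nonneg fun i _ => sq_nonneg _
  have hEz : ∫ x in torus, ∑ i, (u t x i - v t x i) ^ 2 = 0 := le_antisymm hEt hEnn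
  have hz := eq_zero_of_int (hcs t ht) (fun x => Finset.sum_nonneg fun i _ => sq_nonneg _)
    (fun i y => by rw [hu.per_u t ht, hv.per_u t ht]) hEz
  ext x i
  have h1 := (Finset.sum_eq_zero_iff_of_nonneg fun i _ => sq_nonneg _).1 (hz x) i
    (Finset.mem_univ i)
  have h2 := pow_eq_zero_iff (n := 2) (by norm_num) |>.1 h1
  linarith

/-- The trivial solution. -/
theorem zero_isSol (hK : Lin K) : IsSol K (Ico 0 T) (fun _ _ => 0) (fun _ _ => 0) := by
  have hz : CP (fun _ => 0 : V → V) := ⟨continuous_const, fun _ _ => rfl⟩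
  have h1 : K (fun _ => 0 : V → V) = 0 := by
    have h2 := hK.sub _ _ hz hz
    have h3 : ((fun _ => 0 : V → V) - fun _ => 0) = fun _ => 0 := by ext; simp
    rw [h3, sub_self] at h2
    exact h2
  refine ⟨contDiffOn_const, contDiffOn_const, fun t _ i y => rfl, fun t _ i y => rfl,
    fun t _ x => ?_, fun t _ x i => ?_⟩
  · simp [pd]
  · rw [h1]
    simp [pd]

/-- The energy identity. -/
theorem energy_deriv (hK : Lin K) (hu : IsSol K (Ico 0 T) u p) {t : ℝ} (ht : t ∈ Ioo 0 T) :
    HasDerivAt (fun s => inner3 (u s) (u s)) (2 * inner3 (u t) (K (u t))) t := by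
  have h := diff_energy hK (zero_isSol hK (T := T)) hu ht
  have h1 : (fun s => ∫ x in torus, ∑ i, ((fun _ _ => 0 : ℝ → V → V) s x i - u s x i) ^ 2) =
      fun s => inner3 (u s) (u s) := by
    ext s
    unfold inner3
    congr 1
    ext x
    refine Finset.sum_congr rfl fun i _ => ?_
    simp
    ring
  rw [h1] at h
  have htI := Ioo_subset_Ico_self ht
  refine h.congr_deriv ?_
  have hz : CP (fun _ => 0 : V → V) := ⟨continuous_const, fun _ _ => rfl⟩
  have h2 : K ((fun _ _ => 0 : ℝ → V → V) t - u t) = -K (u t) := by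
    have h3 := hK.sub _ _ hz (hu.cp htI)
    have h4 : K (fun _ => 0 : V → V) = 0 := by
      have h5 := hK.sub _ _ hz hz
      have h6 : ((fun _ => 0 : V → V) - fun _ => 0) = fun _ => 0 := by ext; simp
      rw [h6, sub_self] at h5
      exact h5
    rw [h4, zero_sub] at h3
    exact h3
  rw [h2]
  unfold inner3
  have h7 : ∀ x : V, ∑ i, ((fun _ _ => 0 : ℝ → V → V) t - u t) x i * (-K (u t)) x i =
      ∑ i, u t x i * K (u t) x i := by
    intro x
    refine Finset.sum_congr rfl fun i _ => ?_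
    simp
  simp only [h7]
  simp [pd]

theorem energy_continuousOn (hu : IsSol K (Ico 0 T) u p) :
    ContinuousOn (fun s => inner3 (u s) (u s)) (Ico 0 T) := by
  refine param_continuousOn (f := fun z : ℝ × V => ∑ i, u z.1 z.2 i * u z.1 z.2 i) ?_
  exact (ContDiffOn.sum fun i _ =>
    (hu.comp_contDiffOn i).mul (hu.comp_contDiffOn i)).continuousOn

/-- Conservation of the energy if the linear term does no work. -/
theorem energy_const (hK : Lin K) (hsk : ∀ v, CP v → inner3 v (K v) = 0)
    (hu : IsSol K (Ico 0 T) u p) : ∀ t ∈ Ico 0 T, inner3 (u t) (u t) = inner3 (u 0) (u 0) := by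
  intro t ht
  rcases ht.1.eq_or_lt with h | htpos
  · rw [← h]
  have hder : ∀ s ∈ Ioo 0 t, deriv (fun s => inner3 (u s) (u s)) s = 0 := by
    intro s hs
    have hsT : s ∈ Ioo 0 T := ⟨hs.1, hs.2.trans ht.2⟩
    rw [(energy_deriv hK hu hsT).deriv, hsk _ (hu.cp (Ioo_subset_Ico_self hsT)), mul_zero]
  have hc : ContinuousOn (fun s => inner3 (u s) (u s)) (Icc 0 t) :=
    (energy_continuousOn hu).mono fun s hs => ⟨hs.1, hs.2.trans_lt ht.2⟩
  have hd : DifferentiableOn ℝ (fun s => inner3 (u s) (u s)) (Ioo 0 t) := fun s hs =>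
    (energy_deriv hK hu ⟨hs.1, hs.2.trans ht.2⟩).differentiableAt.differentiableWithinAt
  obtain ⟨s, hs, h1⟩ := exists_deriv_eq_slope _ htpos hc hd
  rw [hder s hs] at h1
  have h2 : (inner3 (u t) (u t) - inner3 (u 0) (u 0)) / (t - 0) = 0 := h1.symm
  rw [div_eq_zero_iff] at h2
  rcases h2 with h2 | h2
  · linarith
  · linarith

/-- The energy does not increase. -/
theorem energy_le (hK : Lin K) (hu : IsSol K (Ico 0 T) u p) : ∀ s ∈ Ico 0 T, ∀ t ∈ Ico 0 T,
    s ≤ t → inner3 (u t) (u t) ≤ inner3 (u s) (u s) := by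
  intro s hs t ht hst
  rcases hst.eq_or_lt with h | hlt
  · rw [h]
  have hc : ContinuousOn (fun s => inner3 (u s) (u s)) (Icc s t) :=
    (energy_continuousOn hu).mono fun r hr => ⟨hs.1.trans hr.1, hr.2.trans_lt ht.2⟩
  have hd : DifferentiableOn ℝ (fun s => inner3 (u s) (u s)) (Ioo s t) := fun r hr =>
    (energy_deriv hK hu ⟨hs.1.trans_lt hr.1, hr.2.trans ht.2⟩).differentiableAt.differentiableWithinAt
  obtain ⟨r, hr, h1⟩ := exists_deriv_eq_slope _ hlt hc hd
  have hrT : r ∈ Ioo 0 T := ⟨hs.1.trans_lt hr.1, hr.2.trans ht.2⟩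
  rw [(energy_deriv hK hu hrT).deriv] at h1
  have h2 := hK.dis _ (hu.cp (Ioo_subset_Ico_self hrT))
  have h3 : (inner3 (u t) (u t) - inner3 (u s) (u s)) / (t - s) ≤ 0 := by rw [← h1]; linarith
  have h4 : 0 < t - s := by linarith
  rw [div_le_iff₀ h4] at h3
  linarith

/-- The vorticity is bounded on compact time intervals. -/
theorem curl_bounded (hu : IsSol K (Ico 0 T) u p) {t₁ : ℝ} (ht : t₁ < T) :
    ∃ M : ℝ, ∀ t ∈ Icc 0 t₁, ∀ x i, |curl (u t) x i| ≤ M := by
  have hc : IsCompact (Icc 0 t₁ ×ˢ torus) := isCompact_Icc.prod torus_compact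
  have hb : ∀ i j, ∃ C, ∀ z ∈ Icc 0 t₁ ×ˢ torus, ‖pd j (fun y => u z.1 y i) z.2‖ ≤ C := fun i j =>
    hc.exists_bound_of_continuousOn
      ((pd_continuousOn (f := fun t y => u t y i) (hu.comp_contDiffOn i) j).mono
        (cell_subset ht))
  choose C hC using hb
  set M : ℝ := ∑ i, ∑ j, |C i j| with hM
  have hCM : ∀ i j, ∀ z ∈ Icc 0 t₁ ×ˢ torus, |pd j (fun y => u z.1 y i) z.2| ≤ M := by
    intro i j z hz
    refine (hC i j z hz).trans ((le_abs_self _).trans ?_)
    exact (Finset.single_le_sum (f := fun j => |C i j|) (fun j _ => abs_nonneg _)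
      (Finset.mem_univ j)).trans (Finset.single_le_sum (f := fun i => ∑ j, |C i j|)
      (fun i _ => Finset.sum_nonneg fun j _ => abs_nonneg _) (Finset.mem_univ i))
  refine ⟨M + M, fun t htt x i => ?_⟩
  have htT : t ∈ Ico 0 T := ⟨htt.1, htt.2.trans_lt ht⟩
  obtain ⟨y, hy, hrep⟩ := exists_rep x
  have hper : ∀ i j, Periodic3 (pd j (fun y => u t y i)) := by
    intro i j l z
    unfold pd
    have h1 : (fun y => u t y i) = fun y => u t (y + Pi.single l (2 * π)) i := by
      ext y; rw [hu.per_u t htT]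
    have h2 : fderiv ℝ (fun y => u t y i) z =
        fderiv ℝ (fun y => u t y i) (z + Pi.single l (2 * π)) := by
      conv_lhs => rw [h1]
      exact fderiv_comp_add_right (f := fun y => u t y i) (Pi.single l (2 * π))
    rw [h2]
  have hpd : ∀ i j, |pd j (fun y => u t y i) x| ≤ M := by
    intro i j
    rw [hrep _ (hper i j)]
    exact hCM i j (t, y) ⟨htt, hy⟩
  have hsub : ∀ a b : ℝ, |a| ≤ M → |b| ≤ M → |a - b| ≤ M + M := by
    intro a b ha hb
    exact (abs_sub a b).trans (add_le_add ha hb)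
  fin_cases i
  · exact hsub _ _ (hpd 2 1) (hpd 1 2)
  · exact hsub _ _ (hpd 0 2) (hpd 2 0)
  · exact hsub _ _ (hpd 1 0) (hpd 0 1)

end

end Pool.Agent.H306.CK
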