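import Pool.Agent.H306.CK.Euler
import Pool.Agent.H306.CK.Uniq

/-! Elementary properties of the operator. -/

namespace Pool.Agent.H306.CK

open Set MeasureTheory

open scoped Real ContDiff

section fields

variable (K : ℕ → ℕ) (m : ℕ)

theorem pf_continuous : Continuous (pf K m) := by
  have h1 := (PP_contDiff K m).continuous
  have h2 := (hχ_contDiff (m + 1)).continuous
  refine continuous_pi fun i => ?_
  fin_cases i
  · exact h1.comp (continuous_apply 1)
  · exact continuous_const
  · change Continuous fun x : V => hχ (m + 1) (x 1) * Real.cos (K (m + 1) * x 0)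
    fun_prop

theorem qf_continuous : Continuous (qf K m) := by
  have h1 := (PP_contDiff K m).continuous
  refine continuous_pi fun i => ?_
  fin_cases i
  · exact continuous_const
  · exact continuous_const
  · change Continuous fun x : V => PP K m (x 1) * Real.sin (K m * x 0)
    fun_prop

theorem pf_abs (x : V) (i : Fin 3) : |pf K m x i| ≤ 1 := by
  fin_cases i
  · exact PP_abs_le K m _
  · simp [pf]
  · change |hχ (m + 1) (x 1) * Real.cos (K (m + 1) * x 0)| ≤ 1
    rw [abs_mul, abs_of_nonneg (hχ_nonneg _ _)]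
    exact mul_le_one₀ (hχ_le _ _) (abs_nonneg _) (Real.abs_cos_le_one _)

theorem qf_abs (x : V) (i : Fin 3) : |qf K m x i| ≤ 1 := by
  fin_cases i
  · simp [qf]
  · simp [qf]
  · change |PP K m (x 1) * Real.sin (K m * x 0)| ≤ 1
    rw [abs_mul]
    exact mul_le_one₀ (PP_abs_le K m _) (abs_nonneg _) (Real.abs_sin_le_one _)

theorem shift_cases (i : Fin 3) (x : V) : (i = 0 ∧ (x + Pi.single i (2 * π) : V) 0 = x 0 + 2 * π ∧
    (x + Pi.single i (2 * π) : V) 1 = x 1) ∨ (i = 1 ∧ (x + Pi.single i (2 * π) : V) 0 = x 0 ∧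
    (x + Pi.single i (2 * π) : V) 1 = x 1 + 2 * π) ∨ (i = 2 ∧
    (x + Pi.single i (2 * π) : V) 0 = x 0 ∧ (x + Pi.single i (2 * π) : V) 1 = x 1) := by
  fin_cases i
  · left; simp
  · right; left; simp
  · right; right; simp

theorem pf_periodic : Periodic3 (pf K m) := by
  intro i x
  ext j
  rcases shift_cases i x with ⟨-, h0, h1⟩ | ⟨-, h0, h1⟩ | ⟨-, h0, h1⟩ <;>
    · simp only [pf, h0, h1, PP_per, hχ_per, cos_nat_per]

theorem qf_periodic : Periodic3 (qf K m) := by
  intro i x
  ext j
  rcases shift_cases i x with ⟨-, h0, h1⟩ | ⟨-, h0, h1⟩ | ⟨-, h0, h1⟩ <;>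
    · simp only [qf, h0, h1, PP_per, sin_nat_per]

theorem pf_cp : CP (pf K m) := ⟨pf_continuous K m, pf_periodic K m⟩

theorem qf_cp : CP (qf K m) := ⟨qf_continuous K m, qf_periodic K m⟩

end fields

section inner

theorem CP.comp_continuous {v : V → V} (hv : CP v) (i : Fin 3) : Continuous fun x => v x i :=
  (continuous_apply i).comp hv.1

theorem inner_int {v w : V → V} (hv : CP v) (hw : CP w) :
    IntegrableOn (fun x => ∑ i, v x i * w x i) torus :=
  cont_int (continuous_finsetSum _ fun i _ => (hv.comp_continuous i).mul (hw.comp_continuous i))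

theorem inner_comm (v w : V → V) : inner3 v w = inner3 w v := by
  unfold inner3
  simp only [mul_comm]

theorem inner_comb {v w z : V → V} (hv : CP v) (hw : CP w) (hz : CP z) (a b : ℝ) :
    inner3 z (fun x => a • v x + b • w x) = a * inner3 z v + b * inner3 z w := by
  unfold inner3
  rw [← integral_const_mul, ← integral_const_mul,
    ← integral_add ((inner_int hz hv).const_mul a) ((inner_int hz hw).const_mul b)]
  congr 1
  ext x
  rw [Finset.mul_sum, Finset.mul_sum, ← Finset.sum_add_distrib]
  refine Finset.sum_congr rfl fun i _ => ?_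
  simp only [Pi.add_apply, Pi.smul_apply, smul_eq_mul]
  ring

/-- A uniform bound of the pairings. -/
theorem inner_unif {v : V → V} (hv : CP v) : ∃ B : ℝ, 0 ≤ B ∧ ∀ w, CP w →
    (∀ x i, |w x i| ≤ 1) → |inner3 w v| ≤ B := by
  have hc : Continuous fun x => ∑ i, |v x i| :=
    continuous_finsetSum _ fun i _ => (hv.comp_continuous i).abs
  refine ⟨∫ x in torus, ∑ i, |v x i|, integral_nonneg fun x =>
    Finset.sum_nonneg fun i _ => abs_nonneg _, fun w hw h1 => ?_⟩
  unfold inner3
  rw [← Real.norm_eq_abs]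
  refine (norm_integral_le_integral_norm _).trans ?_
  refine setIntegral_mono_on (inner_int hw hv).norm (cont_int hc) torus_meas fun x _ => ?_
  rw [Real.norm_eq_abs]
  refine (Finset.abs_sum_le_sum_abs _ _).trans (Finset.sum_le_sum fun i _ => ?_)
  rw [abs_mul]
  exact mul_le_of_le_one_left (abs_nonneg _) (h1 x i)

end inner

/-- Series of fields. -/
noncomputable def ser (a : ℕ → ℝ) (w : ℕ → V → V) (x : V) : V := fun i => ∑' m, a m * w m x i

section ser

variable {a : ℕ → ℝ} {w : ℕ → V → V} (ha : Summable fun m => |a m|) (hw : ∀ m, CP (w m))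
  (hw1 : ∀ m x i, |w m x i| ≤ 1)

include ha hw1 in
theorem ser_summable (x : V) (i : Fin 3) : Summable fun m => a m * w m x i := by
  refine Summable.of_norm_bounded ha fun m => ?_
  rw [Real.norm_eq_abs, abs_mul]
  exact mul_le_of_le_one_right (abs_nonneg _) (hw1 m x i)

include ha hw hw1 in
theorem ser_cp : CP (ser a w) := by
  constructor
  · refine continuous_pi fun i => ?_
    refine continuous_tsum (fun m => continuous_const.mul ((hw m).comp_continuous i)) ha
      fun m x => ?_
    rw [Real.norm_eq_abs, abs_mul]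
    exact mul_le_of_le_one_right (abs_nonneg _) (hw1 m x i)
  · intro j x
    ext i
    unfold ser
    refine tsum_congr fun m => ?_
    rw [(hw m).2 j x]

include ha hw hw1 in
theorem inner_ser {v : V → V} (hv : CP v) :
    HasSum (fun m => a m * inner3 (w m) v) (inner3 (ser a w) v) := by
  obtain ⟨B, hB0, hB⟩ := inner_unif hv
  have hc : Continuous fun x => ∑ i, |v x i| :=
    continuous_finsetSum _ fun i _ => (hv.comp_continuous i).abs
  have h := hasSum_integral_of_summable_integral_norm (μ := volume.restrict torus)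
    (F := fun m x => a m * ∑ i, w m x i * v x i)
    (fun m => (inner_int (hw m) hv).const_mul _)
    (Summable.of_nonneg_of_le (fun m => integral_nonneg fun x => norm_nonneg _) (fun m => ?_)
      (ha.mul_right (∫ x in torus, ∑ i, |v x i|)))
  · have h2 : ∫ x in torus, ∑' m, a m * ∑ i, w m x i * v x i = inner3 (ser a w) v := by
      unfold inner3
      congr 1
      ext x
      have h3 : ∀ m, a m * ∑ i, w m x i * v x i = ∑ i, (a m * w m x i) * v x i := fun m => by
        rw [Finset.mul_sum]
        exact Finset.sum_congr rfl fun i _ => by ring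
      simp only [h3]
      rw [Summable.tsum_finsetSum fun i _ => (ser_summable ha hw1 x i).mul_right _]
      refine Finset.sum_congr rfl fun i _ => ?_
      rw [tsum_mul_right]
      rfl
    rw [h2] at h
    refine h.congr_fun fun m => ?_
    exact (integral_const_mul _ _).symm
  · rw [← integral_const_mul]
    refine setIntegral_mono_on ((inner_int (hw m) hv).const_mul _).norm
      ((cont_int hc).const_mul _) torus_meas fun x _ => ?_
    rw [Real.norm_eq_abs, abs_mul]
    gcongr
    refine (Finset.abs_sum_le_sum_abs _ _).trans (Finset.sum_le_sum fun i _ => ?_)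
    rw [abs_mul]
    exact mul_le_of_le_one_left (abs_nonneg _) (hw1 m x i)

end ser

section oper

variable {P : Par} {K : ℕ → ℕ}

/-- The coefficients of the operator. -/
noncomputable def cA (P : Par) (K : ℕ → ℕ) (v : V → V) (m : ℕ) : ℝ :=
  kap P K m * (inner3 (qf K m) v + P.r₂ * inner3 (pf K m) v)

noncomputable def cB (P : Par) (K : ℕ → ℕ) (v : V → V) (m : ℕ) : ℝ :=
  kap P K m * (P.r₁ * inner3 (pf K m) v + P.r₃ * inner3 (qf K m) v)

theorem KK_eq (v : V → V) : KK P K v = fun x => ser (cA P K v) (pf K) x + ser (cB P K v) (qf K) x :=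
  rfl

variable (hF : Fr P K) (hG : P.Good) (hcs : Summable fun m => P.c m * 2 ^ m)

include hF hG in
theorem kap_pos (m : ℕ) : 0 < kap P K m := by
  have h1 := Pi2_pos K m (hF.K_ge m)
  have h2 := hG.c_pos m
  have hpi := Real.pi_pos
  unfold kap
  positivity

include hF hG in
theorem kap_le (m : ℕ) : kap P K m ≤ P.c m * 2 ^ m := by
  have h1 := Pi2_pos K m (hF.K_ge m)
  have h2 := hG.c_pos m
  have h3 := Pi2_lower K m (hF.K_ge m)
  have h4 : (3 : ℝ) < π := Real.pi_gt_three
  have h5 : (0 : ℝ) < 2 ^ m := by positivity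
  unfold kap
  rw [div_le_iff₀ (by positivity), mul_assoc]
  have h6 : 1 ≤ 2 ^ m * (4 * π ^ 2 * Pi2 K m) := by
    have h7 : 1 / 32 ≤ 2 ^ m * Pi2 K m := by
      rw [div_le_iff₀ (by positivity)] at h3
      linarith
    have h8 : 32 ≤ 4 * π ^ 2 := by nlinarith
    calc (1 : ℝ) = 32 * (1 / 32) := by norm_num
      _ ≤ (4 * π ^ 2) * (2 ^ m * Pi2 K m) := by gcongr
      _ = _ := by ring
  nlinarith

include hF hG hcs in
theorem kap_summable : Summable (kap P K) :=
  Summable.of_nonneg_of_le (fun m => (kap_pos hF hG m).le) (kap_le hF hG) hcs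

include hF hG hcs in
theorem cA_summable {v : V → V} (hv : CP v) : Summable fun m => |cA P K v m| := by
  obtain ⟨B, hB0, hB⟩ := inner_unif hv
  refine Summable.of_nonneg_of_le (fun m => abs_nonneg _) (fun m => ?_)
    ((kap_summable hF hG hcs).mul_right (B + B))
  unfold cA
  rw [abs_mul, abs_of_pos (kap_pos hF hG m)]
  have hk := (kap_pos hF hG m).le
  have h1 := hB (qf K m) (qf_cp K m) (qf_abs K m)
  have h2 := hB (pf K m) (pf_cp K m) (pf_abs K m)
  have h3 := hG.r₂_abs
  gcongr
  refine (abs_add_le _ _).trans (add_le_add h1 ?_)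
  rw [abs_mul]
  calc |P.r₂| * |inner3 (pf K m) v| ≤ 1 * B := by gcongr
    _ = B := one_mul B

include hF hG hcs in
theorem cB_summable {v : V → V} (hv : CP v) : Summable fun m => |cB P K v m| := by
  obtain ⟨B, hB0, hB⟩ := inner_unif hv
  refine Summable.of_nonneg_of_le (fun m => abs_nonneg _) (fun m => ?_)
    ((kap_summable hF hG hcs).mul_right (B + B))
  unfold cB
  rw [abs_mul, abs_of_pos (kap_pos hF hG m)]
  have hk := (kap_pos hF hG m).le
  have h1 := hB (qf K m) (qf_cp K m) (qf_abs K m)
  have h2 := hB (pf K m) (pf_cp K m) (pf_abs K m)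
  have h3 := hG.r₁_abs
  have h4 := hG.r₃_abs
  gcongr
  refine (abs_add_le _ _).trans (add_le_add ?_ ?_)
  · rw [abs_mul]
    calc |P.r₁| * |inner3 (pf K m) v| ≤ 1 * B := by gcongr
      _ = B := one_mul B
  · rw [abs_mul]
    calc |P.r₃| * |inner3 (qf K m) v| ≤ 1 * B := by gcongr
      _ = B := one_mul B

include hF hG hcs in
theorem KK_cp {v : V → V} (hv : CP v) : CP (KK P K v) := by
  have h1 := ser_cp (cA_summable hF hG hcs hv) (pf_cp K) (pf_abs K)
  have h2 := ser_cp (cB_summable hF hG hcs hv) (qf_cp K) (qf_abs K)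
  rw [KK_eq]
  refine ⟨h1.1.add h2.1, fun i x => ?_⟩
  change _ + _ = _ + _
  rw [h1.2 i x, h2.2 i x]

include hF hG hcs in
theorem KK_comb {v w : V → V} (hv : CP v) (hw : CP w) (a b : ℝ) :
    KK P K (fun x => a • v x + b • w x) = fun x => a • KK P K v x + b • KK P K w x := by
  have hA : ∀ m, cA P K (fun x => a • v x + b • w x) m = a * cA P K v m + b * cA P K w m := by
    intro m
    unfold cA
    rw [inner_comb hv hw (qf_cp K m), inner_comb hv hw (pf_cp K m)]
    ring
  have hB : ∀ m, cB P K (fun x => a • v x + b • w x) m = a * cB P K v m + b * cB P K w m := by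
    intro m
    unfold cB
    rw [inner_comb hv hw (qf_cp K m), inner_comb hv hw (pf_cp K m)]
    ring
  ext x i
  have h1 := ser_summable (cA_summable hF hG hcs hv) (pf_abs K) x i
  have h2 := ser_summable (cA_summable hF hG hcs hw) (pf_abs K) x i
  have h3 := ser_summable (cB_summable hF hG hcs hv) (qf_abs K) x i
  have h4 := ser_summable (cB_summable hF hG hcs hw) (qf_abs K) x i
  rw [KK_eq, KK_eq, KK_eq]
  simp only [Pi.add_apply, Pi.smul_apply, smul_eq_mul, ser, hA, hB]
  have e1 : ∑' m, (a * cA P K v m + b * cA P K w m) * pf K m x i =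
      a * (∑' m, cA P K v m * pf K m x i) + b * ∑' m, cA P K w m * pf K m x i := by
    rw [← tsum_mul_left, ← tsum_mul_left, ← (h1.mul_left a).tsum_add (h2.mul_left b)]
    exact tsum_congr fun m => by ring
  have e2 : ∑' m, (a * cB P K v m + b * cB P K w m) * qf K m x i =
      a * (∑' m, cB P K v m * qf K m x i) + b * ∑' m, cB P K w m * qf K m x i := by
    rw [← tsum_mul_left, ← tsum_mul_left, ← (h3.mul_left a).tsum_add (h4.mul_left b)]
    exact tsum_congr fun m => by ring
  rw [e1, e2]
  ring

include hF hG hcs in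
theorem inner_KK {v w : V → V} (hv : CP v) (hw : CP w) :
    HasSum (fun m => cA P K v m * inner3 (pf K m) w + cB P K v m * inner3 (qf K m) w)
      (inner3 (KK P K v) w) := by
  have hA := cA_summable hF hG hcs hv
  have hB := cB_summable hF hG hcs hv
  have h1 := inner_ser hA (pf_cp K) (pf_abs K) hw
  have h2 := inner_ser hB (qf_cp K) (qf_abs K) hw
  have h3 : inner3 (KK P K v) w = inner3 (ser (cA P K v) (pf K)) w +
      inner3 (ser (cB P K v) (qf K)) w := by
    unfold inner3
    rw [← integral_add (inner_int (ser_cp hA (pf_cp K) (pf_abs K)) hw)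
      (inner_int (ser_cp hB (qf_cp K) (qf_abs K)) hw)]
    congr 1
    ext x
    rw [← Finset.sum_add_distrib]
    refine Finset.sum_congr rfl fun i _ => ?_
    rw [KK_eq]
    simp only [Pi.add_apply]
    ring
  rw [h3]
  exact h1.add h2

/-- The operator as one series. -/
theorem KK_form (hF : Fr P K) (hG : P.Good) (hcs : Summable fun m => P.c m * 2 ^ m) {v : V → V}
    (hv : CP v) (x : V) (i : Fin 3) :
    KK P K v x i = ∑' m, (cA P K v m * pf K m x i + cB P K v m * qf K m x i) := by
  rw [(ser_summable (cA_summable hF hG hcs hv) (pf_abs K) x i).tsum_add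
    (ser_summable (cB_summable hF hG hcs hv) (qf_abs K) x i)]
  rfl

/-- Skewness. -/
theorem KK_skew (hF : Fr P K) (hG : P.Good) (hcs : Summable fun m => P.c m * 2 ^ m)
    (h1 : P.r₁ = -1) (h2 : P.r₂ = 0) (h3 : P.r₃ = 0) {v w : V → V} (hv : CP v) (hw : CP w) :
    inner3 (KK P K v) w = -inner3 v (KK P K w) := by
  have e1 := inner_KK hF hG hcs hv hw
  have e2 := (inner_KK hF hG hcs hw hv).neg
  rw [inner_comm v]
  refine e1.unique (e2.congr_fun fun m => ?_)
  simp only [cA, cB, h1, h2, h3]
  ring

/-- Symmetry. -/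
theorem KK_symm (hF : Fr P K) (hG : P.Good) (hcs : Summable fun m => P.c m * 2 ^ m)
    (h1 : P.r₁ = 1) (h2 : P.r₂ = -1) (h3 : P.r₃ = -1) {v w : V → V} (hv : CP v) (hw : CP w) :
    inner3 (KK P K v) w = inner3 v (KK P K w) := by
  have e1 := inner_KK hF hG hcs hv hw
  have e2 := inner_KK hF hG hcs hw hv
  rw [inner_comm v]
  refine e1.unique (e2.congr_fun fun m => ?_)
  simp only [cA, cB, h1, h2, h3]
  ring

theorem KK_neg (hF : Fr P K) (hG : P.Good) (hcs : Summable fun m => P.c m * 2 ^ m)
    (h1 : P.r₁ = 1) (h2 : P.r₂ = -1) (h3 : P.r₃ = -1) {v : V → V} (hv : CP v) :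
    inner3 v (KK P K v) ≤ 0 := by
  rw [inner_comm]
  refine (inner_KK hF hG hcs hv hv).nonpos fun m => ?_
  have hk := kap_pos hF hG m
  simp only [cA, cB, h1, h2, h3]
  have : kap P K m * (inner3 (qf K m) v + -1 * inner3 (pf K m) v) * inner3 (pf K m) v +
      kap P K m * (1 * inner3 (pf K m) v + -1 * inner3 (qf K m) v) * inner3 (qf K m) v =
      -(kap P K m * (inner3 (pf K m) v - inner3 (qf K m) v) ^ 2) := by ring
  rw [this]
  have : 0 ≤ kap P K m * (inner3 (pf K m) v - inner3 (qf K m) v) ^ 2 := by positivity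
  linarith

theorem Lin_of (hF : Fr P K) (hG : P.Good) (hcs : Summable fun m => P.c m * 2 ^ m)
    (hd : ∀ v, CP v → inner3 v (KK P K v) ≤ 0) : Lin (KK P K) where
  sub := by
    intro v w hv hw
    have h := KK_comb hF hG hcs hv hw 1 (-1)
    have e1 : (v - w : V → V) = fun x => (1 : ℝ) • v x + (-1 : ℝ) • w x := by
      ext x i
      simp [sub_eq_add_neg]
    rw [e1, h]
    ext x i
    simp [sub_eq_add_neg]
  cont := fun v hv => KK_cp hF hG hcs hv
  dis := hd

end oper

section div

variable (K : ℕ → ℕ) (m : ℕ)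

theorem pf_smooth : ContDiff ℝ ∞ (pf K m) := by
  have h1 := PP_contDiff K m
  have h2 := hχ_contDiff (m + 1)
  refine contDiff_pi.2 fun i => ?_
  fin_cases i
  · exact h1.comp (contDiff_apply ℝ ℝ (1 : Fin 3))
  · exact contDiff_const
  · change ContDiff ℝ ∞ fun x : V => hχ (m + 1) (x 1) * Real.cos (K (m + 1) * x 0)
    exact (h2.comp (contDiff_apply ℝ ℝ (1 : Fin 3))).mul
      (Real.contDiff_cos.comp (contDiff_const.mul (contDiff_apply ℝ ℝ (0 : Fin 3))))

theorem qf_smooth : ContDiff ℝ ∞ (qf K m) := by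
  have h1 := PP_contDiff K m
  refine contDiff_pi.2 fun i => ?_
  fin_cases i
  · exact contDiff_const
  · exact contDiff_const
  · change ContDiff ℝ ∞ fun x : V => PP K m (x 1) * Real.sin (K m * x 0)
    exact (h1.comp (contDiff_apply ℝ ℝ (1 : Fin 3))).mul
      (Real.contDiff_sin.comp (contDiff_const.mul (contDiff_apply ℝ ℝ (0 : Fin 3))))

theorem pf_contDiff : ContDiff ℝ 1 (pf K m) :=
  (pf_smooth K m).of_le (by exact_mod_cast le_top)

theorem qf_contDiff : ContDiff ℝ 1 (qf K m) :=
  (qf_smooth K m).of_le (by exact_mod_cast le_top)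

theorem div_pf (x : V) : ∑ i, pd i (fun y => pf K m y i) x = 0 := by
  have hd : ∀ i, DifferentiableAt ℝ (fun y => pf K m y i) x := fun i =>
    (contDiff_pi.1 (pf_contDiff K m) i).differentiable (by norm_num) x
  rw [Fin.sum_univ_three, pd_zero_of_line (hd 0), pd_zero_of_line (hd 1),
    pd_zero_of_line (hd 2)]
  · ring
  · intro s; simp [pf]
  · intro s; simp [pf]
  · intro s; simp [pf]

theorem div_qf (x : V) : ∑ i, pd i (fun y => qf K m y i) x = 0 := by
  have hd : ∀ i, DifferentiableAt ℝ (fun y => qf K m y i) x := fun i =>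
    (contDiff_pi.1 (qf_contDiff K m) i).differentiable (by norm_num) x
  rw [Fin.sum_univ_three, pd_zero_of_line (hd 0), pd_zero_of_line (hd 1),
    pd_zero_of_line (hd 2)]
  · ring
  · intro s; simp [qf]
  · intro s; simp [qf]
  · intro s; simp [qf]

theorem inner_grad {w : V → V} (hw : ContDiff ℝ 1 w) (hper : Periodic3 w)
    (hdiv : ∀ x, ∑ i, pd i (fun y => w y i) x = 0) {φ : V → ℝ} (hφ : ContDiff ℝ 1 φ)
    (hφp : Periodic3 φ) : inner3 w (fun x i => pd i φ x) = 0 := by
  have hF : ContDiff ℝ 1 (fun x i => φ x * w x i : V → V) :=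
    contDiff_pi.2 fun i => hφ.mul (contDiff_pi.1 hw i)
  have hFp : Periodic3 (fun x i => φ x * w x i : V → V) := by
    intro i x
    ext j
    change φ _ * w _ j = φ x * w x j
    rw [hφp i x, hper i x]
  have h := div_int hF hFp
  have h1 : ∀ x, ∑ i, pd i (fun y => φ y * w y i) x = ∑ i, w x i * pd i φ x := by
    intro x
    have h2 : ∀ i, pd i (fun y => φ y * w y i) x = φ x * pd i (fun y => w y i) x +
        w x i * pd i φ x := fun i => pd_mul hφ (contDiff_pi.1 hw i) i x
    simp only [h2]
    rw [Finset.sum_add_distrib, ← Finset.mul_sum, hdiv, mul_zero, zero_add]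
  unfold inner3
  rw [← h]
  congr 1
  ext x
  exact (h1 x).symm

/-- The gradient of a periodic function is orthogonal to the range. -/
theorem KK_grad {P : Par} {K : ℕ → ℕ} (hF : Fr P K) (hG : P.Good)
    (hcs : Summable fun m => P.c m * 2 ^ m) {v : V → V} (hv : CP v) {φ : V → ℝ}
    (hφ : ContDiff ℝ 1 φ) (hφp : Periodic3 φ) : inner3 (KK P K v) (fun x i => pd i φ x) = 0 := by
  have hcp : CP (fun x i => pd i φ x) := by
    refine ⟨continuous_pi fun i => pd_continuous hφ i, fun j x => ?_⟩
    ext i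
    have h1 : (fun y => φ (y + Pi.single j (2 * π))) = φ := funext fun y => hφp j y
    have h2 : pd i (fun y => φ (y + Pi.single j (2 * π))) x =
        pd i φ (x + Pi.single j (2 * π)) := by
      unfold pd
      rw [fderiv_comp_add_right]
    change pd i φ (x + _) = pd i φ x
    rw [← h2, h1]
  refine (inner_KK hF hG hcs hv hcp).unique ?_
  have h1 : ∀ m, inner3 (pf K m) (fun x i => pd i φ x) = 0 := fun m =>
    inner_grad (pf_contDiff K m) (pf_periodic K m) (div_pf K m) hφ hφp
  have h2 : ∀ m, inner3 (qf K m) (fun x i => pd i φ x) = 0 := fun m =>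
    inner_grad (qf_contDiff K m) (qf_periodic K m) (div_qf K m) hφ hφp
  simp only [h1, h2, mul_zero, add_zero]
  exact hasSum_zero

end div

end Pool.Agent.H306.CK
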