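import Pool.Agent.H306.CK.Four3
import Pool.Agent.H306.CK.Oper

/-! The operator is smoothing of positive order. -/

namespace Pool.Agent.H306.CK

open Set MeasureTheory Filter

open scoped Real ContDiff ENNReal Topology

theorem add_sq_le (a b : ℝ≥0∞) : (a + b) ^ 2 ≤ 2 * a ^ 2 + 2 * b ^ 2 := by
  rcases eq_or_ne a ⊤ with ha | ha
  · subst ha
    simp
  rcases eq_or_ne b ⊤ with hb | hb
  · subst hb
    simp
  lift a to NNReal using ha
  lift b to NNReal using hb
  have h : ((a : ℝ) + b) ^ 2 ≤ 2 * (a : ℝ) ^ 2 + 2 * (b : ℝ) ^ 2 := by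
    nlinarith [sq_nonneg ((a : ℝ) - b)]
  exact_mod_cast h

theorem sum_sq_range (n : ℕ) : ∀ x : ℕ → ℝ≥0∞,
    (∑ m ∈ Finset.range n, x m) ^ 2 ≤ ∑ m ∈ Finset.range n, 2 * 2 ^ m * x m ^ 2 := by
  induction n with
  | zero => intro x; simp
  | succ n ih =>
    intro x
    rw [Finset.sum_range_succ', Finset.sum_range_succ']
    refine (add_sq_le _ _).trans ?_
    have h1 := ih fun m => x (m + 1)
    calc 2 * (∑ m ∈ Finset.range n, x (m + 1)) ^ 2 + 2 * x 0 ^ 2 ≤
          2 * (∑ m ∈ Finset.range n, 2 * 2 ^ m * x (m + 1) ^ 2) + 2 * x 0 ^ 2 := by gcongr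
      _ = _ := by
          rw [Finset.mul_sum]
          congr 1
          · refine Finset.sum_congr rfl fun m _ => ?_
            rw [pow_succ]
            ring
          · simp

theorem tsum_sq_le (x : ℕ → ℝ≥0∞) : (∑' m, x m) ^ 2 ≤ ∑' m, 2 * 2 ^ m * x m ^ 2 := by
  have h1 : Tendsto (fun n => (∑ m ∈ Finset.range n, x m) ^ 2) atTop (𝓝 ((∑' m, x m) ^ 2)) :=
    ((ENNReal.continuous_pow 2).tendsto _).comp (ENNReal.tendsto_nat_tsum x)
  refine le_of_tendsto' h1 fun n => ?_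
  exact (sum_sq_range n x).trans (ENNReal.sum_le_tsum _)

theorem sum_sq_le {ι : Type} (a : ι → ℝ≥0∞) : ∑' k, a k ^ 2 ≤ (∑' k, a k) ^ 2 := by
  rw [sq (∑' k, a k), ← ENNReal.tsum_mul_right]
  refine ENNReal.tsum_le_tsum fun k => ?_
  rw [sq]
  gcongr
  exact ENNReal.le_tsum k

theorem hs_eq (t : ℝ) (w : V → V) : hs t w = ∑' k, ∑ i,
    ENNReal.ofReal (W (t / 2) k * ‖fc (fun x => w x i) k‖) ^ 2 := by
  unfold hs
  refine tsum_congr fun k => ?_
  have hW := (W_pos (t / 2) k).le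
  change ENNReal.ofReal (W t k * _) = _
  rw [← W_half, Finset.mul_sum, ENNReal.ofReal_sum_of_nonneg fun i _ => by positivity]
  refine Finset.sum_congr rfl fun i _ => ?_
  rw [← ENNReal.ofReal_pow (by positivity)]
  congr 1
  ring

theorem hs_le {t M : ℝ} {w : V → V} (h : ∀ i, Wc t M (fun x => (w x i : ℂ))) :
    hs t w ≤ ENNReal.ofReal (3 * M ^ 2) := by
  have hM := (h 0).nonneg
  rw [hs_eq, Summable.tsum_finsetSum fun i _ => ENNReal.summable]
  have h1 : ∀ i ∈ (Finset.univ : Finset (Fin 3)),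
      ∑' k, ENNReal.ofReal (W (t / 2) k * ‖fc (fun x => w x i) k‖) ^ 2 ≤
        ENNReal.ofReal (M ^ 2) := by
    intro i _
    refine (sum_sq_le _).trans ?_
    rw [ENNReal.ofReal_pow hM]
    gcongr
    simp only [fc_eq]
    exact (h i).sum
  refine (Finset.sum_le_sum h1).trans (le_of_eq ?_)
  rw [Finset.sum_const, Finset.card_univ, Fintype.card_fin, nsmul_eq_mul,
    ENNReal.ofReal_mul (by norm_num)]
  norm_num

theorem pair_le {s M H : ℝ} {w v : V → V} (h : ∀ i, Wc (-s) M (fun x => (w x i : ℂ)))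
    (hw : CP w) (hv : CP v) (hH : 0 ≤ H) (hs' : hs s v ≤ ENNReal.ofReal H) :
    inner3 w v ^ 2 ≤ 9 * M ^ 2 * H := by
  have hM := (h 0).nonneg
  have h1 : ∀ i k, W (- -s / 2) k * ‖fc (fun x => v x i) k‖ ≤ Real.sqrt H := by
    intro i k
    rw [neg_neg]
    apply Real.le_sqrt_of_sq_le
    have h2 : ENNReal.ofReal (W (s / 2) k * ‖fc (fun x => v x i) k‖) ^ 2 ≤
        ENNReal.ofReal H := by
      refine le_trans ?_ hs'
      rw [hs_eq]
      refine le_trans ?_ (ENNReal.le_tsum k)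
      exact Finset.single_le_sum
        (f := fun i => ENNReal.ofReal (W (s / 2) k * ‖fc (fun x => v x i) k‖) ^ 2)
        (fun i _ => zero_le) (Finset.mem_univ i)
    have hW := (W_pos (s / 2) k).le
    rw [← ENNReal.ofReal_pow (by positivity)] at h2
    exact (ENNReal.ofReal_le_ofReal_iff hH).1 h2
  have h2 : ∀ i, |∫ x in torus, w x i * v x i| ≤ M * Real.sqrt H := by
    intro i
    have h3 := (h i).pair (fun x => v x i) (Real.sqrt H) (hv.comp_continuous i) (h1 i)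
    have h4 : ∫ x in torus, (w x i : ℂ) * (v x i : ℂ) =
        ((∫ x in torus, w x i * v x i : ℝ) : ℂ) := by
      rw [← integral_complex_ofReal]
      congr 1
      ext x
      push_cast
      rfl
    rw [h4, Complex.norm_real] at h3
    exact h3
  have h3 : |inner3 w v| ≤ 3 * (M * Real.sqrt H) := by
    unfold inner3
    rw [integral_finsetSum (f := fun (i : Fin 3) (x : V) => w x i * v x i) _ fun i _ =>
      cont_int ((hw.comp_continuous i).mul (hv.comp_continuous i))]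
    refine (Finset.abs_sum_le_sum_abs _ _).trans ((Finset.sum_le_sum fun i _ => h2 i).trans ?_)
    simp
  have h4 : inner3 w v ^ 2 ≤ (3 * (M * Real.sqrt H)) ^ 2 := by
    rw [← sq_abs]
    exact pow_le_pow_left₀ (abs_nonneg _) h3 2
  refine h4.trans (le_of_eq ?_)
  rw [mul_pow, mul_pow, Real.sq_sqrt hH]
  ring

theorem hs_add {t : ℝ} {A B : V → V} (hA : CP A) (hB : CP B) :
    hs t (fun x => A x + B x) ≤ 2 * hs t A + 2 * hs t B := by
  rw [hs_eq, hs_eq, hs_eq, ← ENNReal.tsum_mul_left, ← ENNReal.tsum_mul_left, ← ENNReal.tsum_add]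
  refine ENNReal.tsum_le_tsum fun k => ?_
  rw [Finset.mul_sum, Finset.mul_sum, ← Finset.sum_add_distrib]
  refine Finset.sum_le_sum fun i _ => ?_
  refine le_trans ?_ (add_sq_le _ _)
  have hW := (W_pos (t / 2) k).le
  rw [← ENNReal.ofReal_add (by positivity) (by positivity)]
  gcongr
  rw [← mul_add]
  gcongr
  have h1 : fc (fun x => (A x + B x) i) k = fc (fun x => A x i) k + fc (fun x => B x i) k := by
    rw [fc_eq, fc_eq, fc_eq, ← fcC_add (f := fun x => (A x i : ℂ)) (g := fun x => (B x i : ℂ))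
      (Complex.continuous_ofReal.comp (hA.comp_continuous i))
      (Complex.continuous_ofReal.comp (hB.comp_continuous i))]
    congr 1
    ext x
    simp
  rw [h1]
  exact norm_add_le _ _

theorem fc_ser {a : ℕ → ℝ} {w : ℕ → V → V} (ha : Summable fun m => |a m|) (hw : ∀ m, CP (w m))
    (hw1 : ∀ m x i, |w m x i| ≤ 1) (i : Fin 3) (k : Fin 3 → ℤ) :
    HasSum (fun m => (a m : ℂ) * fc (fun x => w m x i) k) (fc (fun x => ser a w x i) k) := by
  have h := hasSum_integral_of_summable_integral_norm (μ := volume.restrict torus)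
    (F := fun m (x : V) => (a m : ℂ) * ((w m x i : ℂ) * ex (-k) x))
    (fun m => (cont_intC ((Complex.continuous_ofReal.comp ((hw m).comp_continuous i)).mul
      (ex_continuous _))).const_mul _)
    (Summable.of_nonneg_of_le (fun m => integral_nonneg fun x => norm_nonneg _) (fun m => ?_)
      (ha.mul_right (volume.real torus)))
  · have h2 : ∫ x in torus, ∑' m, (a m : ℂ) * ((w m x i : ℂ) * ex (-k) x) =
        fc (fun x => ser a w x i) k := by
      rw [fc_eq]
      unfold fcC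
      congr 1
      ext x
      change _ = ((∑' m, a m * w m x i : ℝ) : ℂ) * ex (-k) x
      rw [Complex.ofReal_tsum, ← tsum_mul_right]
      refine tsum_congr fun m => ?_
      push_cast
      ring
    rw [h2] at h
    refine h.congr_fun fun m => ?_
    rw [fc_eq]
    unfold fcC
    exact (integral_const_mul _ _).symm
  · have h1 : ∫ x in torus, ‖(a m : ℂ) * ((w m x i : ℂ) * ex (-k) x)‖ ≤
        ∫ _ in torus, |a m| := by
      apply setIntegral_mono_on
      · exact ((cont_intC ((Complex.continuous_ofReal.comp ((hw m).comp_continuous i)).mul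
          (ex_continuous _))).const_mul _).norm
      · exact cont_integrableOn continuous_const
      · exact measurableSet_torus
      · intro x _
        rw [norm_mul, norm_mul, norm_ex, mul_one, Complex.norm_real, Complex.norm_real,
          Real.norm_eq_abs, Real.norm_eq_abs]
        exact mul_le_of_le_one_right (abs_nonneg _) (hw1 m x i)
    refine h1.trans (le_of_eq ?_)
    rw [setIntegral_const, smul_eq_mul, mul_comm]

theorem hs_ser {a : ℕ → ℝ} {w : ℕ → V → V} (ha : Summable fun m => |a m|) (hw : ∀ m, CP (w m))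
    (hw1 : ∀ m x i, |w m x i| ≤ 1) (t : ℝ) :
    hs t (ser a w) ≤ ∑' m, ENNReal.ofReal (2 * 2 ^ m * a m ^ 2) * hs t (w m) := by
  have h1 : ∀ k i, ENNReal.ofReal (W (t / 2) k * ‖fc (fun x => ser a w x i) k‖) ^ 2 ≤
      ∑' m, ENNReal.ofReal (2 * 2 ^ m * a m ^ 2) *
        ENNReal.ofReal (W (t / 2) k * ‖fc (fun x => w m x i) k‖) ^ 2 := by
    intro k i
    have hW := (W_pos (t / 2) k).le
    have h2 := fc_ser ha hw hw1 i k
    have h3 : ENNReal.ofReal (W (t / 2) k * ‖fc (fun x => ser a w x i) k‖) ≤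
        ∑' m, ENNReal.ofReal (|a m| * (W (t / 2) k * ‖fc (fun x => w m x i) k‖)) := by
      rw [← h2.tsum_eq, ENNReal.ofReal_mul hW]
      calc ENNReal.ofReal (W (t / 2) k) *
            ENNReal.ofReal ‖∑' m, (a m : ℂ) * fc (fun x => w m x i) k‖ ≤
            ENNReal.ofReal (W (t / 2) k) *
              ∑' m, ENNReal.ofReal ‖(a m : ℂ) * fc (fun x => w m x i) k‖ := by
            gcongr
            simp only [ofReal_norm]
            exact enorm_tsum_le_tsum_enorm
        _ = _ := by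
            rw [← ENNReal.tsum_mul_left]
            refine tsum_congr fun m => ?_
            rw [← ENNReal.ofReal_mul hW, norm_mul, Complex.norm_real, Real.norm_eq_abs]
            congr 1
            ring
    calc ENNReal.ofReal (W (t / 2) k * ‖fc (fun x => ser a w x i) k‖) ^ 2 ≤
          (∑' m, ENNReal.ofReal (|a m| * (W (t / 2) k * ‖fc (fun x => w m x i) k‖))) ^ 2 := by
          gcongr
      _ ≤ ∑' m, 2 * 2 ^ m *
          ENNReal.ofReal (|a m| * (W (t / 2) k * ‖fc (fun x => w m x i) k‖)) ^ 2 := tsum_sq_le _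
      _ = _ := by
          refine tsum_congr fun m => ?_
          have e1 : ENNReal.ofReal (2 * 2 ^ m * a m ^ 2) =
              2 * 2 ^ m * ENNReal.ofReal |a m| ^ 2 := by
            rw [← sq_abs (a m), ENNReal.ofReal_mul (by positivity),
              ENNReal.ofReal_mul (by norm_num), ENNReal.ofReal_pow (by norm_num),
              ENNReal.ofReal_pow (abs_nonneg _), ENNReal.ofReal_ofNat]
          rw [e1, ENNReal.ofReal_mul (abs_nonneg _), mul_pow]
          ring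
  rw [hs_eq]
  calc ∑' k, ∑ i, ENNReal.ofReal (W (t / 2) k * ‖fc (fun x => ser a w x i) k‖) ^ 2 ≤
        ∑' k, ∑ i, ∑' m, ENNReal.ofReal (2 * 2 ^ m * a m ^ 2) *
        ENNReal.ofReal (W (t / 2) k * ‖fc (fun x => w m x i) k‖) ^ 2 :=
        ENNReal.tsum_le_tsum fun k => Finset.sum_le_sum fun i _ => h1 k i
    _ = ∑' k, ∑' m, ENNReal.ofReal (2 * 2 ^ m * a m ^ 2) *
        ∑ i, ENNReal.ofReal (W (t / 2) k * ‖fc (fun x => w m x i) k‖) ^ 2 := by
        refine tsum_congr fun k => ?_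
        rw [← Summable.tsum_finsetSum fun i _ => ENNReal.summable]
        refine tsum_congr fun m => ?_
        rw [Finset.mul_sum]
    _ = _ := by
        rw [ENNReal.tsum_comm]
        refine tsum_congr fun m => ?_
        rw [ENNReal.tsum_mul_left, hs_eq]

/-- The operator is smoothing. -/
theorem KK_hs (S : ℝ) : ∃ C R : ℝ, 0 < C ∧ 1 ≤ R ∧ ∀ (P : Par) (K : ℕ → ℕ), Fr P K → P.Good →
    (Summable fun m => P.c m * 2 ^ m) → ∀ (σ : ℝ) (q : ℕ → ℝ),
    (∀ m, P.c m ^ 2 * (K (m + 1) : ℝ) ^ (2 * σ) ≤ q m) → (Summable fun m => R ^ m * q m) →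
    ∀ s : ℝ, |s| ≤ S → |s + σ| ≤ S → ∀ A : ℝ, 0 < A → C * ∑' m, R ^ m * q m ≤ A →
    ∀ v, CP v → hs (s + σ) (KK P K v) ≤ ENNReal.ofReal A * hs s v := by
  obtain ⟨D, j, hD, hW⟩ := fields_Wc S
  refine ⟨864 * D ^ 4, 8 * 16 ^ j, by positivity, ?_, ?_⟩
  · have : (1 : ℝ) ≤ 16 ^ j := one_le_pow₀ (by norm_num)
    linarith
  intro P K hF hG hcs σ q hq hqs s hs1 hs2 A hA hCA v hv
  rcases eq_or_ne (hs s v) ⊤ with htop | htop
  · rw [htop, ENNReal.mul_top (by simpa using hA)]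
    exact le_top
  set H : ℝ := (hs s v).toReal with hH
  have hH0 : 0 ≤ H := ENNReal.toReal_nonneg
  have hHe : hs s v = ENNReal.ofReal H := (ENNReal.ofReal_toReal htop).symm
  have hK0 : ∀ m, (0 : ℝ) < K (m + 1) := fun m => by exact_mod_cast hF.K_pos (m + 1)
  set M : ℝ → ℕ → ℝ := fun t m => D * 2 ^ (j * m) * (K (m + 1) : ℝ) ^ t with hM
  have hMp : ∀ t m, 0 ≤ M t m := fun t m => by
    have := Real.rpow_pos_of_pos (hK0 m) t
    simp only [hM]
    positivity
  have hs1' : |-s| ≤ S := by rwa [abs_neg]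
  have bp : ∀ m, inner3 (pf K m) v ^ 2 ≤ 9 * M (-s) m ^ 2 * H := fun m =>
    pair_le (fun i => (hW P K hF m (-s) hs1' i).1) (pf_cp K m) hv hH0 hHe.le
  have bq : ∀ m, inner3 (qf K m) v ^ 2 ≤ 9 * M (-s) m ^ 2 * H := fun m =>
    pair_le (fun i => (hW P K hF m (-s) hs1' i).2) (qf_cp K m) hv hH0 hHe.le
  have hp : ∀ m, hs (s + σ) (pf K m) ≤ ENNReal.ofReal (3 * M (s + σ) m ^ 2) := fun m =>
    hs_le fun i => (hW P K hF m (s + σ) hs2 i).1
  have hqf : ∀ m, hs (s + σ) (qf K m) ≤ ENNReal.ofReal (3 * M (s + σ) m ^ 2) := fun m =>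
    hs_le fun i => (hW P K hF m (s + σ) hs2 i).2
  -- the scalar bound
  have key : ∀ (m : ℕ) (x : ℝ), x ^ 2 ≤ kap P K m ^ 2 * (36 * M (-s) m ^ 2 * H) →
      2 * 2 ^ m * x ^ 2 * (3 * M (s + σ) m ^ 2) ≤
        216 * D ^ 4 * H * ((8 * 16 ^ j) ^ m * q m) := by
    intro m x hx
    have h1 := kap_pos hF hG m
    have h2 := kap_le hF hG m
    have h3 : kap P K m ^ 2 ≤ (P.c m * 2 ^ m) ^ 2 := pow_le_pow_left₀ h1.le h2 2
    have h4 : M (-s) m * M (s + σ) m = D ^ 2 * 4 ^ (j * m) * (K (m + 1) : ℝ) ^ σ := by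
      simp only [hM]
      have e1 : (K (m + 1) : ℝ) ^ σ = (K (m + 1) : ℝ) ^ (-s) * (K (m + 1) : ℝ) ^ (s + σ) := by
        rw [← Real.rpow_add (hK0 m)]
        congr 1
        ring
      have e2 : (4 : ℝ) ^ (j * m) = 2 ^ (j * m) * 2 ^ (j * m) := by
        rw [← mul_pow]; norm_num
      rw [e1, e2]
      ring
    have h5 : ((K (m + 1) : ℝ) ^ σ) ^ 2 = (K (m + 1) : ℝ) ^ (2 * σ) := by
      rw [← Real.rpow_natCast, ← Real.rpow_mul (hK0 m).le]
      congr 1
      push_cast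
      ring
    calc 2 * 2 ^ m * x ^ 2 * (3 * M (s + σ) m ^ 2) ≤
          2 * 2 ^ m * (kap P K m ^ 2 * (36 * M (-s) m ^ 2 * H)) * (3 * M (s + σ) m ^ 2) := by
          gcongr
      _ ≤ 2 * 2 ^ m * ((P.c m * 2 ^ m) ^ 2 * (36 * M (-s) m ^ 2 * H)) *
          (3 * M (s + σ) m ^ 2) := by gcongr
      _ = 216 * H * (2 ^ m * (2 ^ m) ^ 2) * P.c m ^ 2 * (M (-s) m * M (s + σ) m) ^ 2 := by ring
      _ = 216 * D ^ 4 * H * ((2 ^ m * (2 ^ m) ^ 2) * (4 ^ (j * m)) ^ 2 *
          (P.c m ^ 2 * (K (m + 1) : ℝ) ^ (2 * σ))) := by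
          rw [h4, ← h5]; ring
      _ ≤ 216 * D ^ 4 * H * ((2 ^ m * (2 ^ m) ^ 2) * (4 ^ (j * m)) ^ 2 * q m) := by
          gcongr
          exact hq m
      _ = _ := by
          have e1 : ((2 : ℝ) ^ m * (2 ^ m) ^ 2) * (4 ^ (j * m)) ^ 2 = (8 * 16 ^ j) ^ m := by
            rw [mul_pow, ← pow_mul, ← pow_mul, ← pow_mul, mul_comm m 2, pow_mul 2 2 m,
              ← mul_pow, mul_comm (j * m) 2, pow_mul 4 2]
            norm_num
          rw [e1]
  have hcA : ∀ m, cA P K v m ^ 2 ≤ kap P K m ^ 2 * (36 * M (-s) m ^ 2 * H) := by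
    intro m
    unfold cA
    rw [mul_pow]
    gcongr
    have h1 := bp m
    have h2 := bq m
    have h3 : P.r₂ ^ 2 ≤ 1 := by
      have := hG.r₂_abs
      rw [← sq_abs]
      exact pow_le_one₀ (abs_nonneg _) this
    have h4 : (P.r₂ * inner3 (pf K m) v) ^ 2 ≤ inner3 (pf K m) v ^ 2 := by
      rw [mul_pow]
      nlinarith [sq_nonneg (inner3 (pf K m) v)]
    nlinarith [sq_nonneg (inner3 (qf K m) v - P.r₂ * inner3 (pf K m) v)]
  have hcB : ∀ m, cB P K v m ^ 2 ≤ kap P K m ^ 2 * (36 * M (-s) m ^ 2 * H) := by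
    intro m
    unfold cB
    rw [mul_pow]
    gcongr
    have h1 := bp m
    have h2 := bq m
    have h3 : P.r₁ ^ 2 ≤ 1 := by
      have := hG.r₁_abs
      rw [← sq_abs]
      exact pow_le_one₀ (abs_nonneg _) this
    have h3' : P.r₃ ^ 2 ≤ 1 := by
      have := hG.r₃_abs
      rw [← sq_abs]
      exact pow_le_one₀ (abs_nonneg _) this
    have h4 : (P.r₁ * inner3 (pf K m) v) ^ 2 ≤ inner3 (pf K m) v ^ 2 := by
      rw [mul_pow]
      nlinarith [sq_nonneg (inner3 (pf K m) v)]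
    have h5 : (P.r₃ * inner3 (qf K m) v) ^ 2 ≤ inner3 (qf K m) v ^ 2 := by
      rw [mul_pow]
      nlinarith [sq_nonneg (inner3 (qf K m) v)]
    nlinarith [sq_nonneg (P.r₁ * inner3 (pf K m) v - P.r₃ * inner3 (qf K m) v)]
  have hq0 : ∀ m, 0 ≤ (8 * 16 ^ j : ℝ) ^ m * q m := fun m => by
    have h1 : 0 ≤ q m := le_trans (by
      have := Real.rpow_pos_of_pos (hK0 m) (2 * σ)
      positivity) (hq m)
    positivity
  have fin : ∀ (a : ℕ → ℝ) (w : ℕ → V → V),
      (∀ m, a m ^ 2 ≤ kap P K m ^ 2 * (36 * M (-s) m ^ 2 * H)) →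
      (∀ m, hs (s + σ) (w m) ≤ ENNReal.ofReal (3 * M (s + σ) m ^ 2)) →
      ∑' m, ENNReal.ofReal (2 * 2 ^ m * a m ^ 2) * hs (s + σ) (w m) ≤
        ENNReal.ofReal (216 * D ^ 4 * H * ∑' m, (8 * 16 ^ j) ^ m * q m) := by
    intro a w ha hw
    rw [← tsum_mul_left, ENNReal.ofReal_tsum_of_nonneg
      (fun m => mul_nonneg (by positivity) (hq0 m)) (hqs.mul_left _)]
    refine ENNReal.tsum_le_tsum fun m => ?_
    calc ENNReal.ofReal (2 * 2 ^ m * a m ^ 2) * hs (s + σ) (w m) ≤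
          ENNReal.ofReal (2 * 2 ^ m * a m ^ 2) * ENNReal.ofReal (3 * M (s + σ) m ^ 2) := by
          gcongr
          exact hw m
      _ = ENNReal.ofReal (2 * 2 ^ m * a m ^ 2 * (3 * M (s + σ) m ^ 2)) :=
          (ENNReal.ofReal_mul (by positivity)).symm
      _ ≤ _ := ENNReal.ofReal_le_ofReal (key m _ (ha m))
  have hAs := cA_summable hF hG hcs hv
  have hBs := cB_summable hF hG hcs hv
  rw [KK_eq]
  refine (hs_add (ser_cp hAs (pf_cp K) (pf_abs K)) (ser_cp hBs (qf_cp K) (qf_abs K))).trans ?_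
  have e1 := (hs_ser hAs (pf_cp K) (pf_abs K) (s + σ)).trans (fin _ _ hcA hp)
  have e2 := (hs_ser hBs (qf_cp K) (qf_abs K) (s + σ)).trans (fin _ _ hcB hqf)
  have hS0 : 0 ≤ ∑' m, (8 * 16 ^ j : ℝ) ^ m * q m := tsum_nonneg hq0
  calc 2 * hs (s + σ) (ser (cA P K v) (pf K)) + 2 * hs (s + σ) (ser (cB P K v) (qf K)) ≤
        2 * ENNReal.ofReal (216 * D ^ 4 * H * ∑' m, (8 * 16 ^ j) ^ m * q m) +
        2 * ENNReal.ofReal (216 * D ^ 4 * H * ∑' m, (8 * 16 ^ j) ^ m * q m) := by gcongr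
    _ = ENNReal.ofReal (864 * D ^ 4 * (∑' m, (8 * 16 ^ j) ^ m * q m) * H) := by
        rw [← add_mul]
        have : (2 + 2 : ℝ≥0∞) = ENNReal.ofReal 4 := by norm_num
        rw [this, ← ENNReal.ofReal_mul (by norm_num)]
        congr 1
        ring
    _ ≤ ENNReal.ofReal (A * H) := by
        apply ENNReal.ofReal_le_ofReal
        gcongr
    _ = ENNReal.ofReal A * hs s v := by
        rw [ENNReal.ofReal_mul hA.le, ← hHe]

end Pool.Agent.H306.CK
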