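import Pool.Agent.H306.CK.Boot

/-! Concrete parameters. -/

namespace Pool.Agent.H306.CK

open Set

/-- `z m = N ^ (2 ^ m)`. -/
noncomputable def zz (N : ℕ) (m : ℕ) : ℝ := (N : ℝ) ^ (2 ^ m)

theorem zz_succ (N m : ℕ) : zz N (m + 1) = zz N m ^ 2 := by
  unfold zz
  rw [← pow_mul, pow_succ]

theorem zz_ge {N : ℕ} (hN : 1 ≤ N) (m : ℕ) : (N : ℝ) ≤ zz N m := by
  unfold zz
  have h : (1 : ℝ) ≤ N := by exact_mod_cast hN
  calc (N : ℝ) = N ^ 1 := (pow_one _).symm
    _ ≤ _ := pow_le_pow_right₀ h (Nat.one_le_two_pow)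

theorem zz_two {N : ℕ} (hN : 2 ≤ N) (m i : ℕ) : 2 ^ i * zz N m ≤ zz N (m + i) := by
  have h : (2 : ℝ) ≤ N := by exact_mod_cast hN
  induction i with
  | zero => simp
  | succ i ih =>
    rw [← add_assoc, zz_succ]
    have h1 := zz_ge (by omega : 1 ≤ N) (m + i)
    calc 2 ^ (i + 1) * zz N m = 2 * (2 ^ i * zz N m) := by ring
      _ ≤ 2 * zz N (m + i) := by linarith
      _ ≤ zz N (m + i) ^ 2 := by nlinarith

theorem zz_lin {N : ℕ} (hN : 2 ≤ N) (m : ℕ) : N * (m + 1 : ℝ) ≤ zz N m := by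
  have h1 := zz_two hN 0 m
  simp only [zero_add] at h1
  have h2 : zz N 0 = N := by simp [zz]
  rw [h2] at h1
  have h3 : (m + 1 : ℝ) ≤ 2 ^ m := by
    have := Nat.lt_two_pow_self (n := m)
    exact_mod_cast this
  have h4 : (0 : ℝ) < N := by exact_mod_cast (by omega : 0 < N)
  nlinarith

/-- The parameters. -/
noncomputable def par (n N : ℕ) (G r₁ r₂ r₃ : ℝ) : Par where
  k m := zz N m ^ (12 * n)
  c m := 1 / zz N m ^ (6 * n - 24)
  θ m := 1 / zz N m ^ (6 * n + 12)
  ε m := 1 / zz N m ^ (m + (24 * n + 30))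
  ρ m := zz N m ^ 6
  τ m := Real.log (5 * (1 / zz N (m + 1) ^ (6 * n + 12)) / (1 / zz N m ^ (m + (24 * n + 30)))) /
    (2 / 5 * zz N m ^ 6)
  tt := 2 / N ^ 4
  G := G
  r₁ := r₁
  r₂ := r₂
  r₃ := r₃

section

variable {n N : ℕ} {G r₁ r₂ r₃ : ℝ} (hn : 6 ≤ n) (hG : 0 ≤ G)
  (hN : 24000 * (1 + G) * (24 * n + 32) ≤ N)

include hn hG hN

theorem N_ge : (10000 : ℝ) ≤ N := by
  have h : (6 : ℝ) ≤ n := by exact_mod_cast hn
  nlinarith

theorem N_ge2 : 2 ≤ N := by
  have := N_ge hn hG hN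
  have : (2 : ℝ) ≤ N := by linarith
  exact_mod_cast this

theorem z_ge (m : ℕ) : (N : ℝ) ≤ zz N m := zz_ge (by have := N_ge2 hn hG hN; omega) m

theorem z_one (m : ℕ) : 1 ≤ zz N m := by
  have := z_ge hn hG hN m
  have := N_ge hn hG hN
  linarith

theorem tau_le (m : ℕ) : (par n N G r₁ r₂ r₃).τ m ≤ 1 / zz N m ^ 4 := by
  have hz := z_one hn hG hN m
  have hz2 := z_ge hn hG hN m
  have hN1 := N_ge hn hG hN
  have hlin := zz_lin (N_ge2 hn hG hN) m
  have hnR : (6 : ℝ) ≤ n := by exact_mod_cast hn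
  have hmR : (0 : ℝ) ≤ m := Nat.cast_nonneg m
  simp only [par]
  rw [zz_succ]
  set z := zz N m with hzdef
  have hz0 : 0 < z := by linarith
  have h1 : 5 * (1 / (z ^ 2) ^ (6 * n + 12)) / (1 / z ^ (m + (24 * n + 30))) ≤
      z ^ (m + 24 * n + 31) := by
    rw [div_le_iff₀ (by positivity), mul_one_div, mul_one_div, div_le_div_iff₀ (by positivity)
      (by positivity)]
    have h2 : (1 : ℝ) ≤ (z ^ 2) ^ (6 * n + 12) := one_le_pow₀ (by nlinarith)
    have h3 : z ^ (m + 24 * n + 31) = z * z ^ (m + (24 * n + 30)) := by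
      rw [← pow_succ']; congr 1
    rw [h3]
    have h4 : 0 < z ^ (m + (24 * n + 30)) := by positivity
    calc 5 * z ^ (m + (24 * n + 30)) ≤ z * z ^ (m + (24 * n + 30)) * 1 := by nlinarith
      _ ≤ _ := by gcongr
  have h1pos : 0 < 5 * (1 / (z ^ 2) ^ (6 * n + 12)) / (1 / z ^ (m + (24 * n + 30))) := by
    positivity
  have h2 : Real.log (5 * (1 / (z ^ 2) ^ (6 * n + 12)) / (1 / z ^ (m + (24 * n + 30)))) ≤
      (m + 24 * n + 31) * z := by
    refine (Real.log_le_log h1pos h1).trans ?_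
    rw [Real.log_pow]
    push_cast
    have : Real.log z ≤ z := (Real.log_le_sub_one_of_pos hz0).trans (by linarith)
    gcongr
  rw [div_le_div_iff₀ (by positivity) (by positivity)]
  have h3 : (m + 24 * n + 31 : ℝ) ≤ 2 / 5 * z := by
    have : (m + 24 * n + 31 : ℝ) ≤ (24 * n + 32) * (m + 1) := by nlinarith
    have h5 : (24 * n + 32 : ℝ) ≤ 2 / 5 * N := by nlinarith
    calc (m + 24 * n + 31 : ℝ) ≤ (24 * n + 32) * (m + 1) := this
      _ ≤ 2 / 5 * N * (m + 1) := by gcongr
      _ ≤ _ := by linarith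
  calc Real.log _ * z ^ 4 ≤ (m + 24 * n + 31) * z * z ^ 4 := by gcongr
    _ ≤ (2 / 5 * z) * z * z ^ 4 := by gcongr
    _ = _ := by ring

theorem tau_sum_le (m j : ℕ) :
    ∑ i ∈ Finset.range j, (par n N G r₁ r₂ r₃).τ (m + i) ≤ 2 / zz N m ^ 4 := by
  have hz := z_one hn hG hN m
  have hz0 : 0 < zz N m := by linarith
  have h1 : ∀ i ∈ Finset.range j, (par n N G r₁ r₂ r₃).τ (m + i) ≤
      1 / zz N m ^ 4 * (1 / 2) ^ i := by
    intro i _
    refine (tau_le hn hG hN (m + i)).trans ?_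
    have h2 := zz_two (N_ge2 hn hG hN) m i
    have h3 : (2 : ℝ) ^ i * zz N m ^ 4 ≤ zz N (m + i) ^ 4 := by
      calc (2 : ℝ) ^ i * zz N m ^ 4 ≤ ((2 : ℝ) ^ i) ^ 4 * zz N m ^ 4 := by
            gcongr
            exact le_self_pow₀ (one_le_pow₀ (by norm_num)) (by norm_num)
        _ = (2 ^ i * zz N m) ^ 4 := by ring
        _ ≤ _ := by gcongr
    calc 1 / zz N (m + i) ^ 4 ≤ 1 / ((2 : ℝ) ^ i * zz N m ^ 4) := by gcongr
      _ = _ := by
        rw [one_div_pow]
        field_simp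
  refine (Finset.sum_le_sum h1).trans ?_
  rw [← Finset.mul_sum]
  have h4 : ∑ i ∈ Finset.range j, (1 / 2 : ℝ) ^ i ≤ 2 := by
    have := Summable.sum_le_tsum (Finset.range j) (fun i _ => by positivity)
      summable_geometric_two
    rwa [tsum_geometric_two] at this
  calc 1 / zz N m ^ 4 * ∑ i ∈ Finset.range j, (1 / 2 : ℝ) ^ i ≤ 1 / zz N m ^ 4 * 2 := by gcongr
    _ = _ := by ring

theorem par_good (h₁ : |r₁| ≤ 1) (h₂ : |r₂| ≤ 1) (h₃ : |r₃| ≤ 1) :
    (par n N G r₁ r₂ r₃).Good := by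
  have hN1 := N_ge hn hG hN
  have hN2 := N_ge2 hn hG hN
  have hz := z_one hn hG hN
  have hzN := z_ge hn hG hN
  have hz0 : ∀ m, 0 < zz N m := fun m => by linarith [hz m]
  have hnR : (6 : ℝ) ≤ n := by exact_mod_cast hn
  have hNG : 24000 * (1 + G) ≤ (N : ℝ) := by nlinarith
  have hpow : ∀ m a, 1 ≤ zz N m ^ a := fun m a => one_le_pow₀ (hz m)
  have hc1 : ∀ m, 1 / zz N m ^ (6 * n - 24) ≤ 1 / zz N m ^ 12 := fun m => by
    apply one_div_le_one_div_of_le (by have := hz0 m; positivity)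
    exact pow_le_pow_right₀ (hz m) (by omega)
  have ha : ∀ m, (par n N G r₁ r₂ r₃).a m ≤ (2 + G) / zz N m ^ 12 := by
    intro m
    simp only [Par.a, par]
    calc 1 / zz N m ^ (6 * n - 24) * (2 + G) ≤ 1 / zz N m ^ 12 * (2 + G) :=
          mul_le_mul_of_nonneg_right (hc1 m) (by linarith)
      _ = _ := by ring
  have haz : ∀ m, (par n N G r₁ r₂ r₃).a m ≤ (2 + G) / zz N m := by
    intro m
    refine (ha m).trans ?_
    have h1 := hz0 m
    gcongr
    exact le_self_pow₀ (hz m) (by norm_num)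
  have hh : ∀ m, (par n N G r₁ r₂ r₃).h m = 1 / zz N m ^ 24 := by
    intro m
    simp only [Par.h, par]
    rw [zz_succ]
    have h1 := hz0 m
    rw [mul_one_div, div_eq_div_iff (by positivity) (by positivity)]
    rw [← pow_mul, ← pow_add, one_mul]
    congr 1
    ring
  refine ⟨fun m => ?_, fun m => ?_, fun m => ?_, fun m => ?_, fun m => ?_, fun m => ?_,
    fun m => ?_, hG, h₁, h₂, h₃, fun m => ?_, fun m => ?_, fun m => ?_, fun m => ?_,
    fun m j => ?_, ?_, fun j => ?_, fun m => ?_, fun m => ?_, fun m => ?_, fun m => ?_,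
    fun R => ?_⟩
  · exact hpow m _
  · have := hz0 m
    simp only [par]; positivity
  · simp only [par]
    rw [div_le_one (by have := hz0 m; positivity)]
    exact hpow m _
  · have := hz0 m
    simp only [par]; positivity
  · have := hz0 m
    simp only [par]; positivity
  · exact hpow m _
  · simp only [par]
    have h1 := hz0 m
    have h2 := hz0 (m + 1)
    apply div_nonneg _ (by positivity)
    apply Real.log_nonneg
    rw [zz_succ, le_div_iff₀ (by positivity), one_mul, mul_one_div, ← pow_mul]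
    apply div_le_div₀ (by norm_num) (by norm_num) (by positivity)
    exact pow_le_pow_right₀ (hz m) (by omega)
  · simp only [par]
    have h1 := hz0 m
    obtain ⟨l, rfl⟩ : ∃ l, n = l + 4 := ⟨n - 4, by omega⟩
    have h2 : 6 * (l + 4) - 24 = 6 * l := by omega
    rw [h2]
    field_simp
    ring
  · have h1 := haz m
    have h2 : 2 * (par n N G r₁ r₂ r₃).e m ≤ (2 + G) / zz N m + 2 / zz N m := by
      have h3 : 2 * (par n N G r₁ r₂ r₃).e m = (1 / zz N m ^ (6 * n - 24)) *
          ((par n N G r₁ r₂ r₃).a m + 2 * zz N m ^ 6) := by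
        simp only [Par.e, par]; ring
      have h4 := hz0 m
      have h5 : 0 ≤ (par n N G r₁ r₂ r₃).a m := by
        simp only [Par.a, par]; positivity
      rw [h3]
      calc (1 / zz N m ^ (6 * n - 24)) * ((par n N G r₁ r₂ r₃).a m + 2 * zz N m ^ 6)
          ≤ (1 / zz N m ^ 12) * ((2 + G) / zz N m + 2 * zz N m ^ 6) :=
            mul_le_mul (hc1 m) (by linarith) (by positivity) (by positivity)
        _ = (1 / zz N m ^ 12) * ((2 + G) / zz N m) + 2 / zz N m ^ 6 := by
            field_simp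
        _ ≤ 1 * ((2 + G) / zz N m) + 2 / zz N m := by
            gcongr
            · rw [div_le_one (by positivity)]
              exact hpow m _
            · exact le_self_pow₀ (hz m) (by norm_num)
        _ = _ := by ring
    have h3 : (2 + G) / zz N m + ((2 + G) / zz N m + 2 / zz N m) ≤ 1 / 50 := by
      rw [← add_div, ← add_div, div_le_div_iff₀ (hz0 m) (by norm_num)]
      have := hzN m
      linarith
    linarith
  · rw [hh]
    have h1 := hz0 m
    have h2 : (par n N G r₁ r₂ r₃).c m ≤ 1 := by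
      simp only [par]
      rw [div_le_one (by positivity)]
      exact hpow m _
    have h3 : 1 / zz N m ^ 24 ≤ 1 / 100 := by
      apply one_div_le_one_div_of_le (by norm_num)
      have h4 : zz N m ≤ zz N m ^ 24 := le_self_pow₀ (hz m) (by norm_num)
      have := hzN m
      linarith
    have h5 : 0 ≤ 1 / zz N m ^ 24 := by positivity
    calc (par n N G r₁ r₂ r₃).c m * (1 / zz N m ^ 24) ≤ 1 * (1 / zz N m ^ 24) := by gcongr
      _ ≤ _ := by linarith
  · rw [hh]
    have h1 := hz0 m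
    have h2 := haz m
    have h3 : (2 + G) / zz N m ≤ 1 := by
      rw [div_le_one h1]
      have := hzN m
      linarith
    have h4 : 1 / zz N m ^ 24 * (1 / zz N m ^ 24 + (par n N G r₁ r₂ r₃).a m +
        2 * (par n N G r₁ r₂ r₃).ρ m) ≤ 1 / zz N m ^ 24 * (1 + 1 + 2 * zz N m ^ 6) := by
      simp only [par] at h2 ⊢
      gcongr
      · rw [div_le_one (by positivity)]
        exact hpow m _
      · exact h2.trans h3
    refine h4.trans ?_
    have h5 : 1 / zz N m ^ 24 * (1 + 1 + 2 * zz N m ^ 6) ≤ 4 / zz N m := by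
      rw [div_mul_eq_mul_div, one_mul, div_le_div_iff₀ (by positivity) h1]
      have h6 := hpow m 6
      have h7 : zz N m * zz N m ^ 6 ≤ zz N m ^ 24 := by
        rw [← pow_succ']
        exact pow_le_pow_right₀ (hz m) (by norm_num)
      nlinarith
    refine h5.trans ?_
    have hGd : (par n N G r₁ r₂ r₃).η = 1 / (100 * (1 + G)) := rfl
    rw [hGd, div_div, div_le_div_iff₀ h1 (by positivity)]
    have := hzN m
    nlinarith
  · refine (tau_sum_le hn hG hN (m + 1) j).trans ?_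
    have h1 := hz0 m
    simp only [par]
    rw [zz_succ, div_le_div_iff₀ (by positivity) (by positivity)]
    have h2 := hzN m
    have h3 : (4 : ℝ) ≤ zz N m ^ 2 := by nlinarith
    have h4 : 0 < zz N m ^ 6 := by positivity
    calc 2 * (2 * zz N m ^ 6) = 4 * zz N m ^ 6 := by ring
      _ ≤ zz N m ^ 2 * zz N m ^ 6 := by gcongr
      _ = 1 * (zz N m ^ 2) ^ 4 := by ring
  · simp only [par]
    rw [div_lt_one (by positivity)]
    have : (N : ℝ) ≤ N ^ 4 := le_self_pow₀ (by linarith) (by norm_num)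
    linarith
  · have := tau_sum_le hn hG hN (r₁ := r₁) (r₂ := r₂) (r₃ := r₃) 0 j
    simp only [zero_add] at this
    simpa [zz, par] using this
  · simp only [par]
    have h1 := hz0 m
    have h2 := hz0 (m + 1)
    rw [mul_div_cancel₀ _ (by positivity), Real.exp_log (by positivity)]
    rw [mul_div_cancel₀ _ (by positivity)]
  · simp only [par]
    have h1 := hz0 m
    rw [zz_succ, ← pow_mul, div_div, ]
    apply one_div_le_one_div_of_le (by positivity)
    have h2 : (5 : ℝ) ≤ zz N m := by have := hzN m; linarith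
    calc zz N m ^ (m + (24 * n + 30)) * 5 ≤ zz N m ^ (m + (24 * n + 30)) * zz N m := by gcongr
      _ = zz N m ^ (m + (24 * n + 30) + 1) := (pow_succ _ _).symm
      _ ≤ _ := pow_le_pow_right₀ (hz m) (by omega)
  · simp only [par]
    have h1 := hz0 m
    rw [zz_succ, ← pow_mul]
    apply one_div_lt_one_div_of_lt (by positivity)
    apply pow_lt_pow_right₀ _ (by omega)
    have := hzN m
    linarith
  · simp only [par]
    have h1 := hz0 m
    rw [zz_succ, ← pow_mul, div_div]
    apply one_div_le_one_div_of_le (by positivity)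
    have h2 : (5 : ℝ) ≤ zz N m := by have := hzN m; linarith
    calc zz N m ^ (6 * n + 12) * 5 ≤ zz N m ^ (6 * n + 12) * zz N m := by gcongr
      _ = zz N m ^ (6 * n + 12 + 1) := (pow_succ _ _).symm
      _ ≤ _ := pow_le_pow_right₀ (hz m) (by omega)
  · obtain ⟨m₀, hm₀⟩ := pow_unbounded_of_one_lt R (by norm_num : (1 : ℝ) < 2)
    refine ⟨m₀, fun m hm => ?_⟩
    simp only [par]
    have h1 := hz0 m
    rw [zz_succ, ← pow_mul, mul_one_div, div_lt_div_iff₀ (by positivity) (by positivity), one_mul]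
    have h2 : (2 : ℝ) ≤ zz N m := by have := hzN m; linarith
    have h3 : R < zz N m ^ m := by
      calc R < 2 ^ m₀ := hm₀
        _ ≤ 2 ^ m := pow_le_pow_right₀ (by norm_num) hm
        _ ≤ _ := by gcongr
    calc R * zz N m ^ (2 * (6 * n + 12)) < zz N m ^ m * zz N m ^ (2 * (6 * n + 12)) := by
          gcongr
      _ = zz N m ^ (m + 2 * (6 * n + 12)) := (pow_add _ _ _).symm
      _ ≤ _ := pow_le_pow_right₀ (hz m) (by omega)

theorem par_kε (m : ℕ) :
    (par n N G r₁ r₂ r₃).k m * (par n N G r₁ r₂ r₃).ε m ≤ 1 := by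
  have hz := z_one hn hG hN m
  have h0 : 0 < zz N m := by linarith
  simp only [par]
  rw [mul_one_div, div_le_one (by positivity)]
  exact pow_le_pow_right₀ hz (by omega)

theorem par_kε' (m : ℕ) :
    (par n N G r₁ r₂ r₃).k (m + 1) * (par n N G r₁ r₂ r₃).ε m ≤ 1 := by
  have hz := z_one hn hG hN m
  have h0 : 0 < zz N m := by linarith
  simp only [par]
  rw [zz_succ, ← pow_mul, mul_one_div, div_le_one (by positivity)]
  exact pow_le_pow_right₀ hz (by omega)

end

end Pool.Agent.H306.CK
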