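import Pool.Agent.H306.CK.Euler

/-! Explicit global solutions of the Euler equations: parallel shear flows which transport the
third component. -/

noncomputable section

namespace Pool.Agent.H306.CK

open Set MeasureTheory

open scoped Real ContDiff

/-- The transported field. -/
def Sw (v : V → V) (t : ℝ) (x : V) : V :=
  ![v x 0, 0, v (x - (t * v x 0) • (Pi.single 0 (1 : ℝ) : V)) 2]

/-- Fields with a shear structure. -/
structure ShearF (v : V → V) : Prop where
  smooth : ContDiff ℝ ∞ v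
  per : Periodic3 v
  c1 : ∀ x, v x 1 = 0
  c0 : ∀ x y : V, x 1 = y 1 → v x 0 = v y 0
  c2 : ∀ x y : V, x 0 = y 0 → x 1 = y 1 → v x 2 = v y 2

variable {v : V → V}

theorem Sw_zero (h : ShearF v) : Sw v 0 = v := by
  ext x i
  fin_cases i
  · rfl
  · exact (h.c1 x).symm
  · change v (x - (0 * v x 0) • (Pi.single 0 (1 : ℝ) : V)) 2 = v x 2
    rw [zero_mul, zero_smul, sub_zero]

theorem Sw_smooth (h : ShearF v) : ContDiff ℝ ∞ (fun z : ℝ × V => Sw v z.1 z.2) := by
  have h1 : ∀ i, ContDiff ℝ ∞ (fun z : ℝ × V => v z.2 i) := fun i =>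
    (contDiff_pi.1 h.smooth i).comp contDiff_snd
  rw [contDiff_pi]
  intro i
  fin_cases i
  · exact h1 0
  · exact contDiff_const
  · change ContDiff ℝ ∞ (fun z : ℝ × V =>
      v (z.2 - (z.1 * v z.2 0) • (Pi.single 0 (1 : ℝ) : V)) 2)
    have h2 : ContDiff ℝ ∞ (fun z : ℝ × V => z.2 - (z.1 * v z.2 0) • (Pi.single 0 (1 : ℝ) : V)) :=
      contDiff_snd.sub ((contDiff_fst.mul (h1 0)).smul contDiff_const)
    exact (contDiff_pi.1 h.smooth 2).comp h2

theorem Sw_sm (h : ShearF v) (t : ℝ) : ContDiff ℝ ∞ (Sw v t) := by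
  have h1 : ContDiff ℝ ∞ (fun x : V => ((t, x) : ℝ × V)) := contDiff_const.prodMk contDiff_id
  exact (Sw_smooth h).comp h1

theorem Sw_diff (h : ShearF v) (t : ℝ) (i : Fin 3) (x : V) :
    DifferentiableAt ℝ (fun y => Sw v t y i) x :=
  (contDiff_pi.1 (Sw_sm h t) i).differentiable (by simp) x

theorem Sw_per (h : ShearF v) (t : ℝ) : Periodic3 (Sw v t) := by
  intro i x
  have h1 : v (x + Pi.single i (2 * π)) = v x := h.per i x
  ext j
  fin_cases j
  · exact congrFun h1 0
  · rfl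
  · change v (x + Pi.single i (2 * π) - (t * v (x + Pi.single i (2 * π)) 0) •
      (Pi.single 0 (1 : ℝ) : V)) 2 = v (x - (t * v x 0) • (Pi.single 0 (1 : ℝ) : V)) 2
    rw [h1, show x + Pi.single i (2 * π) - (t * v x 0) • (Pi.single 0 (1 : ℝ) : V) =
      x - (t * v x 0) • (Pi.single 0 (1 : ℝ) : V) + Pi.single i (2 * π) by abel, h.per]

theorem ln (x : V) (s : ℝ) (i j : Fin 3) :
    (x + s • (Pi.single i (1 : ℝ) : V)) j = x j + (if j = i then s else 0) := by
  simp only [Pi.add_apply, Pi.smul_apply, smul_eq_mul, Pi.single_apply]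
  split_ifs <;> simp

theorem Sw_pd2 (h : ShearF v) (t : ℝ) (i : Fin 3) (x : V) : pd 2 (fun y => Sw v t y i) x = 0 := by
  refine pd_zero_of_line (Sw_diff h t i x) fun s => ?_
  have h0 : v (x + s • (Pi.single 2 (1 : ℝ) : V)) 0 = v x 0 := h.c0 _ _ (by
    rw [ln]; simp)
  fin_cases i
  · exact h0
  · rfl
  · change v (x + s • (Pi.single 2 (1 : ℝ) : V) - (t * v (x + s • (Pi.single 2 (1 : ℝ) : V)) 0) •
      (Pi.single 0 (1 : ℝ) : V)) 2 = v (x - (t * v x 0) • (Pi.single 0 (1 : ℝ) : V)) 2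
    rw [h0]
    apply h.c2
    · simp only [Pi.sub_apply]
      rw [ln]
      simp
    · simp only [Pi.sub_apply]
      rw [ln]
      simp

theorem Sw_pd00 (h : ShearF v) (t : ℝ) (x : V) : pd 0 (fun y => Sw v t y 0) x = 0 := by
  refine pd_zero_of_line (Sw_diff h t 0 x) fun s => ?_
  exact h.c0 _ _ (by rw [ln]; simp)

/-- The derivative of the third component in the first variable. -/
theorem Sw_pd02 (h : ShearF v) (t : ℝ) (x : V) : pd 0 (fun y => Sw v t y 2) x =
    pd 0 (fun y => v y 2) (x - (t * v x 0) • (Pi.single 0 (1 : ℝ) : V)) := by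
  refine pd_of_line (Sw_diff h t 2 x) ?_
  have h1 : (fun s : ℝ => Sw v t (x + s • (Pi.single 0 (1 : ℝ) : V)) 2) =
      fun s => v (x - (t * v x 0) • (Pi.single 0 (1 : ℝ) : V) + s • (Pi.single 0 (1 : ℝ) : V)) 2 := by
    ext s
    have h0 : v (x + s • (Pi.single 0 (1 : ℝ) : V)) 0 = v x 0 := h.c0 _ _ (by rw [ln]; simp)
    change v (x + s • (Pi.single 0 (1 : ℝ) : V) - (t * v (x + s • (Pi.single 0 (1 : ℝ) : V)) 0) •
      (Pi.single 0 (1 : ℝ) : V)) 2 = _
    rw [h0]
    congr 2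
    abel
  rw [h1]
  have h2 : HasFDerivAt (fun y => v y 2) (fderiv ℝ (fun y => v y 2)
      (x - (t * v x 0) • (Pi.single 0 (1 : ℝ) : V)))
      (x - (t * v x 0) • (Pi.single 0 (1 : ℝ) : V) + (0 : ℝ) • (Pi.single 0 (1 : ℝ) : V)) := by
    rw [zero_smul, add_zero]
    exact ((contDiff_pi.1 h.smooth 2).differentiable (by simp) _).hasFDerivAt
  have h3 : HasDerivAt (fun s : ℝ => x - (t * v x 0) • (Pi.single 0 (1 : ℝ) : V) +
      s • (Pi.single 0 (1 : ℝ) : V)) ((1 : ℝ) • (Pi.single 0 (1 : ℝ) : V)) 0 :=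
    ((hasDerivAt_id (0 : ℝ)).smul_const _).const_add _
  have h4 := h2.comp_hasDerivAt (0 : ℝ) h3
  rw [one_smul] at h4
  exact h4

theorem Sw_time (h : ShearF v) (t : ℝ) (x : V) (i : Fin 3) : HasDerivAt (fun s => Sw v s x i)
    (if i = 2 then -(v x 0 * pd 0 (fun y => v y 2)
      (x - (t * v x 0) • (Pi.single 0 (1 : ℝ) : V))) else 0) t := by
  fin_cases i
  · exact hasDerivAt_const t _
  · exact hasDerivAt_const t _
  · change HasDerivAt (fun s => v (x - (s * v x 0) • (Pi.single 0 (1 : ℝ) : V)) 2) _ t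
    have h2 : HasFDerivAt (fun y => v y 2) (fderiv ℝ (fun y => v y 2)
        (x - (t * v x 0) • (Pi.single 0 (1 : ℝ) : V)))
        (x - (t * v x 0) • (Pi.single 0 (1 : ℝ) : V)) :=
      ((contDiff_pi.1 h.smooth 2).differentiable (by simp) _).hasFDerivAt
    have h3 : HasDerivAt (fun s : ℝ => x - (s * v x 0) • (Pi.single 0 (1 : ℝ) : V))
        (-((1 * v x 0) • (Pi.single 0 (1 : ℝ) : V))) t :=
      ((((hasDerivAt_id t).mul_const (v x 0)).smul_const _).const_sub x)
    have h4 := h2.comp_hasDerivAt t h3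
    refine h4.congr_deriv ?_
    rw [map_neg, map_smul]
    simp [pd]

/-- The shear flow solves the Euler equations for all times. -/
theorem Sw_sol (h : ShearF v) : IsSol (fun _ _ => 0) (Ici 0) (Sw v) (fun _ _ => 0) := by
  refine ⟨((Sw_smooth h).of_le (by exact_mod_cast le_top)).contDiffOn, contDiffOn_const,
    fun t _ => Sw_per h t, fun t _ i x => rfl, fun t _ x => ?_, fun t ht x i => ?_⟩
  · rw [Fin.sum_univ_three, Sw_pd00 h, Sw_pd2 h]
    have : (fun y => Sw v t y 1) = fun _ => 0 := rfl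
    rw [this]
    simp [pd]
  · rw [((Sw_time h t x i).hasDerivWithinAt).derivWithin ((uniqueDiffOn_Ici 0) t ht),
      Fin.sum_univ_three, Sw_pd2 h]
    have e1 : Sw v t x 1 = 0 := rfl
    have e2 : pd i (fun _ : V => (0 : ℝ)) x = 0 := by simp [pd]
    rw [e1, e2]
    simp only [Pi.zero_apply, zero_mul, mul_zero, add_zero]
    fin_cases i
    · rw [if_neg (by decide)]
      change 0 + Sw v t x 0 * pd 0 (fun y => Sw v t y 0) x = 0
      rw [Sw_pd00 h]
      ring
    · rw [if_neg (by decide)]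
      have : (fun y => Sw v t y (⟨1, by decide⟩ : Fin 3)) = fun _ => 0 := rfl
      simp only [this]
      simp [pd]
    · change (if (2 : Fin 3) = 2 then _ else _) + Sw v t x 0 * pd 0 (fun y => Sw v t y 2) x = 0
      rw [if_pos rfl, Sw_pd02 h]
      have : Sw v t x 0 = v x 0 := rfl
      rw [this]
      ring

end Pool.Agent.H306.CK
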