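import Pool.Agent.H306.CK.Four4
import Pool.Agent.H306.CK.Par
import Pool.Agent.H306.CK.Shear

/-! The assembly. -/

namespace Pool.Agent.H306.CK

open Set MeasureTheory Filter

open scoped Real ContDiff ENNReal Topology

theorem zz_pos {N : ℕ} (hN : 2 ≤ N) (m : ℕ) : 0 < zz N m := by
  unfold zz
  have : (0 : ℝ) < N := by exact_mod_cast (by omega : 0 < N)
  positivity

theorem zz_pow {N : ℕ} (hN : 2 ≤ N) (m : ℕ) : (N : ℝ) ^ (m + 1) ≤ zz N m := by
  have h : (1 : ℝ) ≤ N := by exact_mod_cast (by omega : 1 ≤ N)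
  unfold zz
  exact pow_le_pow_right₀ h Nat.lt_two_pow_self

/-- Super-geometric decay. -/
theorem zz_summable {N : ℕ} (hN : 2 ≤ N) (R : ℝ) : Summable fun m => R ^ m * (1 / zz N m) := by
  have hNR : (2 : ℝ) ≤ N := by exact_mod_cast hN
  obtain ⟨j, hj⟩ := exists_nat_ge (2 * |R|)
  -- eventually `(2 R)^m ≤ zz N m`
  have h1 : ∀ᶠ m in atTop, ‖R ^ m * (1 / zz N m)‖ ≤ (1 / 2 : ℝ) ^ m := by
    have h2 : Tendsto (fun m : ℕ => ((m : ℝ) + 1) ^ 1 / 2 ^ m) atTop (𝓝 0) := by
      have h3 := (tendsto_pow_const_div_const_pow_of_one_lt 1 (by norm_num : (1 : ℝ) < 2))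
      have h4 := (tendsto_pow_const_div_const_pow_of_one_lt 0 (by norm_num : (1 : ℝ) < 2))
      have h5 := h3.add h4
      simp only [add_zero] at h5
      refine h5.congr fun m => ?_
      rw [pow_zero, pow_one, pow_one]
      ring
    have hJ : (0 : ℝ) < 1 / (j + 1) := by positivity
    filter_upwards [h2.eventually (gt_mem_nhds hJ)] with m hm
    have hz := zz_pos hN m
    have hp : (0 : ℝ) < 2 ^ m := by positivity
    rw [pow_one, div_lt_iff₀ hp, one_div, inv_mul_eq_div, lt_div_iff₀ (by positivity)] at hm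
    have h3 : (j * m : ℕ) ≤ 2 ^ m := by
      have : ((j * m : ℕ) : ℝ) ≤ ((2 ^ m : ℕ) : ℝ) := by
        push_cast
        have : (0 : ℝ) ≤ j := Nat.cast_nonneg j
        have : (0 : ℝ) ≤ m := Nat.cast_nonneg m
        nlinarith
      exact_mod_cast this
    have h4 : (2 * |R|) ^ m ≤ zz N m := by
      have hj2 : (j : ℝ) ≤ 2 ^ j := by
        have := (Nat.lt_two_pow_self (n := j)).le
        exact_mod_cast this
      calc (2 * |R|) ^ m ≤ ((2 : ℝ) ^ j) ^ m :=
            pow_le_pow_left₀ (by positivity) (hj.trans hj2) m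
        _ = 2 ^ (j * m) := by rw [← pow_mul]
        _ ≤ 2 ^ (2 ^ m) := pow_le_pow_right₀ (by norm_num) h3
        _ ≤ _ := by
          unfold zz
          gcongr
    rw [norm_mul, norm_pow, Real.norm_eq_abs, Real.norm_eq_abs,
      abs_of_pos (show (0 : ℝ) < 1 / zz N m by positivity), mul_one_div, div_le_iff₀ hz, one_div, inv_pow, inv_mul_eq_div, le_div_iff₀ hp]
    calc |R| ^ m * 2 ^ m = (2 * |R|) ^ m := by rw [mul_pow]; ring
      _ ≤ _ := h4
  rw [← Nat.cofinite_eq_atTop] at h1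
  exact Summable.of_norm_bounded_eventually (summable_geometric_of_lt_one (by norm_num)
    (by norm_num)) h1

theorem zz_sum_le {N : ℕ} (hN : 2 ≤ N) {R : ℝ} (hR : 0 ≤ R) (hRN : 2 * R ≤ N) :
    ∑' m, R ^ m * (1 / zz N m) ≤ 2 / N := by
  have hNR : (0 : ℝ) < N := by exact_mod_cast (by omega : 0 < N)
  have h1 : ∀ m, R ^ m * (1 / zz N m) ≤ 1 / N * (1 / 2) ^ m := by
    intro m
    have hz := zz_pos hN m
    have h2 := zz_pow hN m
    calc R ^ m * (1 / zz N m) ≤ R ^ m * (1 / (N : ℝ) ^ (m + 1)) := by gcongr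
      _ = 1 / N * (R / N) ^ m := by
          rw [div_pow, pow_succ]
          field_simp
      _ ≤ _ := by
          refine mul_le_mul_of_nonneg_left (pow_le_pow_left₀ (by positivity) ?_ m) (by positivity)
          rw [div_le_div_iff₀ hNR (by norm_num)]
          linarith
  refine ((zz_summable hN R).tsum_le_tsum h1 (summable_geometric_two.mul_left _)).trans ?_
  rw [tsum_mul_left, tsum_geometric_two]
  exact le_of_eq (by ring)

/-- The frequencies. -/
def KN (n N m : ℕ) : ℕ := N ^ (2 ^ m * (12 * n))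

theorem KN_cast (n N m : ℕ) : (KN n N m : ℝ) = zz N m ^ (12 * n) := by
  unfold KN zz
  push_cast
  rw [pow_mul]

section

variable {n N : ℕ} (hn : 6 ≤ n) (hN : 24000 * (1 + 26) * (24 * n + 32) ≤ (N : ℝ))
  {r₁ r₂ r₃ : ℝ}

include hn hN

theorem fr_par : Fr (par n N 26 r₁ r₂ r₃) (KN n N) := by
  have h26 : (0 : ℝ) ≤ 26 := by norm_num
  have hN2 := N_ge2 hn h26 hN
  have hN1 := N_ge hn h26 hN
  have hz1 := z_one hn h26 hN
  have hzN := z_ge hn h26 hN
  refine ⟨fun m => (KN_cast n N m).symm, fun m => ?_, fun m => ?_, fun m => ?_, fun m => ?_,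
    fun j => ?_⟩
  · have h1 : (16 * 2 ^ m : ℝ) ≤ KN n N (m + 1) := by
      rw [KN_cast]
      have h2 := zz_two hN2 1 m
      have h3 : (2 : ℝ) ^ m * N ≤ zz N (m + 1) := by
        rw [add_comm m 1]
        refine le_trans ?_ h2
        gcongr
        exact hzN 1
      have h4 : (0 : ℝ) < 2 ^ m := by positivity
      calc (16 * 2 ^ m : ℝ) ≤ 2 ^ m * N := by nlinarith
        _ ≤ zz N (m + 1) := h3
        _ = zz N (m + 1) ^ 1 := (pow_one _).symm
        _ ≤ _ := pow_le_pow_right₀ (hz1 _) (by omega)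
    exact_mod_cast h1
  · unfold KN
    apply Nat.pow_le_pow_right (by omega)
    apply Nat.mul_le_mul_right
    exact Nat.pow_le_pow_right (by omega) (by omega)
  · unfold KN
    exact Nat.pow_pos (by omega)
  · simp only [par]
    have := zz_pos hN2 m
    positivity
  · -- summability
    have h1 := zz_summable hN2 1
    simp only [one_pow, one_mul] at h1
    refine Summable.of_norm_bounded_eventually_nat h1 ?_
    filter_upwards [eventually_ge_atTop (24 * n * j)] with m hm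
    have hz := zz_pos hN2 m
    simp only [par]
    rw [KN_cast, zz_succ, ← pow_mul, ← pow_mul, Real.norm_eq_abs, abs_of_pos (by positivity),
      one_div_mul_eq_div, div_le_div_iff₀ (by positivity) hz, one_mul, ← pow_succ]
    apply pow_le_pow_right₀ (hz1 m)
    have e1 : 2 * (12 * n) * j = 24 * n * j := by ring
    have e2 : 2 * (12 * n * j) = 24 * n * j := by ring
    omega

theorem c_summable : Summable fun m => (par n N 26 r₁ r₂ r₃).c m * 2 ^ m := by
  have h26 : (0 : ℝ) ≤ 26 := by norm_num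
  have hN2 := N_ge2 hn h26 hN
  have hz1 := z_one hn h26 hN
  refine Summable.of_nonneg_of_le (fun m => ?_) (fun m => ?_) (zz_summable hN2 2)
  · have := zz_pos hN2 m
    simp only [par]
    positivity
  · have hz := zz_pos hN2 m
    simp only [par]
    rw [mul_comm]
    gcongr
    calc zz N m = zz N m ^ 1 := (pow_one _).symm
      _ ≤ _ := pow_le_pow_right₀ (hz1 m) (by omega)

theorem c_order {σ : ℝ} (h : 49 ≤ n * (12 - 48 * σ)) (m : ℕ) :
    (par n N 26 r₁ r₂ r₃).c m ^ 2 * (KN n N (m + 1) : ℝ) ^ (2 * σ) ≤ 1 / zz N m := by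
  have h26 : (0 : ℝ) ≤ 26 := by norm_num
  have hN2 := N_ge2 hn h26 hN
  have hz1 := z_one hn h26 hN m
  have hz := zz_pos hN2 m
  simp only [par]
  have e1 : (KN n N (m + 1) : ℝ) ^ (2 * σ) = zz N m ^ (48 * n * σ) := by
    rw [KN_cast, zz_succ, ← pow_mul, ← Real.rpow_natCast, ← Real.rpow_mul hz.le]
    congr 1
    push_cast
    ring
  have e2 : (1 / zz N m ^ (6 * n - 24)) ^ 2 = zz N m ^ (-(12 * n - 48 : ℝ)) := by
    rw [Real.rpow_neg hz.le, one_div, inv_pow, ← pow_mul, ← Real.rpow_natCast]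
    congr 2
    push_cast [Nat.cast_sub (show 24 ≤ 6 * n by omega)]
    ring
  have e3 : 1 / zz N m = zz N m ^ (-1 : ℝ) := by
    rw [Real.rpow_neg hz.le, Real.rpow_one, one_div]
  rw [e1, e2, e3, ← Real.rpow_add hz]
  apply Real.rpow_le_rpow_of_exponent_le hz1
  nlinarith

end

/-- The weights are double exponentially small. -/
theorem kap_exp {n N : ℕ} (hn : 6 ≤ n) (hN : 24000 * (1 + 26) * (24 * n + 32) ≤ (N : ℝ))
    {r₁ r₂ r₃ : ℝ} (h₁ : |r₁| ≤ 1) (h₂ : |r₂| ≤ 1) (h₃ : |r₃| ≤ 1) {δ : ℝ} (hδ : 5 ≤ δ * N)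
    (m : ℕ) : 0 < kap (par n N 26 r₁ r₂ r₃) (KN n N) m ∧
      4 * kap (par n N 26 r₁ r₂ r₃) (KN n N) m ≤ δ * Real.exp (-2 ^ m) := by
  have h26 : (0 : ℝ) ≤ 26 := by norm_num
  have hN2 := N_ge2 hn h26 hN
  have hN1 := N_ge hn h26 hN
  have hz1 := z_one hn h26 hN m
  have hzN := z_ge hn h26 hN m
  have hz := zz_pos hN2 m
  have hNpos : (0 : ℝ) < N := by linarith
  have hG : (par n N 26 r₁ r₂ r₃).Good := par_good hn h26 hN h₁ h₂ h₃
  have hF : Fr (par n N 26 r₁ r₂ r₃) (KN n N) := fr_par hn hN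
  refine ⟨kap_pos hF hG m,
    (mul_le_mul_of_nonneg_left (kap_le hF hG m) (by norm_num)).trans ?_⟩
  have hδ5 : 4 * (1 / (N : ℝ)) ≤ δ := by
    rw [mul_one_div, div_le_iff₀ hNpos]
    linarith
  have h2 : (2 : ℝ) ^ m ≤ zz N m := by
    have h3 := zz_two hN2 0 m
    simp only [zero_add] at h3
    have h4 : 1 ≤ zz N 0 := z_one hn h26 hN 0
    have h5 : (0 : ℝ) < 2 ^ m := by positivity
    nlinarith
  have hexp : Real.exp (2 ^ m) ≤ zz N m := by
    have h3 : Real.exp 1 ≤ N := by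
      have := Real.exp_one_lt_d9
      linarith
    calc Real.exp (2 ^ m) = Real.exp 1 ^ (2 ^ m) := by
          rw [← Real.exp_nat_mul]
          congr 1
          push_cast
          ring
      _ ≤ (N : ℝ) ^ (2 ^ m) := by gcongr
      _ = _ := rfl
  rw [Real.exp_neg, ← div_eq_mul_inv, le_div_iff₀ (Real.exp_pos _)]
  simp only [par]
  have h6 : zz N m ^ 3 ≤ zz N m ^ (6 * n - 24) := pow_le_pow_right₀ hz1 (by omega)
  calc 4 * (1 / zz N m ^ (6 * n - 24) * 2 ^ m) * Real.exp (2 ^ m) ≤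
        4 * (1 / zz N m ^ 3 * zz N m) * zz N m := by gcongr
    _ = 4 * (1 / zz N m) := by field_simp
    _ ≤ 4 * (1 / N) := by gcongr
    _ ≤ δ := hδ5

theorem pf_unit (K : ℕ → ℕ) (m : ℕ) : Unit3 (pf K m) :=
  ⟨pf_smooth K m, pf_periodic K m, div_pf K m, pf_abs K m⟩

theorem qf_unit (K : ℕ → ℕ) (m : ℕ) : Unit3 (qf K m) :=
  ⟨qf_smooth K m, qf_periodic K m, div_qf K m, qf_abs K m⟩

theorem half_unit (K : ℕ → ℕ) (m : ℕ) :
    Unit3 (fun x => (1 / 2 : ℝ) • pf K m x + (-1 / 2 : ℝ) • qf K m x) := by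
  refine ⟨((pf_smooth K m).const_smul _).add ((qf_smooth K m).const_smul _), fun i x => ?_,
    fun x => ?_, fun x i => ?_⟩
  · simp only [pf_periodic K m i x, qf_periodic K m i x]
  · have hd : ∀ i, DifferentiableAt ℝ (fun y => pf K m y i) x := fun i =>
      (contDiff_pi.1 (pf_contDiff K m) i).differentiable (by norm_num) x
    have hd' : ∀ i, DifferentiableAt ℝ (fun y => qf K m y i) x := fun i =>
      (contDiff_pi.1 (qf_contDiff K m) i).differentiable (by norm_num) x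
    have h1 : ∀ i, pd i (fun y => ((1 / 2 : ℝ) • pf K m y + (-1 / 2 : ℝ) • qf K m y) i) x =
        1 / 2 * pd i (fun y => pf K m y i) x + -1 / 2 * pd i (fun y => qf K m y i) x := by
      intro i
      unfold pd
      have h2 : (fun y => ((1 / 2 : ℝ) • pf K m y + (-1 / 2 : ℝ) • qf K m y) i) =
          fun y => 1 / 2 * pf K m y i + -1 / 2 * qf K m y i := by
        ext y
        simp
      rw [h2, fderiv_fun_add ((hd i).const_mul _) ((hd' i).const_mul _),
        fderiv_const_mul (hd i), fderiv_const_mul (hd' i)]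
      simp
    simp only [h1]
    rw [Finset.sum_add_distrib, ← Finset.mul_sum, ← Finset.mul_sum, div_pf, div_qf]
    ring
  · simp only [Pi.add_apply, Pi.smul_apply, smul_eq_mul]
    have h1 := abs_le.1 (pf_abs K m x i)
    have h2 := abs_le.1 (qf_abs K m x i)
    rw [abs_le]
    constructor <;> linarith

/-- The blow-up solution. -/
theorem blowup {n N : ℕ} (hn : 6 ≤ n) (hN : 24000 * (1 + 26) * (24 * n + 32) ≤ (N : ℝ))
    {r₁ r₂ r₃ : ℝ} (h₁ : |r₁| ≤ 1) (h₂ : |r₂| ≤ 1) (h₃ : |r₃| ≤ 1)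
    (hL : Lin (KK (par n N 26 r₁ r₂ r₃) (KN n N))) {δ : ℝ} (hδ : 5 ≤ δ * N) :
    ∃ (T : ℝ) (u : ℝ → V → V), 0 < T ∧ T ≤ δ ∧
      ContDiffOn ℝ ∞ (fun z : ℝ × V => u z.1 z.2) (Ico 0 T ×ˢ univ) ∧ ContDiff ℝ ∞ (u 0) ∧
      IsSol (KK (par n N 26 r₁ r₂ r₃) (KN n N)) (Ico 0 T) u (fun _ _ => 0) ∧
      (∀ t ∈ Ico 0 T, ∀ x i, |u t x i| ≤ δ) ∧
      (∀ M : ℝ, ∃ t ∈ Ico 0 T, ∃ x, M < ‖curl (u t) x‖) ∧
      (∀ (T' : ℝ) (v : ℝ → V → V) (q : ℝ → V → ℝ), 0 < T' →
        IsSol (KK (par n N 26 r₁ r₂ r₃) (KN n N)) (Ico 0 T') v q → v 0 = u 0 →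
        T' ≤ T ∧ ∀ t ∈ Ico 0 T', v t = u t) ∧
      ∃ w : ℝ → V → V, w 0 = u 0 ∧
        ContDiffOn ℝ ∞ (fun z : ℝ × V => w z.1 z.2) (Ici 0 ×ˢ univ) ∧
        IsSol (fun _ _ => 0) (Ici 0) w (fun _ _ => 0) := by
  have h26 : (0 : ℝ) ≤ 26 := by norm_num
  have hN2 := N_ge2 hn h26 hN
  have hN1 := N_ge hn h26 hN
  have hz1 := z_one hn h26 hN
  have hzN := z_ge hn h26 hN
  have hNpos : (0 : ℝ) < N := by linarith
  set P := par n N 26 r₁ r₂ r₃ with hP
  have hG : P.Good := par_good hn h26 hN h₁ h₂ h₃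
  have hF : Fr P (KN n N) := fr_par hn hN
  have hc : Cf P (gC (KN n N)) (sC (KN n N)) (vC (KN n N)) :=
    cf_good rfl (KN n N) hF.K_ge (par_kε hn h26 hN) (par_kε' hn h26 hN)
  obtain ⟨ε, T, hε, hT, hTt, x, hx0, hx, hunb, hbd⟩ := chain_blowup hG hc
  have hsol := isSol hF hG hc hε hx
  have hδ5 : 5 / N ≤ δ := by rw [div_le_iff₀ hNpos]; exact hδ
  have hsmall : ∀ {a : ℕ}, 1 ≤ a → ∀ m, 1 / zz N m ^ a ≤ 1 / N := by
    intro a ha m
    apply one_div_le_one_div_of_le hNpos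
    calc (N : ℝ) ≤ zz N m := hzN m
      _ = zz N m ^ 1 := (pow_one _).symm
      _ ≤ _ := pow_le_pow_right₀ (hz1 m) ha
  have hθ : ∀ m, P.θ m ≤ 1 / N := fun m => hsmall (by omega) m
  have hk : ∀ m, 1 / P.k m ≤ 1 / N := fun m => hsmall (by omega) m
  have hTδ : T ≤ δ := by
    refine hTt.trans (le_trans ?_ hδ5)
    simp only [hP, par]
    have h4 : (N : ℝ) ≤ N ^ 4 := le_self_pow₀ (by linarith) (by norm_num)
    calc 2 / (N : ℝ) ^ 4 ≤ 2 / N := by gcongr
      _ ≤ 5 / N := by gcongr; norm_num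
  have hvf : ContDiff ℝ ∞ (vf hG hc) := (vf_contDiff hG hc).of_le le_top
  have hxs : ContDiffOn ℝ ∞ x (Ioo (-ε) T) := hx.contDiffOn hvf
  have hsub : Ico 0 T ⊆ Ioo (-ε) T := fun t ht => ⟨by linarith [ht.1], ht.2⟩
  have hunb' : ∀ M : ℝ, ∃ t ∈ Ico 0 T, ∃ y, M < |curl (uu P (KN n N) (x t)) y 1| := by
    intro M
    obtain ⟨t, ht, m, hm⟩ := hunb M
    obtain ⟨y, hy⟩ := vort_point hF (x t) m
    refine ⟨t, ht, y, ?_⟩
    rw [hy, abs_neg]
    exact hm.trans_le (le_abs_self _)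
  have hsh : ShearF (uu P (KN n N) (x 0)) := ⟨uu_contDiff hF _, uu_periodic hF _, fun y => rfl,
    fun y y' h1 => congrArg (fun L : X →L[ℝ] ℝ => L (x 0)) (L0_congr (P := P) (K := KN n N) h1),
    fun y y' h0 h1 => congrFun (uu_congr (x 0) h0 h1) 2⟩
  refine ⟨T, fun t => uu P (KN n N) (x t), hT, hTδ,
    (uu_contDiffOn hF hxs).mono (prod_mono hsub Subset.rfl), uu_contDiff hF (x 0), hsol, ?_,
    ?_, ?_, Sw (uu P (KN n N) (x 0)), Sw_zero hsh, (Sw_smooth hsh).contDiffOn, Sw_sol hsh⟩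
  · -- the bound
    intro t ht y i
    have hb := hbd t ht
    have hN5 : 0 < 5 / (N : ℝ) := by positivity
    fin_cases i
    · change |L0 P (KN n N) y (x t)| ≤ δ
      by_cases hm : ∃ m, hχ m (y 1) ≠ 0
      · obtain ⟨m, hm⟩ := hm
        rw [band_L0 hF hm, abs_mul, abs_of_pos (hb m).1]
        calc bX P (x t) m * |PP (KN n N) m (y 1)| ≤ (2 * P.θ (m + 1)) * 1 := by
              have h1 := (hb m).1.le
              have h2 := (hb m).2.1
              have h3 := PP_abs_le (KN n N) m (y 1)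
              have h4 := (hG.θ_pos (m + 1)).le
              gcongr
          _ ≤ (2 * (1 / N)) * 1 := by
              have := hθ (m + 1)
              gcongr
          _ ≤ 5 / N := by
              rw [mul_one, mul_one_div]
              gcongr
              norm_num
          _ ≤ δ := hδ5
      · push Not at hm
        rw [band_L0_zero hF hm, abs_zero]
        linarith
    · change |(0 : ℝ)| ≤ δ
      rw [abs_zero]
      linarith
    · change |G0 P (KN n N) y + La P (KN n N) y (x t) + Lb P (KN n N) y (x t)| ≤ δ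
      by_cases hm : ∃ m, hχ m (y 1) ≠ 0
      · obtain ⟨m, hm⟩ := hm
        rw [band_u2 hF hm]
        have hBpos := (hb m).2.2.1
        have hBle := (hb m).2.2.2.1
        have hD := (hb m).2.2.2.2
        have h1 : |BX P (x t) m * (hχ m (y 1) * Real.cos (KN n N m * y 0))| ≤ 2 * (1 / N) := by
          rw [abs_mul, abs_mul, abs_of_pos hBpos, abs_of_nonneg (hχ_nonneg _ _)]
          have h2 := hχ_le m (y 1)
          have h3 := Real.abs_cos_le_one (KN n N m * y 0)
          have h4 := hχ_nonneg m (y 1)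
          have h5 := (hG.θ_pos m).le
          calc BX P (x t) m * (hχ m (y 1) * |Real.cos (KN n N m * y 0)|) ≤
                (2 * P.θ m) * (1 * 1) := by gcongr
            _ ≤ (2 * (1 / N)) * (1 * 1) := by
                have := hθ m
                gcongr
            _ = _ := by ring
        have h2 : |serD P (KN n N) (x t) m (y 0) (y 1)| ≤ 8 / 3 * (1 / N) := by
          unfold serD
          have h3 : ∀ i, ‖DX P (x t) m i * (PP (KN n N) m (y 1) ^ (i + 1) *
              tr i (KN n N m * y 0))‖ ≤ 2 * (1 / N) * (1 / 4 : ℝ) ^ i := by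
            intro i
            rw [Real.norm_eq_abs, abs_mul]
            have h4 := pow_tr_abs (K := KN n N) m (i + 1) i (KN n N m * y 0) (y 1)
            have h5 := hD i
            have h6 : |DX P (x t) m i| ≤ (P.θ m + 1 / P.k m) * (1 / 4) ^ i := by
              rw [one_div_pow, mul_one_div, le_div_iff₀ (by positivity)]
              linarith
            have h7 := hθ m
            have h8 := hk m
            have h9 : 0 ≤ (P.θ m + 1 / P.k m) * (1 / 4) ^ i := (abs_nonneg _).trans h6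
            calc |DX P (x t) m i| * |PP (KN n N) m (y 1) ^ (i + 1) * tr i (KN n N m * y 0)| ≤
                  ((P.θ m + 1 / P.k m) * (1 / 4) ^ i) * 1 := by gcongr
              _ ≤ ((1 / N + 1 / N) * (1 / 4) ^ i) * 1 := by gcongr
              _ = _ := by ring
          have h4 : HasSum (fun i : ℕ => 2 * (1 / N) * (1 / 4 : ℝ) ^ i)
              (2 * (1 / N) * (1 - 1 / 4)⁻¹) :=
            (hasSum_geometric_of_lt_one (by norm_num) (by norm_num)).mul_left _
          refine (tsum_of_norm_bounded h4 h3).trans (le_of_eq ?_)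
          norm_num
          ring
        refine (abs_add_le _ _).trans ((add_le_add h1 h2).trans (le_trans ?_ hδ5))
        rw [mul_one_div, mul_one_div, ← add_div]
        gcongr
        norm_num
      · push Not at hm
        rw [band_u2_zero hF hm, abs_zero]
        linarith
  · intro M
    obtain ⟨t, ht, y, hy⟩ := hunb' M
    exact ⟨t, ht, y, hy.trans_le (norm_le_pi_norm (curl (uu P (KN n N) (x t)) y) 1)⟩
  · intro T' v q hT' hv h0
    have hle : T' ≤ T := by
      by_contra hcon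
      push Not at hcon
      have hv' : IsSol (KK P (KN n N)) (Ico 0 T) v q := by
        have hs : Ico 0 T ⊆ Ico 0 T' := Ico_subset_Ico_right hcon.le
        refine ⟨hv.c1_u.mono (prod_mono hs Subset.rfl), hv.c1_p.mono (prod_mono hs Subset.rfl),
          fun t ht => hv.per_u t (hs ht), fun t ht => hv.per_p t (hs ht),
          fun t ht => hv.div_free t (hs ht), fun t ht y i => ?_⟩
        have h1 := hv.momentum t (hs ht) y i
        rw [← h1]
        congr 2
        have hnb : Ico 0 T =ᶠ[𝓝 t] Ico 0 T' := by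
          filter_upwards [Iio_mem_nhds ht.2] with s hs2
          have hs3 : s < T := hs2
          change (0 ≤ s ∧ s < T) = (0 ≤ s ∧ s < T')
          rw [eq_iff_iff]
          constructor
          · rintro ⟨a, b⟩; exact ⟨a, b.trans hcon⟩
          · rintro ⟨a, -⟩; exact ⟨a, hs3⟩
        exact derivWithin_congr_set hnb
      have huv := unique hL hv' hsol h0
      obtain ⟨M, hM⟩ := curl_bounded hv hcon
      obtain ⟨t, ht, y, hy⟩ := hunb' M
      have h1 := hM t ⟨ht.1, ht.2.le⟩ y 1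
      rw [huv t ht] at h1
      linarith
    refine ⟨hle, ?_⟩
    have hu' : IsSol (KK P (KN n N)) (Ico 0 T') (fun t => uu P (KN n N) (x t))
        (fun _ _ => 0) := by
      have hs : Ico 0 T' ⊆ Ico 0 T := Ico_subset_Ico_right hle
      refine ⟨hsol.c1_u.mono (prod_mono hs Subset.rfl), hsol.c1_p.mono (prod_mono hs Subset.rfl),
        fun t ht => hsol.per_u t (hs ht), fun t ht => hsol.per_p t (hs ht),
        fun t ht => hsol.div_free t (hs ht), fun t ht y i => ?_⟩
      have h1 := hsol.momentum t (hs ht) y i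
      rw [← h1]
      congr 2
      have hnb : Ico 0 T' =ᶠ[𝓝 t] Ico 0 T := by
        filter_upwards [Iio_mem_nhds ht.2] with s hs2
        have hs3 : s < T' := hs2
        change (0 ≤ s ∧ s < T') = (0 ≤ s ∧ s < T)
        rw [eq_iff_iff]
        constructor
        · rintro ⟨a, b⟩; exact ⟨a, b.trans_le hle⟩
        · rintro ⟨a, -⟩; exact ⟨a, hs3⟩
      exact derivWithin_congr_set hnb
    exact unique hL hv hu' h0

/-- The choice of the parameters. -/
theorem choice {σ δ : ℝ} (hσ : σ < 1 / 4) (hδ : 0 < δ) : ∃ n N : ℕ, 6 ≤ n ∧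
    24000 * (1 + 26) * (24 * n + 32) ≤ (N : ℝ) ∧ 5 ≤ δ * N ∧ 49 ≤ n * (12 - 48 * σ) ∧
    ∀ r₁ r₂ r₃ : ℝ, |r₁| ≤ 1 → |r₂| ≤ 1 → |r₃| ≤ 1 →
      (∀ s : ℝ, |s| ≤ 1 / δ → ∀ v, CP v →
        hs (s + σ) (KK (par n N 26 r₁ r₂ r₃) (KN n N) v) ≤ ENNReal.ofReal δ * hs s v) ∧
      ∀ s : ℝ, ∃ C : ℝ, ∀ v, CP v →
        hs (s + σ) (KK (par n N 26 r₁ r₂ r₃) (KN n N) v) ≤ ENNReal.ofReal C * hs s v := by
  obtain ⟨n₀, hn₀⟩ := exists_nat_ge (49 / (12 - 48 * σ))
  have h12 : 0 < 12 - 48 * σ := by linarith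
  set n := n₀ + 6 with hn
  have hn6 : 6 ≤ n := by omega
  have h49 : 49 ≤ n * (12 - 48 * σ) := by
    rw [div_le_iff₀ h12] at hn₀
    have : (n : ℝ) = n₀ + 6 := by rw [hn]; push_cast; ring
    rw [this]
    nlinarith
  obtain ⟨C, R, hC, hR, hK⟩ := KK_hs (1 / δ + |σ|)
  obtain ⟨N, hN⟩ := exists_nat_ge (24000 * (1 + 26) * (24 * n + 32) + 5 / δ + 2 * R + 2 * C / δ)
  have hnR : (0 : ℝ) ≤ n := Nat.cast_nonneg n
  have h5 : 0 ≤ 5 / δ := by positivity
  have h2C : 0 ≤ 2 * C / δ := by positivity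
  have hN1 : 24000 * (1 + 26) * (24 * n + 32) ≤ (N : ℝ) := by linarith
  have hN2 : 5 ≤ δ * N := by
    have h6 : 5 / δ ≤ N := by nlinarith
    rw [div_le_iff₀ hδ] at h6
    linarith
  have hN3 : 2 * R ≤ N := by nlinarith
  have hN4 : C * (2 / N) ≤ δ := by
    have h6 : 2 * C / δ ≤ N := by nlinarith
    have h7 : (0 : ℝ) < N := by nlinarith
    rw [div_le_iff₀ hδ] at h6
    rw [mul_div_assoc', div_le_iff₀ h7]
    linarith
  have h26 : (0 : ℝ) ≤ 26 := by norm_num
  have hN22 := N_ge2 hn6 h26 hN1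
  refine ⟨n, N, hn6, hN1, hN2, h49, fun r₁ r₂ r₃ h₁ h₂ h₃ => ?_⟩
  have hG : (par n N 26 r₁ r₂ r₃).Good := par_good hn6 h26 hN1 h₁ h₂ h₃
  have hF : Fr (par n N 26 r₁ r₂ r₃) (KN n N) := fr_par hn6 hN1
  have hcs := c_summable (r₁ := r₁) (r₂ := r₂) (r₃ := r₃) hn6 hN1
  have hco := c_order (r₁ := r₁) (r₂ := r₂) (r₃ := r₃) hn6 hN1 h49
  constructor
  · intro s hs v hv
    have hσ1 := abs_nonneg σ
    refine hK _ _ hF hG hcs σ _ hco (zz_summable hN22 R) s (by linarith)
      ((abs_add_le _ _).trans (by linarith)) δ hδ ?_ v hv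
    refine le_trans ?_ hN4
    gcongr
    exact zz_sum_le hN22 (by linarith) hN3
  · intro s
    obtain ⟨C', R', hC', hR', hK'⟩ := KK_hs (|s| + |σ|)
    have hσ1 := abs_nonneg σ
    have hs1 := abs_nonneg s
    have hS0 : 0 ≤ ∑' m, R' ^ m * (1 / zz N m) := tsum_nonneg fun m => by
      have := zz_pos hN22 m
      positivity
    refine ⟨C' * (∑' m, R' ^ m * (1 / zz N m)) + 1, fun v hv => ?_⟩
    refine hK' _ _ hF hG hcs σ _ hco (zz_summable hN22 R') s (by linarith)
      ((abs_add_le _ _).trans (by linarith)) _ (by positivity) (by linarith) v hv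

end Pool.Agent.H306.CK
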