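import Mathlib

/-! Maximal solutions of autonomous equations in a Banach space whose right side is Lipschitz
and bounded on bounded sets. -/

namespace Pool.Agent.H306.CK

open Set Metric
open scoped NNReal

variable {E : Type*} [NormedAddCommGroup E] [NormedSpace ℝ E]

/-- `F` is Lipschitz and bounded on every ball about `0`. -/
def LocLip (F : E → E) : Prop :=
  ∀ R : ℝ≥0, ∃ K L : ℝ≥0, LipschitzOnWith K F (closedBall 0 R) ∧ ∀ x ∈ closedBall (0 : E) R, ‖F x‖ ≤ L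

/-- `x` solves `x' = F x` on `(a, b)`. -/
def SolOn (F : E → E) (a b : ℝ) (x : ℝ → E) : Prop :=
  ∀ t ∈ Ioo a b, HasDerivAt x (F (x t)) t

theorem SolOn.mono {F : E → E} {a b a' b' : ℝ} {x : ℝ → E} (h : SolOn F a b x) (ha : a ≤ a')
    (hb : b' ≤ b) : SolOn F a' b' x :=
  fun t ht => h t ⟨ha.trans_lt ht.1, ht.2.trans_le hb⟩

theorem SolOn.continuousOn {F : E → E} {a b : ℝ} {x : ℝ → E} (h : SolOn F a b x) :
    ContinuousOn x (Ioo a b) :=
  HasDerivAt.continuousOn h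

theorem LocLip.local_exists [CompleteSpace E] {F : E → E} (hF : LocLip F) (R : ℝ≥0) :
    ∃ ε : ℝ, 0 < ε ∧ ∀ x₀ : E, ‖x₀‖ ≤ R → ∃ x : ℝ → E, x 0 = x₀ ∧ SolOn F (-ε) ε x := by
  obtain ⟨K, L, hK, hL⟩ := hF (R + 1)
  refine ⟨1 / (L + 1), by positivity, fun x₀ hx₀ => ?_⟩
  have hsub : closedBall x₀ ((1 : ℝ≥0) : ℝ) ⊆ closedBall (0 : E) ((R + 1 : ℝ≥0) : ℝ) := by
    intro y hy
    rw [mem_closedBall, dist_eq_norm] at hy
    rw [mem_closedBall, dist_zero_right]
    have : y = (y - x₀) + x₀ := by abel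
    rw [this]
    refine (norm_add_le _ _).trans ?_
    push_cast
    simp only [NNReal.coe_one] at hy
    linarith
  have hpos : (0 : ℝ) < 1 / ((L : ℝ) + 1) := by positivity
  have h0 : (0 : ℝ) ∈ Icc (-(1 / ((L : ℝ) + 1))) (1 / ((L : ℝ) + 1)) := ⟨by linarith, hpos.le⟩
  have hpl : IsPicardLindelof (fun _ => F) (tmin := -(1 / ((L : ℝ) + 1)))
      (tmax := 1 / ((L : ℝ) + 1)) ⟨0, h0⟩ x₀ 1 0 L K := by
    refine IsPicardLindelof.of_time_independent (fun x hx => hL x (hsub hx)) (hK.mono hsub) ?_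
    simp only [sub_zero, zero_sub, neg_neg, max_self, NNReal.coe_one, NNReal.coe_zero]
    rw [mul_one_div, div_le_one (by positivity)]
    linarith
  obtain ⟨x, hx0, hx⟩ := hpl.exists_eq_forall_mem_Icc_hasDerivWithinAt₀
  refine ⟨x, hx0, fun t ht => ?_⟩
  exact (hx t (Ioo_subset_Icc_self ht)).hasDerivAt (Icc_mem_nhds ht.1 ht.2)

theorem LocLip.unique {F : E → E} (hF : LocLip F) {a b t₀ : ℝ} (ht₀ : t₀ ∈ Ioo a b)
    {x y : ℝ → E} (hx : SolOn F a b x) (hy : SolOn F a b y) (h : x t₀ = y t₀) :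
    EqOn x y (Ioo a b) := by
  intro t ht
  obtain ⟨a', ha, ha'⟩ := exists_between (lt_min ht₀.1 ht.1)
  obtain ⟨b', hb', hb⟩ := exists_between (max_lt ht₀.2 ht.2)
  have hsub : Icc a' b' ⊆ Ioo a b := fun s hs => ⟨ha.trans_le hs.1, hs.2.trans_lt hb⟩
  have hc : IsCompact (Icc a' b') := isCompact_Icc
  obtain ⟨R₁, hR₁⟩ := hc.exists_bound_of_continuousOn (hx.continuousOn.mono hsub)
  obtain ⟨R₂, hR₂⟩ := hc.exists_bound_of_continuousOn (hy.continuousOn.mono hsub)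
  obtain ⟨K, L, hK, -⟩ := hF (max R₁ R₂).toNNReal
  have hle : ∀ s ∈ Ioo a' b', x s ∈ closedBall (0 : E) ((max R₁ R₂).toNNReal : ℝ) ∧
      y s ∈ closedBall (0 : E) ((max R₁ R₂).toNNReal : ℝ) := by
    intro s hs
    have h1 := hR₁ s (Ioo_subset_Icc_self hs)
    have h2 := hR₂ s (Ioo_subset_Icc_self hs)
    rw [mem_closedBall, mem_closedBall, dist_zero_right, dist_zero_right]
    exact ⟨(h1.trans (le_max_left _ _)).trans (Real.le_coe_toNNReal _),
      (h2.trans (le_max_right _ _)).trans (Real.le_coe_toNNReal _)⟩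
  have key := ODE_solution_unique_of_mem_Ioo (v := fun _ => F) (K := K)
    (s := fun _ => closedBall (0 : E) ((max R₁ R₂).toNNReal : ℝ)) (a := a') (b := b') (t₀ := t₀)
    (fun _ _ => hK) ⟨ha'.trans_le (min_le_left _ _), (le_max_left _ _).trans_lt hb'⟩
    (fun s hs => ⟨hx s (hsub (Ioo_subset_Icc_self hs)), (hle s hs).1⟩)
    (fun s hs => ⟨hy s (hsub (Ioo_subset_Icc_self hs)), (hle s hs).2⟩) h
  exact key ⟨ha'.trans_le (min_le_right _ _), (le_max_right _ _).trans_lt hb'⟩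

/-- The maximal solution: it exists up to the time `T₀`, or it is unbounded. -/
theorem LocLip.maximal [CompleteSpace E] {F : E → E} (hF : LocLip F) (x₀ : E) {T₀ : ℝ}
    (hT₀ : 0 < T₀) :
    ∃ ε T : ℝ, 0 < ε ∧ 0 < T ∧ T ≤ T₀ ∧ ∃ x : ℝ → E, x 0 = x₀ ∧ SolOn F (-ε) T x ∧
      (T < T₀ → ∀ R : ℝ, ∃ t ∈ Ico 0 T, R < ‖x t‖) := by
  classical
  obtain ⟨ε, hε, hloc⟩ := hF.local_exists ‖x₀‖₊
  obtain ⟨z, hz0, hz⟩ := hloc x₀ (by simp)
  set S : Set ℝ := {T | 0 < T ∧ T ≤ T₀ ∧ ∃ x : ℝ → E, x 0 = x₀ ∧ SolOn F (-ε) T x} with hS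
  have hne : min ε T₀ ∈ S := ⟨lt_min hε hT₀, min_le_right _ _, z, hz0, hz.mono le_rfl (min_le_left _ _)⟩
  have hbdd : BddAbove S := ⟨T₀, fun T hT => hT.2.1⟩
  have hTpos : 0 < sSup S := hne.1.trans_le (le_csSup hbdd hne)
  have hTle : sSup S ≤ T₀ := csSup_le ⟨_, hne⟩ fun T hT => hT.2.1
  have hex : ∀ t : ℝ, t < sSup S → ∃ T ∈ S, t < T := fun t ht => exists_lt_of_lt_csSup ⟨_, hne⟩ ht
  choose! Tf hTf htT using hex
  have hsol : ∀ T : ℝ, T ∈ S → ∃ x : ℝ → E, x 0 = x₀ ∧ SolOn F (-ε) T x := fun T hT => hT.2.2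
  choose! xf hxf0 hxf using hsol
  set x : ℝ → E := fun t => xf (Tf t) t with hx
  have hagree : ∀ T ∈ S, ∀ t, -ε < t → t < T → x t = xf T t := by
    intro T hT t h1 h2
    have hts : t < sSup S := h2.trans_le (le_csSup hbdd hT)
    have hmin : 0 < min (Tf t) T := lt_min (hTf t hts).1 hT.1
    have := hF.unique (a := -ε) (b := min (Tf t) T) (t₀ := 0) ⟨by linarith, hmin⟩
      ((hxf _ (hTf t hts)).mono le_rfl (min_le_left _ _)) ((hxf _ hT).mono le_rfl (min_le_right _ _))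
      (by rw [hxf0 _ (hTf t hts), hxf0 _ hT])
    exact this ⟨h1, lt_min (htT t hts) h2⟩
  have hx0 : x 0 = x₀ := by
    simp only [hx]
    exact hxf0 _ (hTf 0 hTpos)
  have hxsol : SolOn F (-ε) (sSup S) x := by
    intro t ht
    have hT := hTf t ht.2
    have h1 := hxf _ hT t ⟨ht.1, htT t ht.2⟩
    have h2 : x t = xf (Tf t) t := rfl
    rw [h2]
    refine h1.congr_of_eventuallyEq ?_
    filter_upwards [Ioo_mem_nhds ht.1 (htT t ht.2)] with s hs
    exact hagree _ hT s hs.1 hs.2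
  refine ⟨ε, sSup S, hε, hTpos, hTle, x, hx0, hxsol, fun hlt R => ?_⟩
  by_contra hcon
  push Not at hcon
  obtain ⟨ε', hε', hloc'⟩ := hF.local_exists R.toNNReal
  set T := sSup S with hTdef
  set t₁ : ℝ := max 0 (T - ε' / 2) with ht₁
  have ht₁0 : 0 ≤ t₁ := le_max_left _ _
  have ht₁T : t₁ < T := max_lt hTpos (by linarith)
  have ht₁' : T - ε' / 2 ≤ t₁ := le_max_right _ _
  obtain ⟨α, hα0, hα⟩ := hloc' (x t₁) ((hcon t₁ ⟨ht₁0, ht₁T⟩).trans (Real.le_coe_toNNReal _))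
  have hβ : SolOn F (t₁ - ε') (t₁ + ε') (fun t => α (t - t₁)) := by
    intro t ht
    have h1 := hα (t - t₁) ⟨by linarith [ht.1], by linarith [ht.2]⟩
    exact HasDerivAt.comp_sub_const t t₁ h1
  have hov : EqOn x (fun t => α (t - t₁)) (Ioo (max (-ε) (t₁ - ε')) T) := by
    refine hF.unique (t₀ := t₁) ⟨max_lt (by linarith) (by linarith), ht₁T⟩
      (hxsol.mono (le_max_left _ _) le_rfl) (hβ.mono (le_max_right _ _) (by linarith)) ?_
    simp [hα0]
  set y : ℝ → E := fun t => if t ≤ t₁ then x t else α (t - t₁) with hy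
  have hyx : ∀ s ∈ Ioo (-ε) T, y s = x s := by
    intro s hs
    simp only [hy]
    split_ifs with h
    · rfl
    · push Not at h
      exact (hov ⟨max_lt (by linarith [hs.1]) (by linarith), hs.2⟩).symm
  have hmem : min (t₁ + ε') T₀ ∈ S := by
    refine ⟨lt_min (by linarith) hT₀, min_le_right _ _, y, ?_, ?_⟩
    · rw [hyx 0 ⟨by linarith, hTpos⟩, hx0]
    · intro t ht
      rcases lt_or_ge t T with h | h
      · rw [hyx t ⟨ht.1, h⟩]
        refine (hxsol t ⟨ht.1, h⟩).congr_of_eventuallyEq ?_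
        filter_upwards [Ioo_mem_nhds ht.1 h] with s hs
        exact hyx s hs
      · have ht2 : t < t₁ + ε' := ht.2.trans_le (min_le_left _ _)
        have h1 := hβ t ⟨by linarith, ht2⟩
        have h2 : y t = α (t - t₁) := by
          simp only [hy]
          rw [if_neg (by push Not; linarith)]
        rw [h2]
        refine h1.congr_of_eventuallyEq ?_
        filter_upwards [Ioi_mem_nhds (show t₁ < t by linarith)] with s hs
        simp only [hy]
        rw [if_neg (by push Not; exact hs)]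
  have h1 := le_csSup hbdd hmem
  have h2 : T < min (t₁ + ε') T₀ := lt_min (by linarith) hlt
  linarith

end Pool.Agent.H306.CK
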