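import Pool.Agent.H306.CK.State

/-! The profiles of the chain and their overlaps. -/

namespace Pool.Agent.H306.CK

open Set MeasureTheory intervalIntegral

open scoped Real ContDiff

noncomputable def ψb : ContDiffBump (3 / 4 : ℝ) := ⟨1 / 16, 1 / 8, by norm_num, by norm_num⟩

noncomputable def χb : ContDiffBump (3 / 4 : ℝ) := ⟨1 / 8, 1 / 5, by norm_num, by norm_num⟩

noncomputable def hψ (m : ℕ) (y : ℝ) : ℝ := ψb (2 ^ m * Real.sin y)

noncomputable def hχ (m : ℕ) (y : ℝ) : ℝ := χb (2 ^ m * Real.sin y)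

noncomputable def PP (K : ℕ → ℕ) (m : ℕ) (y : ℝ) : ℝ := hψ m y * Real.cos (K (m + 1) * y)

theorem hψ_nonneg (m : ℕ) (y : ℝ) : 0 ≤ hψ m y := ψb.nonneg

theorem hψ_le (m : ℕ) (y : ℝ) : hψ m y ≤ 1 := ψb.le_one

theorem hχ_nonneg (m : ℕ) (y : ℝ) : 0 ≤ hχ m y := χb.nonneg

theorem hχ_le (m : ℕ) (y : ℝ) : hχ m y ≤ 1 := χb.le_one

theorem hψ_ne {m : ℕ} {y : ℝ} (h : hψ m y ≠ 0) : |2 ^ m * Real.sin y - 3 / 4| < 1 / 8 := by
  by_contra hcon
  push Not at hcon
  exact h (ψb.zero_of_le_dist (by rw [Real.dist_eq]; exact hcon))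

theorem hχ_ne {m : ℕ} {y : ℝ} (h : hχ m y ≠ 0) : |2 ^ m * Real.sin y - 3 / 4| < 1 / 5 := by
  by_contra hcon
  push Not at hcon
  exact h (χb.zero_of_le_dist (by rw [Real.dist_eq]; exact hcon))

theorem hχ_one {m : ℕ} {y : ℝ} (h : |2 ^ m * Real.sin y - 3 / 4| ≤ 1 / 8) : hχ m y = 1 :=
  χb.one_of_mem_closedBall (by rw [Metric.mem_closedBall, Real.dist_eq]; exact h)

theorem hψ_one {m : ℕ} {y : ℝ} (h : |2 ^ m * Real.sin y - 3 / 4| ≤ 1 / 16) : hψ m y = 1 :=
  ψb.one_of_mem_closedBall (by rw [Metric.mem_closedBall, Real.dist_eq]; exact h)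

theorem hχ_hψ (m : ℕ) (y : ℝ) : hχ m y * hψ m y = hψ m y := by
  by_cases h : hψ m y = 0
  · rw [h, mul_zero]
  · rw [hχ_one (hψ_ne h).le, one_mul]

theorem hχ_disj {m l : ℕ} (hml : m ≠ l) {y : ℝ} (h : hχ m y ≠ 0) : hχ l y = 0 := by
  by_contra hcon
  have h1 := abs_lt.1 (hχ_ne h)
  have h2 := abs_lt.1 (hχ_ne hcon)
  rcases lt_or_gt_of_ne hml with h3 | h3
  · obtain ⟨j, rfl⟩ : ∃ j, l = m + 1 + j := ⟨l - (m + 1), by omega⟩
    have h4 : (1 : ℝ) ≤ 2 ^ j := one_le_pow₀ (by norm_num)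
    have h5 : (2 : ℝ) ^ (m + 1 + j) * Real.sin y = 2 * 2 ^ j * (2 ^ m * Real.sin y) := by ring
    rw [h5] at h2
    nlinarith
  · obtain ⟨j, rfl⟩ : ∃ j, m = l + 1 + j := ⟨m - (l + 1), by omega⟩
    have h4 : (1 : ℝ) ≤ 2 ^ j := one_le_pow₀ (by norm_num)
    have h5 : (2 : ℝ) ^ (l + 1 + j) * Real.sin y = 2 * 2 ^ j * (2 ^ l * Real.sin y) := by ring
    rw [h5] at h1
    nlinarith

theorem hψ_zero_of_hχ {m : ℕ} {y : ℝ} (h : hχ m y = 0) : hψ m y = 0 := by
  rw [← hχ_hψ, h, zero_mul]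

theorem PP_abs_le (K : ℕ → ℕ) (m : ℕ) (y : ℝ) : |PP K m y| ≤ 1 := by
  unfold PP
  rw [abs_mul, abs_of_nonneg (hψ_nonneg m y)]
  calc hψ m y * |Real.cos (K (m + 1) * y)| ≤ 1 * 1 :=
        mul_le_mul (hψ_le m y) (Real.abs_cos_le_one _) (abs_nonneg _) (by norm_num)
    _ = 1 := one_mul 1

theorem PP_zero_of_hχ (K : ℕ → ℕ) {m : ℕ} {y : ℝ} (h : hχ m y = 0) : PP K m y = 0 := by
  unfold PP
  rw [hψ_zero_of_hχ h, zero_mul]

theorem hχ_PP (K : ℕ → ℕ) (m : ℕ) (y : ℝ) : hχ m y * PP K m y = PP K m y := by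
  unfold PP
  rw [← mul_assoc, hχ_hψ]

theorem hψ_contDiff (m : ℕ) : ContDiff ℝ ∞ (hψ m) := by
  unfold hψ
  exact ψb.contDiff.comp (contDiff_const.mul Real.contDiff_sin)

theorem hχ_contDiff (m : ℕ) : ContDiff ℝ ∞ (hχ m) := by
  unfold hχ
  exact χb.contDiff.comp (contDiff_const.mul Real.contDiff_sin)

theorem PP_contDiff (K : ℕ → ℕ) (m : ℕ) : ContDiff ℝ ∞ (PP K m) := by
  unfold PP
  exact (hψ_contDiff m).mul (Real.contDiff_cos.comp (contDiff_const.mul contDiff_id))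

theorem hψ_per (m : ℕ) (y : ℝ) : hψ m (y + 2 * π) = hψ m y := by
  unfold hψ; rw [Real.sin_add_two_pi]

theorem hχ_per (m : ℕ) (y : ℝ) : hχ m (y + 2 * π) = hχ m y := by
  unfold hχ; rw [Real.sin_add_two_pi]

theorem cos_nat_per (k : ℕ) (y : ℝ) : Real.cos (k * (y + 2 * π)) = Real.cos (k * y) := by
  rw [mul_add]
  have := Real.cos_add_nat_mul_two_pi (k * y) k
  rw [← this]

theorem sin_nat_per (k : ℕ) (y : ℝ) : Real.sin (k * (y + 2 * π)) = Real.sin (k * y) := by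
  rw [mul_add]
  have := Real.sin_add_nat_mul_two_pi (k * y) k
  rw [← this]

theorem PP_per (K : ℕ → ℕ) (m : ℕ) (y : ℝ) : PP K m (y + 2 * π) = PP K m y := by
  unfold PP; rw [hψ_per, cos_nat_per]

/-- `∫ P²`, `∫ P^j` and `∫ χ²`. -/
noncomputable def Pi2 (K : ℕ → ℕ) (m : ℕ) : ℝ := ∫ y in (-π)..π, PP K m y ^ 2

noncomputable def Mu (K : ℕ → ℕ) (m j : ℕ) : ℝ := ∫ y in (-π)..π, PP K m y ^ j

noncomputable def Nu (m : ℕ) : ℝ := ∫ y in (-π)..π, hχ m y ^ 2

theorem int_cos_sq {k : ℝ} (hk : 0 < k) (a b : ℝ) :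
    ∫ y in a..b, Real.cos (k * y) ^ 2 = (b - a) / 2 + (Real.sin (2 * k * b) -
      Real.sin (2 * k * a)) / (4 * k) := by
  have h : ∀ x ∈ uIcc a b, HasDerivAt (fun y => y / 2 + Real.sin (2 * k * y) / (4 * k))
      (Real.cos (k * x) ^ 2) x := by
    intro x _
    have h1 : HasDerivAt (fun y => y / 2) (1 / 2) x := (hasDerivAt_id x).div_const 2
    have h2 : HasDerivAt (fun y => 2 * k * y) (2 * k * 1) x := (hasDerivAt_id x).const_mul (2 * k)
    have h3 := (h2.sin).div_const (4 * k)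
    refine (h1.add h3).congr_deriv ?_
    have h4 : Real.cos (2 * k * x) = 2 * Real.cos (k * x) ^ 2 - 1 := by
      rw [← Real.cos_two_mul]; ring_nf
    rw [h4]
    field_simp
    ring
  rw [integral_eq_sub_of_hasDerivAt h (by
    apply Continuous.intervalIntegrable
    fun_prop)]
  ring

theorem Pi2_lower (K : ℕ → ℕ) (m : ℕ) (hK : 16 * 2 ^ m ≤ K (m + 1)) :
    1 / (32 * 2 ^ m) ≤ Pi2 K m := by
  have hKR : (16 * 2 ^ m : ℝ) ≤ K (m + 1) := by exact_mod_cast hK
  have h2m : (1 : ℝ) ≤ 2 ^ m := one_le_pow₀ (by norm_num)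
  have h2m0 : (0 : ℝ) < 2 ^ m := by positivity
  have hKpos : (0 : ℝ) < K (m + 1) := by linarith
  set a := Real.arcsin (11 / 16 / 2 ^ m) with ha
  set b := Real.arcsin (13 / 16 / 2 ^ m) with hb
  have hle1 : (11 / 16 / 2 ^ m : ℝ) ≤ 1 := by
    rw [div_le_one h2m0]; linarith
  have hle2 : (13 / 16 / 2 ^ m : ℝ) ≤ 1 := by
    rw [div_le_one h2m0]; linarith
  have hp1 : (0 : ℝ) < 11 / 16 / 2 ^ m := by positivity
  have hp2 : (0 : ℝ) < 13 / 16 / 2 ^ m := by positivity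
  have hsa : Real.sin a = 11 / 16 / 2 ^ m := Real.sin_arcsin (by linarith) hle1
  have hsb : Real.sin b = 13 / 16 / 2 ^ m := Real.sin_arcsin (by linarith) hle2
  have ha1 := Real.neg_pi_div_two_le_arcsin (11 / 16 / 2 ^ m)
  have hb1 := Real.arcsin_le_pi_div_two (13 / 16 / 2 ^ m)
  have hpi := Real.pi_pos
  have hab : a ≤ b := Real.arcsin_le_arcsin (by gcongr; norm_num)
  have hba : 1 / (8 * 2 ^ m) ≤ b - a := by
    have h1 : |Real.sin b - Real.sin a| ≤ |b - a| := by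
      have := Real.abs_sin_sub_sin_le b a
      exact this
    rw [hsa, hsb, abs_of_nonneg (by linarith : 0 ≤ b - a)] at h1
    refine le_trans (le_of_eq ?_) ((le_abs_self _).trans h1)
    field_simp
    norm_num
  have h1 : ∫ y in a..b, PP K m y ^ 2 ≤ Pi2 K m := by
    unfold Pi2
    apply integral_mono_interval (by linarith) hab (by linarith)
    · exact Filter.Eventually.of_forall fun y => sq_nonneg _
    · apply Continuous.intervalIntegrable
      exact (PP_contDiff K m).continuous.pow 2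
  have h2 : ∫ y in a..b, PP K m y ^ 2 = ∫ y in a..b, Real.cos (K (m + 1) * y) ^ 2 := by
    apply integral_congr
    intro y hy
    rw [uIcc_of_le hab] at hy
    have hya : Real.sin a ≤ Real.sin y := by
      apply Real.sin_le_sin_of_le_of_le_pi_div_two ha1 (hy.2.trans hb1) hy.1
    have hyb : Real.sin y ≤ Real.sin b := by
      apply Real.sin_le_sin_of_le_of_le_pi_div_two (ha1.trans hy.1) hb1 hy.2
    rw [hsa] at hya
    rw [hsb] at hyb
    rw [div_le_iff₀ h2m0] at hya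
    rw [le_div_iff₀ h2m0] at hyb
    have h3 : hψ m y = 1 := hψ_one (by
      rw [abs_le]
      constructor <;> nlinarith)
    simp only [PP]
    rw [h3, one_mul]
  rw [h2, int_cos_sq hKpos] at h1
  have h3 : -(2 : ℝ) ≤ Real.sin (2 * K (m + 1) * b) - Real.sin (2 * K (m + 1) * a) := by
    have := Real.neg_one_le_sin (2 * K (m + 1) * b)
    have := Real.sin_le_one (2 * K (m + 1) * a)
    linarith
  have h4 : -(2 : ℝ) / (4 * K (m + 1)) ≤ (Real.sin (2 * K (m + 1) * b) -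
      Real.sin (2 * K (m + 1) * a)) / (4 * K (m + 1)) := by gcongr
  have h5 : (2 : ℝ) / (4 * K (m + 1)) ≤ 1 / (32 * 2 ^ m) := by
    rw [div_le_div_iff₀ (by positivity) (by positivity)]
    linarith
  have h6 : 1 / (8 * 2 ^ m : ℝ) = 4 * (1 / (32 * 2 ^ m)) := by
    field_simp
    norm_num
  rw [h6] at hba
  have h7 : -(2 : ℝ) / (4 * K (m + 1)) = -(2 / (4 * K (m + 1))) := neg_div _ _
  rw [h7] at h4
  linarith

theorem Pi2_pos (K : ℕ → ℕ) (m : ℕ) (hK : 16 * 2 ^ m ≤ K (m + 1)) : 0 < Pi2 K m :=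
  lt_of_lt_of_le (by positivity) (Pi2_lower K m hK)

theorem Nu_nonneg (m : ℕ) : 0 ≤ Nu m :=
  integral_nonneg (by linarith [Real.pi_pos]) fun y _ => sq_nonneg _

theorem Nu_upper (m : ℕ) : Nu (m + 1) ≤ π / 2 ^ (m + 1) := by
  have hpi := Real.pi_pos
  have h2m : (2 : ℝ) ≤ 2 ^ (m + 1) := by
    calc (2 : ℝ) = 2 ^ 1 := (pow_one 2).symm
      _ ≤ _ := pow_le_pow_right₀ (by norm_num) (by omega)
  have h2m0 : (0 : ℝ) < 2 ^ (m + 1) := by positivity
  set d : ℝ := π / 2 / 2 ^ (m + 1) with hd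
  have hd0 : 0 < d := by positivity
  have hd1 : d ≤ π / 4 := by
    rw [hd, div_div, div_le_div_iff₀ (by positivity) (by norm_num)]
    nlinarith
  have hcont : Continuous fun y => hχ (m + 1) y ^ 2 := (hχ_contDiff _).continuous.pow 2
  have hi : ∀ a b, IntervalIntegrable (fun y => hχ (m + 1) y ^ 2) volume a b := fun a b =>
    hcont.intervalIntegrable a b
  have hz : ∀ y, (Real.sin y ≤ 0 ∨ 1 ≤ 2 ^ (m + 1) * Real.sin y) → hχ (m + 1) y = 0 := by
    intro y hy
    by_contra hcon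
    have h1 := abs_lt.1 (hχ_ne hcon)
    rcases hy with h | h
    · nlinarith
    · linarith
  have h1 : ∫ y in (-π)..0, hχ (m + 1) y ^ 2 = 0 := by
    rw [integral_congr (g := fun _ => (0 : ℝ)) (fun y hy => ?_)]
    · simp
    · rw [uIcc_of_le (by linarith)] at hy
      simp only
      rw [hz y (Or.inl (Real.sin_nonpos_of_nonpos_of_neg_pi_le hy.2 hy.1))]
      norm_num
  have h3 : ∫ y in d..(π - d), hχ (m + 1) y ^ 2 = 0 := by
    rw [integral_congr (g := fun _ => (0 : ℝ)) (fun y hy => ?_)]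
    · simp
    · rw [uIcc_of_le (by linarith)] at hy
      simp only
      have hs : 1 ≤ 2 ^ (m + 1) * Real.sin y := by
        rcases le_total y (π / 2) with h | h
        · have h4 := Real.mul_le_sin (by linarith [hy.1] : 0 ≤ y) h
          have h5 : 1 ≤ 2 ^ (m + 1) * (2 / π * y) := by
            have h6 : 2 ^ (m + 1) * (2 / π * d) = 1 := by
              rw [hd]; field_simp
            rw [← h6]
            have := hy.1
            gcongr
          refine h5.trans ?_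
          gcongr
        · have h4 := Real.mul_le_sin (by linarith [hy.2] : 0 ≤ π - y) (by linarith)
          rw [Real.sin_pi_sub] at h4
          have h5 : 1 ≤ 2 ^ (m + 1) * (2 / π * (π - y)) := by
            have h6 : 2 ^ (m + 1) * (2 / π * d) = 1 := by
              rw [hd]; field_simp
            rw [← h6]
            have : d ≤ π - y := by linarith [hy.2]
            gcongr
          refine h5.trans ?_
          gcongr
      rw [hz y (Or.inr hs)]
      norm_num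
  have hone : ∀ a b, a ≤ b → ∫ y in a..b, hχ (m + 1) y ^ 2 ≤ b - a := by
    intro a b hab
    have := integral_mono_on hab (hi a b) (intervalIntegrable_const (c := (1 : ℝ)))
      (fun y _ => by
        have h4 := hχ_nonneg (m + 1) y
        have h5 := hχ_le (m + 1) y
        nlinarith)
    simpa using this
  have h2 := hone 0 d hd0.le
  have h4 := hone (π - d) π (by linarith)
  unfold Nu
  rw [← integral_add_adjacent_intervals (hi (-π) 0) (hi 0 π),
    ← integral_add_adjacent_intervals (hi 0 d) (hi d π),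
    ← integral_add_adjacent_intervals (hi d (π - d)) (hi (π - d) π), h1, h3]
  have h5 : 2 * d = π / 2 ^ (m + 1) := by rw [hd]; ring
  linarith

theorem abs_int_le {f g : ℝ → ℝ} (hf : Continuous f) (hg : Continuous g)
    (h : ∀ y, |f y| ≤ g y) : |∫ y in (-π)..π, f y| ≤ ∫ y in (-π)..π, g y := by
  have hpi := Real.pi_pos
  refine (abs_integral_le_integral_abs (by linarith)).trans ?_
  exact integral_mono_on (by linarith) (hf.abs.intervalIntegrable _ _)
    (hg.intervalIntegrable _ _) fun y _ => h y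

theorem Mu_le_Pi2 (K : ℕ → ℕ) (m j : ℕ) : |Mu K m (j + 2)| ≤ Pi2 K m := by
  have hc := (PP_contDiff K m).continuous
  refine abs_int_le (hc.pow _) (hc.pow _) fun y => ?_
  rw [abs_pow, ← sq_abs (PP K m y)]
  exact pow_le_pow_of_le_one (abs_nonneg _) (PP_abs_le K m y) (by omega)

theorem Pi2_le_Nu (K : ℕ → ℕ) (m : ℕ) : Pi2 K m ≤ Nu m := by
  have hpi := Real.pi_pos
  have hc := (PP_contDiff K m).continuous
  unfold Pi2 Nu
  refine integral_mono_on (by linarith) ((hc.pow 2).intervalIntegrable _ _)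
    (((hχ_contDiff m).continuous.pow 2).intervalIntegrable _ _) fun y _ => ?_
  rw [← hχ_PP, mul_pow]
  have h1 := PP_abs_le K m y
  have h2 : PP K m y ^ 2 ≤ 1 := by
    rw [← sq_abs]
    exact pow_le_one₀ (abs_nonneg _) h1
  nlinarith [sq_nonneg (hχ m y)]

/-- The coefficients of the chain. -/
noncomputable def sC (K : ℕ → ℕ) (m i : ℕ) : ℝ := if Even i then Mu K m (i + 2) / Pi2 K m else 0

noncomputable def vC (K : ℕ → ℕ) (m i : ℕ) : ℝ :=
  if Odd i then Mu K (m + 1) (i + 1) / (2 * Pi2 K m) else 0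

noncomputable def gC (K : ℕ → ℕ) (m : ℕ) : ℝ := Nu (m + 1) / (2 * Pi2 K m)

theorem gC_le (K : ℕ → ℕ) (m : ℕ) (hK : 16 * 2 ^ m ≤ K (m + 1)) : gC K m ≤ 26 := by
  unfold gC
  have h1 := Pi2_lower K m hK
  have h2 := Nu_upper m
  have h3 := Pi2_pos K m hK
  have h4 : (0 : ℝ) < 2 ^ m := by positivity
  rw [div_le_iff₀ (by positivity)]
  have h5 : Real.pi ≤ 3.15 := by linarith [Real.pi_lt_d2]
  calc Nu (m + 1) ≤ π / 2 ^ (m + 1) := h2
    _ ≤ 26 * (2 * (1 / (32 * 2 ^ m))) := by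
      rw [pow_succ]
      rw [div_le_iff₀ (by positivity)]
      have : 26 * (2 * (1 / (32 * (2 : ℝ) ^ m))) * (2 ^ m * 2) = 26 / 8 := by
        field_simp
        norm_num
      rw [this]
      linarith
    _ ≤ 26 * (2 * Pi2 K m) := by gcongr

theorem cf_good {P : Par} (hPG : P.G = 26) (K : ℕ → ℕ) (hK : ∀ m, 16 * 2 ^ m ≤ K (m + 1))
    (h1 : ∀ m, P.k m * P.ε m ≤ 1) (h2 : ∀ m, P.k (m + 1) * P.ε m ≤ 1) :
    Cf P (gC K) (sC K) (vC K) := by
  have hpos := fun m => Pi2_pos K m (hK m)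
  refine ⟨fun m => ?_, fun m => ?_, fun m => ?_, fun m i => ?_, fun m i => ?_, fun m i => ?_,
    fun m i => ?_, h1, h2⟩
  · unfold gC
    have := Nu_nonneg (m + 1)
    have := hpos m
    positivity
  · rw [hPG]; exact gC_le K m (hK m)
  · unfold sC
    rw [if_pos (by decide)]
    exact div_self (hpos m).ne'
  · unfold sC
    split_ifs
    · rw [abs_div, abs_of_pos (hpos m), div_le_one (hpos m)]
      exact Mu_le_Pi2 K m i
    · simp
  · unfold sC
    rw [if_neg (by rw [Nat.not_even_iff_odd]; exact ⟨i, rfl⟩)]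
  · unfold vC
    rw [hPG]
    split_ifs with h
    · obtain ⟨j, rfl⟩ := h
      have h3 : |Mu K (m + 1) (2 * j + 1 + 1)| ≤ Nu (m + 1) :=
        (Mu_le_Pi2 K (m + 1) (2 * j)).trans (Pi2_le_Nu K (m + 1))
      have h4 := hpos m
      rw [abs_div, abs_of_pos (by positivity : 0 < 2 * Pi2 K m)]
      refine le_trans ?_ (gC_le K m (hK m))
      unfold gC
      gcongr
    · simp
  · unfold vC
    rw [if_neg (by rw [Nat.not_odd_iff_even]; exact ⟨i, by ring⟩)]

end Pool.Agent.H306.CK
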