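import Pool.Agent.H306.CK.Bd

/-! The velocity field as a function of the state, and its smoothness. -/

namespace Pool.Agent.H306.CK

open Set MeasureTheory

open scoped Real ContDiff Nat

/-- Solutions of smooth autonomous equations are smooth. -/
theorem SolOn.contDiffOn {E : Type} [NormedAddCommGroup E] [NormedSpace ℝ E] {F : E → E} {a b : ℝ}
    {x : ℝ → E} (hF : ContDiff ℝ ∞ F) (h : SolOn F a b x) : ContDiffOn ℝ ∞ x (Ioo a b) := by
  rw [contDiffOn_infty]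
  intro n
  induction n with
  | zero => exact contDiffOn_zero.2 h.continuousOn
  | succ n ih =>
    have h1 : ((n + 1 : ℕ) : WithTop ℕ∞) = (n : WithTop ℕ∞) + 1 := by norm_cast
    rw [h1, contDiffOn_succ_iff_deriv_of_isOpen isOpen_Ioo]
    refine ⟨fun t ht => (h t ht).differentiableAt.differentiableWithinAt, by simp, ?_⟩
    have h2 : ContDiffOn ℝ n (fun t => F (x t)) (Ioo a b) :=
      (hF.of_le (by exact_mod_cast le_top)).comp_contDiffOn ih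
    exact h2.congr fun t ht => (h t ht).deriv

/-- Evaluation of states. -/
noncomputable def ev (j : ℕ × ℕ) : X →L[ℝ] ℝ := BoundedContinuousFunction.evalCLM ℝ j

@[simp] theorem ev_apply (j : ℕ × ℕ) (x : X) : ev j x = x j := rfl

theorem ev_norm (j : ℕ × ℕ) : ‖ev j‖ ≤ 1 := by
  refine ContinuousLinearMap.opNorm_le_bound _ zero_le_one fun x => ?_
  rw [one_mul, ev_apply]
  exact x.norm_coe_le_norm j

section sum

variable {Y : Type} [NormedAddCommGroup Y] [NormedSpace ℝ Y]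
  {ι : Type} {f : ι → V → ℝ} {e : ι → (Y →L[ℝ] ℝ)} {v : ℕ → ι → ℝ}

theorem lam_summable (he : ∀ i, ‖e i‖ ≤ 1) (hv : ∀ n, Summable (v n))
    (hb : ∀ n i x, ‖iteratedFDeriv ℝ n (f i) x‖ ≤ v n i) (x : V) :
    Summable fun i => f i x • e i := by
  refine Summable.of_norm_bounded (hv 0) fun i => ?_
  rw [norm_smul]
  have h := hb 0 i x
  rw [norm_iteratedFDeriv_zero] at h
  calc ‖f i x‖ * ‖e i‖ ≤ v 0 i * 1 :=
        mul_le_mul h (he i) (norm_nonneg _) ((norm_nonneg _).trans h)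
    _ = _ := mul_one _

theorem lam_apply (he : ∀ i, ‖e i‖ ≤ 1) (hv : ∀ n, Summable (v n))
    (hb : ∀ n i x, ‖iteratedFDeriv ℝ n (f i) x‖ ≤ v n i) (x : V) (ξ : Y) :
    (∑' i, f i x • e i) ξ = ∑' i, f i x * e i ξ := by
  have h1 := (lam_summable he hv hb x)
  have h2 := (ContinuousLinearMap.apply ℝ ℝ ξ).map_tsum h1
  simpa using h2

theorem lam_summable' (he : ∀ i, ‖e i‖ ≤ 1) (hv : ∀ n, Summable (v n))
    (hb : ∀ n i x, ‖iteratedFDeriv ℝ n (f i) x‖ ≤ v n i) (x : V) (ξ : Y) :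
    Summable fun i => f i x * e i ξ := by
  have h1 := (lam_summable he hv hb x)
  have h2 := h1.mapL (ContinuousLinearMap.apply ℝ ℝ ξ)
  simpa using h2

theorem lam_contDiff (he : ∀ i, ‖e i‖ ≤ 1) (hf : ∀ i, ContDiff ℝ ∞ (f i))
    (hv : ∀ n, Summable (v n)) (hb : ∀ n i x, ‖iteratedFDeriv ℝ n (f i) x‖ ≤ v n i) :
    ContDiff ℝ ∞ fun x => ∑' i, f i x • e i := by
  refine contDiff_tsum (N := ⊤) (v := v) (fun i => (hf i).smul contDiff_const)
    (fun n _ => hv n) (fun n i x _ => ?_)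
  have h1 : (fun x => f i x • e i) = (ContinuousLinearMap.toSpanSingleton ℝ (e i)) ∘ f i := by
    ext x ξ
    simp
  rw [h1]
  refine ((ContinuousLinearMap.toSpanSingleton ℝ (e i)).norm_iteratedFDeriv_comp_left
    (hf i).contDiffAt (n := n) (by exact_mod_cast le_top)).trans ?_
  rw [ContinuousLinearMap.norm_toSpanSingleton]
  have h2 := hb n i x
  calc ‖e i‖ * ‖iteratedFDeriv ℝ n (f i) x‖ ≤ 1 * v n i :=
        mul_le_mul (he i) h2 (norm_nonneg _) zero_le_one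
    _ = _ := one_mul _

end sum

/-- `sin` or `cos`. -/
noncomputable def tr (i : ℕ) (s : ℝ) : ℝ := if Even i then Real.sin s else Real.cos s

theorem tr_abs (i : ℕ) (s : ℝ) : |tr i s| ≤ 1 := by
  unfold tr
  split_ifs
  · exact Real.abs_sin_le_one s
  · exact Real.abs_cos_le_one s

theorem tr_deriv (i : ℕ) (s : ℝ) : HasDerivAt (tr i) ((-1) ^ i * tr (i + 1) s) s := by
  unfold tr
  by_cases h : Even i
  · have h1 : ¬ Even (i + 1) := by rw [Nat.even_add_one]; simpa using h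
    simp only [h, h1, if_true, if_false, h.neg_one_pow, one_mul]
    exact Real.hasDerivAt_sin s
  · have h1 : Even (i + 1) := by rw [Nat.even_add_one]; exact h
    have h2 : Odd i := Nat.not_even_iff_odd.1 h
    simp only [h, h1, if_true, if_false, h2.neg_one_pow, neg_one_mul]
    exact Real.hasDerivAt_cos s

theorem Bd_tr (N i : ℕ) {k : ℝ} (hk : 0 ≤ k) (j : Fin 3) :
    Bd N k (fun x : V => tr i (k * x j)) := by
  unfold tr
  by_cases h : Even i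
  · simp only [h, if_true]
    exact Bd_sin N hk j
  · simp only [h, if_false]
    exact Bd_cos N hk j

section fields

variable (P : Par) (K : ℕ → ℕ)

noncomputable def f0 (m : ℕ) (x : V) : ℝ := P.ε m * PP K m (x 1)

noncomputable def fa (m : ℕ) (x : V) : ℝ :=
  P.ε m * (hχ (m + 1) (x 1) * Real.cos (K (m + 1) * x 0))

noncomputable def fb (j : ℕ × ℕ) (x : V) : ℝ :=
  P.ε j.1 * (1 / 4) ^ j.2 * (PP K j.1 (x 1) ^ (j.2 + 1) * tr j.2 (K j.1 * x 0))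

noncomputable def G0 (x : V) : ℝ := P.θ 0 * (hχ 0 (x 1) * Real.cos (K 0 * x 0))

noncomputable def L0 (x : V) : X →L[ℝ] ℝ := ∑' m, f0 P K m x • ev (m, 0)

noncomputable def La (x : V) : X →L[ℝ] ℝ := ∑' m, fa P K m x • ev (m, 0)

noncomputable def Lb (x : V) : X →L[ℝ] ℝ := ∑' j : ℕ × ℕ, fb P K j x • ev (j.1, j.2 + 1)

/-- The velocity as a function of the state. -/
noncomputable def uu (ξ : X) (x : V) : V := ![L0 P K x ξ, 0, G0 P K x + La P K x ξ + Lb P K x ξ]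

end fields

/-- Properties of the frequencies used for smoothness. -/
structure Fr (P : Par) (K : ℕ → ℕ) : Prop where
  k_eq : ∀ m, P.k m = K m
  K_ge : ∀ m, 16 * 2 ^ m ≤ K (m + 1)
  K_le : ∀ m, K m ≤ K (m + 1)
  K_pos : ∀ m, 0 < K m
  ε_pos : ∀ m, 0 < P.ε m
  sum : ∀ n, Summable fun m => P.ε m * (K (m + 1) : ℝ) ^ n

section

variable {P : Par} {K : ℕ → ℕ} (hF : Fr P K)

include hF

theorem two_pow_le (m : ℕ) : (2 : ℝ) ^ m ≤ K (m + 1) := by
  have h := hF.K_ge m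
  have h1 : 2 ^ m ≤ K (m + 1) := by omega
  exact_mod_cast h1

theorem two_pow_le' (m : ℕ) : (2 : ℝ) ^ (m + 1) ≤ K (m + 1) := by
  have h := hF.K_ge m
  have h1 : 2 ^ (m + 1) ≤ K (m + 1) := by rw [pow_succ]; omega
  exact_mod_cast h1

omit hF in
theorem prj_norm (j : Fin 3) : ‖(ContinuousLinearMap.proj j : V →L[ℝ] ℝ)‖ ≤ 1 := by
  refine ContinuousLinearMap.opNorm_le_bound _ zero_le_one fun x => ?_
  rw [one_mul]
  exact norm_le_pi_norm x j

theorem PBd (N : ℕ) : ∃ C : ℝ, 1 ≤ C ∧ ∀ m, Bd N (C * K (m + 1)) (fun x : V => PP K m (x 1)) := by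
  obtain ⟨C, hC, h⟩ := Bd_bump (E := V) ψb N
  refine ⟨C + 1, by linarith, fun m => ?_⟩
  have h1 := (h m (ContinuousLinearMap.proj 1) (prj_norm 1)).mul
    (Bd_cos N (Nat.cast_nonneg (K (m + 1))) 1)
  refine Bd.mono h1 (by positivity) ?_
  have h2 := two_pow_le hF m
  nlinarith

theorem XBd (N : ℕ) : ∃ C : ℝ, 1 ≤ C ∧ ∀ m, Bd N (C * K (m + 1))
    (fun x : V => hχ (m + 1) (x 1) * Real.cos (K (m + 1) * x 0)) := by
  obtain ⟨C, hC, h⟩ := Bd_bump (E := V) χb N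
  refine ⟨C + 1, by linarith, fun m => ?_⟩
  have h1 := (h (m + 1) (ContinuousLinearMap.proj 1) (prj_norm 1)).mul
    (Bd_cos N (Nat.cast_nonneg (K (m + 1))) 0)
  refine Bd.mono h1 (by positivity) ?_
  have h2 := two_pow_le' hF m
  nlinarith

theorem f0_contDiff (m : ℕ) : ContDiff ℝ ∞ (f0 P K m) := by
  obtain ⟨C, -, h⟩ := PBd hF 0
  exact contDiff_const.mul (h m).1

theorem fa_contDiff (m : ℕ) : ContDiff ℝ ∞ (fa P K m) := by
  obtain ⟨C, -, h⟩ := XBd hF 0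
  exact contDiff_const.mul (h m).1

theorem fb_contDiff (j : ℕ × ℕ) : ContDiff ℝ ∞ (fb P K j) := by
  obtain ⟨C, -, h⟩ := PBd hF 0
  exact contDiff_const.mul (((h j.1).pow (j.2 + 1)).mul
    (Bd_tr 0 j.2 (Nat.cast_nonneg (K j.1)) 0)).1

omit hF in
theorem G0_contDiff : ContDiff ℝ ∞ (G0 P K) := by
  unfold G0
  have h1 : ContDiff ℝ ∞ (fun x : V => hχ 0 (x 1)) :=
    (hχ_contDiff 0).comp (ContinuousLinearMap.proj 1 : V →L[ℝ] ℝ).contDiff
  exact contDiff_const.mul (h1.mul (Bd_cos 0 (Nat.cast_nonneg (K 0)) 0).1)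

omit hF in
theorem smul_bound {g : V → ℝ} (hg : ContDiff ℝ ∞ g) (c : ℝ) (n : ℕ) (x : V) :
    ‖iteratedFDeriv ℝ n (fun x => c * g x) x‖ = |c| * ‖iteratedFDeriv ℝ n g x‖ := by
  have h1 : (fun x => c * g x) = c • g := rfl
  rw [h1, iteratedFDeriv_const_smul_apply (hg.of_le (by exact_mod_cast le_top)).contDiffAt,
    norm_smul, Real.norm_eq_abs]

theorem f0_bound (n : ℕ) : ∃ C : ℝ, 0 ≤ C ∧ ∀ m x, ‖iteratedFDeriv ℝ n (f0 P K m) x‖ ≤
    C * (P.ε m * (K (m + 1) : ℝ) ^ n) := by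
  obtain ⟨C, hC, h⟩ := PBd hF n
  refine ⟨C ^ n, by positivity, fun m x => ?_⟩
  have h1 := smul_bound (h m).1 (P.ε m) n x
  have h2 := (h m).2 n le_rfl x
  have h3 := hF.ε_pos m
  rw [abs_of_pos h3] at h1
  change ‖iteratedFDeriv ℝ n (fun x => P.ε m * PP K m (x 1)) x‖ ≤ _
  rw [h1]
  calc P.ε m * ‖iteratedFDeriv ℝ n (fun x : V => PP K m (x 1)) x‖ ≤
        P.ε m * (C * K (m + 1)) ^ n := by gcongr
    _ = _ := by rw [mul_pow]; ring

theorem fa_bound (n : ℕ) : ∃ C : ℝ, 0 ≤ C ∧ ∀ m x, ‖iteratedFDeriv ℝ n (fa P K m) x‖ ≤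
    C * (P.ε m * (K (m + 1) : ℝ) ^ n) := by
  obtain ⟨C, hC, h⟩ := XBd hF n
  refine ⟨C ^ n, by positivity, fun m x => ?_⟩
  have h1 := smul_bound (h m).1 (P.ε m) n x
  have h2 := (h m).2 n le_rfl x
  have h3 := hF.ε_pos m
  rw [abs_of_pos h3] at h1
  change ‖iteratedFDeriv ℝ n (fun x => P.ε m * (hχ (m + 1) (x 1) *
    Real.cos (K (m + 1) * x 0))) x‖ ≤ _
  rw [h1]
  calc P.ε m * ‖iteratedFDeriv ℝ n (fun x : V => hχ (m + 1) (x 1) *
        Real.cos (K (m + 1) * x 0)) x‖ ≤ P.ε m * (C * K (m + 1)) ^ n := by gcongr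
    _ = _ := by rw [mul_pow]; ring

theorem fb_bound (n : ℕ) : ∃ C : ℝ, 0 ≤ C ∧ ∀ (j : ℕ × ℕ) x, ‖iteratedFDeriv ℝ n (fb P K j) x‖ ≤
    C * ((P.ε j.1 * (K (j.1 + 1) : ℝ) ^ n) * (((j.2 + 2 : ℕ) : ℝ) ^ n * (1 / 4) ^ j.2)) := by
  obtain ⟨C, hC, h⟩ := PBd hF n
  refine ⟨C ^ n, by positivity, fun j x => ?_⟩
  have h0 : Bd n (((j.2 + 2 : ℕ) : ℝ) * (C * K (j.1 + 1)))
      (fun x : V => PP K j.1 (x 1) ^ (j.2 + 1) * tr j.2 (K j.1 * x 0)) := by
    refine (((h j.1).pow (j.2 + 1)).mul (Bd_tr n j.2 (Nat.cast_nonneg (K j.1)) 0)).mono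
      (by positivity) ?_
    have h1 : (K j.1 : ℝ) ≤ C * K (j.1 + 1) := by
      have : (K j.1 : ℝ) ≤ K (j.1 + 1) := by exact_mod_cast hF.K_le j.1
      have h2 : (0 : ℝ) ≤ K (j.1 + 1) := Nat.cast_nonneg _
      nlinarith
    push_cast
    nlinarith
  have h3 := hF.ε_pos j.1
  have h1 := smul_bound h0.1 (P.ε j.1 * (1 / 4) ^ j.2) n x
  have h2 := h0.2 n le_rfl x
  rw [abs_of_pos (by positivity)] at h1
  change ‖iteratedFDeriv ℝ n (fun x => P.ε j.1 * (1 / 4) ^ j.2 *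
    (PP K j.1 (x 1) ^ (j.2 + 1) * tr j.2 (K j.1 * x 0))) x‖ ≤ _
  rw [h1]
  calc P.ε j.1 * (1 / 4) ^ j.2 * ‖iteratedFDeriv ℝ n
        (fun x : V => PP K j.1 (x 1) ^ (j.2 + 1) * tr j.2 (K j.1 * x 0)) x‖ ≤
        P.ε j.1 * (1 / 4) ^ j.2 * (((j.2 + 2 : ℕ) : ℝ) * (C * K (j.1 + 1))) ^ n := by gcongr
    _ = _ := by rw [mul_pow, mul_pow]; ring

omit hF in
theorem geo_summable (n : ℕ) : Summable fun i : ℕ => ((i + 2 : ℕ) : ℝ) ^ n * (1 / 4 : ℝ) ^ i := by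
  have h1 : Summable fun i : ℕ => ((i : ℕ) : ℝ) ^ n * (1 / 4 : ℝ) ^ i :=
    summable_pow_mul_geometric_of_norm_lt_one n (by norm_num)
  have h2 := ((summable_nat_add_iff 2).2 h1).mul_left 16
  refine h2.congr fun i => ?_
  rw [pow_add]
  ring

theorem f0_v : ∃ v : ℕ → ℕ → ℝ, (∀ n, Summable (v n)) ∧
    ∀ n m x, ‖iteratedFDeriv ℝ n (f0 P K m) x‖ ≤ v n m := by
  choose C hC h using f0_bound hF
  exact ⟨fun n m => C n * (P.ε m * (K (m + 1) : ℝ) ^ n), fun n => (hF.sum n).mul_left _, h⟩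

theorem fa_v : ∃ v : ℕ → ℕ → ℝ, (∀ n, Summable (v n)) ∧
    ∀ n m x, ‖iteratedFDeriv ℝ n (fa P K m) x‖ ≤ v n m := by
  choose C hC h using fa_bound hF
  exact ⟨fun n m => C n * (P.ε m * (K (m + 1) : ℝ) ^ n), fun n => (hF.sum n).mul_left _, h⟩

theorem fb_v : ∃ v : ℕ → ℕ × ℕ → ℝ, (∀ n, Summable (v n)) ∧
    ∀ n j x, ‖iteratedFDeriv ℝ n (fb P K j) x‖ ≤ v n j := by
  choose C hC h using fb_bound hF
  refine ⟨fun n j => C n * ((P.ε j.1 * (K (j.1 + 1) : ℝ) ^ n) *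
    (((j.2 + 2 : ℕ) : ℝ) ^ n * (1 / 4) ^ j.2)), fun n => ?_, h⟩
  refine Summable.mul_left _ ?_
  have h1 := (hF.sum n).mul_of_nonneg (geo_summable n)
    (fun m => by
      have := hF.ε_pos m
      positivity) (fun i => by positivity)
  exact h1

theorem L0_contDiff : ContDiff ℝ ∞ (L0 P K) := by
  obtain ⟨v, hv, hb⟩ := f0_v hF
  exact lam_contDiff (fun m => ev_norm (m, 0)) (f0_contDiff hF) hv hb

theorem La_contDiff : ContDiff ℝ ∞ (La P K) := by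
  obtain ⟨v, hv, hb⟩ := fa_v hF
  exact lam_contDiff (fun m => ev_norm (m, 0)) (fa_contDiff hF) hv hb

theorem Lb_contDiff : ContDiff ℝ ∞ (Lb P K) := by
  obtain ⟨v, hv, hb⟩ := fb_v hF
  exact lam_contDiff (fun j => ev_norm (j.1, j.2 + 1)) (fb_contDiff hF) hv hb

theorem L0_apply (x : V) (ξ : X) : L0 P K x ξ = ∑' m, f0 P K m x * ξ (m, 0) := by
  obtain ⟨v, hv, hb⟩ := f0_v hF
  have h := lam_apply (e := fun m : ℕ => ev (m, 0)) (fun m => ev_norm (m, 0)) hv hb x ξ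
  simp only [ev_apply] at h
  exact h

theorem La_apply (x : V) (ξ : X) : La P K x ξ = ∑' m, fa P K m x * ξ (m, 0) := by
  obtain ⟨v, hv, hb⟩ := fa_v hF
  have h := lam_apply (e := fun m : ℕ => ev (m, 0)) (fun m => ev_norm (m, 0)) hv hb x ξ
  simp only [ev_apply] at h
  exact h

theorem Lb_apply (x : V) (ξ : X) :
    Lb P K x ξ = ∑' j : ℕ × ℕ, fb P K j x * ξ (j.1, j.2 + 1) := by
  obtain ⟨v, hv, hb⟩ := fb_v hF
  have h := lam_apply (e := fun j : ℕ × ℕ => ev (j.1, j.2 + 1))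
    (fun j => ev_norm (j.1, j.2 + 1)) hv hb x ξ
  simp only [ev_apply] at h
  exact h

omit hF in
theorem clm_contDiffOn {a b : ℝ} {x : ℝ → X} (hx : ContDiffOn ℝ ∞ x (Ioo a b))
    {L : V → (X →L[ℝ] ℝ)} (hL : ContDiff ℝ ∞ L) :
    ContDiffOn ℝ ∞ (fun z : ℝ × V => L z.2 (x z.1)) (Ioo a b ×ˢ univ) := by
  have h1 : ContDiffOn ℝ ∞ (fun z : ℝ × V => x z.1) (Ioo a b ×ˢ univ) :=
    hx.comp contDiff_fst.contDiffOn fun z hz => hz.1
  have h2 : ContDiffOn ℝ ∞ (fun z : ℝ × V => L z.2) (Ioo a b ×ˢ univ) :=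
    (hL.comp contDiff_snd).contDiffOn
  exact h2.clm_apply h1

/-- The velocity is smooth in time and space. -/
theorem uu_contDiffOn {a b : ℝ} {x : ℝ → X} (hx : ContDiffOn ℝ ∞ x (Ioo a b)) :
    ContDiffOn ℝ ∞ (fun z : ℝ × V => uu P K (x z.1) z.2) (Ioo a b ×ˢ univ) := by
  have h0 := clm_contDiffOn hx (L0_contDiff hF)
  have ha := clm_contDiffOn hx (La_contDiff hF)
  have hb := clm_contDiffOn hx (Lb_contDiff hF)
  have hg : ContDiffOn ℝ ∞ (fun z : ℝ × V => G0 P K z.2) (Ioo a b ×ˢ univ) :=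
    (G0_contDiff.comp contDiff_snd).contDiffOn
  have h3 := (hg.add ha).add hb
  rw [contDiffOn_pi]
  intro i
  fin_cases i
  · change ContDiffOn ℝ ∞ (fun z : ℝ × V => L0 P K z.2 (x z.1)) _
    exact h0
  · change ContDiffOn ℝ ∞ (fun z : ℝ × V => (0 : ℝ)) _
    exact contDiffOn_const
  · change ContDiffOn ℝ ∞ (fun z : ℝ × V => G0 P K z.2 + La P K z.2 (x z.1) +
      Lb P K z.2 (x z.1)) _
    exact h3

theorem uu_contDiff (ξ : X) : ContDiff ℝ ∞ (uu P K ξ) := by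
  have h0 : ContDiff ℝ ∞ (fun z => L0 P K z ξ) := (L0_contDiff hF).clm_apply contDiff_const
  have ha : ContDiff ℝ ∞ (fun z => La P K z ξ) := (La_contDiff hF).clm_apply contDiff_const
  have hb : ContDiff ℝ ∞ (fun z => Lb P K z ξ) := (Lb_contDiff hF).clm_apply contDiff_const
  have h3 := ((G0_contDiff (P := P) (K := K)).add ha).add hb
  rw [contDiff_pi]
  intro i
  fin_cases i
  · change ContDiff ℝ ∞ (fun z => L0 P K z ξ)
    exact h0
  · change ContDiff ℝ ∞ (fun z : V => (0 : ℝ))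
    exact contDiff_const
  · change ContDiff ℝ ∞ (fun z => G0 P K z + La P K z ξ + Lb P K z ξ)
    exact h3

end

end Pool.Agent.H306.CK
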