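import Pool.Agent.H306.CK.Ode
import Pool.Agent.H306.CK.Boot

/-! The state space of the chain and its solution as an equation in a Banach space. -/

namespace Pool.Agent.H306.CK

open Set Metric
open scoped NNReal BoundedContinuousFunction

theorem locLip_quad {A : Type*} [NormedRing A] [NormedAlgebra ℝ A] (L M₁ M₂ : A →L[ℝ] A) :
    LocLip (fun x => L x + M₁ x * M₂ x) := by
  intro R
  refine ⟨‖L‖₊ + 2 * R * ‖M₁‖₊ * ‖M₂‖₊, ‖L‖₊ * R + ‖M₁‖₊ * R * (‖M₂‖₊ * R), ?_, ?_⟩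
  · rw [lipschitzOnWith_iff_norm_sub_le]
    intro x hx y hy
    rw [mem_closedBall, dist_zero_right] at hx hy
    have h1 : L x + M₁ x * M₂ x - (L y + M₁ y * M₂ y) =
        L (x - y) + (M₁ (x - y) * M₂ x + M₁ y * M₂ (x - y)) := by
      simp only [map_sub]
      noncomm_ring
    rw [h1]
    have h2 : ‖M₁ (x - y) * M₂ x‖ ≤ ‖M₁‖ * ‖x - y‖ * (‖M₂‖ * R) := by
      refine (norm_mul_le _ _).trans ?_
      have h3 := M₁.le_opNorm (x - y)
      have h4 := M₂.le_opNorm x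
      have h5 : ‖M₂‖ * ‖x‖ ≤ ‖M₂‖ * R := by gcongr
      gcongr
      exact h4.trans h5
    have h3 : ‖M₁ y * M₂ (x - y)‖ ≤ ‖M₁‖ * R * (‖M₂‖ * ‖x - y‖) := by
      refine (norm_mul_le _ _).trans ?_
      have h3 := M₂.le_opNorm (x - y)
      have h4 := M₁.le_opNorm y
      have h5 : ‖M₁‖ * ‖y‖ ≤ ‖M₁‖ * R := by gcongr
      gcongr
      exact h4.trans h5
    have h4 := L.le_opNorm (x - y)
    refine (norm_add_le _ _).trans ?_
    have h5 := norm_add_le (M₁ (x - y) * M₂ x) (M₁ y * M₂ (x - y))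
    push_cast
    nlinarith
  · intro x hx
    rw [mem_closedBall, dist_zero_right] at hx
    refine (norm_add_le _ _).trans ?_
    push_cast
    have h1 : ‖L x‖ ≤ ‖L‖ * R := (L.le_opNorm x).trans (by gcongr)
    have h2 : ‖M₁ x‖ ≤ ‖M₁‖ * R := (M₁.le_opNorm x).trans (by gcongr)
    have h3 : ‖M₂ x‖ ≤ ‖M₂‖ * R := (M₂.le_opNorm x).trans (by gcongr)
    have h4 : ‖M₁ x * M₂ x‖ ≤ ‖M₁‖ * R * (‖M₂‖ * R) := (norm_mul_le _ _).trans (by gcongr)
    exact add_le_add h1 h4

/-- The state space. -/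
abbrev X : Type := (ℕ × ℕ) →ᵇ ℝ

/-- Bounded functions as elements of the state space. -/
noncomputable def mkX (f : ℕ × ℕ → ℝ) (C : ℝ) (h : ∀ j, |f j| ≤ C) : X :=
  BoundedContinuousFunction.ofNormedAddCommGroupDiscrete f C h

@[simp] theorem mkX_apply (f : ℕ × ℕ → ℝ) (C : ℝ) (h : ∀ j, |f j| ≤ C) (j : ℕ × ℕ) :
    mkX f C h j = f j := rfl

theorem X_abs_le (x : X) (j : ℕ × ℕ) : |x j| ≤ ‖x‖ := x.norm_coe_le_norm j

section op

variable {w : ℕ × ℕ → ℕ → ℝ} (π : ℕ × ℕ → ℕ → ℕ × ℕ) {C : ℝ}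

theorem op_summable (hw : ∀ j i, |w j i| ≤ C * (1 / 2) ^ i) (x : X) (j : ℕ × ℕ) :
    Summable fun i => w j i * x (π j i) := by
  refine Summable.of_norm_bounded (g := fun i => C * ‖x‖ * (1 / 2) ^ i)
    (summable_geometric_two.mul_left _) (fun i => ?_)
  rw [norm_mul, Real.norm_eq_abs, Real.norm_eq_abs]
  have h1 := hw j i
  have h2 := X_abs_le x (π j i)
  calc |w j i| * |x (π j i)| ≤ (C * (1 / 2) ^ i) * ‖x‖ :=
        mul_le_mul h1 h2 (abs_nonneg _) ((abs_nonneg _).trans h1)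
    _ = _ := by ring

theorem op_bound (hw : ∀ j i, |w j i| ≤ C * (1 / 2) ^ i) (x : X) (j : ℕ × ℕ) :
    |∑' i, w j i * x (π j i)| ≤ 2 * C * ‖x‖ := by
  have h : HasSum (fun i : ℕ => C * ‖x‖ * (1 / 2 : ℝ) ^ i) (C * ‖x‖ * 2) :=
    hasSum_geometric_two.mul_left _
  rw [← Real.norm_eq_abs]
  refine (tsum_of_norm_bounded h (fun i => ?_)).trans (le_of_eq (by ring))
  rw [norm_mul, Real.norm_eq_abs, Real.norm_eq_abs]
  have h1 := hw j i
  have h2 := X_abs_le x (π j i)
  calc |w j i| * |x (π j i)| ≤ (C * (1 / 2) ^ i) * ‖x‖ :=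
        mul_le_mul h1 h2 (abs_nonneg _) ((abs_nonneg _).trans h1)
    _ = _ := by ring

/-- The operator `(L x) j = ∑ i, w j i * x (π j i)`. -/
noncomputable def opL (hw : ∀ j i, |w j i| ≤ C * (1 / 2) ^ i) : X →L[ℝ] X :=
  LinearMap.mkContinuous
    { toFun := fun x => mkX (fun j => ∑' i, w j i * x (π j i)) (2 * C * ‖x‖) (op_bound π hw x)
      map_add' := fun x y => by
        ext j
        simp only [mkX_apply, BoundedContinuousFunction.coe_add, Pi.add_apply]
        rw [← (op_summable π hw x j).tsum_add (op_summable π hw y j)]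
        exact tsum_congr fun i => by ring
      map_smul' := fun r x => by
        ext j
        simp only [mkX_apply, BoundedContinuousFunction.coe_smul, smul_eq_mul, RingHom.id_apply]
        rw [← tsum_mul_left]
        exact tsum_congr fun i => by ring }
    (2 * C) (fun x => by
      have hC : 0 ≤ C := by
        have := hw (0, 0) 0
        simpa using (abs_nonneg _).trans this
      exact (BoundedContinuousFunction.norm_le (by positivity)).2 (op_bound π hw x))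

@[simp] theorem opL_apply (hw : ∀ j i, |w j i| ≤ C * (1 / 2) ^ i) (x : X) (j : ℕ × ℕ) :
    opL π hw x j = ∑' i, w j i * x (π j i) := rfl

end op

/-- Coefficients of the chain: overlaps of the profiles. -/
structure Cf (P : Par) (g : ℕ → ℝ) (s v : ℕ → ℕ → ℝ) : Prop where
  g_nonneg : ∀ m, 0 ≤ g m
  g_le : ∀ m, g m ≤ P.G
  s0 : ∀ m, s m 0 = 1
  s_abs : ∀ m i, |s m i| ≤ 1
  s_odd : ∀ m i, s m (2 * i + 1) = 0
  v_abs : ∀ m i, |v m i| ≤ P.G
  v_even : ∀ m i, v m (2 * i) = 0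
  kε : ∀ m, P.k m * P.ε m ≤ 1
  kε' : ∀ m, P.k (m + 1) * P.ε m ≤ 1

section

variable {P : Par} (hG : P.Good) {g : ℕ → ℝ} {s v : ℕ → ℕ → ℝ} (hc : Cf P g s v)

/-- weights of `Q` -/
noncomputable def wQ (s : ℕ → ℕ → ℝ) (j : ℕ × ℕ) (i : ℕ) : ℝ := s j.1 i * (1 / 4) ^ i

def πQ (j : ℕ × ℕ) (i : ℕ) : ℕ × ℕ := (j.1, i + 1)

noncomputable def wV (P : Par) (g : ℕ → ℝ) (v : ℕ → ℕ → ℝ) (j : ℕ × ℕ) : ℕ → ℝ
  | 0 => 1 + g j.1
  | i + 1 => v j.1 i * (1 / 4) ^ i * (P.ε (j.1 + 1) / P.ε j.1)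

def πV (j : ℕ × ℕ) : ℕ → ℕ × ℕ
  | 0 => (j.1, 0)
  | i + 1 => (j.1 + 1, i + 1)

/-- weights of the amplitude -/
noncomputable def wb (j : ℕ × ℕ) (i : ℕ) : ℝ := if i = 0 ∧ j.2 ≠ 0 then 1 else 0

def πb (j : ℕ × ℕ) (_ : ℕ) : ℕ × ℕ := (j.1, 0)

/-- weights of the second factor -/
noncomputable def wc (P : Par) (j : ℕ × ℕ) (i : ℕ) : ℝ :=
  if i = 0 then
    match j with
    | (_, 0) => 0
    | (0, 1) => 0
    | (m + 1, 1) => P.k (m + 1) * P.ε m
    | (m, l + 2) => (-1) ^ (l + 1) * 4 * (P.k m * P.ε m)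
  else 0

def πc (j : ℕ × ℕ) (_ : ℕ) : ℕ × ℕ :=
  match j with
  | (_, 0) => (0, 0)
  | (0, 1) => (0, 0)
  | (m + 1, 1) => (m, 0)
  | (m, l + 2) => (m, l + 1)

include hc

theorem hwQ (j : ℕ × ℕ) (i : ℕ) : |wQ s j i| ≤ 1 * (1 / 2) ^ i := by
  unfold wQ
  rw [abs_mul, abs_of_pos (by positivity : (0 : ℝ) < (1 / 4) ^ i)]
  have h1 := hc.s_abs j.1 i
  have h2 : (1 / 4 : ℝ) ^ i ≤ (1 / 2) ^ i := pow_le_pow_left₀ (by norm_num) (by norm_num) i
  exact mul_le_mul h1 h2 (by positivity) (by norm_num)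

include hG

theorem hwV (j : ℕ × ℕ) (i : ℕ) : |wV P g v j i| ≤ (1 + P.G) * (1 / 2) ^ i := by
  have hGn := hG.G_nonneg
  cases i with
  | zero =>
    simp only [wV, pow_zero, mul_one]
    have h1 := hc.g_nonneg j.1
    have h2 := hc.g_le j.1
    rw [abs_of_nonneg (by linarith)]
    linarith
  | succ i =>
    simp only [wV]
    have h1 := hG.ε_pos j.1
    have h2 := hG.ε_pos (j.1 + 1)
    have h3 := hG.ε_dec j.1
    have h4 : P.ε (j.1 + 1) / P.ε j.1 ≤ 1 / 2 := by
      rw [div_le_iff₀ h1]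
      linarith
    rw [abs_mul, abs_mul, abs_of_pos (by positivity : (0 : ℝ) < (1 / 4) ^ i),
      abs_of_pos (by positivity : (0 : ℝ) < P.ε (j.1 + 1) / P.ε j.1)]
    have h5 : (1 / 4 : ℝ) ^ i ≤ (1 / 2) ^ i := pow_le_pow_left₀ (by norm_num) (by norm_num) i
    calc |v j.1 i| * (1 / 4) ^ i * (P.ε (j.1 + 1) / P.ε j.1) ≤ P.G * (1 / 2) ^ i * (1 / 2) := by
          have := hc.v_abs j.1 i
          gcongr
      _ = P.G * (1 / 2) ^ (i + 1) := by ring
      _ ≤ _ := by
          gcongr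
          linarith

omit hc hG in
theorem hwb (j : ℕ × ℕ) (i : ℕ) : |wb j i| ≤ 1 * (1 / 2) ^ i := by
  unfold wb
  split_ifs with h
  · rw [h.1]; norm_num
  · rw [abs_zero]; positivity

theorem hwc (j : ℕ × ℕ) (i : ℕ) : |wc P j i| ≤ 4 * (1 / 2) ^ i := by
  unfold wc
  split_ifs with h
  · subst h
    rw [pow_zero, mul_one]
    rcases j with ⟨m, l⟩
    rcases l with _ | _ | l
    · simp
    · rcases m with _ | m
      · simp
      · have h1 := hc.kε' m
        have h2 := hG.k_one (m + 1)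
        have h3 := hG.ε_pos m
        simp only
        rw [abs_of_nonneg (by positivity)]
        linarith
    · have h1 := hc.kε m
      have h2 := hG.k_one m
      have h3 := hG.ε_pos m
      simp only
      rw [abs_mul, abs_mul, abs_pow, abs_neg, abs_one, one_pow, one_mul,
        abs_of_pos (by positivity : 0 < P.k m * P.ε m), abs_of_pos (by norm_num : (0 : ℝ) < 4)]
      linarith
  · rw [abs_zero]; positivity

omit hc hG in
/-- The operators of the chain. -/
noncomputable def Qop (hc : Cf P g s v) : X →L[ℝ] X := opL πQ (hwQ hc)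

omit hc hG in
noncomputable def Vop (hG : P.Good) (hc : Cf P g s v) : X →L[ℝ] X := opL πV (hwV hG hc)

omit hc hG in
noncomputable def Bop : X →L[ℝ] X := opL πb hwb

omit hc hG in
noncomputable def Cop (hG : P.Good) (hc : Cf P g s v) : X →L[ℝ] X := opL πc (hwc hG hc)

omit hc hG in
/-- coefficient functions -/
noncomputable def fA₁ (P : Par) (j : ℕ × ℕ) : ℝ :=
  if j.2 = 0 then P.c j.1 / 2 else if j.2 = 1 then P.r₃ * (P.c j.1 / 2) else 0

omit hc hG in
noncomputable def fA₂ (P : Par) (j : ℕ × ℕ) : ℝ :=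
  if j.2 = 0 then P.r₂ * P.c j.1 else if j.2 = 1 then P.r₁ * P.c j.1 else 0

omit hc hG in
noncomputable def fA₃ (P : Par) (j : ℕ × ℕ) : ℝ :=
  if j = (0, 1) then P.k 0 * P.θ 0 else 0

omit hc in
theorem hA₁ (j : ℕ × ℕ) : |fA₁ P j| ≤ 1 := by
  unfold fA₁
  have h1 := hG.c_pos j.1
  have h2 := hG.c_le j.1
  have h3 := hG.r₃_abs
  split_ifs
  · rw [abs_of_pos (by linarith)]; linarith
  · rw [abs_mul, abs_of_pos (by linarith : 0 < P.c j.1 / 2)]
    nlinarith [abs_nonneg P.r₃]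
  · simp

omit hc in
theorem hA₂ (j : ℕ × ℕ) : |fA₂ P j| ≤ 1 := by
  unfold fA₂
  have h1 := hG.c_pos j.1
  have h2 := hG.c_le j.1
  have h3 := hG.r₁_abs
  have h4 := hG.r₂_abs
  split_ifs
  · rw [abs_mul, abs_of_pos h1]
    nlinarith [abs_nonneg P.r₂]
  · rw [abs_mul, abs_of_pos h1]
    nlinarith [abs_nonneg P.r₁]
  · simp

omit hc in
theorem hA₃ (j : ℕ × ℕ) : |fA₃ P j| ≤ P.k 0 * P.θ 0 := by
  unfold fA₃
  have h1 := hG.k_one 0
  have h2 := hG.θ_pos 0
  split_ifs
  · rw [abs_of_pos (by positivity)]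
  · rw [abs_zero]; positivity

omit hc hG in
/-- The linear part of the vector field. -/
noncomputable def Lop (hG : P.Good) (hc : Cf P g s v) : X →L[ℝ] X :=
  (ContinuousLinearMap.mul ℝ X (mkX (fA₁ P) 1 (hA₁ hG))).comp (Qop hc) +
  (ContinuousLinearMap.mul ℝ X (mkX (fA₂ P) 1 (hA₂ hG))).comp (Vop hG hc) +
  (ContinuousLinearMap.mul ℝ X (mkX (fA₃ P) _ (hA₃ hG))).comp Bop

omit hc hG in
/-- The vector field. -/
noncomputable def vf (hG : P.Good) (hc : Cf P g s v) (x : X) : X :=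
  Lop hG hc x + Bop x * Cop hG hc x

theorem vf_locLip : LocLip (vf hG hc) := locLip_quad _ _ _

theorem vf_contDiff : ContDiff ℝ ⊤ (vf hG hc) := by
  unfold vf
  exact (Lop hG hc).contDiff.add ((Bop : X →L[ℝ] X).contDiff.mul (Cop hG hc).contDiff)

omit hc hG in
theorem Bop_zero (x : X) (m : ℕ) : Bop x (m, 0) = 0 := by
  simp [Bop, wb]

omit hc hG in
theorem Bop_succ (x : X) (m l : ℕ) : Bop x (m, l + 1) = x (m, 0) := by
  unfold Bop
  rw [opL_apply, tsum_eq_single 0]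
  · simp [wb, πb]
  · intro i hi
    simp [wb, hi]

theorem Cop_one_zero (x : X) : Cop hG hc x (0, 1) = 0 := by
  unfold Cop
  rw [opL_apply, tsum_eq_single 0]
  · simp [wc]
  · intro i hi
    simp [wc, hi]

theorem Cop_one_succ (x : X) (m : ℕ) :
    Cop hG hc x (m + 1, 1) = P.k (m + 1) * P.ε m * x (m, 0) := by
  unfold Cop
  rw [opL_apply, tsum_eq_single 0]
  · simp [wc, πc]
  · intro i hi
    simp [wc, hi]

theorem Cop_two (x : X) (m l : ℕ) :
    Cop hG hc x (m, l + 2) = (-1) ^ (l + 1) * 4 * (P.k m * P.ε m) * x (m, l + 1) := by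
  unfold Cop
  rw [opL_apply, tsum_eq_single 0]
  · simp [wc, πc]
  · intro i hi
    simp [wc, hi]

/-- The amplitudes as functions of the state. -/
noncomputable def bX (P : Par) (x : X) (m : ℕ) : ℝ := P.ε m * x (m, 0)

noncomputable def DX (P : Par) (x : X) (m i : ℕ) : ℝ := P.ε m * (1 / 4) ^ i * x (m, i + 1)

noncomputable def WX (P : Par) (s : ℕ → ℕ → ℝ) (x : X) (m : ℕ) : ℝ :=
  P.c m / 2 * ∑' i, s m i * DX P x m i

noncomputable def VX (P : Par) (g : ℕ → ℝ) (v : ℕ → ℕ → ℝ) (x : X) (m : ℕ) : ℝ :=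
  (1 + g m) * bX P x m + ∑' i, v m i * DX P x (m + 1) i

noncomputable def BX (P : Par) (x : X) : ℕ → ℝ
  | 0 => P.θ 0
  | m + 1 => bX P x m

omit hG in
theorem WX_eq (x : X) (m l : ℕ) : P.ε m * (P.c m / 2 * Qop hc x (m, l)) = WX P s x m := by
  unfold WX Qop DX
  rw [opL_apply]
  simp only [wQ, πQ]
  rw [mul_left_comm, ← tsum_mul_left]
  congr 1
  exact tsum_congr fun i => by ring

omit hG hc in
theorem DX_le (hG : P.Good) (x : X) (m i : ℕ) : |DX P x m i| ≤ P.ε m * (1 / 4) ^ i * ‖x‖ := by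
  have h1 := hG.ε_pos m
  unfold DX
  rw [abs_mul, abs_of_pos (by positivity)]
  gcongr
  exact X_abs_le x _

omit hc in
theorem DX_summable (x : X) (m : ℕ) (w : ℕ → ℝ) {C : ℝ} (hw : ∀ i, |w i| ≤ C) :
    Summable fun i => w i * DX P x m i := by
  refine Summable.of_norm_bounded (g := fun i => C * (P.ε m * ‖x‖) * (1 / 4) ^ i)
    ((summable_geometric_of_lt_one (by norm_num) (by norm_num)).mul_left _) (fun i => ?_)
  rw [norm_mul, Real.norm_eq_abs, Real.norm_eq_abs]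
  have h1 := DX_le hG x m i
  calc |w i| * |DX P x m i| ≤ C * (P.ε m * (1 / 4) ^ i * ‖x‖) :=
        mul_le_mul (hw i) h1 (abs_nonneg _) ((abs_nonneg _).trans (hw i))
    _ = _ := by ring

theorem VX_eq (x : X) (m l : ℕ) : P.ε m * Vop hG hc x (m, l) = VX P g v x m := by
  have hGn := hG.G_nonneg
  have hε := hG.ε_pos m
  unfold VX Vop
  rw [opL_apply, (op_summable πV (hwV hG hc) x (m, l)).tsum_eq_zero_add]
  simp only [wV, πV]
  rw [mul_add, ← tsum_mul_left]
  unfold bX DX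
  congr 1
  · ring
  · refine tsum_congr fun i => ?_
    field_simp

theorem vf_zero (x : X) (m : ℕ) :
    P.ε m * vf hG hc x (m, 0) = WX P s x m + P.r₂ * P.c m * VX P g v x m := by
  rw [← WX_eq hc x m 0, ← VX_eq hG hc x m 0]
  simp only [vf, Lop, BoundedContinuousFunction.coe_add, BoundedContinuousFunction.coe_mul,
    Pi.add_apply, Pi.mul_apply, _root_.add_apply, ContinuousLinearMap.comp_apply,
    ContinuousLinearMap.mul_apply', Bop_zero, mkX_apply, fA₁, fA₂]
  simp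
  ring

theorem vf_one (x : X) (m : ℕ) :
    P.ε m * vf hG hc x (m, 1) = P.k m * bX P x m * BX P x m + P.r₁ * P.c m * VX P g v x m +
      P.r₃ * WX P s x m := by
  rw [← WX_eq hc x m 1, ← VX_eq hG hc x m 1]
  simp only [vf, Lop, BoundedContinuousFunction.coe_add, BoundedContinuousFunction.coe_mul,
    Pi.add_apply, Pi.mul_apply, _root_.add_apply, ContinuousLinearMap.comp_apply,
    ContinuousLinearMap.mul_apply', Bop_succ, mkX_apply, fA₁, fA₂, fA₃]
  cases m with
  | zero =>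
    rw [Cop_one_zero]
    simp [BX, bX]
    ring
  | succ n =>
    rw [Cop_one_succ]
    simp [BX, bX]
    ring

theorem vf_two (x : X) (m l : ℕ) :
    P.ε m * (1 / 4) ^ (l + 1) * vf hG hc x (m, l + 2) =
      (-1) ^ (l + 1) * P.k m * bX P x m * DX P x m l := by
  simp only [vf, Lop, BoundedContinuousFunction.coe_add, BoundedContinuousFunction.coe_mul,
    Pi.add_apply, Pi.mul_apply, _root_.add_apply, ContinuousLinearMap.comp_apply,
    ContinuousLinearMap.mul_apply', mkX_apply, fA₁, fA₂, fA₃]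
  rw [Cop_two, show l + 2 = (l + 1) + 1 from rfl, Bop_succ]
  simp [bX, DX]
  ring

omit hG hc in
theorem eval_deriv (L : X →L[ℝ] X) {x : ℝ → X} {y : X} {t : ℝ} (h : HasDerivAt x y t) (j : ℕ × ℕ) :
    HasDerivAt (fun t => L (x t) j) (L y j) t := by
  have h1 := ((BoundedContinuousFunction.evalCLM ℝ j).comp L).hasFDerivAt.comp_hasDerivAt t h
  exact h1

omit hG hc in
theorem eval_deriv' {x : ℝ → X} {y : X} {t : ℝ} (h : HasDerivAt x y t) (j : ℕ × ℕ) :
    HasDerivAt (fun t => x t j) (y j) t :=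
  eval_deriv (ContinuousLinearMap.id ℝ X) h j

/-- A solution of the equation in the state space gives a solution of the chain. -/
theorem chain_of_sol {T ε : ℝ} (hε : 0 < ε) {x : ℝ → X}
    (hx0 : ∀ j, x 0 j = if j.2 = 0 then 1 else 0) (hx : SolOn (vf hG hc) (-ε) T x) :
    Chain P T (fun m t => bX P (x t) m) (fun m t => WX P s (x t) m)
      (fun m t => VX P g v (x t) m) (fun m i t => DX P (x t) m i) := by
  have hx' : ∀ t, 0 ≤ t → t < T → HasDerivAt x (vf hG hc (x t)) t := fun t h0 h1 =>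
    hx t ⟨by linarith, h1⟩
  have hBf : ∀ m t, Bf P (fun m t => bX P (x t) m) m t = BX P (x t) m := by
    intro m t
    cases m <;> rfl
  have hGn := hG.G_nonneg
  have hD0 : ∀ m t, 0 ≤ t → t < T → HasDerivAt (fun t => DX P (x t) m 0)
    (P.k m * bX P (x t) m * BX P (x t) m + P.r₁ * P.c m * VX P g v (x t) m +
      P.r₃ * WX P s (x t) m) t := by
    intro m t h0 h1
    rw [← vf_one hG hc]
    have h2 := (eval_deriv' (hx' t h0 h1) (m, 1)).const_mul (P.ε m)
    simpa [DX] using h2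
  have hDs : ∀ m i t, 0 ≤ t → t < T → HasDerivAt (fun t => DX P (x t) m (i + 1))
    ((-1) ^ (i + 1) * P.k m * bX P (x t) m * DX P (x t) m i) t := by
    intro m i t h0 h1
    rw [← vf_two hG hc]
    exact (eval_deriv' (hx' t h0 h1) (m, i + 2)).const_mul (P.ε m * (1 / 4) ^ (i + 1))
  have hsum : ∀ N : ℝ, 0 ≤ N → HasSum (fun i : ℕ => if i = 0 then 0 else N * (1 / 4 : ℝ) ^ i)
      (N / 3) := by
    intro N _
    have h1 : HasSum (fun i : ℕ => (1 / 4 : ℝ) ^ i) (1 - 1 / 4)⁻¹ :=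
      hasSum_geometric_of_lt_one (by norm_num) (by norm_num)
    have h2 : HasSum (fun i : ℕ => N * (1 / 4 : ℝ) ^ (i + 1)) (N / 3) := by
      have h3 : (1 - 1 / 4 : ℝ)⁻¹ = 4 / 3 := by norm_num
      have hf : (fun i : ℕ => N * (1 / 4 : ℝ) ^ (i + 1)) = fun i => N / 4 * (1 / 4) ^ i := by
        ext i; ring
      have hv : N / 3 = N / 4 * (1 - 1 / 4)⁻¹ := by rw [h3]; ring
      rw [hf, hv]
      exact h1.mul_left (N / 4)
    rw [← hasSum_nat_add_iff' 1]
    simpa using h2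
  have htail : ∀ (w : ℕ → ℝ) (m : ℕ) (C : ℝ) (t N : ℝ), 0 ≤ C → (∀ i, |w i| ≤ C) →
      (∀ i, w (2 * i) = 0) →
      (∀ i, 4 ^ (2 * i + 1) * |DX P (x t) m (2 * i + 1)| ≤ N) →
      |∑' i, w i * DX P (x t) m i| ≤ C * (N / 3) := by
    intro w m C t N hC0 hw hw0 hN
    have hN0 : 0 ≤ N := (by positivity : (0 : ℝ) ≤ 4 ^ (2 * 0 + 1) *
      |DX P (x t) m (2 * 0 + 1)|).trans (hN 0)
    rw [← Real.norm_eq_abs]
    refine tsum_of_norm_bounded ((hsum N hN0).mul_left C) (fun i => ?_)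
    rw [norm_mul, Real.norm_eq_abs, Real.norm_eq_abs]
    rcases Nat.even_or_odd' i with ⟨j, rfl | rfl⟩
    · rw [hw0 j, abs_zero, zero_mul]
      split_ifs <;> positivity
    · rw [if_neg (by omega)]
      have h1 : |DX P (x t) m (2 * j + 1)| ≤ N * (1 / 4) ^ (2 * j + 1) := by
        rw [one_div, inv_pow, ← div_eq_mul_inv, le_div_iff₀ (by positivity)]
        linarith [hN j]
      have h2 := hw (2 * j + 1)
      exact mul_le_mul h2 h1 (abs_nonneg _) hC0
  refine ⟨fun m t h0 h1 => ?_, fun m t h0 h1 => ?_, hDs, fun m t h0 h1 => ?_,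
    fun m t h0 h1 => ?_, fun m => ?_, fun m => ?_, fun m i => ?_, fun t h0 h1 η hη => ?_,
    fun t h0 h1 => ?_⟩
  · rw [← vf_zero hG hc]
    exact (eval_deriv' (hx' t h0 h1) (m, 0)).const_mul (P.ε m)
  · simp only [hBf]
    exact hD0 m t h0 h1
  · refine ⟨∑' i, (s m (i + 1) * (-1) ^ (i + 1)) * DX P (x t) m i, ?_, fun N hN => ?_⟩
    · simp only [hBf]
      have h2 := (eval_deriv (Qop hc) (hx' t h0 h1) (m, 0)).const_mul (P.ε m * (P.c m / 2))
      have h3 : (fun t => P.ε m * (P.c m / 2) * (Qop hc) (x t) (m, 0)) =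
          fun t => WX P s (x t) m := by
        ext t
        rw [← WX_eq hc (x t) m 0]
        ring
      rw [h3] at h2
      refine h2.congr_deriv ?_
      rw [← vf_one hG hc]
      have h4 : (Qop hc) (vf hG hc (x t)) (m, 0) = ∑' i, wQ s (m, 0) i *
          vf hG hc (x t) (πQ (m, 0) i) := rfl
      rw [h4, (op_summable πQ (hwQ hc) (vf hG hc (x t)) (m, 0)).tsum_eq_zero_add]
      simp only [wQ, πQ, hc.s0, pow_zero, mul_one, one_mul, zero_add]
      have h5 : ∀ i, P.ε m * (s m (i + 1) * (1 / 4) ^ (i + 1) * vf hG hc (x t) (m, i + 1 + 1)) =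
          P.k m * bX P (x t) m * (s m (i + 1) * (-1) ^ (i + 1) * DX P (x t) m i) := by
        intro i
        have h6 := vf_two hG hc (x t) m i
        linear_combination (s m (i + 1)) * h6
      have h6 : P.ε m * ∑' i, (s m (i + 1) * (1 / 4) ^ (i + 1) *
          vf hG hc (x t) (m, i + 1 + 1)) =
          P.k m * bX P (x t) m * ∑' i, s m (i + 1) * (-1) ^ (i + 1) * DX P (x t) m i := by
        rw [← tsum_mul_left, ← tsum_mul_left]
        exact tsum_congr h5
      linear_combination (P.c m / 2) * h6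
    · have := htail (fun i => s m (i + 1) * (-1) ^ (i + 1)) m 1 t N (by norm_num)
        (fun i => by
          rw [abs_mul, abs_pow, abs_neg, abs_one, one_pow, mul_one]
          exact hc.s_abs m (i + 1))
        (fun i => by rw [hc.s_odd m i, zero_mul]) hN
      simpa using this
  · refine ⟨g m, hc.g_nonneg m, hc.g_le m, fun N hN => ?_⟩
    have h2 := htail (v m) (m + 1) P.G t N hGn (hc.v_abs m) (hc.v_even m) hN
    have hN0 : 0 ≤ N := (by positivity : (0 : ℝ) ≤ 4 ^ (2 * 0 + 1) *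
      |DX P (x t) (m + 1) (2 * 0 + 1)|).trans (hN 0)
    unfold VX
    rw [add_sub_cancel_left]
    refine h2.trans ?_
    have : P.G * (N / 3) ≤ P.G * N := by
      apply mul_le_mul_of_nonneg_left _ hGn
      linarith
    exact this
  · simp [bX, hx0]
  · simp [WX, DX, hx0]
  · simp [DX, hx0]
  · have hcont : ContinuousAt x t := (hx' t h0 h1).continuousAt
    have hpos : 0 < η / (1 + ‖Qop hc‖) := by positivity
    obtain ⟨δ, hδ, hδ'⟩ := Metric.continuousAt_iff.1 hcont _ hpos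
    refine ⟨δ, hδ, fun s' hs0 hsT hst m => ?_⟩
    have h2 := (hδ' (by rwa [Real.dist_eq]) : dist (x s') (x t) < _)
    rw [dist_eq_norm] at h2
    have hεm := hG.ε_pos m
    have hle : ‖x s' - x t‖ ≤ η := by
      refine h2.le.trans ?_
      rw [div_le_iff₀ (by positivity)]
      nlinarith [norm_nonneg (Qop hc)]
    have hle2 : ‖Qop hc‖ * ‖x s' - x t‖ ≤ η := by
      rw [lt_div_iff₀ (by positivity)] at h2
      nlinarith [norm_nonneg (Qop hc), norm_nonneg (x s' - x t)]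
    refine ⟨?_, ?_, fun i => ?_⟩
    · have h3 : bX P (x s') m - bX P (x t) m = P.ε m * (x s' - x t) (m, 0) := by
        simp only [bX, BoundedContinuousFunction.coe_sub, Pi.sub_apply]
        ring
      rw [h3, abs_mul, abs_of_pos hεm, mul_comm]
      gcongr
      exact (X_abs_le _ _).trans hle
    · have h3 : WX P s (x s') m - WX P s (x t) m =
          P.ε m * (P.c m / 2 * Qop hc (x s' - x t) (m, 0)) := by
        rw [← WX_eq hc (x s') m 0, ← WX_eq hc (x t) m 0]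
        simp only [map_sub, BoundedContinuousFunction.coe_sub, Pi.sub_apply]
        ring
      have hcm := hG.c_pos m
      have hcm1 := hG.c_le m
      rw [h3, abs_mul, abs_mul, abs_of_pos hεm, abs_of_pos (by linarith : 0 < P.c m / 2), mul_comm]
      have h4 : |Qop hc (x s' - x t) (m, 0)| ≤ η :=
        (X_abs_le _ _).trans (((Qop hc).le_opNorm _).trans hle2)
      gcongr
      nlinarith [abs_nonneg (Qop hc (x s' - x t) (m, 0))]
    · have h3 : DX P (x s') m i - DX P (x t) m i =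
          P.ε m * (1 / 4) ^ i * (x s' - x t) (m, i + 1) := by
        simp only [DX, BoundedContinuousFunction.coe_sub, Pi.sub_apply]
        ring
      rw [h3, abs_mul, abs_of_pos (by positivity)]
      have h4 : |(x s' - x t) (m, i + 1)| ≤ η := (X_abs_le _ _).trans hle
      calc 4 ^ i * (P.ε m * (1 / 4) ^ i * |(x s' - x t) (m, i + 1)|) ≤
            4 ^ i * (P.ε m * (1 / 4) ^ i * η) := by gcongr
        _ = η * P.ε m := by
            rw [one_div, inv_pow]
            field_simp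
  · refine ⟨‖x t‖, fun m => ?_⟩
    have hεm := hG.ε_pos m
    unfold bX
    rw [abs_mul, abs_of_pos hεm, mul_comm]
    gcongr
    exact X_abs_le _ _

/-- The initial state: `b m = ε m`, `D = 0`. -/
noncomputable def x₀ : X := mkX (fun j => if j.2 = 0 then 1 else 0) 1 (fun j => by
  split_ifs <;> simp)

/-- Blow-up of the chain. -/
theorem chain_blowup :
    ∃ ε T : ℝ, 0 < ε ∧ 0 < T ∧ T ≤ P.tt ∧ ∃ x : ℝ → X, x 0 = x₀ ∧ SolOn (vf hG hc) (-ε) T x ∧
      (∀ M : ℝ, ∃ t ∈ Ico 0 T, ∃ m, M < P.k m * BX P (x t) m) ∧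
      (∀ t ∈ Ico 0 T, ∀ m, 0 < bX P (x t) m ∧ bX P (x t) m ≤ 2 * P.θ (m + 1) ∧
        0 < BX P (x t) m ∧ BX P (x t) m ≤ 2 * P.θ m ∧
        ∀ i, 4 ^ i * |DX P (x t) m i| ≤ P.θ m + 1 / P.k m) := by
  obtain ⟨ε, T, hε, hT, hT1, x, hx0, hx, hmax⟩ := (vf_locLip hG hc).maximal x₀ one_pos
  have hC := chain_of_sol hG hc hε (x := x) (T := T) (fun j => by rw [hx0]; rfl) hx
  have hTt := T_le hG hC
  have htt := hG.tt_lt
  have hT1' : T < 1 := hTt.trans_lt htt
  have hBf : ∀ m t, Bf P (fun m t => bX P (x t) m) m t = BX P (x t) m := by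
    intro m t
    cases m <;> rfl
  refine ⟨ε, T, hε, hT, hTt, x, hx0, hx, fun M => ?_, fun t ht m => ?_⟩
  · by_contra hcon
    push Not at hcon
    obtain ⟨R, hR⟩ := bounded_of_kB hG hC (M := max M 0) (le_max_right _ _) hT1
      (fun t h0 h1 m => by
        rw [hBf]
        exact (hcon t ⟨h0, h1⟩ m).trans (le_max_left _ _))
    obtain ⟨t, ht, hlt⟩ := hmax hT1' (4 * |R|)
    refine absurd hlt (not_lt.2 ?_)
    rw [BoundedContinuousFunction.norm_le (by positivity)]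
    rintro ⟨m, l⟩
    have hεm := hG.ε_pos m
    rw [Real.norm_eq_abs]
    rcases l with _ | i
    · have h1 := (hR t ht.1 ht.2 m).1
      unfold bX at h1
      rw [abs_mul, abs_of_pos hεm, mul_comm] at h1
      have h2 := le_of_mul_le_mul_right h1 hεm
      exact h2.trans (by linarith [le_abs_self R, abs_nonneg R])
    · have h1 := (hR t ht.1 ht.2 m).2 i
      unfold DX at h1
      rw [abs_mul, abs_of_pos (by positivity)] at h1
      have h2 : 4 ^ i * (P.ε m * (1 / 4) ^ i * |x t (m, i + 1)|) =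
          |x t (m, i + 1)| * P.ε m := by
        rw [one_div, inv_pow]
        field_simp
      rw [h2] at h1
      have h3 := le_of_mul_le_mul_right h1 hεm
      exact h3.trans (by linarith [le_abs_self R, abs_nonneg R])
  · have ht1 : t < 1 := ht.2.trans hT1'
    have hp : ∀ r, 0 ≤ r → r ≤ t → Pt P (fun m t => bX P (x t) m) (fun m t => WX P s (x t) m)
        (fun m i t => DX P (x t) m i) r := fun r h0 h1 =>
      boot hG hC h0 (h1.trans_lt ht.2) (h1.trans_lt ht1)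
    refine ⟨bpos hG hC hp m ht.1 le_rfl, (hp t ht.1 le_rfl m).2.2.2.1, ?_, ?_,
      D_small hG hC ht.1 ht.2 ht1 m⟩
    · rw [← hBf]; exact Bpos hG hC hp m ht.1 le_rfl
    · rw [← hBf]; exact Bup hG hp m ht.1 le_rfl

end

end Pool.Agent.H306.CK
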